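import Mathlib

set_option linter.unusedVariables false
set_option linter.unusedSectionVars false
set_option linter.style.haveILetI false

namespace Pool.Agent.H888.DH

open Finset

/-! ### The divisor bound -/

theorem exists_pow_le_two_pow (N : ℕ) : ∃ C : ℕ, 0 < C ∧ ∀ a : ℕ, (a + 1) ^ N ≤ C * 2 ^ a := by
  have h : Filter.Tendsto (fun n : ℕ => (n : ℝ) ^ N / (2 : ℝ) ^ n) Filter.atTop (nhds 0) :=
    tendsto_pow_const_div_const_pow_of_one_lt N (by norm_num)
  obtain ⟨c, hc⟩ := h.bddAbove_range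
  refine ⟨2 * (⌈c⌉₊ + 1), by positivity, fun a => ?_⟩
  have h1 : ((a + 1 : ℕ) : ℝ) ^ N / (2 : ℝ) ^ (a + 1) ≤ c := hc ⟨a + 1, rfl⟩
  have h2 : ((a + 1 : ℕ) : ℝ) ^ N ≤ c * 2 ^ (a + 1) := by
    rwa [div_le_iff₀ (by positivity)] at h1
  have h3 : c ≤ ⌈c⌉₊ := Nat.le_ceil c
  have h4 : ((a + 1 : ℕ) : ℝ) ^ N ≤ ((2 * (⌈c⌉₊ + 1) : ℕ) : ℝ) * 2 ^ a := by
    calc ((a + 1 : ℕ) : ℝ) ^ N ≤ c * 2 ^ (a + 1) := h2
      _ ≤ (⌈c⌉₊ + 1 : ℝ) * 2 ^ (a + 1) := by
          apply mul_le_mul_of_nonneg_right _ (by positivity)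
          linarith
      _ = ((2 * (⌈c⌉₊ + 1) : ℕ) : ℝ) * 2 ^ a := by push_cast; ring
  exact_mod_cast h4

theorem divisor_bound (N : ℕ) :
    ∃ C : ℕ, 0 < C ∧ ∀ n : ℕ, n ≠ 0 → n.divisors.card ^ N ≤ C * n := by
  obtain ⟨c, hc0, hc⟩ := exists_pow_le_two_pow N
  have key : ∀ n : ℕ, n ≠ 0 →
      n.divisors.card ^ N ≤ c ^ (n.primeFactors.filter (· < 2 ^ N)).card * n := by
    intro n
    induction n using Nat.recOnPosPrimePosCoprime with
    | prime_pow p a hp ha =>
      intro _
      rw [Nat.divisors_prime_pow hp, Finset.card_map, Finset.card_range,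
        Nat.primeFactors_prime_pow ha.ne' hp]
      by_cases h : p < 2 ^ N
      · rw [Finset.filter_singleton, if_pos h, Finset.card_singleton, pow_one]
        exact (hc a).trans (Nat.mul_le_mul_left _ (Nat.pow_le_pow_left hp.two_le a))
      · rw [Finset.filter_singleton, if_neg h, Finset.card_empty, pow_zero, one_mul]
        have h1 : a + 1 ≤ 2 ^ a := Nat.lt_two_pow_self
        calc (a + 1) ^ N ≤ (2 ^ a) ^ N := Nat.pow_le_pow_left h1 N
          _ = (2 ^ N) ^ a := by rw [← pow_mul, ← pow_mul, mul_comm]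
          _ ≤ p ^ a := Nat.pow_le_pow_left (not_lt.mp h) a
    | zero => intro h; exact absurd rfl h
    | one => intro _; simp
    | coprime a b ha hb hab iha ihb =>
      intro _
      have ha0 : a ≠ 0 := by omega
      have hb0 : b ≠ 0 := by omega
      rw [Nat.Coprime.card_divisors_mul hab, mul_pow]
      rw [Nat.Coprime.primeFactors_mul hab, Finset.filter_union, Finset.card_union_of_disjoint
        (Finset.disjoint_filter_filter hab.disjoint_primeFactors), pow_add]
      calc _ ≤ (c ^ (a.primeFactors.filter (· < 2 ^ N)).card * a) *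
            (c ^ (b.primeFactors.filter (· < 2 ^ N)).card * b) := Nat.mul_le_mul (iha ha0) (ihb hb0)
        _ = _ := by ring
  refine ⟨c ^ (2 ^ N), by positivity, fun n hn => (key n hn).trans (Nat.mul_le_mul_right _ ?_)⟩
  apply Nat.pow_le_pow_right hc0
  calc (n.primeFactors.filter (· < 2 ^ N)).card ≤ (Finset.range (2 ^ N)).card := by
        apply Finset.card_le_card
        intro p hp
        exact Finset.mem_range.mpr (Finset.mem_filter.mp hp).2
    _ = 2 ^ N := Finset.card_range _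

theorem two_pow_card_primeFactors_le (n : ℕ) (hn : n ≠ 0) :
    2 ^ n.primeFactors.card ≤ n.divisors.card := by
  rw [Nat.card_divisors hn, ← Finset.prod_const]
  apply Finset.prod_le_prod'
  intro p hp
  have := (Nat.mem_primeFactors.mp hp)
  have h1 : 0 < n.factorization p := by
    exact (this.1.factorization_pos_of_dvd hn this.2.1)
  omega

/-! ### Number of unit `k`-th roots modulo `N` -/

/-- Set of units `z` mod `N` with `z ^ k = c`. -/
noncomputable def rootSet (k N : ℕ) [NeZero N] (c : ZMod N) : Finset (ZMod N) :=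
  by classical exact Finset.univ.filter (fun z => IsUnit z ∧ z ^ k = c)

theorem mem_rootSet {k N : ℕ} [NeZero N] {c z : ZMod N} :
    z ∈ rootSet k N c ↔ IsUnit z ∧ z ^ k = c := by
  classical
  simp [rootSet]

theorem card_nsmul_eq_zero_le (k N : ℕ) [NeZero N] (hk : 0 < k) :
    (Finset.univ.filter (fun z : ZMod N => k • z = 0)).card ≤ k :=
  IsAddCyclic.card_nsmul_eq_zero_le hk

/-- A general fibre bound. -/
theorem card_le_mul_of_fibers {α β : Type*} [DecidableEq β] (S : Finset α) (T : Finset β)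
    (f : α → β) (hf : ∀ x ∈ S, f x ∈ T) (b : ℕ)
    (hb : ∀ t ∈ T, (S.filter (fun x => f x = t)).card ≤ b) : S.card ≤ T.card * b := by
  rw [Finset.card_eq_sum_card_fiberwise hf]
  calc _ ≤ ∑ t ∈ T, b := Finset.sum_le_sum hb
    _ = T.card * b := by rw [Finset.sum_const, smul_eq_mul]

theorem fiber_card_le (k N : ℕ) [NeZero N] (hk : 0 < k) (S : Finset (ZMod N))
    (h : ∀ z ∈ S, ∀ w ∈ S, (k : ZMod N) * (z - w) = 0) : S.card ≤ k := by
  classical
  rcases S.eq_empty_or_nonempty with rfl | ⟨w, hw⟩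
  · simp
  · refine le_trans ?_ (card_nsmul_eq_zero_le k N hk)
    apply Finset.card_le_card_of_injOn (fun z => z - w)
    · intro z hz
      simp only [Finset.coe_filter, Finset.mem_univ, true_and, Set.mem_ofPred_eq]
      rw [nsmul_eq_mul]
      exact h z hz w hw
    · intro z _ z' _ hzz
      simpa using hzz

theorem val_intCast_sub {N : ℕ} [NeZero N] (z : ZMod N) : (((z.val : ℤ)) : ZMod N) = z := by
  simp

theorem card_rootSet_prime_pow (k p a : ℕ) (hk : 2 ≤ k) (hp : p.Prime) (ha : 0 < a)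
    [NeZero (p ^ a)] (c : ZMod (p ^ a)) : (rootSet k (p ^ a) c).card ≤ k ^ 2 := by
  classical
  haveI := Fact.mk hp
  have hk0 : 0 < k := by omega
  have hdvd : ∀ z ∈ rootSet k (p ^ a) c, ¬ ((p : ℤ) ∣ (z.val : ℤ)) := by
    intro z hz hd
    have hu := (mem_rootSet.mp hz).1
    have h1 : z.val.Coprime (p ^ a) := (ZMod.isUnit_iff_coprime z.val (p ^ a)).mp (by simpa using hu)
    have h2 : z.val.Coprime p := Nat.Coprime.coprime_dvd_right (dvd_pow_self p ha.ne') h1
    have h3 : p ∣ z.val := by exact_mod_cast hd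
    exact (Nat.Prime.coprime_iff_not_dvd hp).mp h2.symm h3
  have hpow : ∀ z ∈ rootSet k (p ^ a) c, ∀ w ∈ rootSet k (p ^ a) c,
      ((p : ℤ) ^ a ∣ (z.val : ℤ) ^ k - (w.val : ℤ) ^ k) := by
    intro z hz w hw
    have h1 : ((((z.val : ℤ) ^ k - (w.val : ℤ) ^ k : ℤ)) : ZMod (p ^ a)) = 0 := by
      push_cast
      rw [ZMod.natCast_zmod_val, ZMod.natCast_zmod_val, (mem_rootSet.mp hz).2,
        (mem_rootSet.mp hw).2, sub_self]
    have h2 := (ZMod.intCast_zmod_eq_zero_iff_dvd _ (p ^ a)).mp h1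
    exact_mod_cast h2
  by_cases h2 : p = 2
  · subst h2
    -- p = 2
    rcases Nat.lt_or_ge a 2 with ha2 | ha2
    · have : a = 1 := by omega
      subst this
      calc (rootSet k (2 ^ 1) c).card ≤ (Finset.univ : Finset (ZMod (2 ^ 1))).card :=
            Finset.card_le_card (Finset.subset_univ _)
        _ = 2 := by rw [Finset.card_univ, ZMod.card]; norm_num
        _ ≤ k ^ 2 := by nlinarith
    · have h4 : (4 : ℕ) ∣ 2 ^ a := by
        have : (2 : ℕ) ^ 2 ∣ 2 ^ a := pow_dvd_pow 2 ha2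
        simpa using this
      have key : ∀ t ∈ ({1, 3} : Finset (ZMod 4)),
          ((rootSet k (2 ^ a) c).filter (fun x => (ZMod.castHom h4 (ZMod 4)) x = t)).card ≤ k := by
        intro t _
        apply fiber_card_le k (2 ^ a) hk0
        intro z hz w hw
        rw [Finset.mem_filter] at hz hw
        have e1 : (4 : ℤ) ∣ (z.val : ℤ) - (w.val : ℤ) := by
          have h1 : ((((z.val : ℤ) - (w.val : ℤ) : ℤ)) : ZMod 4) = 0 := by
            have hz' : (ZMod.castHom h4 (ZMod 4)) ((z.val : ℕ) : ZMod (2 ^ a)) = t := by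
              rw [ZMod.natCast_zmod_val]; exact hz.2
            have hw' : (ZMod.castHom h4 (ZMod 4)) ((w.val : ℕ) : ZMod (2 ^ a)) = t := by
              rw [ZMod.natCast_zmod_val]; exact hw.2
            rw [map_natCast] at hz' hw'
            push_cast
            rw [hz', hw', sub_self]
          have h2 := (ZMod.intCast_zmod_eq_zero_iff_dvd _ 4).mp h1
          exact_mod_cast h2
        have e2 := Int.two_pow_sub_pow' k e1 (by
          have := hdvd z hz.1
          exact_mod_cast this)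
        have e3 := hpow z hz.1 w hw.1
        have e4 : (a : ℕ∞) ≤ emultiplicity (2 : ℤ) ((z.val : ℤ) ^ k - (w.val : ℤ) ^ k) :=
          le_emultiplicity_of_pow_dvd (by exact_mod_cast e3)
        rw [e2, ← emultiplicity_mul (by exact Int.prime_two)] at e4
        have e5 : (2 : ℤ) ^ a ∣ ((z.val : ℤ) - w.val) * (k : ℤ) :=
          pow_dvd_of_le_emultiplicity e4
        have e6 : ((((z.val : ℤ) - w.val) * (k : ℤ) : ℤ) : ZMod (2 ^ a)) = 0 :=
          (ZMod.intCast_zmod_eq_zero_iff_dvd _ (2 ^ a)).mpr (by exact_mod_cast e5)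
        push_cast at e6
        rw [ZMod.natCast_zmod_val, ZMod.natCast_zmod_val] at e6
        rw [mul_comm]; exact e6
      have := card_le_mul_of_fibers (rootSet k (2 ^ a) c) ({1, 3} : Finset (ZMod 4))
        (fun x => (ZMod.castHom h4 (ZMod 4)) x) (by
          intro z hz
          have hu : IsUnit ((ZMod.castHom h4 (ZMod 4)) z) := (mem_rootSet.mp hz).1.map _
          generalize (ZMod.castHom h4 (ZMod 4)) z = y at hu
          revert y
          decide) k key
      calc (rootSet k (2 ^ a) c).card ≤ _ := this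
        _ = 2 * k := by
          congr 1
        _ ≤ k ^ 2 := by nlinarith
  · -- p odd
    have hodd : Odd p := hp.odd_of_ne_two h2
    have hpa : p ∣ p ^ a := dvd_pow_self p ha.ne'
    let φ := ZMod.castHom hpa (ZMod p)
    have key : ∀ t ∈ (Finset.univ.filter (fun y : ZMod p => y ^ k = φ c)),
        ((rootSet k (p ^ a) c).filter (fun x => φ x = t)).card ≤ k := by
      intro t _
      apply fiber_card_le k (p ^ a) hk0
      intro z hz w hw
      rw [Finset.mem_filter] at hz hw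
      have e1 : (p : ℤ) ∣ (z.val : ℤ) - (w.val : ℤ) := by
        have h1 : ((((z.val : ℤ) - (w.val : ℤ) : ℤ)) : ZMod p) = 0 := by
          have hz' : φ ((z.val : ℕ) : ZMod (p ^ a)) = t := by
            rw [ZMod.natCast_zmod_val]; exact hz.2
          have hw' : φ ((w.val : ℕ) : ZMod (p ^ a)) = t := by
            rw [ZMod.natCast_zmod_val]; exact hw.2
          rw [map_natCast] at hz' hw'
          push_cast
          rw [hz', hw', sub_self]
        exact (ZMod.intCast_zmod_eq_zero_iff_dvd _ p).mp h1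
      have e2 := Int.emultiplicity_pow_sub_pow hp hodd e1 (hdvd z hz.1) k
      have e3 := hpow z hz.1 w hw.1
      have e4 : (a : ℕ∞) ≤ emultiplicity (p : ℤ) ((z.val : ℤ) ^ k - (w.val : ℤ) ^ k) :=
        le_emultiplicity_of_pow_dvd e3
      rw [e2, ← Int.natCast_emultiplicity p k,
        ← emultiplicity_mul (Nat.prime_iff_prime_int.mp hp)] at e4
      have e5 : (p : ℤ) ^ a ∣ ((z.val : ℤ) - w.val) * (k : ℤ) :=
        pow_dvd_of_le_emultiplicity e4
      have e6 : ((((z.val : ℤ) - w.val) * (k : ℤ) : ℤ) : ZMod (p ^ a)) = 0 :=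
        (ZMod.intCast_zmod_eq_zero_iff_dvd _ (p ^ a)).mpr (by exact_mod_cast e5)
      push_cast at e6
      rw [ZMod.natCast_zmod_val, ZMod.natCast_zmod_val] at e6
      rw [mul_comm]; exact e6
    have hcard : (Finset.univ.filter (fun y : ZMod p => y ^ k = φ c)).card ≤ k := by
      have h1 : (Finset.univ.filter (fun y : ZMod p => y ^ k = φ c)) ⊆
          (Polynomial.nthRoots k (φ c)).toFinset := by
        intro y hy
        rw [Multiset.mem_toFinset, Polynomial.mem_nthRoots hk0]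
        exact (Finset.mem_filter.mp hy).2
      calc _ ≤ _ := Finset.card_le_card h1
        _ ≤ Multiset.card (Polynomial.nthRoots k (φ c)) := Multiset.toFinset_card_le _
        _ ≤ k := Polynomial.card_nthRoots k _
    have := card_le_mul_of_fibers (rootSet k (p ^ a) c) _ (fun x => φ x) (by
      intro z hz
      rw [Finset.mem_filter]
      refine ⟨Finset.mem_univ _, ?_⟩
      rw [← map_pow, (mem_rootSet.mp hz).2]) k key
    calc (rootSet k (p ^ a) c).card ≤ _ := this
      _ ≤ k * k := Nat.mul_le_mul_right k hcard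
      _ = k ^ 2 := by ring

theorem card_rootSet_le (k : ℕ) (hk : 2 ≤ k) (N : ℕ) [NeZero N] (c : ZMod N) :
    (rootSet k N c).card ≤ (k ^ 2) ^ N.primeFactors.card := by
  classical
  have key : ∀ N : ℕ, ∀ _ : NeZero N, ∀ c : ZMod N,
      (rootSet k N c).card ≤ (k ^ 2) ^ N.primeFactors.card := by
    intro N
    induction N using Nat.recOnPosPrimePosCoprime with
    | prime_pow p a hp ha =>
      intro _ c
      rw [Nat.primeFactors_prime_pow ha.ne' hp, Finset.card_singleton, pow_one]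
      exact card_rootSet_prime_pow k p a hk hp ha c
    | zero => intro h; exact absurd rfl h.out
    | one =>
      intro _ c
      simp only [Nat.primeFactors_one, Finset.card_empty, pow_zero]
      calc (rootSet k 1 c).card ≤ (Finset.univ : Finset (ZMod 1)).card :=
            Finset.card_le_card (Finset.subset_univ _)
        _ = 1 := by rw [Finset.card_univ, ZMod.card]
    | coprime a b ha hb hab iha ihb =>
      intro _ c
      haveI : NeZero a := ⟨by omega⟩
      haveI : NeZero b := ⟨by omega⟩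
      let e := ZMod.chineseRemainder hab
      rw [Nat.Coprime.primeFactors_mul hab, Finset.card_union_of_disjoint
        hab.disjoint_primeFactors, pow_add]
      have h1 : (rootSet k (a * b) c).card ≤
          ((rootSet k a (e c).1) ×ˢ (rootSet k b (e c).2)).card := by
        apply Finset.card_le_card_of_injOn (fun z => e z)
        · intro z hz
          have hz' := mem_rootSet.mp hz
          have hu : IsUnit (e z) := hz'.1.map e
          rw [Prod.isUnit_iff] at hu
          have hpow : (e z) ^ k = e c := by rw [← map_pow, hz'.2]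
          simp only [Finset.coe_product, Set.mem_prod, Finset.mem_coe]
          refine ⟨mem_rootSet.mpr ⟨hu.1, ?_⟩, mem_rootSet.mpr ⟨hu.2, ?_⟩⟩
          · rw [← hpow]; rfl
          · rw [← hpow]; rfl
        · intro z _ w _ hzw
          exact e.injective hzw
      rw [Finset.card_product] at h1
      exact h1.trans (Nat.mul_le_mul (iha inferInstance _) (ihb inferInstance _))
  exact key N inferInstance c

/-! ### Integers in an interval in a residue class -/

/-- If all elements of `F` lie within distance `ℓ` and are congruent mod `q`, then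
`|F| ≤ ℓ / q + 1`. -/
theorem card_le_of_dvd_sub (F : Finset ℤ) (q : ℕ) (hq : 0 < q) (ℓ : ℝ) (hℓ0 : 0 ≤ ℓ)
    (h1 : ∀ x ∈ F, ∀ y ∈ F, (q : ℤ) ∣ x - y)
    (h2 : ∀ x ∈ F, ∀ y ∈ F, (x : ℝ) - y ≤ ℓ) : (F.card : ℝ) ≤ ℓ / q + 1 := by
  classical
  rcases F.eq_empty_or_nonempty with rfl | hne
  · simp; positivity
  · set y := F.min' hne with hy
    have hyF : y ∈ F := F.min'_mem hne
    have hcard : F.card ≤ (Finset.range (⌊ℓ / q⌋₊ + 1)).card := by
      apply Finset.card_le_card_of_injOn (fun x => ((x - y) / q).toNat)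
      · intro x hx
        simp only [Finset.coe_range, Set.mem_Iio]
        have hx' : x ∈ F := hx
        have hle : y ≤ x := F.min'_le x hx'
        obtain ⟨t, ht⟩ := h1 x hx' y hyF
        have hq' : (0 : ℤ) < q := by exact_mod_cast hq
        have e : (x - y) / (q : ℤ) = t := by
          rw [ht, Int.mul_ediv_cancel_left _ hq'.ne']
        have ht0 : 0 ≤ t := by
          by_contra hneg
          push Not at hneg
          nlinarith
        show ((x - y) / (q : ℤ)).toNat < _
        rw [e, Nat.lt_succ_iff, Nat.le_floor_iff (by positivity), le_div_iff₀ (by positivity)]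
        have h3 := h2 x hx' y hyF
        have h4 : ((x : ℝ) - y) = q * t := by
          have : ((x - y : ℤ) : ℝ) = ((q * t : ℤ) : ℝ) := by rw [ht]
          push_cast at this
          exact this
        have h5 : ((t.toNat : ℕ) : ℝ) = (t : ℝ) := by
          have : ((t.toNat : ℕ) : ℤ) = t := Int.toNat_of_nonneg ht0
          exact_mod_cast this
        rw [h5]; linarith
      · intro x hx x' hx' hxx
        have hx1 : x ∈ F := hx
        have hx2 : x' ∈ F := hx'
        obtain ⟨t, ht⟩ := h1 x hx1 y hyF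
        obtain ⟨t', ht'⟩ := h1 x' hx2 y hyF
        have hq' : (0 : ℤ) < q := by exact_mod_cast hq
        have hle : y ≤ x := F.min'_le x hx1
        have hle' : y ≤ x' := F.min'_le x' hx2
        have e : (x - y) / (q : ℤ) = t := by
          rw [ht, Int.mul_ediv_cancel_left _ hq'.ne']
        have e' : (x' - y) / (q : ℤ) = t' := by
          rw [ht', Int.mul_ediv_cancel_left _ hq'.ne']
        have ht0 : 0 ≤ t := by
          by_contra hneg
          push Not at hneg
          nlinarith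
        have ht0' : 0 ≤ t' := by
          by_contra hneg
          push Not at hneg
          nlinarith
        have hxx' : ((x - y) / (q : ℤ)).toNat = ((x' - y) / (q : ℤ)).toNat := hxx
        rw [e, e'] at hxx'
        have : t = t' := by omega
        rw [this] at ht
        linarith
    rw [Finset.card_range] at hcard
    calc (F.card : ℝ) ≤ ((⌊ℓ / q⌋₊ + 1 : ℕ) : ℝ) := by exact_mod_cast hcard
      _ = (⌊ℓ / q⌋₊ : ℝ) + 1 := by push_cast; ring
      _ ≤ ℓ / q + 1 := by
          have := Nat.floor_le (show 0 ≤ ℓ / q by positivity)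
          linarith

/-- Elements whose residues mod `q` lie in a set `S`. -/
theorem card_le_of_residues (F : Finset ℤ) (q : ℕ) [NeZero q] (ℓ : ℝ) (hℓ0 : 0 ≤ ℓ)
    (S : Finset (ZMod q)) (h1 : ∀ x ∈ F, (x : ZMod q) ∈ S)
    (h2 : ∀ x ∈ F, ∀ y ∈ F, (x : ℝ) - y ≤ ℓ) : (F.card : ℝ) ≤ S.card * (ℓ / q + 1) := by
  classical
  have hq : 0 < q := Nat.pos_of_ne_zero (NeZero.ne q)
  rw [Finset.card_eq_sum_card_fiberwise (f := fun x : ℤ => (x : ZMod q)) (t := S) h1]
  push_cast
  calc _ ≤ ∑ t ∈ S, (ℓ / q + 1) := by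
        apply Finset.sum_le_sum
        intro t _
        apply card_le_of_dvd_sub _ q hq ℓ hℓ0
        · intro x hx y hy
          rw [Finset.mem_filter] at hx hy
          rw [← ZMod.intCast_zmod_eq_zero_iff_dvd]
          push_cast
          rw [hx.2, hy.2, sub_self]
        · intro x hx y hy
          exact h2 x (Finset.mem_filter.mp hx).1 y (Finset.mem_filter.mp hy).1
    _ = _ := by rw [Finset.sum_const, nsmul_eq_mul]

/-- The basic count: integers `v` of gcd exactly `d` with `g`, whose `k`-th powers are all congruent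
mod `g`. -/
theorem card_gcd_eq_le (k g : ℕ) (hk : 2 ≤ k) (hg : 0 < g) (d : ℕ) (hd : d ∣ g)
    (F : Finset ℤ) (hF : ∀ x ∈ F, Int.gcd x g = d)
    (hcong : ∀ x ∈ F, ∀ y ∈ F, (g : ℤ) ∣ x ^ k - y ^ k) (ℓ : ℝ) (hℓ0 : 0 ≤ ℓ)
    (hℓ : ∀ x ∈ F, ∀ y ∈ F, (x : ℝ) - y ≤ ℓ) :
    (F.card : ℝ) ≤ (k ^ 2) ^ g.primeFactors.card * (ℓ * (Nat.gcd (d ^ k) g) / (d * g) + 1) := by
  classical
  rcases F.eq_empty_or_nonempty with rfl | ⟨x0, hx0⟩
  · simp; positivity
  have hd0 : 0 < d := Nat.pos_of_dvd_of_pos hd hg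
  set e := Nat.gcd (d ^ k) g with he
  have he0 : 0 < e := Nat.gcd_pos_of_pos_right _ hg
  obtain ⟨g1, hg1⟩ : e ∣ g := Nat.gcd_dvd_right _ _
  have hg10 : 0 < g1 := by
    rcases Nat.eq_zero_or_pos g1 with h | h
    · rw [h] at hg1; omega
    · exact h
  haveI : NeZero g1 := ⟨hg10.ne'⟩
  have hde : d ∣ e := Nat.dvd_gcd (dvd_pow_self d (by omega)) hd
  -- all elements divisible by d
  have hdx : ∀ x ∈ F, (d : ℤ) ∣ x := by
    intro x hx
    rw [← hF x hx]; exact Int.gcd_dvd_left _ _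
  have hd' : (d : ℤ) ≠ 0 := by exact_mod_cast hd0.ne'
  -- image
  set F' := F.image (fun x => x / (d : ℤ)) with hF'
  have hcardF' : F'.card = F.card := by
    apply Finset.card_image_of_injOn
    intro x hx y hy hxy
    obtain ⟨s, hs⟩ := hdx x hx
    obtain ⟨t, ht⟩ := hdx y hy
    have hxy' : x / (d : ℤ) = y / (d : ℤ) := hxy
    rw [hs, ht, Int.mul_ediv_cancel_left _ hd', Int.mul_ediv_cancel_left _ hd'] at hxy'
    rw [hs, ht, hxy']
  have hunit : ∀ x ∈ F, IsUnit (((x / (d : ℤ) : ℤ)) : ZMod g1) := by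
    intro x hx
    obtain ⟨t, ht⟩ := hdx x hx
    rw [ht, Int.mul_ediv_cancel_left _ hd']
    obtain ⟨g2, hg2⟩ := hd
    have h1 : Int.gcd t g2 = 1 := by
      have h2 := hF x hx
      rw [ht, hg2] at h2
      push_cast at h2
      rw [Int.gcd_mul_left] at h2
      simp only [Int.natAbs_natCast] at h2
      exact Nat.eq_of_mul_eq_mul_left hd0 (by rw [h2, mul_one])
    have h3 : g1 ∣ g2 := by
      obtain ⟨e1, he1⟩ := hde
      have : d * (e1 * g1) = d * g2 := by rw [← mul_assoc, ← he1, ← hg1, ← hg2]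
      exact ⟨e1, by rw [← Nat.eq_of_mul_eq_mul_left hd0 this]; ring⟩
    have h4 : Int.gcd t g1 = 1 := by
      have h5 : Int.gcd t g1 ∣ Int.gcd t g2 := Int.gcd_dvd_gcd_of_dvd_right _
        (by exact_mod_cast h3)
      rw [h1] at h5
      exact Nat.dvd_one.mp h5
    exact (ZMod.coe_int_isUnit_iff_isCoprime t g1).mpr (by
      rw [Int.isCoprime_iff_gcd_eq_one, Int.gcd_comm]; exact h4)
  have hpow : ∀ x ∈ F, (((x / (d : ℤ) : ℤ)) : ZMod g1) ^ k = (((x0 / (d : ℤ) : ℤ)) : ZMod g1) ^ k := by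
    intro x hx
    obtain ⟨t, ht⟩ := hdx x hx
    obtain ⟨s, hs⟩ := hdx x0 hx0
    rw [ht, hs, Int.mul_ediv_cancel_left _ hd', Int.mul_ediv_cancel_left _ hd']
    have h1 := hcong x hx x0 hx0
    rw [ht, hs, mul_pow, mul_pow, ← mul_sub] at h1
    -- g ∣ d^k (t^k - s^k)
    have h2 : (g1 : ℤ) ∣ t ^ k - s ^ k := by
      have hcop : Nat.Coprime (d ^ k / e) g1 := by
        have := Nat.coprime_div_gcd_div_gcd (m := d ^ k) (n := g) he0
        rw [← he] at this
        rwa [show g / e = g1 by rw [hg1, Nat.mul_div_cancel_left _ he0]] at this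
      obtain ⟨u, hu⟩ : e ∣ d ^ k := Nat.gcd_dvd_left _ _
      rw [show d ^ k / e = u by rw [hu, Nat.mul_div_cancel_left _ he0]] at hcop
      have h3 : (e : ℤ) * g1 ∣ e * (u * (t ^ k - s ^ k)) := by
        have : ((d : ℤ)) ^ k = e * u := by exact_mod_cast hu
        rw [this] at h1
        have hg1' : (g : ℤ) = e * g1 := by exact_mod_cast hg1
        rw [hg1'] at h1
        rwa [mul_assoc] at h1
      have h4 : (g1 : ℤ) ∣ u * (t ^ k - s ^ k) :=
        (mul_dvd_mul_iff_left (by exact_mod_cast he0.ne' : (e : ℤ) ≠ 0)).mp h3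
      have h5 : IsCoprime (g1 : ℤ) (u : ℤ) := by
        rw [Int.isCoprime_iff_gcd_eq_one]
        have := hcop.symm
        exact_mod_cast this
      exact h5.dvd_of_dvd_mul_left h4
    have h6 := (ZMod.intCast_zmod_eq_zero_iff_dvd (t ^ k - s ^ k) g1).mpr h2
    push_cast at h6
    exact sub_eq_zero.mp h6
  have hmain := card_le_of_residues F' g1 (ℓ / d) (by positivity)
    (rootSet k g1 ((((x0 / (d : ℤ) : ℤ)) : ZMod g1) ^ k)) (by
      intro z hz
      rw [hF', Finset.mem_image] at hz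
      obtain ⟨x, hx, rfl⟩ := hz
      exact mem_rootSet.mpr ⟨hunit x hx, hpow x hx⟩) (by
      intro z hz w hw
      rw [hF', Finset.mem_image] at hz hw
      obtain ⟨x, hx, rfl⟩ := hz
      obtain ⟨y, hy, rfl⟩ := hw
      obtain ⟨s, hs⟩ := hdx x hx
      obtain ⟨t, ht⟩ := hdx y hy
      have h1 := hℓ x hx y hy
      rw [hs, ht, Int.mul_ediv_cancel_left _ hd', Int.mul_ediv_cancel_left _ hd']
      rw [hs, ht] at h1
      push_cast at h1
      rw [le_div_iff₀ (by positivity)]
      linarith)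
  rw [hcardF'] at hmain
  have hκ : ((rootSet k g1 ((((x0 / (d : ℤ) : ℤ)) : ZMod g1) ^ k)).card : ℝ) ≤
      (k ^ 2) ^ g.primeFactors.card := by
    have h1 := card_rootSet_le k hk g1 ((((x0 / (d : ℤ) : ℤ)) : ZMod g1) ^ k)
    have h2 : g1.primeFactors.card ≤ g.primeFactors.card :=
      Finset.card_le_card (Nat.primeFactors_mono ⟨e, by rw [hg1]; ring⟩ hg.ne')
    have h3 : (k ^ 2) ^ g1.primeFactors.card ≤ (k ^ 2) ^ g.primeFactors.card :=
      Nat.pow_le_pow_right (by positivity) h2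
    exact_mod_cast h1.trans h3
  have heq : ℓ / d / g1 = ℓ * e / (d * g) := by
    have hg1' : (g : ℝ) = e * g1 := by exact_mod_cast hg1
    rw [hg1']
    have : (e : ℝ) ≠ 0 := by exact_mod_cast he0.ne'
    have : (d : ℝ) ≠ 0 := by exact_mod_cast hd0.ne'
    have : (g1 : ℝ) ≠ 0 := by exact_mod_cast hg10.ne'
    field_simp
  rw [heq] at hmain
  calc (F.card : ℝ) ≤ _ := hmain
    _ ≤ _ := by
        apply mul_le_mul_of_nonneg_right hκ
        positivity

/-- The arithmetic factor `τ(g) (k²)^{ω(g)}`. -/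
noncomputable def beta (k g : ℕ) : ℕ := g.divisors.card * (k ^ 2) ^ g.primeFactors.card

theorem beta_pos (k g : ℕ) (hk : 0 < k) (hg : g ≠ 0) : 0 < beta k g := by
  unfold beta
  have : 0 < g.divisors.card := Finset.card_pos.mpr ⟨1, by simp [hg]⟩
  positivity

theorem one_le_beta (k g : ℕ) (hk : 0 < k) (hg : g ≠ 0) : (1 : ℝ) ≤ beta k g := by
  exact_mod_cast beta_pos k g hk hg

theorem sq_pow_le (k g : ℕ) (hg : g ≠ 0) :
    (k ^ 2) ^ g.primeFactors.card ≤ g.divisors.card ^ (2 * k) := by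
  have h1 : k ^ 2 ≤ 2 ^ (2 * k) := by
    have : k ≤ 2 ^ k := Nat.lt_two_pow_self.le
    calc k ^ 2 ≤ (2 ^ k) ^ 2 := Nat.pow_le_pow_left this 2
      _ = 2 ^ (2 * k) := by rw [← pow_mul, mul_comm]
  calc (k ^ 2) ^ g.primeFactors.card ≤ (2 ^ (2 * k)) ^ g.primeFactors.card :=
        Nat.pow_le_pow_left h1 _
    _ = (2 ^ g.primeFactors.card) ^ (2 * k) := by rw [← pow_mul, ← pow_mul, mul_comm]
    _ ≤ g.divisors.card ^ (2 * k) := Nat.pow_le_pow_left (two_pow_card_primeFactors_le g hg) _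

theorem beta_le (k g : ℕ) (hg : g ≠ 0) : beta k g ≤ g.divisors.card ^ (2 * k + 1) := by
  unfold beta
  calc _ ≤ g.divisors.card * g.divisors.card ^ (2 * k) := Nat.mul_le_mul_left _ (sq_pow_le k g hg)
    _ = _ := by rw [pow_succ]; ring

theorem beta_bound (k N : ℕ) : ∃ C : ℕ, 0 < C ∧ ∀ g : ℕ, g ≠ 0 → (beta k g) ^ N ≤ C * g := by
  obtain ⟨C, hC0, hC⟩ := divisor_bound ((2 * k + 1) * N)
  refine ⟨C, hC0, fun g hg => ?_⟩
  calc (beta k g) ^ N ≤ (g.divisors.card ^ (2 * k + 1)) ^ N :=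
        Nat.pow_le_pow_left (beta_le k g hg) N
    _ = g.divisors.card ^ ((2 * k + 1) * N) := by rw [← pow_mul]
    _ ≤ C * g := hC g hg

theorem card_divisors_le_beta (k g : ℕ) (hk : 0 < k) : g.divisors.card ≤ beta k g := by
  unfold beta
  exact Nat.le_mul_of_pos_right _ (by positivity)

/-- `(d g / e)^k ≥ g`. -/
theorem pow_ge_aux (k g d e : ℕ) (hk : 1 ≤ k) (hg : 0 < g) (he : 0 < e) (hed : e ≤ d ^ k)
    (heg : e ≤ g) (hd : 0 < d) :
    (g : ℝ) ^ ((1 : ℝ) / k) ≤ d * g / e := by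
  have h0 : (0 : ℝ) ≤ d * g / e := by positivity
  have hk' : (k : ℝ) ≠ 0 := by positivity
  have h1 : (g : ℝ) ≤ (d * g / e : ℝ) ^ k := by
    have he' : (0 : ℝ) < e := by exact_mod_cast he
    have hg' : (0 : ℝ) < g := by exact_mod_cast hg
    have h2 : (1 : ℝ) ≤ g / e := by rw [le_div_iff₀ he', one_mul]; exact_mod_cast heg
    have h3 : (1 : ℝ) ≤ (g / e : ℝ) ^ (k - 1) := one_le_pow₀ h2
    have h4 : (e : ℝ) ≤ (d : ℝ) ^ k := by exact_mod_cast hed
    calc (g : ℝ) = e * (g / e) := by field_simp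
      _ ≤ d ^ k * (g / e) := by apply mul_le_mul_of_nonneg_right h4 (by positivity)
      _ ≤ d ^ k * ((g / e) * (g / e) ^ (k - 1)) := by
          apply mul_le_mul_of_nonneg_left _ (by positivity)
          nth_rewrite 1 [← mul_one (g / e : ℝ)]
          apply mul_le_mul_of_nonneg_left h3 (by positivity)
      _ = (d * g / e : ℝ) ^ k := by
          rw [← pow_succ', Nat.sub_add_cancel hk, mul_div_assoc, mul_pow]
  calc (g : ℝ) ^ ((1 : ℝ) / k) ≤ ((d * g / e : ℝ) ^ k) ^ ((1 : ℝ) / k) :=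
        Real.rpow_le_rpow (by positivity) h1 (by positivity)
    _ = d * g / e := by
        rw [← Real.rpow_natCast, ← Real.rpow_mul h0, mul_one_div_cancel hk', Real.rpow_one]

/-- Number of integers in an interval with given `k`-th power residue. -/
theorem card_pow_congr_le (k g : ℕ) (hk : 2 ≤ k) (hg : 0 < g)
    (F : Finset ℤ) (hcong : ∀ x ∈ F, ∀ y ∈ F, (g : ℤ) ∣ x ^ k - y ^ k) (ℓ : ℝ) (hℓ0 : 0 ≤ ℓ)
    (hℓ : ∀ x ∈ F, ∀ y ∈ F, (x : ℝ) - y ≤ ℓ) :
    (F.card : ℝ) ≤ beta k g * (ℓ / (g : ℝ) ^ ((1 : ℝ) / k) + 1) := by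
  classical
  have h1 : F.card = ∑ d ∈ g.divisors, (F.filter (fun x => Int.gcd x g = d)).card := by
    apply Finset.card_eq_sum_card_fiberwise
    intro x _
    simp only [Finset.mem_coe, Nat.mem_divisors]
    refine ⟨?_, hg.ne'⟩
    have : ((Int.gcd x g : ℕ) : ℤ) ∣ (g : ℤ) := Int.gcd_dvd_right _ _
    exact_mod_cast this
  rw [h1]
  push_cast
  have h2 : ∀ d ∈ g.divisors, ((F.filter (fun x => Int.gcd x g = d)).card : ℝ) ≤
      (k ^ 2) ^ g.primeFactors.card * (ℓ / (g : ℝ) ^ ((1 : ℝ) / k) + 1) := by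
    intro d hd
    have hd' := Nat.mem_divisors.mp hd
    have hd0 : 0 < d := Nat.pos_of_dvd_of_pos hd'.1 hg
    have h3 := card_gcd_eq_le k g hk hg d hd'.1 (F.filter (fun x => Int.gcd x g = d))
      (fun x hx => (Finset.mem_filter.mp hx).2)
      (fun x hx y hy => hcong x (Finset.mem_filter.mp hx).1 y (Finset.mem_filter.mp hy).1)
      ℓ hℓ0 (fun x hx y hy => hℓ x (Finset.mem_filter.mp hx).1 y (Finset.mem_filter.mp hy).1)
    refine h3.trans ?_
    apply mul_le_mul_of_nonneg_left _ (by positivity)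
    have he0 : 0 < Nat.gcd (d ^ k) g := Nat.gcd_pos_of_pos_right _ hg
    have h4 := pow_ge_aux k g d (Nat.gcd (d ^ k) g) (by omega) hg he0
      (Nat.gcd_le_left _ (by positivity)) (Nat.gcd_le_right _ hg) hd0
    have hgpos : (0 : ℝ) < (g : ℝ) ^ ((1 : ℝ) / k) := by
      apply Real.rpow_pos_of_pos; exact_mod_cast hg
    have h5 : ℓ * (Nat.gcd (d ^ k) g : ℝ) / (d * g) = ℓ / (d * g / (Nat.gcd (d ^ k) g : ℝ)) := by
      have : (d : ℝ) ≠ 0 := by exact_mod_cast hd0.ne'
      have : (g : ℝ) ≠ 0 := by exact_mod_cast hg.ne'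
      have : ((Nat.gcd (d ^ k) g : ℕ) : ℝ) ≠ 0 := by exact_mod_cast he0.ne'
      field_simp
    rw [h5]
    have h6 : ℓ / (d * g / (Nat.gcd (d ^ k) g : ℝ)) ≤ ℓ / (g : ℝ) ^ ((1 : ℝ) / k) :=
      div_le_div_of_nonneg_left hℓ0 hgpos h4
    linarith
  calc _ ≤ ∑ d ∈ g.divisors, (((k : ℝ) ^ 2) ^ g.primeFactors.card *
        (ℓ / (g : ℝ) ^ ((1 : ℝ) / k) + 1)) := Finset.sum_le_sum h2
    _ = _ := by
        rw [Finset.sum_const, nsmul_eq_mul]
        unfold beta
        push_cast
        ring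

/-! ### Products of divisors with small pairwise gcds -/

theorem prod_le_of_pairwise_gcd {ι : Type*} [DecidableEq ι] (D : ℕ) (hD : 1 ≤ D) (S : Finset ι) :
    ∀ (q : ℕ) (_ : 0 < q) (e : ι → ℕ) (_ : ∀ l ∈ S, e l ∣ q)
      (_ : ∀ l ∈ S, ∀ l' ∈ S, l ≠ l' → Nat.gcd (e l) (e l') ≤ D),
      ∏ l ∈ S, e l ≤ q * D ^ (S.card ^ 2) := by
  induction S using Finset.induction_on with
  | empty => intro q hq e _ _; simp; omega
  | insert a S ha ih =>
    intro q hq e he hgcd
    have hea : e a ∣ q := he a (Finset.mem_insert_self a S)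
    have hea0 : 0 < e a := Nat.pos_of_dvd_of_pos hea hq
    obtain ⟨q1, hq1⟩ := hea
    have hq10 : 0 < q1 := by
      rcases Nat.eq_zero_or_pos q1 with h | h
      · rw [h] at hq1; omega
      · exact h
    set e' : ι → ℕ := fun l => e l / Nat.gcd (e l) (e a) with he'
    have hle : ∀ l ∈ S, e l = e' l * Nat.gcd (e l) (e a) := fun l _ =>
      (Nat.div_mul_cancel (Nat.gcd_dvd_left _ _)).symm
    have hq1' : ∀ l ∈ S, e' l ∣ q1 := by
      intro l hl
      have h1 : Nat.lcm (e l) (e a) ∣ e a * q1 := by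
        rw [← hq1]
        exact Nat.lcm_dvd (he l (Finset.mem_insert_of_mem hl)) ⟨q1, hq1⟩
      have h2 : Nat.lcm (e l) (e a) = e a * e' l := by
        rw [Nat.lcm, he', mul_comm (e l) (e a), Nat.mul_div_assoc _ (Nat.gcd_dvd_left _ _)]
      rw [h2] at h1
      exact (Nat.mul_dvd_mul_iff_left hea0).mp h1
    have h3 := ih q1 hq10 e' hq1' (by
      intro l hl l' hl' hll'
      have h4 : Nat.gcd (e' l) (e' l') ∣ Nat.gcd (e l) (e l') :=
        Nat.dvd_gcd ((Nat.gcd_dvd_left _ _).trans ⟨_, hle l hl⟩)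
          ((Nat.gcd_dvd_right _ _).trans ⟨_, hle l' hl'⟩)
      have hpos : 0 < Nat.gcd (e l) (e l') := Nat.gcd_pos_of_pos_left _
        (Nat.pos_of_dvd_of_pos (he l (Finset.mem_insert_of_mem hl)) hq)
      exact (Nat.le_of_dvd hpos h4).trans
        (hgcd l (Finset.mem_insert_of_mem hl) l' (Finset.mem_insert_of_mem hl') hll'))
    rw [Finset.prod_insert ha, Finset.card_insert_of_notMem ha]
    have h5 : ∏ l ∈ S, e l = (∏ l ∈ S, e' l) * ∏ l ∈ S, Nat.gcd (e l) (e a) := by
      rw [← Finset.prod_mul_distrib]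
      exact Finset.prod_congr rfl hle
    have h6 : ∏ l ∈ S, Nat.gcd (e l) (e a) ≤ D ^ S.card := by
      rw [← Finset.prod_const]
      apply Finset.prod_le_prod'
      intro l hl
      exact hgcd l (Finset.mem_insert_of_mem hl) a (Finset.mem_insert_self a S)
        (fun h => ha (h ▸ hl))
    rw [h5]
    calc e a * ((∏ l ∈ S, e' l) * ∏ l ∈ S, Nat.gcd (e l) (e a))
        ≤ e a * ((q1 * D ^ (S.card ^ 2)) * D ^ S.card) :=
          Nat.mul_le_mul_left _ (Nat.mul_le_mul h3 h6)
      _ = q * D ^ (S.card ^ 2 + S.card) := by rw [hq1, pow_add]; ring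
      _ ≤ q * D ^ ((S.card + 1) ^ 2) := by
          apply Nat.mul_le_mul_left
          apply Nat.pow_le_pow_right hD
          nlinarith

end Pool.Agent.H888.DH
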