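import Pool.Agent.H888.DH.Arith

set_option linter.unusedVariables false
set_option linter.unusedSectionVars false
set_option linter.style.haveILetI false

namespace Pool.Agent.H888.DH

open Finset

theorem prod_one_add_le {ι : Type*} [Fintype ι] [DecidableEq ι] (t : ι → ℝ) (M : ℝ)
    (h : ∀ S : Finset ι, ∏ l ∈ S, t l ≤ M) : ∏ l, (1 + t l) ≤ 2 ^ Fintype.card ι * M := by
  rw [Finset.prod_one_add]
  calc _ ≤ ∑ S ∈ (Finset.univ : Finset ι).powerset, M := Finset.sum_le_sum (fun S _ => h S)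
    _ = _ := by rw [Finset.sum_const, Finset.card_powerset, Finset.card_univ, nsmul_eq_mul]; push_cast; ring

theorem prod_t_le {ι : Type*} [DecidableEq ι] (k r : ℕ) (hk : 2 ≤ k) (q B R : ℕ) (hq : 0 < q)
    (hB : 1 ≤ B)
    (hR : 1 ≤ R) (Λ : ℝ) (hΛ : 1 ≤ Λ) (hqB : (B : ℝ) ≤ Λ * q) (S : Finset ι) (hSr : S.card ≤ r)
    (d e : ι → ℕ) (hd : ∀ l ∈ S, 0 < d l) (he : ∀ l ∈ S, e l ∣ q) (hed : ∀ l ∈ S, e l ≤ (d l) ^ k)
    (hgcd : ∀ l ∈ S, ∀ l' ∈ S, l ≠ l' → Nat.gcd (e l) (e l') ≤ R ^ k) :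
    ∏ l ∈ S, ((B : ℝ) * e l / (d l * q)) ≤ Λ ^ r * (R : ℝ) ^ (k * r ^ 2) * B := by
  have hq' : (0 : ℝ) < q := by exact_mod_cast hq
  have hB' : (1 : ℝ) ≤ B := by exact_mod_cast hB
  have hR' : (1 : ℝ) ≤ R := by exact_mod_cast hR
  rcases S.eq_empty_or_nonempty with rfl | hne
  · rw [Finset.prod_empty]
    have h1 : (1 : ℝ) ≤ Λ ^ r := one_le_pow₀ hΛ
    have h2 : (1 : ℝ) ≤ (R : ℝ) ^ (k * r ^ 2) := one_le_pow₀ hR'
    calc (1 : ℝ) = 1 * 1 * 1 := by norm_num
      _ ≤ _ := by gcongr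
  have hcard : 1 ≤ S.card := Finset.card_pos.mpr hne
  have he0 : ∀ l ∈ S, 0 < e l := fun l hl => Nat.pos_of_dvd_of_pos (he l hl) hq
  have hbase : ∏ l ∈ S, e l ≤ q * (R ^ k) ^ (S.card ^ 2) :=
    prod_le_of_pairwise_gcd (R ^ k) (Nat.one_le_pow _ _ hR) S q hq e he hgcd
  have hbase' : (∏ l ∈ S, (e l : ℝ)) ≤ q * ((R : ℝ) ^ k) ^ (S.card ^ 2) := by
    exact_mod_cast hbase
  have hnn : 0 ≤ ∏ l ∈ S, ((B : ℝ) * e l / (d l * q)) :=
    Finset.prod_nonneg (fun l _ => by positivity)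
  have hpow : (∏ l ∈ S, ((B : ℝ) * e l / (d l * q))) ^ k ≤
      (Λ ^ r * (R : ℝ) ^ (k * r ^ 2) * B) ^ k := by
    rw [← Finset.prod_pow]
    have h1 : ∀ l ∈ S, ((B : ℝ) * e l / (d l * q)) ^ k ≤ ((B : ℝ) / q) ^ k * (e l : ℝ) ^ (k - 1) := by
      intro l hl
      have hd' : (0 : ℝ) < d l := by exact_mod_cast hd l hl
      have he' : (0 : ℝ) < e l := by exact_mod_cast he0 l hl
      have h2 : ((B : ℝ) * e l / (d l * q)) ^ k = ((B : ℝ) / q) ^ k * ((e l : ℝ) ^ k / (d l) ^ k) := by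
        rw [← div_pow, ← mul_pow]
        congr 1
        field_simp
      rw [h2]
      apply mul_le_mul_of_nonneg_left _ (by positivity)
      rw [div_le_iff₀ (by positivity)]
      have h3 : (e l : ℝ) ≤ (d l : ℝ) ^ k := by exact_mod_cast hed l hl
      calc (e l : ℝ) ^ k = (e l : ℝ) ^ (k - 1) * e l := by
            rw [← pow_succ, Nat.sub_add_cancel (by omega)]
        _ ≤ _ := by apply mul_le_mul_of_nonneg_left h3 (by positivity)
    calc ∏ l ∈ S, ((B : ℝ) * e l / (d l * q)) ^ k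
        ≤ ∏ l ∈ S, (((B : ℝ) / q) ^ k * (e l : ℝ) ^ (k - 1)) :=
          Finset.prod_le_prod (fun l _ => by positivity) h1
      _ = (((B : ℝ) / q) ^ k) ^ S.card * (∏ l ∈ S, (e l : ℝ)) ^ (k - 1) := by
          rw [Finset.prod_mul_distrib, Finset.prod_const, Finset.prod_pow]
      _ ≤ (((B : ℝ) / q) ^ k) ^ S.card * (q * ((R : ℝ) ^ k) ^ (S.card ^ 2)) ^ (k - 1) := by
          gcongr
      _ = (((B : ℝ) / q) ^ k) ^ (S.card - 1) * (((B : ℝ) / q) ^ k * q ^ (k - 1)) *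
            ((R : ℝ) ^ k) ^ (S.card ^ 2 * (k - 1)) := by
          conv_lhs => rw [show S.card = (S.card - 1) + 1 by omega, pow_succ]
          rw [mul_pow, ← pow_mul, Nat.sub_add_cancel hcard]
          ring
      _ ≤ (Λ ^ k) ^ r * (B : ℝ) ^ k * ((R : ℝ) ^ k) ^ (k * r ^ 2) := by
          have h4 : (B : ℝ) / q ≤ Λ := by rw [div_le_iff₀ hq']; exact hqB
          have h5 : (((B : ℝ) / q) ^ k) ^ (S.card - 1) ≤ (Λ ^ k) ^ r := by
            calc (((B : ℝ) / q) ^ k) ^ (S.card - 1) ≤ (Λ ^ k) ^ (S.card - 1) := by gcongr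
              _ ≤ (Λ ^ k) ^ r := pow_le_pow_right₀ (one_le_pow₀ hΛ) (by omega)
          have h6 : ((B : ℝ) / q) ^ k * q ^ (k - 1) ≤ (B : ℝ) ^ k := by
            rw [div_pow, div_mul_eq_mul_div, div_le_iff₀ (by positivity)]
            apply mul_le_mul_of_nonneg_left _ (by positivity)
            apply pow_le_pow_right₀ (by exact_mod_cast hq) (by omega)
          have h7 : ((R : ℝ) ^ k) ^ (S.card ^ 2 * (k - 1)) ≤ ((R : ℝ) ^ k) ^ (k * r ^ 2) := by
            apply pow_le_pow_right₀ (one_le_pow₀ hR')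
            calc S.card ^ 2 * (k - 1) ≤ r ^ 2 * k :=
                  Nat.mul_le_mul (Nat.pow_le_pow_left hSr 2) (by omega)
              _ = k * r ^ 2 := by ring
          gcongr
      _ = (Λ ^ r * (R : ℝ) ^ (k * r ^ 2) * B) ^ k := by
          rw [mul_pow, mul_pow, ← pow_mul, ← pow_mul, ← pow_mul, ← pow_mul]
          rw [mul_comm k r, mul_comm k (k * r ^ 2)]
          ring
  exact le_of_pow_le_pow_left₀ (by omega) (by positivity) hpow

/-- **Completion lemma.** -/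
theorem completion (k r : ℕ) (hk : 2 ≤ k) (q B R : ℕ) (hq : 0 < q) (hB : 1 ≤ B) (hR : 1 ≤ R)
    (Λ : ℝ) (hΛ : 1 ≤ Λ) (hqB : (B : ℝ) ≤ Λ * q) (S : Fin r → Finset ℤ)
    (hS : ∀ l, ∀ x ∈ S l, 1 ≤ x ∧ x ≤ B)
    (hcong : ∀ l, ∀ x ∈ S l, ∀ y ∈ S l, (q : ℤ) ∣ x ^ k - y ^ k)
    (Y : Finset (Fin r → ℤ)) (hY : ∀ y ∈ Y, ∀ l, y l ∈ S l)
    (hYg : ∀ y ∈ Y, ∀ l l', l ≠ l' → Int.gcd (y l) (y l') ≤ R) :
    (Y.card : ℝ) ≤ (beta k q : ℝ) ^ r * (2 ^ r * (Λ ^ r * (R : ℝ) ^ (k * r ^ 2) * B)) := by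
  classical
  set P : Finset (Fin r → ℕ) := Fintype.piFinset (fun _ => q.divisors) with hP
  set pr : (Fin r → ℤ) → (Fin r → ℕ) := fun y l => Int.gcd (y l) q with hpr
  have hmap : ∀ y ∈ Y, pr y ∈ P := by
    intro y _
    rw [hP, Fintype.mem_piFinset]
    intro l
    rw [Nat.mem_divisors]
    refine ⟨?_, hq.ne'⟩
    have : ((Int.gcd (y l) q : ℕ) : ℤ) ∣ (q : ℤ) := Int.gcd_dvd_right _ _
    exact_mod_cast this
  have hcardP : P.card = q.divisors.card ^ r := by
    rw [hP, Fintype.card_piFinset]; simp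
  rw [Finset.card_eq_sum_card_fiberwise (f := pr) (t := P) hmap]
  push_cast
  set M : ℝ := Λ ^ r * (R : ℝ) ^ (k * r ^ 2) * B with hM
  have hM0 : 0 ≤ M := by positivity
  have hfib : ∀ d ∈ P, ((Y.filter (fun y => pr y = d)).card : ℝ) ≤
      (((k : ℝ) ^ 2) ^ q.primeFactors.card) ^ r * (2 ^ r * M) := by
    intro d hd
    rcases (Y.filter (fun y => pr y = d)).eq_empty_or_nonempty with hemp | ⟨y0, hy0⟩
    · rw [hemp]; simp; positivity
    rw [Finset.mem_filter] at hy0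
    have hddvd : ∀ l, d l ∣ q := by
      intro l
      have := (Fintype.mem_piFinset.mp hd) l
      exact (Nat.mem_divisors.mp this).1
    have hd0 : ∀ l, 0 < d l := fun l => Nat.pos_of_dvd_of_pos (hddvd l) hq
    set e : Fin r → ℕ := fun l => Nat.gcd (d l ^ k) q with he
    have hsub : Y.filter (fun y => pr y = d) ⊆
        Fintype.piFinset (fun l => (S l).filter (fun x => Int.gcd x q = d l)) := by
      intro y hy
      rw [Finset.mem_filter] at hy
      rw [Fintype.mem_piFinset]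
      intro l
      rw [Finset.mem_filter]
      exact ⟨hY y hy.1 l, congrFun hy.2 l⟩
    have h1 : ((Y.filter (fun y => pr y = d)).card : ℝ) ≤
        ∏ l, (((S l).filter (fun x => Int.gcd x q = d l)).card : ℝ) := by
      have := Finset.card_le_card hsub
      rw [Fintype.card_piFinset] at this
      exact_mod_cast this
    have h2 : ∀ l, (((S l).filter (fun x => Int.gcd x q = d l)).card : ℝ) ≤
        ((k : ℝ) ^ 2) ^ q.primeFactors.card * (1 + (B : ℝ) * e l / (d l * q)) := by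
      intro l
      have := card_gcd_eq_le k q hk hq (d l) (hddvd l) ((S l).filter (fun x => Int.gcd x q = d l))
        (fun x hx => (Finset.mem_filter.mp hx).2)
        (fun x hx y hy => hcong l x (Finset.mem_filter.mp hx).1 y (Finset.mem_filter.mp hy).1)
        B (by positivity) (by
          intro x hx y hy
          have h1 := (hS l x (Finset.mem_filter.mp hx).1).2
          have h2 := (hS l y (Finset.mem_filter.mp hy).1).1
          have h1' : (x : ℝ) ≤ B := by exact_mod_cast h1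
          have h2' : (1 : ℝ) ≤ y := by exact_mod_cast h2
          linarith)
      rw [add_comm (1 : ℝ)]
      exact this
    have h3 : ∀ T : Finset (Fin r), ∏ l ∈ T, ((B : ℝ) * e l / (d l * q)) ≤ M := by
      intro T
      apply prod_t_le k r hk q B R hq hB hR Λ hΛ hqB T
        ((Finset.card_le_univ T).trans (by simp)) d e (fun l _ => hd0 l)
        (fun l _ => Nat.gcd_dvd_right _ _)
        (fun l _ => Nat.gcd_le_left _ (pow_pos (hd0 l) k))
      intro l _ l' _ hll'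
      have hdy : ∀ l, d l ∣ (y0 l).natAbs := by
        intro l
        have h4 : d l = Int.gcd (y0 l) q := (congrFun hy0.2 l).symm
        rw [h4]
        exact Int.natCast_dvd.mp (Int.gcd_dvd_left _ _)
      have h5 : ∀ l, e l ∣ (y0 l).natAbs ^ k := fun l =>
        (Nat.gcd_dvd_left _ _).trans (pow_dvd_pow_of_dvd (hdy l) k)
      have hgpos : 0 < Int.gcd (y0 l) (y0 l') := by
        have := (hS l (y0 l) (hY y0 hy0.1 l)).1
        exact Int.gcd_pos_of_ne_zero_left _ (by omega)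
      have h6 : Nat.gcd (e l) (e l') ∣ (Int.gcd (y0 l) (y0 l')) ^ k := by
        have h7 : Nat.gcd (e l) (e l') ∣ Nat.gcd ((y0 l).natAbs ^ k) ((y0 l').natAbs ^ k) :=
          Nat.dvd_gcd ((Nat.gcd_dvd_left _ _).trans (h5 l)) ((Nat.gcd_dvd_right _ _).trans (h5 l'))
        rwa [Nat.pow_gcd_pow] at h7
      exact (Nat.le_of_dvd (pow_pos hgpos k) h6).trans
        (Nat.pow_le_pow_left (hYg y0 hy0.1 l l' hll') k)
    calc ((Y.filter (fun y => pr y = d)).card : ℝ)
        ≤ ∏ l, (((S l).filter (fun x => Int.gcd x q = d l)).card : ℝ) := h1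
      _ ≤ ∏ l, (((k : ℝ) ^ 2) ^ q.primeFactors.card * (1 + (B : ℝ) * e l / (d l * q))) :=
          Finset.prod_le_prod (fun l _ => by positivity) (fun l _ => h2 l)
      _ = (((k : ℝ) ^ 2) ^ q.primeFactors.card) ^ r * ∏ l, (1 + (B : ℝ) * e l / (d l * q)) := by
          rw [Finset.prod_mul_distrib, Finset.prod_const, Finset.card_univ, Fintype.card_fin]
      _ ≤ _ := by
          apply mul_le_mul_of_nonneg_left _ (by positivity)
          have := prod_one_add_le (fun l => (B : ℝ) * e l / (d l * q)) M h3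
          rwa [Fintype.card_fin] at this
  calc ∑ d ∈ P, ((Y.filter (fun y => pr y = d)).card : ℝ)
      ≤ ∑ d ∈ P, (((k : ℝ) ^ 2) ^ q.primeFactors.card) ^ r * (2 ^ r * M) := Finset.sum_le_sum hfib
    _ = (beta k q : ℝ) ^ r * (2 ^ r * M) := by
        rw [Finset.sum_const, nsmul_eq_mul, hcardP]
        unfold beta
        push_cast
        rw [mul_pow]
        ring

end Pool.Agent.H888.DH
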