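import Pool.Agent.H888.DH.Sm2

set_option linter.unusedVariables false
set_option linter.unusedSectionVars false
set_option linter.style.haveILetI false

namespace Pool.Agent.H888.DH

open Finset Complex

theorem exact_struct {r : ℕ} (V W w : Fin (r + 1) → ℤ) (N : ℤ) (hV0 : V 0 = N) (hW0 : W 0 = N)
    (g : ℤ) (c : Fin r → ℤ) (hc : ∑ l, c l * (W l.succ - V l.succ) = g)
    (hminor : ∀ a b, minor V W w a b = 0) :
    ∃ P Q : ℤ, P + Q = g * w 0 ∧ ∀ o, N * g * w o = P * V o + Q * W o := by
  set u : Fin r → ℤ := fun a => N * w a.succ - w 0 * V a.succ with hu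
  have key : ∀ a b, u a * (W b.succ - V b.succ) = u b * (W a.succ - V a.succ) := by
    intro a b
    have := hminor a b
    unfold minor at this
    rw [hV0, hW0] at this
    simp only [hu]
    linear_combination -this
  set Q := ∑ b, c b * u b with hQ
  have hgu : ∀ a, g * u a = Q * (W a.succ - V a.succ) := by
    intro a
    rw [← hc, hQ, Finset.sum_mul, Finset.sum_mul]
    apply Finset.sum_congr rfl
    intro b _
    linear_combination c b * key a b
  refine ⟨g * w 0 - Q, Q, by ring, ?_⟩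
  intro o
  refine Fin.cases ?_ ?_ o
  · rw [hV0, hW0]; ring
  · intro a
    have := hgu a
    simp only [hu] at this
    linear_combination this

/-- The count of exact points. -/
theorem exact_count (r k m J B B0 : ℕ) (V W : Fin (r + 1) → ℤ) (N g : ℕ) (hN : 1 ≤ N) (hg : 1 ≤ g)
    (hB0 : 1 ≤ B0) (hB : 1 ≤ B) (hm : 0 < m) (hJ : 0 < J)
    (hV : ∀ o, |V o| ≤ (B : ℤ) ^ k) (hW : ∀ o, |W o| ≤ (B : ℤ) ^ k) (p : Fin r) (q : Fin (r + 1))
    (hWp : (B0 : ℤ) ^ k ≤ W p.succ) (D : ℤ) (hD : D = V p.succ * W q - V q * W p.succ) (hD0 : D ≠ 0)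
    (hDJ : |D| ≤ J * (B : ℤ) ^ k) (hB0J : B0 ^ k ≤ J) (h4 : 4 * J * B ^ k ≤ m)
    (S : Finset (ℤ × ℤ)) (hS0 : S ⊆ box2 m)
    (hS : ∀ z ∈ S, ∃ w : Fin (r + 1) → ℤ, ∃ P Q : ℤ, nearW m J V W z w ∧ P + Q = g * w 0 ∧
      ∀ o, (N * g : ℤ) * w o = P * V o + Q * W o) :
    (S.card : ℝ) ≤ 375 * N ^ 2 * g * J ^ 2 * B ^ k / (B0 ^ k * |(D : ℝ)|) := by
  classical
  choose! w P Q hnear hPQ hrel using hS
  have hDpos : (0 : ℝ) < |(D : ℝ)| := by rw [abs_pos]; exact_mod_cast hD0
  have hDposZ : (0 : ℤ) < |D| := abs_pos.mpr hD0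
  have hB0k : (0 : ℝ) < (B0 : ℝ) ^ k := by positivity
  have hBk : (0 : ℤ) < (B : ℤ) ^ k := by positivity
  set G : ℤ := N * g with hG
  have hGpos : 0 < G := by positivity
  set I : ℤ × ℤ → ℤ := fun z => G * z.1 - m * P z with hI
  set I' : ℤ × ℤ → ℤ := fun z => G * z.2 + m * Q z with hI'
  have hII : ∀ z ∈ S, ∀ o, I z * V o - I' z * W o = G * (z.1 * V o - z.2 * W o - m * w z o) := by
    intro z hz o
    simp only [hI, hI']
    linear_combination m * hrel z hz o
  have hID : ∀ z ∈ S, |I z| * |D| < 2 * G * J * (B : ℤ) ^ k := by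
    intro z hz
    rw [← abs_mul]
    have e : I z * D = G * ((z.1 * V p.succ - z.2 * W p.succ - m * w z p.succ) * W q -
        (z.1 * V q - z.2 * W q - m * w z q) * W p.succ) := by
      rw [hD]
      linear_combination W q * hII z hz p.succ - W p.succ * hII z hz q
    rw [e, abs_mul, abs_of_pos hGpos]
    have h1 : |(z.1 * V p.succ - z.2 * W p.succ - m * w z p.succ) * W q -
        (z.1 * V q - z.2 * W q - m * w z q) * W p.succ| < 2 * J * (B : ℤ) ^ k := by
      have a1 : |(z.1 * V p.succ - z.2 * W p.succ - m * w z p.succ) * W q| ≤ J * (B : ℤ) ^ k := by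
        rw [abs_mul]
        exact mul_le_mul (hnear z hz p.succ).le (hW q) (abs_nonneg _) (by positivity)
      have a2 : |(z.1 * V q - z.2 * W q - m * w z q) * W p.succ| < J * (B : ℤ) ^ k := by
        rw [abs_mul]
        have hpos : 0 < |W p.succ| := by
          rw [abs_pos]
          have : (0 : ℤ) < (B0 : ℤ) ^ k := by positivity
          intro h0; rw [h0] at hWp; linarith
        calc |z.1 * V q - z.2 * W q - m * w z q| * |W p.succ| < J * |W p.succ| :=
              mul_lt_mul_of_pos_right (hnear z hz q) hpos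
          _ ≤ J * (B : ℤ) ^ k := mul_le_mul_of_nonneg_left (hW _) (by positivity)
      calc _ ≤ |(z.1 * V p.succ - z.2 * W p.succ - m * w z p.succ) * W q| +
            |(z.1 * V q - z.2 * W q - m * w z q) * W p.succ| := abs_sub _ _
        _ < 2 * J * (B : ℤ) ^ k := by linarith
    calc G * _ < G * (2 * J * (B : ℤ) ^ k) := mul_lt_mul_of_pos_left h1 hGpos
      _ = _ := by ring
  have hID' : ∀ z ∈ S, |I' z| * |D| ≤ 2 * G * J * (B : ℤ) ^ k := by
    intro z hz
    rw [← abs_mul]
    have e : I' z * D = G * ((z.1 * V p.succ - z.2 * W p.succ - m * w z p.succ) * V q -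
        (z.1 * V q - z.2 * W q - m * w z q) * V p.succ) := by
      rw [hD]
      linear_combination V q * hII z hz p.succ - V p.succ * hII z hz q
    rw [e, abs_mul, abs_of_pos hGpos]
    have h1 : |(z.1 * V p.succ - z.2 * W p.succ - m * w z p.succ) * V q -
        (z.1 * V q - z.2 * W q - m * w z q) * V p.succ| ≤ 2 * J * (B : ℤ) ^ k := by
      have a1 : |(z.1 * V p.succ - z.2 * W p.succ - m * w z p.succ) * V q| ≤ J * (B : ℤ) ^ k := by
        rw [abs_mul]
        exact mul_le_mul (hnear z hz p.succ).le (hV q) (abs_nonneg _) (by positivity)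
      have a2 : |(z.1 * V q - z.2 * W q - m * w z q) * V p.succ| ≤ J * (B : ℤ) ^ k := by
        rw [abs_mul]
        exact mul_le_mul (hnear z hz q).le (hV p.succ) (abs_nonneg _) (by positivity)
      calc _ ≤ |(z.1 * V p.succ - z.2 * W p.succ - m * w z p.succ) * V q| +
            |(z.1 * V q - z.2 * W q - m * w z q) * V p.succ| := abs_sub _ _
        _ ≤ 2 * J * (B : ℤ) ^ k := by linarith
    calc G * _ ≤ G * (2 * J * (B : ℤ) ^ k) := mul_le_mul_of_nonneg_left h1 hGpos.le
      _ = _ := by ring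
  have h4' : (4 : ℤ) * J * (B : ℤ) ^ k ≤ m := by exact_mod_cast h4
  have hm' : (0 : ℤ) < m := by exact_mod_cast hm
  have hI2 : ∀ z ∈ S, 2 * |I z| ≤ G * m := by
    intro z hz
    have h1 : |I z| ≤ |I z| * |D| := le_mul_of_one_le_right (abs_nonneg _) (by omega)
    have h2 := hID z hz
    have h3 : G * (4 * J * (B : ℤ) ^ k) ≤ G * m := mul_le_mul_of_nonneg_left h4' hGpos.le
    linarith
  have hI2' : ∀ z ∈ S, 2 * |I' z| ≤ G * m := by
    intro z hz
    have h1 : |I' z| ≤ |I' z| * |D| := le_mul_of_one_le_right (abs_nonneg _) (by omega)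
    have h2 := hID' z hz
    have h3 : G * (4 * J * (B : ℤ) ^ k) ≤ G * m := mul_le_mul_of_nonneg_left h4' hGpos.le
    linarith
  have hPb : ∀ z ∈ S, |P z| ≤ 2 * G := by
    intro z hz
    obtain ⟨b1, b2, b3, b4⟩ := mem_box2.mp (hS0 hz)
    have e : m * P z = G * z.1 - I z := by simp only [hI]; ring
    have h1 : m * |P z| ≤ m * (2 * G) := by
      calc m * |P z| = |(m : ℤ) * P z| := by rw [abs_mul, abs_of_pos hm']
        _ ≤ |G * z.1| + |I z| := by rw [e]; exact abs_sub _ _
        _ ≤ G * m + G * m := by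
            have : |G * z.1| ≤ G * m := by
              rw [abs_mul, abs_of_pos hGpos, abs_of_nonneg b1]
              exact mul_le_mul_of_nonneg_left b2.le hGpos.le
            linarith [hI2 z hz, abs_nonneg (I z)]
        _ = m * (2 * G) := by ring
    exact le_of_mul_le_mul_left h1 hm'
  have hQb : ∀ z ∈ S, |Q z| ≤ 2 * G := by
    intro z hz
    obtain ⟨b1, b2, b3, b4⟩ := mem_box2.mp (hS0 hz)
    have e : m * Q z = I' z - G * z.2 := by simp only [hI']; ring
    have h1 : m * |Q z| ≤ m * (2 * G) := by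
      calc m * |Q z| = |(m : ℤ) * Q z| := by rw [abs_mul, abs_of_pos hm']
        _ ≤ |I' z| + |G * z.2| := by rw [e]; exact abs_sub _ _
        _ ≤ G * m + G * m := by
            have : |G * z.2| ≤ G * m := by
              rw [abs_mul, abs_of_pos hGpos, abs_of_nonneg b3]
              exact mul_le_mul_of_nonneg_left b4.le hGpos.le
            linarith [hI2' z hz, abs_nonneg (I' z)]
        _ = m * (2 * G) := by ring
    exact le_of_mul_le_mul_left h1 hm'
  -- number of classes
  set Cl := S.image (fun z => (P z, Q z)) with hCl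
  have hN' : (1 : ℝ) ≤ N := by exact_mod_cast hN
  have hg' : (1 : ℝ) ≤ g := by exact_mod_cast hg
  have hClcard : (Cl.card : ℝ) ≤ (5 * (N * g)) * (5 * N) := by
    have h1 := card_le_mul_real Cl (Finset.Icc (-(2 * G)) (2 * G)) (fun t => t.1) (by
      intro t ht
      rw [hCl, Finset.mem_image] at ht
      obtain ⟨z, hz, rfl⟩ := ht
      rw [Finset.mem_Icc]
      exact abs_le.mp (hPb z hz)) (5 * N) (by
      intro P0 _
      set F := Cl.filter (fun t => t.1 = P0) with hF
      have hinj : F.card = (F.image (fun t => t.2)).card := by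
        rw [Finset.card_image_of_injOn]
        intro t ht t' ht' htt
        exact Prod.ext ((Finset.mem_filter.mp ht).2.trans (Finset.mem_filter.mp ht').2.symm) htt
      rw [hinj]
      have h2 := card_le_of_dvd_sub (F.image (fun t => t.2)) g (by omega) (4 * (N * g)) (by positivity)
        (by
          intro a ha b hb
          rw [Finset.mem_image] at ha hb
          obtain ⟨t, ht, rfl⟩ := ha
          obtain ⟨t', ht', rfl⟩ := hb
          rw [hF, Finset.mem_filter, hCl, Finset.mem_image] at ht ht'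
          obtain ⟨⟨z, hz, rfl⟩, e1⟩ := ht
          obtain ⟨⟨z', hz', rfl⟩, e2⟩ := ht'
          simp only at e1 e2 ⊢
          have a1 := hPQ z hz
          have a2 := hPQ z' hz'
          exact ⟨w z 0 - w z' 0, by linear_combination a1 - a2 - e1 + e2⟩)
        (by
          intro a ha b hb
          rw [Finset.mem_image] at ha hb
          obtain ⟨t, ht, rfl⟩ := ha
          obtain ⟨t', ht', rfl⟩ := hb
          rw [hF, Finset.mem_filter, hCl, Finset.mem_image] at ht ht'
          obtain ⟨⟨z, hz, rfl⟩, e1⟩ := ht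
          obtain ⟨⟨z', hz', rfl⟩, e2⟩ := ht'
          simp only
          have a1 := (abs_le.mp (hQb z hz)).2
          have a2 := (abs_le.mp (hQb z' hz')).1
          have : Q z - Q z' ≤ 4 * G := by linarith
          have h3 : ((Q z - Q z' : ℤ) : ℝ) ≤ ((4 * G : ℤ) : ℝ) := by exact_mod_cast this
          rw [hG] at h3
          push_cast at h3
          exact h3)
      refine h2.trans ?_
      have : (4 * (N * g) / g : ℝ) = 4 * N := by
        have : (g : ℝ) ≠ 0 := by positivity
        field_simp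
      rw [this]
      linarith)
    refine h1.trans ?_
    apply mul_le_mul_of_nonneg_right _ (by positivity)
    rw [Int.card_Icc]
    have h3 : ((2 * G + 1 - -(2 * G)).toNat : ℤ) = 4 * G + 1 := by
      rw [Int.toNat_of_nonneg (by linarith)]; ring
    have h4 : (((2 * G + 1 - -(2 * G)).toNat : ℕ) : ℝ) = 4 * (N * g) + 1 := by
      have : (((2 * G + 1 - -(2 * G)).toNat : ℤ) : ℝ) = ((4 * G + 1 : ℤ) : ℝ) := by rw [h3]
      rw [hG] at this
      push_cast at this
      push_cast
      exact this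
    rw [h4]
    have : (1 : ℝ) ≤ N * g := by nlinarith
    linarith
  have hJ' : (0 : ℝ) < J := by exact_mod_cast hJ
  have hmain := card_le_mul_real S Cl (fun z => (P z, Q z))
    (fun z hz => Finset.mem_image_of_mem _ hz)
    ((5 * (J * B ^ k) / |(D : ℝ)|) * (3 * J / B0 ^ k)) (by
    intro t _
    set F := S.filter (fun z => (P z, Q z) = t) with hF
    have hFi := card_le_mul_real F (F.image (fun z => z.1)) (fun z => z.1)
      (fun z hz => Finset.mem_image_of_mem _ hz) (3 * J / B0 ^ k) (by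
      intro i0 _
      set F1 := F.filter (fun z => z.1 = i0) with hF1
      have hinj : F1.card = (F1.image (fun z => z.2)).card := by
        rw [Finset.card_image_of_injOn]
        intro z hz z' hz' hzz
        exact Prod.ext ((Finset.mem_filter.mp hz).2.trans (Finset.mem_filter.mp hz').2.symm) hzz
      rw [hinj]
      have h2 := card_le_of_dvd_sub (F1.image (fun z => z.2)) 1 one_pos (2 * J / B0 ^ k) (by positivity)
        (by intro a _ b _; exact one_dvd _)
        (by
          intro a ha b hb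
          rw [Finset.mem_image] at ha hb
          obtain ⟨z, hz, rfl⟩ := ha
          obtain ⟨z', hz', rfl⟩ := hb
          rw [hF1, Finset.mem_filter, hF, Finset.mem_filter] at hz hz'
          obtain ⟨⟨hzS, ht⟩, hi⟩ := hz
          obtain ⟨⟨hzS', ht'⟩, hi'⟩ := hz'
          have ht2 := ht.trans ht'.symm
          simp only [Prod.mk.injEq] at ht2
          have e1 := hII z hzS p.succ
          have e2 := hII z' hzS' p.succ
          simp only [hI, hI'] at e1 e2
          have e3 : G * ((z.2 - z'.2) * W p.succ) = - (G * ((z.1 * V p.succ - z.2 * W p.succ - m * w z p.succ) -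
              (z'.1 * V p.succ - z'.2 * W p.succ - m * w z' p.succ))) := by
            rw [ht2.1, ht2.2, hi] at e1
            rw [hi'] at e2
            linear_combination e2 - e1 + G * V p.succ * (hi - hi')
          have e4 : (z.2 - z'.2) * W p.succ = - ((z.1 * V p.succ - z.2 * W p.succ - m * w z p.succ) -
              (z'.1 * V p.succ - z'.2 * W p.succ - m * w z' p.succ)) := by
            have : G * ((z.2 - z'.2) * W p.succ) = G * (- ((z.1 * V p.succ - z.2 * W p.succ - m * w z p.succ) -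
              (z'.1 * V p.succ - z'.2 * W p.succ - m * w z' p.succ))) := by rw [e3]; ring
            exact mul_left_cancel₀ hGpos.ne' this
          have e5 : (z.2 - z'.2) * W p.succ ≤ 2 * J := by
            have b1 := (abs_lt.mp (hnear z hzS p.succ)).1
            have b2 := (abs_lt.mp (hnear z' hzS' p.succ)).2
            linarith
          rcases le_total (z.2 - z'.2) 0 with h0 | h0
          · have : ((z.2 - z'.2 : ℤ) : ℝ) ≤ 0 := by exact_mod_cast h0
            push_cast at this
            have h7 : (0 : ℝ) ≤ 2 * J / B0 ^ k := by positivity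
            linarith
          · rw [le_div_iff₀ hB0k]
            have e6 : (z.2 - z'.2) * (B0 : ℤ) ^ k ≤ 2 * J :=
              (mul_le_mul_of_nonneg_left hWp h0).trans e5
            exact_mod_cast e6)
      refine h2.trans ?_
      have h3 : (1 : ℝ) ≤ J / B0 ^ k := by
        rw [le_div_iff₀ hB0k, one_mul]; exact_mod_cast hB0J
      have h4 : (3 * J / B0 ^ k : ℝ) = 2 * J / B0 ^ k + J / B0 ^ k := by ring
      rw [h4]
      simp only [Nat.cast_one, div_one]
      linarith)
    refine hFi.trans ?_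
    apply mul_le_mul_of_nonneg_right _ (by positivity)
    have h2 := card_le_of_dvd_sub (F.image (fun z => z.1)) 1 one_pos (4 * (J * B ^ k) / |(D : ℝ)|)
      (by positivity) (by intro a _ b _; exact one_dvd _)
      (by
        intro a ha b hb
        rw [Finset.mem_image] at ha hb
        obtain ⟨z, hz, rfl⟩ := ha
        obtain ⟨z', hz', rfl⟩ := hb
        rw [hF, Finset.mem_filter] at hz hz'
        obtain ⟨hzS, ht⟩ := hz
        obtain ⟨hzS', ht'⟩ := hz'
        have ht2 := ht.trans ht'.symm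
        simp only [Prod.mk.injEq] at ht2
        have e1 := hID z hzS
        have e2 := hID z' hzS'
        have e3 : G * (|z.1 - z'.1| * |D|) ≤ G * (4 * J * (B : ℤ) ^ k) := by
          have e4 : G * (z.1 - z'.1) = I z - I z' := by
            simp only [hI]; rw [ht2.1]; ring
          calc G * (|z.1 - z'.1| * |D|) = |G * (z.1 - z'.1)| * |D| := by
                rw [abs_mul, abs_of_pos hGpos]; ring
            _ ≤ (|I z| + |I z'|) * |D| := by
                apply mul_le_mul_of_nonneg_right _ (abs_nonneg _)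
                rw [e4]; exact abs_sub _ _
            _ = |I z| * |D| + |I z'| * |D| := by ring
            _ ≤ _ := by linarith
        have e5 : |z.1 - z'.1| * |D| ≤ 4 * J * (B : ℤ) ^ k := le_of_mul_le_mul_left e3 hGpos
        rw [le_div_iff₀ hDpos]
        have e6 : (z.1 - z'.1) * |D| ≤ 4 * J * (B : ℤ) ^ k :=
          (mul_le_mul_of_nonneg_right (le_abs_self _) (abs_nonneg _)).trans e5
        have e7 : (((z.1 - z'.1) * |D| : ℤ) : ℝ) ≤ ((4 * J * (B : ℤ) ^ k : ℤ) : ℝ) := by
          exact_mod_cast e6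
        push_cast at e7
        linarith)
    refine h2.trans ?_
    have h3 : (1 : ℝ) ≤ J * B ^ k / |(D : ℝ)| := by
      rw [le_div_iff₀ hDpos, one_mul]
      have : ((|D| : ℤ) : ℝ) ≤ ((J * (B : ℤ) ^ k : ℤ) : ℝ) := by exact_mod_cast hDJ
      push_cast at this
      exact this
    have h4 : (5 * (J * B ^ k) / |(D : ℝ)|) = 4 * (J * B ^ k) / |(D : ℝ)| + J * B ^ k / |(D : ℝ)| := by
      ring
    rw [h4]
    simp only [Nat.cast_one, div_one]
    linarith)
  refine hmain.trans ?_
  calc (Cl.card : ℝ) * ((5 * (J * B ^ k) / |(D : ℝ)|) * (3 * J / B0 ^ k))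
      ≤ ((5 * (N * g)) * (5 * N)) * ((5 * (J * B ^ k) / |(D : ℝ)|) * (3 * J / B0 ^ k)) := by
        apply mul_le_mul_of_nonneg_right hClcard (by positivity)
    _ = _ := by field_simp; ring

/-- closeness to the exact point -/
theorem exact_close (r k m J B : ℕ) (V W w : Fin (r + 1) → ℤ) (G : ℤ) (hG : 0 < G)
    (hV : ∀ o, |V o| ≤ (B : ℤ) ^ k) (hW : ∀ o, |W o| ≤ (B : ℤ) ^ k) (p q : Fin (r + 1))
    (D : ℤ) (hD : D = V p * W q - V q * W p) (z : ℤ × ℤ) (P Q : ℤ)
    (hnear : nearW m J V W z w) (hrel : ∀ o, G * w o = P * V o + Q * W o) :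
    |G * z.1 - m * P| * |D| ≤ 2 * G * J * (B : ℤ) ^ k ∧
      |G * z.2 + m * Q| * |D| ≤ 2 * G * J * (B : ℤ) ^ k := by
  have hII : ∀ o, (G * z.1 - m * P) * V o - (G * z.2 + m * Q) * W o =
      G * (z.1 * V o - z.2 * W o - m * w o) := by
    intro o
    linear_combination m * hrel o
  constructor
  · rw [← abs_mul]
    have e : (G * z.1 - m * P) * D = G * ((z.1 * V p - z.2 * W p - m * w p) * W q -
        (z.1 * V q - z.2 * W q - m * w q) * W p) := by
      rw [hD]
      linear_combination W q * hII p - W p * hII q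
    rw [e, abs_mul, abs_of_pos hG]
    have h1 : |(z.1 * V p - z.2 * W p - m * w p) * W q -
        (z.1 * V q - z.2 * W q - m * w q) * W p| ≤ 2 * J * (B : ℤ) ^ k := by
      have a1 : |(z.1 * V p - z.2 * W p - m * w p) * W q| ≤ J * (B : ℤ) ^ k := by
        rw [abs_mul]
        exact mul_le_mul (hnear p).le (hW q) (abs_nonneg _) (by positivity)
      have a2 : |(z.1 * V q - z.2 * W q - m * w q) * W p| ≤ J * (B : ℤ) ^ k := by
        rw [abs_mul]
        exact mul_le_mul (hnear q).le (hW p) (abs_nonneg _) (by positivity)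
      calc _ ≤ |(z.1 * V p - z.2 * W p - m * w p) * W q| +
            |(z.1 * V q - z.2 * W q - m * w q) * W p| := abs_sub _ _
        _ ≤ 2 * J * (B : ℤ) ^ k := by linarith
    calc G * _ ≤ G * (2 * J * (B : ℤ) ^ k) := mul_le_mul_of_nonneg_left h1 hG.le
      _ = _ := by ring
  · rw [← abs_mul]
    have e : (G * z.2 + m * Q) * D = G * ((z.1 * V p - z.2 * W p - m * w p) * V q -
        (z.1 * V q - z.2 * W q - m * w q) * V p) := by
      rw [hD]
      linear_combination V q * hII p - V p * hII q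
    rw [e, abs_mul, abs_of_pos hG]
    have h1 : |(z.1 * V p - z.2 * W p - m * w p) * V q -
        (z.1 * V q - z.2 * W q - m * w q) * V p| ≤ 2 * J * (B : ℤ) ^ k := by
      have a1 : |(z.1 * V p - z.2 * W p - m * w p) * V q| ≤ J * (B : ℤ) ^ k := by
        rw [abs_mul]
        exact mul_le_mul (hnear p).le (hV q) (abs_nonneg _) (by positivity)
      have a2 : |(z.1 * V q - z.2 * W q - m * w q) * V p| ≤ J * (B : ℤ) ^ k := by
        rw [abs_mul]
        exact mul_le_mul (hnear q).le (hV p) (abs_nonneg _) (by positivity)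
      calc _ ≤ |(z.1 * V p - z.2 * W p - m * w p) * V q| +
            |(z.1 * V q - z.2 * W q - m * w q) * V p| := abs_sub _ _
        _ ≤ 2 * J * (B : ℤ) ^ k := by linarith
    calc G * _ ≤ G * (2 * J * (B : ℤ) ^ k) := mul_le_mul_of_nonneg_left h1 hG.le
      _ = _ := by ring

theorem psiN_eq (m K L : ℕ) (i : ℤ) : psiN m K L i =
    ‖(1 / (2 * L + 1 : ℂ)) * ∑ t ∈ Finset.Icc (-(L : ℤ)) L,
    (1 - Complex.exp (((2 * Real.pi * (-(i * (K * t)) : ℤ) / m : ℝ) : ℂ) * I))‖ := by
  unfold psiN
  congr 1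
  rw [Finset.sum_sub_distrib, Finset.sum_const, Int.card_Icc]
  have h1 : ((L : ℤ) + 1 - -(L : ℤ)).toNat = 2 * L + 1 := by omega
  rw [h1, nsmul_eq_mul, mul_one, mul_sub]
  congr 1
  have : (2 * (L : ℂ) + 1) ≠ 0 := by
    have : (2 * (L : ℝ) + 1) ≠ 0 := by positivity
    exact_mod_cast this
  push_cast
  field_simp

theorem psiN_le_of (m K L : ℕ) (i : ℤ) (b : ℝ)
    (h : ∀ t ∈ Finset.Icc (-(L : ℤ)) L,
      ‖1 - Complex.exp (((2 * Real.pi * (-(i * (K * t)) : ℤ) / m : ℝ) : ℂ) * I)‖ ≤ b) :
    psiN m K L i ≤ b := by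
  rw [psiN_eq, norm_mul]
  have h2 : ‖∑ t ∈ Finset.Icc (-(L : ℤ)) L,
    (1 - Complex.exp (((2 * Real.pi * (-(i * (K * t)) : ℤ) / m : ℝ) : ℂ) * I))‖ ≤ (2 * L + 1) * b := by
    refine (norm_sum_le _ _).trans ((Finset.sum_le_sum h).trans ?_)
    rw [Finset.sum_const, Int.card_Icc]
    have h1 : ((L : ℤ) + 1 - -(L : ℤ)).toNat = 2 * L + 1 := by omega
    rw [h1, nsmul_eq_mul]
    push_cast
    exact le_rfl
  have h3 : ‖(1 / (2 * L + 1 : ℂ))‖ = 1 / (2 * L + 1 : ℝ) := by
    rw [norm_div, norm_one]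
    congr 1
    have : (2 * (L : ℂ) + 1) = ((2 * L + 1 : ℕ) : ℂ) := by push_cast; ring
    rw [this, Complex.norm_natCast]
    push_cast; ring
  rw [h3]
  calc 1 / (2 * L + 1 : ℝ) * _ ≤ 1 / (2 * L + 1 : ℝ) * ((2 * L + 1) * b) :=
        mul_le_mul_of_nonneg_left h2 (by positivity)
    _ = b := by
        have : (2 * (L : ℝ) + 1) ≠ 0 := by positivity
        field_simp

theorem psiN_le_two (m K L : ℕ) (i : ℤ) : psiN m K L i ≤ 2 := by
  apply psiN_le_of
  intro t _
  calc _ ≤ ‖(1 : ℂ)‖ + ‖Complex.exp (((2 * Real.pi * (-(i * (K * t)) : ℤ) / m : ℝ) : ℂ) * I)‖ :=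
        norm_sub_le _ _
    _ = 2 := by rw [norm_one, Complex.norm_exp_ofReal_mul_I]; norm_num

theorem psiN_le_close (m K L : ℕ) (hm : 0 < m) (i G P I0 : ℤ) (hG : 0 < G) (hGK : G ∣ K)
    (hI : G * i = m * P + I0) :
    psiN m K L i ≤ 2 * Real.pi * (K * L * |(I0 : ℝ)|) / (G * m) := by
  obtain ⟨K', hK'⟩ := hGK
  have hm' : (0 : ℝ) < m := by exact_mod_cast hm
  have hG' : (0 : ℝ) < G := by exact_mod_cast hG
  apply psiN_le_of
  intro t ht
  have hz : i * (K * t) = K' * t * (m * P) + K' * t * I0 := by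
    rw [hK']; linear_combination K' * t * hI
  have e1 : Complex.exp (((2 * Real.pi * (-(i * (K * t)) : ℤ) / m : ℝ) : ℂ) * I) =
      Complex.exp (I * ((-(2 * Real.pi * (K' * t * I0) / m) : ℝ) : ℂ)) := by
    rw [hz]
    have e2 : (((2 * Real.pi * ((-(K' * t * (m * P) + K' * t * I0) : ℤ)) / m : ℝ) : ℂ) * I) =
        I * ((-(2 * Real.pi * (K' * t * I0) / m) : ℝ) : ℂ) + ((-(K' * t * P) : ℤ) : ℂ) * (2 * Real.pi * I) := by
      have hmc : (m : ℂ) ≠ 0 := by exact_mod_cast hm.ne'
      push_cast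
      field_simp
      ring
    rw [e2, Complex.exp_add, Complex.exp_int_mul_two_pi_mul_I, mul_one]
  rw [e1, norm_sub_rev]
  refine (Real.norm_exp_I_mul_ofReal_sub_one_le).trans ?_
  rw [Real.norm_eq_abs, abs_neg, abs_div, abs_of_pos hm', abs_mul, abs_mul, abs_mul, abs_mul,
    abs_of_pos (by norm_num : (0:ℝ) < 2), abs_of_pos Real.pi_pos]
  have hK'' : (K : ℝ) = G * K' := by exact_mod_cast hK'
  have hK'0 : (0 : ℝ) ≤ K' := by
    have : (0 : ℝ) ≤ G * K' := by rw [← hK'']; positivity
    exact nonneg_of_mul_nonneg_right this hG'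
  rw [abs_of_nonneg hK'0]
  have ht' : |(t : ℝ)| ≤ L := by
    rw [Finset.mem_Icc] at ht
    have : |t| ≤ L := abs_le.mpr ht
    exact_mod_cast this
  rw [div_le_div_iff₀ hm' (by positivity), hK'']
  have h5 : (K' : ℝ) * |(t : ℝ)| * |(I0 : ℝ)| ≤ K' * L * |(I0 : ℝ)| := by
    apply mul_le_mul_of_nonneg_right _ (abs_nonneg _)
    exact mul_le_mul_of_nonneg_left ht' hK'0
  have h6 : 0 ≤ 2 * Real.pi * (G * m) := by positivity
  have h7 := mul_le_mul_of_nonneg_left h5 h6
  linarith

end Pool.Agent.H888.DH
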