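import Mathlib

set_option linter.unusedVariables false
set_option linter.unusedSectionVars false
set_option linter.style.haveILetI false

namespace Pool.Agent.H888.DH

open Finset

/-- Solutions modulo `N` of `a₀ n^k + ∑ a_l z_l^k = 0`. -/
def SolN (k r : ℕ) (a : Fin (r + 1) → ℤ) (n N : ℕ) [NeZero N] : Finset (Fin r → ZMod N) :=
  Finset.univ.filter (fun z => (a 0 : ZMod N) * (n : ZMod N) ^ k + ∑ l, (a (Fin.succ l) : ZMod N) * (z l) ^ k = 0)

theorem mem_SolN {k r : ℕ} {a : Fin (r + 1) → ℤ} {n N : ℕ} [NeZero N] {z : Fin r → ZMod N} :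
    z ∈ SolN k r a n N ↔
      (a 0 : ZMod N) * (n : ZMod N) ^ k + ∑ l, (a (Fin.succ l) : ZMod N) * (z l) ^ k = 0 := by
  simp [SolN]

theorem card_SolN_mul (k r : ℕ) (a : Fin (r + 1) → ℤ) (n : ℕ) {x y : ℕ} [NeZero x] [NeZero y]
    [NeZero (x * y)] (h : x.Coprime y) :
    (SolN k r a n x).card * (SolN k r a n y).card ≤ (SolN k r a n (x * y)).card := by
  classical
  rw [← Finset.card_product]
  let e := ZMod.chineseRemainder h
  apply Finset.card_le_card_of_injOn (fun z l => e.symm (z.1 l, z.2 l))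
  · intro z hz
    simp only [Finset.coe_product, Set.mem_prod, Finset.mem_coe] at hz
    rw [Finset.mem_coe, mem_SolN]
    have h1 := mem_SolN.mp hz.1
    have h2 := mem_SolN.mp hz.2
    apply e.injective
    rw [map_add, map_mul, map_pow, map_sum, map_zero, map_intCast, map_natCast]
    have h3 : ∀ l, e ((a (Fin.succ l) : ZMod (x * y)) * (e.symm (z.1 l, z.2 l)) ^ k) =
        ((a (Fin.succ l) : ZMod x) * (z.1 l) ^ k, (a (Fin.succ l) : ZMod y) * (z.2 l) ^ k) := by
      intro l
      rw [map_mul, map_pow, RingEquiv.apply_symm_apply, map_intCast]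
      rfl
    simp only [h3]
    apply Prod.ext
    · simp only [Prod.fst_add, Prod.fst_mul, Prod.pow_fst, Prod.fst_intCast, Prod.fst_natCast,
        Prod.fst_sum, Prod.fst_zero]
      exact h1
    · simp only [Prod.snd_add, Prod.snd_mul, Prod.pow_snd, Prod.snd_intCast, Prod.snd_natCast,
        Prod.snd_sum, Prod.snd_zero]
      exact h2
  · intro z _ z' _ hzz
    have h1 : ∀ l, (z.1 l, z.2 l) = (z'.1 l, z'.2 l) := by
      intro l
      exact e.symm.injective (congrFun hzz l)
    apply Prod.ext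
    · funext l; exact congrArg Prod.fst (h1 l)
    · funext l; exact congrArg Prod.snd (h1 l)

/-- Product lower bound for the number of solutions. -/
theorem card_SolN_lower (k r : ℕ) (a : Fin (r + 1) → ℤ) (n : ℕ) (w : ℕ → ℝ)
    (hw : ∀ p : ℕ, p.Prime → 0 ≤ w p)
    (h : ∀ p : ℕ, p.Prime → ∀ m : ℕ, 0 < m → ∀ _ : NeZero (p ^ m),
      w p * ((p : ℝ) ^ m) ^ (r - 1) ≤ (SolN k r a n (p ^ m)).card) (N : ℕ) [NeZero N] :
    (∏ p ∈ N.primeFactors, w p) * (N : ℝ) ^ (r - 1) ≤ (SolN k r a n N).card := by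
  classical
  have key : ∀ N : ℕ, ∀ _ : NeZero N,
      (∏ p ∈ N.primeFactors, w p) * (N : ℝ) ^ (r - 1) ≤ (SolN k r a n N).card := by
    intro N
    induction N using Nat.recOnPosPrimePosCoprime with
    | prime_pow p m hp hm =>
      intro inst
      rw [Nat.primeFactors_prime_pow hm.ne' hp, Finset.prod_singleton]
      push_cast
      exact h p hp m hm inst
    | zero => intro h; exact absurd rfl h.out
    | one =>
      intro _
      simp only [Nat.primeFactors_one, Finset.prod_empty, Nat.cast_one, one_pow, one_mul]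
      have : (0 : Fin r → ZMod 1) ∈ SolN k r a n 1 := by
        rw [mem_SolN]; exact Subsingleton.elim _ _
      exact_mod_cast Finset.card_pos.mpr ⟨_, this⟩
    | coprime x y hx hy hxy ihx ihy =>
      intro _
      haveI : NeZero x := ⟨by omega⟩
      haveI : NeZero y := ⟨by omega⟩
      rw [Nat.Coprime.primeFactors_mul hxy, Finset.prod_union hxy.disjoint_primeFactors]
      have h1 := ihx inferInstance
      have h2 := ihy inferInstance
      have h3 := card_SolN_mul k r a n hxy
      have h4 : 0 ≤ (∏ p ∈ y.primeFactors, w p) * (y : ℝ) ^ (r - 1) :=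
        mul_nonneg (Finset.prod_nonneg (fun p hp => hw p (Nat.prime_of_mem_primeFactors hp)))
          (by positivity)
      calc ((∏ p ∈ x.primeFactors, w p) * ∏ p ∈ y.primeFactors, w p) * ((x * y : ℕ) : ℝ) ^ (r - 1)
          = ((∏ p ∈ x.primeFactors, w p) * (x : ℝ) ^ (r - 1)) *
            ((∏ p ∈ y.primeFactors, w p) * (y : ℝ) ^ (r - 1)) := by
            push_cast; rw [mul_pow]; ring
        _ ≤ ((SolN k r a n x).card : ℝ) * (SolN k r a n y).card :=
            mul_le_mul h1 h2 h4 (by positivity)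
        _ ≤ _ := by exact_mod_cast h3
  exact key N inferInstance

end Pool.Agent.H888.DH
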