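import Pool.Agent.H888.DH.Loc9

set_option linter.unusedVariables false
set_option linter.unusedSectionVars false
set_option linter.style.haveILetI false

namespace Pool.Agent.H888.DH

open Finset

theorem exists_root_floor (e H : ℕ) (he : 1 ≤ e) : ∃ R : ℕ, R ^ e ≤ H ∧ H < (R + 1) ^ e := by
  classical
  have hex : ∃ R : ℕ, H < (R + 1) ^ e :=
    ⟨H, lt_of_lt_of_le (Nat.lt_succ_self H) (by
      calc H + 1 = (H + 1) ^ 1 := (pow_one _).symm
        _ ≤ (H + 1) ^ e := Nat.pow_le_pow_right (by omega) he)⟩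
  refine ⟨Nat.find hex, ?_, Nat.find_spec hex⟩
  rcases Nat.eq_zero_or_pos (Nat.find hex) with h | h
  · rw [h, zero_pow (by omega)]; exact Nat.zero_le _
  · have := Nat.find_min hex (m := Nat.find hex - 1) (by omega)
    rw [Nat.sub_add_cancel h] at this
    exact not_lt.mp this

theorem mixed_bound (k r : ℕ) (hk : 3 ≤ k) (hr : 2 * k + 1 ≤ r) (ε : ℝ) (hε : 0 < ε) :
    ∃ H0 : ℕ, ∀ H : ℕ, H0 ≤ H → ∀ F : Finset (Fin (r + 1) → ℤ),
      (∀ a ∈ F, a ∈ boxA (r + 1) H ∧ (∀ p : ℕ, ∀ _ : Fact p.Prime, Sol ℚ_[p] k (r + 1) a) ∧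
        ¬ SolB k (r + 1) H a ∧ Mixed a) →
      (F.card : ℝ) ≤ ε * (H : ℝ) ^ (r + 1) := by
  classical
  have hr7 : 7 ≤ r := by omega
  -- ε1
  set ε1 : ℝ := min 1 (ε / (4 * ((r + 1) * 3 ^ (r + 1)))) with hε1d
  have hε1 : 0 < ε1 := lt_min one_pos (by positivity)
  have hε1' : ε1 ≤ 1 := min_le_left _ _
  have hε1'' : (r + 1) * ε1 * 3 ^ (r + 1) ≤ ε / 4 := by
    have h : ε1 ≤ ε / (4 * ((r + 1) * 3 ^ (r + 1))) := min_le_right _ _
    rw [le_div_iff₀ (by positivity)] at h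
    linarith
  -- p0
  obtain ⟨p0', hp0'⟩ := exists_nat_ge (4 * (((k ^ r + r ^ 2 : ℕ) : ℝ) * 3 ^ (r + 1)) / ε)
  set p0 := max p0' (max 4 k) with hp0d
  have hp04 : 4 ≤ p0 := (le_max_left _ _).trans (le_max_right _ _)
  have hkp0 : k ≤ p0 := (le_max_right _ _).trans (le_max_right _ _)
  have hp0R : (0 : ℝ) < p0 := by exact_mod_cast (by omega : 0 < p0)
  have hp0e : ((k ^ r + r ^ 2 : ℕ) : ℝ) * 3 ^ (r + 1) / p0 ≤ ε / 4 := by
    have h1 : 4 * (((k ^ r + r ^ 2 : ℕ) : ℝ) * 3 ^ (r + 1)) / ε ≤ p0 := by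
      refine hp0'.trans ?_
      exact_mod_cast le_max_left _ _
    rw [div_le_iff₀ hε] at h1
    rw [div_le_iff₀ hp0R]
    linarith
  -- M
  obtain ⟨M, hM⟩ := exists_nat_ge ((p0 + 1) * (r + 1) * 3 ^ (r + 1) * 4 / ε)
  have hMe : ((p0 : ℝ) + 1) * (r + 1) * (3 ^ (r + 1) / 2 ^ (M + 1)) ≤ ε / 4 := by
    have h2 : (M : ℝ) ≤ 2 ^ (M + 1) := by
      have : M < 2 ^ M := Nat.lt_two_pow_self
      have h3 : M ≤ 2 ^ (M + 1) := by rw [pow_succ]; omega
      exact_mod_cast h3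
    have h1 : (p0 + 1) * (r + 1) * 3 ^ (r + 1) * 4 / ε ≤ (2 : ℝ) ^ (M + 1) := hM.trans h2
    rw [div_le_iff₀ hε] at h1
    rw [mul_div_assoc', div_le_iff₀ (by positivity)]
    linarith
  -- n
  set Nm := nmax p0 (2 * (k + M) + 1) with hNm
  set σ0 := sig0 r p0 (2 * (k + M) + 1) with hσ0d
  have hσ0 : 0 < σ0 := sig0_pos _ _ _
  obtain ⟨C0', hC0'⟩ := exists_nat_ge (64 * r / ε1 ^ 2)
  set C0 := max C0' 8 with hC0d
  have hC08 : 8 ≤ C0 := le_max_right _ _
  have hC0 : 64 * r / ε1 ^ 2 ≤ C0 := hC0'.trans (by exact_mod_cast le_max_left _ _)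
  set δ : ℝ := ε / (4 * (Nm + 1)) with hδd
  have hδ : 0 < δ := by positivity
  have hper : ∀ n : ℕ, ∃ G R1 : ℕ, 1 ≤ n → ∀ R A : ℕ, R1 ≤ R → R ^ eA k r ≤ A → A < (R + 1) ^ eA k r →
      ∀ W : Finset (Fin (r + 1) → ℤ), (∀ a ∈ W, a ∈ boxA (r + 1) A ∧ ¬ SolB k (r + 1) A a ∧ Mixed a ∧
        (∀ o, ε1 * A ≤ |(a o : ℝ)|) ∧ ∀ _ : NeZero (n ^ k * G.factorial),
          σ0 * ((n ^ k * G.factorial : ℕ) : ℝ) ^ (r - 1) ≤ (SolN k r a n (n ^ k * G.factorial)).card) →
      (W.card : ℝ) ≤ δ * (A : ℝ) ^ (r + 1) := by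
    intro n
    by_cases hn : 1 ≤ n
    · obtain ⟨G, R1, h⟩ := per_n k r n C0 hk hr hn ε1 σ0 hε1 hε1' hσ0 hC08 hC0 δ hδ
      exact ⟨G, R1, fun _ => h⟩
    · exact ⟨0, 0, fun h => absurd h hn⟩
  choose G R1 hGR using hper
  set Gm := (Finset.Icc 1 Nm).sup G with hGm
  set Rm := (Finset.Icc 1 Nm).sup R1 with hRm
  have heA : 1 ≤ eA k r := by
    unfold eA N0
    have : 4 * 4 ≤ (r + k * r ^ 2 + 4) * (k + 1) := Nat.mul_le_mul (by omega) (by omega)
    omega
  obtain ⟨He, hHe⟩ := exists_nat_ge (1 / ε1)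
  refine ⟨max (max 1 He) (max (p0 ^ (M + 1)) (max Gm (Rm ^ eA k r))), ?_⟩
  intro H hH F hF
  have hH1 : 1 ≤ H := ((le_max_left _ _).trans (le_max_left _ _)).trans hH
  have hH2 : He ≤ H := ((le_max_right _ _).trans (le_max_left _ _)).trans hH
  have hH3 : p0 ^ (M + 1) ≤ H := ((le_max_left _ _).trans (le_max_right _ _)).trans hH
  have hH4 : Gm ≤ H := ((le_max_left _ _).trans ((le_max_right _ _).trans (le_max_right _ _))).trans hH
  have hH5 : Rm ^ eA k r ≤ H :=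
    ((le_max_right _ _).trans ((le_max_right _ _).trans (le_max_right _ _))).trans hH
  have hHR : (1 : ℝ) ≤ H := by exact_mod_cast hH1
  have hH2' : 1 ≤ ε1 * H := by
    have h1 : 1 / ε1 ≤ (H : ℝ) := hHe.trans (by exact_mod_cast hH2)
    rw [div_le_iff₀ hε1] at h1
    linarith
  obtain ⟨R, hR1, hR2⟩ := exists_root_floor (eA k r) H heA
  have hRmR : Rm ≤ R := by
    by_contra hcon
    push Not at hcon
    have : (R + 1) ^ eA k r ≤ Rm ^ eA k r := Nat.pow_le_pow_left (by omega) _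
    omega
  set E1 := F.filter (fun a => ∃ o, |(a o : ℝ)| < ε1 * H) with hE1
  set E2 := F.filter (fun a => ∃ p : ℕ, p.Prime ∧ p ≤ p0 ∧ ∃ o, (p : ℤ) ^ (M + 1) ∣ a o) with hE2
  set E3 := F.filter (fun a => ∃ p : ℕ, ∃ _ : Fact p.Prime, p0 < p ∧ p ≤ Gm ∧
      (fun o => ((a o : ℤ) : ZMod p)) ∈ BadP k r p) with hE3
  set WW := fun n : ℕ => F.filter (fun a => (∀ o, ε1 * H ≤ |(a o : ℝ)|) ∧
      ∀ _ : NeZero (n ^ k * (G n).factorial),
          σ0 * ((n ^ k * (G n).factorial : ℕ) : ℝ) ^ (r - 1) ≤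
            (SolN k r a n (n ^ k * (G n).factorial)).card) with hWW
  have hsub : F ⊆ (E1 ∪ E2) ∪ (E3 ∪ (Finset.Icc 1 Nm).biUnion WW) := by
    intro a ha
    by_contra hcon
    simp only [Finset.mem_union, not_or] at hcon
    obtain ⟨⟨h1, h2⟩, h3, h4⟩ := hcon
    obtain ⟨hab, hels, hns, hmx⟩ := hF a ha
    have h1' : ∀ o, ε1 * H ≤ |(a o : ℝ)| := by
      intro o
      by_contra hc
      push Not at hc
      exact h1 (Finset.mem_filter.mpr ⟨ha, o, hc⟩)
    have h2' : ∀ p : ℕ, p.Prime → p ≤ p0 → ∀ o, ¬ (p : ℤ) ^ (M + 1) ∣ a o := by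
      intro p hp hpp o hd
      exact h2 (Finset.mem_filter.mpr ⟨ha, p, hp, hpp, o, hd⟩)
    obtain ⟨n, hn1, hn2, hG⟩ := sigma_lower k r hk hr7 p0 M hp04 hkp0 a hels h2'
    apply h4
    rw [Finset.mem_biUnion]
    refine ⟨n, Finset.mem_Icc.mpr ⟨hn1, hn2⟩, ?_⟩
    rw [hWW, Finset.mem_filter]
    refine ⟨ha, h1', ?_⟩
    apply hG (G n)
    intro p hp hp1 hp2 hbad
    apply h3
    rw [hE3, Finset.mem_filter]
    refine ⟨ha, p, hp, hp1, hp2.trans ?_, hbad⟩
    exact Finset.le_sup (f := G) (Finset.mem_Icc.mpr ⟨hn1, hn2⟩)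
  have c1 : (E1.card : ℝ) ≤ ε / 4 * (H : ℝ) ^ (r + 1) := by
    refine (card_E1 r H ε1 hε1 hH2' E1 (fun a ha => ?_)).trans (by gcongr)
    rw [hE1, Finset.mem_filter] at ha
    exact ⟨(hF a ha.1).1, ha.2⟩
  have c2 : (E2.card : ℝ) ≤ ε / 4 * (H : ℝ) ^ (r + 1) := by
    refine (card_E2 r H p0 M hH3 hH1 E2 (fun a ha => ?_)).trans (by gcongr)
    rw [hE2, Finset.mem_filter] at ha
    exact ⟨(hF a ha.1).1, ha.2⟩
  have c3 : (E3.card : ℝ) ≤ ε / 4 * (H : ℝ) ^ (r + 1) := by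
    refine (card_E3 k r H p0 Gm (by omega) hr7 (by omega) hH4 hH1 E3 (fun a ha => ?_)).trans (by gcongr)
    rw [hE3, Finset.mem_filter] at ha
    exact ⟨(hF a ha.1).1, ha.2⟩
  have c4 : ((((Finset.Icc 1 Nm).biUnion WW).card : ℕ) : ℝ) ≤ ε / 4 * (H : ℝ) ^ (r + 1) := by
    have h1 : ∀ n ∈ Finset.Icc 1 Nm, ((WW n).card : ℝ) ≤ δ * (H : ℝ) ^ (r + 1) := by
      intro n hn
      have hn' := Finset.mem_Icc.mp hn
      apply hGR n hn'.1 R H ((Finset.le_sup (f := R1) hn).trans hRmR) hR1 hR2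
      intro a ha
      rw [hWW, Finset.mem_filter] at ha
      obtain ⟨hab, hels, hns, hmx⟩ := hF a ha.1
      exact ⟨hab, hns, hmx, ha.2.1, ha.2.2⟩
    calc ((((Finset.Icc 1 Nm).biUnion WW).card : ℕ) : ℝ) ≤ ∑ n ∈ Finset.Icc 1 Nm, ((WW n).card : ℝ) := by
          exact_mod_cast Finset.card_biUnion_le
      _ ≤ ∑ n ∈ Finset.Icc 1 Nm, δ * (H : ℝ) ^ (r + 1) := Finset.sum_le_sum h1
      _ = Nm * (δ * (H : ℝ) ^ (r + 1)) := by
          rw [Finset.sum_const, Nat.card_Icc, nsmul_eq_mul]; simp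
      _ ≤ (Nm + 1) * (δ * (H : ℝ) ^ (r + 1)) := by
          have : (0 : ℝ) ≤ δ * (H : ℝ) ^ (r + 1) := by positivity
          linarith
      _ = _ := by rw [hδd]; field_simp
  have hcard : F.card ≤ (E1.card + E2.card) + (E3.card + ((Finset.Icc 1 Nm).biUnion WW).card) :=
    (Finset.card_le_card hsub).trans ((Finset.card_union_le _ _).trans
      (Nat.add_le_add (Finset.card_union_le _ _) (Finset.card_union_le _ _)))
  have hcardR : (F.card : ℝ) ≤ (E1.card + E2.card) + (E3.card + ((Finset.Icc 1 Nm).biUnion WW).card) := by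
    exact_mod_cast hcard
  linarith

theorem sol_perm {F : Type*} [Ring F] {k s : ℕ} {a : Fin s → ℤ} (σ : Equiv.Perm (Fin s))
    (h : Sol F k s a) : Sol F k s (a ∘ σ) := by
  obtain ⟨x, hx, hs⟩ := h
  refine ⟨x ∘ σ, ?_, ?_⟩
  · intro h0
    apply hx
    funext i
    have := congrFun h0 (σ.symm i)
    simpa using this
  · rw [← hs]
    exact Equiv.sum_comp σ (fun i => (a i : F) * x i ^ k)

/-- sign change on coordinate 1 -/
def sgn1 {r : ℕ} (i : Fin (r + 1)) : ℤ := if i = 1 then -1 else 1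

theorem sgn1_mul_self {r : ℕ} (i : Fin (r + 1)) : sgn1 i * sgn1 i = 1 := by
  unfold sgn1; split_ifs <;> norm_num

theorem sol_neg {F : Type*} [Field F] {k r : ℕ} (hk : Odd k) {a : Fin (r + 1) → ℤ}
    (h : Sol F k (r + 1) a) : Sol F k (r + 1) (fun i => sgn1 i * a i) := by
  obtain ⟨x, hx, hs⟩ := h
  refine ⟨fun i => (sgn1 i : F) * x i, ?_, ?_⟩
  · intro h0
    apply hx
    funext i
    have := congrFun h0 i
    simp only [Pi.zero_apply, mul_eq_zero] at this ⊢
    rcases this with h | h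
    · exfalso
      have h2 : ((sgn1 i * sgn1 i : ℤ) : F) = 0 := by push_cast; rw [h, zero_mul]
      rw [sgn1_mul_self] at h2
      simp at h2
    · exact h
  · rw [← hs]
    apply Finset.sum_congr rfl
    intro i _
    have h1 : ((sgn1 i : ℤ) : F) ^ k = sgn1 i := by
      unfold sgn1
      split_ifs
      · push_cast; exact hk.neg_one_pow
      · simp
    have h2 : ((sgn1 i : ℤ) : F) * sgn1 i = 1 := by
      have := sgn1_mul_self i
      exact_mod_cast congrArg (fun z : ℤ => (z : F)) this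
    rw [mul_pow, h1]
    push_cast
    calc (sgn1 i : F) * (a i : F) * ((sgn1 i : F) * x i ^ k) = ((sgn1 i : F) * sgn1 i) * (a i * x i ^ k) := by ring
      _ = _ := by rw [h2, one_mul]

theorem solB_perm {k s H : ℕ} {a : Fin s → ℤ} (σ : Equiv.Perm (Fin s))
    (h : SolB k s H a) : SolB k s H (a ∘ σ) := by
  obtain ⟨x, hx, hb, hs⟩ := h
  refine ⟨x ∘ σ, ?_, fun i => hb _, ?_⟩
  · intro h0
    apply hx
    funext i
    have := congrFun h0 (σ.symm i)
    simpa using this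
  · rw [← hs]
    exact Equiv.sum_comp σ (fun i => a i * x i ^ k)

theorem solB_neg {k r H : ℕ} (hk : Odd k) {a : Fin (r + 1) → ℤ}
    (h : SolB k (r + 1) H a) : SolB k (r + 1) H (fun i => sgn1 i * a i) := by
  obtain ⟨x, hx, hb, hs⟩ := h
  refine ⟨fun i => sgn1 i * x i, ?_, ?_, ?_⟩
  · intro h0
    apply hx
    funext i
    have := congrFun h0 i
    simp only [Pi.zero_apply, mul_eq_zero] at this ⊢
    rcases this with h | h
    · exfalso
      have h2 := sgn1_mul_self i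
      rw [h] at h2
      simp at h2
    · exact h
  · intro i
    have h1 : |sgn1 i * x i| = |x i| := by
      unfold sgn1
      split_ifs
      · rw [neg_one_mul, abs_neg]
      · rw [one_mul]
    rw [h1]
    exact hb i
  · rw [← hs]
    apply Finset.sum_congr rfl
    intro i _
    have h1 : (sgn1 i : ℤ) ^ k = sgn1 i := by
      unfold sgn1
      split_ifs
      · exact hk.neg_one_pow
      · simp
    have h2 := sgn1_mul_self i
    rw [mul_pow, h1]
    calc sgn1 i * a i * (sgn1 i * x i ^ k) = (sgn1 i * sgn1 i) * (a i * x i ^ k) := by ring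
      _ = _ := by rw [h2, one_mul]

theorem sol_of_zero {F : Type*} [Field F] {k s : ℕ} (hk : 1 ≤ k) {a : Fin s → ℤ} (o : Fin s) (h : a o = 0) :
    Sol F k s a := by
  classical
  refine ⟨Pi.single o 1, ?_, ?_⟩
  · intro h0
    have := congrFun h0 o
    simp at this
  · apply Finset.sum_eq_zero
    intro i _
    by_cases hi : i = o
    · subst hi; rw [h]; simp
    · rw [Pi.single_eq_of_ne hi, zero_pow (by omega), mul_zero]

theorem sol_real_sign {k s : ℕ} (hk : Even k) {a : Fin s → ℤ} (h : Sol ℝ k s a)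
    (hpos : ∀ i j, 0 < a i * a j) : False := by
  obtain ⟨x, hx, hs⟩ := h
  have hne : ∃ o, x o ≠ 0 := by
    by_contra hc
    push Not at hc
    exact hx (funext hc)
  obtain ⟨o, ho⟩ := hne
  have h1 : ∑ i, ((a o * a i : ℤ) : ℝ) * x i ^ k = 0 := by
    have : ∑ i, ((a o * a i : ℤ) : ℝ) * x i ^ k = (a o : ℝ) * ∑ i, (a i : ℝ) * x i ^ k := by
      rw [Finset.mul_sum]
      apply Finset.sum_congr rfl
      intro i _
      push_cast; ring
    rw [this, hs, mul_zero]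
  have h2 : ∀ i ∈ Finset.univ, 0 ≤ ((a o * a i : ℤ) : ℝ) * x i ^ k := by
    intro i _
    have : (0 : ℝ) < ((a o * a i : ℤ) : ℝ) := by exact_mod_cast hpos o i
    exact mul_nonneg this.le (hk.pow_nonneg _)
  have h3 := (Finset.sum_eq_zero_iff_of_nonneg h2).mp h1 o (Finset.mem_univ o)
  have h4 : (0 : ℝ) < ((a o * a o : ℤ) : ℝ) := by exact_mod_cast hpos o o
  rcases mul_eq_zero.mp h3 with h | h
  · exact h4.ne' h
  · have hk0 : k ≠ 0 := by
      rintro rfl
      simp at h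
    exact ho ((pow_eq_zero_iff hk0).mp h)

theorem mixed_cases (k r : ℕ) (hr : 2 ≤ r) (hk : 1 ≤ k) (a : Fin (r + 1) → ℤ) (hR : Sol ℝ k (r + 1) a)
    (hne : ∀ o, a o ≠ 0) :
    Mixed a ∨ Mixed (a ∘ Equiv.swap 0 1) ∨ (Odd k ∧ Mixed (fun i => sgn1 i * a i)) := by
  by_cases hM : Mixed a
  · exact Or.inl hM
  right
  have hpos : ∀ i j : Fin r, 0 < a i.succ * a j.succ := by
    intro i j
    rcases lt_trichotomy (a i.succ * a j.succ) 0 with h | h | h
    · exact absurd ⟨i, j, h⟩ hM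
    · rcases mul_eq_zero.mp h with h | h
      · exact absurd h (hne _)
      · exact absurd h (hne _)
    · exact h
  obtain ⟨r', rfl⟩ : ∃ r', r = r' + 2 := ⟨r - 2, by omega⟩
  have h1 : (1 : Fin (r' + 2 + 1)) = Fin.succ 0 := rfl
  have h2 : (2 : Fin (r' + 2 + 1)) = Fin.succ 1 := rfl
  have h20 : (2 : Fin (r' + 2 + 1)) ≠ 0 := by rw [h2]; exact Fin.succ_ne_zero _
  have h21 : (2 : Fin (r' + 2 + 1)) ≠ 1 := by
    intro h
    rw [h1, h2] at h
    have h' := Fin.succ_injective _ h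
    simp at h'
  rcases lt_trichotomy (a 0 * a 1) 0 with h | h | h
  · left
    refine ⟨0, 1, ?_⟩
    rw [← h1, ← h2]
    simp only [Function.comp_apply]
    rw [Equiv.swap_apply_right, Equiv.swap_apply_of_ne_of_ne h20 h21]
    have h12 : 0 < a 1 * a 2 := by rw [h1, h2]; exact hpos 0 1
    have h3 : (a 0 * a 1) * (a 1 * a 2) < 0 := mul_neg_of_neg_of_pos h h12
    have h4 : (a 0 * a 2) * (a 1 * a 1) < 0 := by nlinarith
    have h5 : 0 < a 1 * a 1 := by rw [h1]; exact hpos 0 0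
    by_contra hc
    push Not at hc
    have := mul_nonneg hc h5.le
    linarith
  · rcases mul_eq_zero.mp h with h | h
    · exact absurd h (hne _)
    · exact absurd h (hne _)
  · right
    have hall : ∀ i j, 0 < a i * a j := by
      have h0 : ∀ i, 0 < a i * a 1 := by
        intro i
        refine Fin.cases h (fun i' => ?_) i
        rw [h1]; exact hpos i' 0
      intro i j
      have h5 : 0 < a 1 * a 1 := h0 1
      have h6 := mul_pos (h0 i) (h0 j)
      have h7 : 0 < (a i * a j) * (a 1 * a 1) := by nlinarith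
      by_contra hc
      push Not at hc
      have := mul_nonpos_of_nonpos_of_nonneg hc h5.le
      linarith
    refine ⟨?_, 0, 1, ?_⟩
    · rcases Nat.even_or_odd k with he | ho
      · exact absurd hR (fun h => sol_real_sign he h hall)
      · exact ho
    · rw [← h1, ← h2]
      have e1 : sgn1 (1 : Fin (r' + 2 + 1)) = -1 := by simp [sgn1]
      have e2 : sgn1 (2 : Fin (r' + 2 + 1)) = 1 := by
        unfold sgn1
        rw [if_neg h21]
      show sgn1 1 * a 1 * (sgn1 2 * a 2) < 0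
      rw [e1, e2]
      have := hall 1 2
      linarith

theorem main_bound (k r : ℕ) (hk : 3 ≤ k) (hr : 2 * k + 1 ≤ r) (ε : ℝ) (hε : 0 < ε) :
    ∃ H0 : ℕ, ∀ H : ℕ, H0 ≤ H → ∀ F : Finset (Fin (r + 1) → ℤ),
      (∀ a ∈ F, a ∈ boxA (r + 1) H ∧ (∀ p : ℕ, ∀ _ : Fact p.Prime, Sol ℚ_[p] k (r + 1) a) ∧
        Sol ℝ k (r + 1) a ∧ (∀ o, a o ≠ 0) ∧ ¬ SolB k (r + 1) H a) →
      (F.card : ℝ) ≤ ε * (H : ℝ) ^ (r + 1) := by
  classical
  obtain ⟨H0, hH0⟩ := mixed_bound k r hk hr (ε / 3) (by positivity)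
  refine ⟨H0, fun H hH F hF => ?_⟩
  set F1 := F.filter (fun a => Mixed a) with hF1
  set F2 := F.filter (fun a => Mixed (a ∘ Equiv.swap 0 1)) with hF2
  set F3 := F.filter (fun a => Odd k ∧ Mixed (fun i => sgn1 i * a i)) with hF3
  have hsub : F ⊆ F1 ∪ (F2 ∪ F3) := by
    intro a ha
    obtain ⟨hab, hels, hR, hne, hQ⟩ := hF a ha
    rw [Finset.mem_union, Finset.mem_union]
    rcases mixed_cases k r (by omega) (by omega) a hR hne with h | h | h
    · exact Or.inl (Finset.mem_filter.mpr ⟨ha, h⟩)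
    · exact Or.inr (Or.inl (Finset.mem_filter.mpr ⟨ha, h⟩))
    · exact Or.inr (Or.inr (Finset.mem_filter.mpr ⟨ha, h⟩))
  have c1 : (F1.card : ℝ) ≤ ε / 3 * (H : ℝ) ^ (r + 1) := by
    apply hH0 H hH
    intro a ha
    rw [hF1, Finset.mem_filter] at ha
    obtain ⟨hab, hels, hR, hne, hQ⟩ := hF a ha.1
    exact ⟨hab, hels, hQ, ha.2⟩
  have c2 : (F2.card : ℝ) ≤ ε / 3 * (H : ℝ) ^ (r + 1) := by
    have hinj : Function.Injective (fun a : Fin (r + 1) → ℤ => a ∘ (Equiv.swap (0 : Fin (r + 1)) 1)) := by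
      intro a b h
      funext i
      have := congrFun h (Equiv.swap (0 : Fin (r + 1)) 1 i)
      simpa using this
    rw [← Finset.card_image_of_injective F2 hinj]
    apply hH0 H hH
    intro b hb
    rw [Finset.mem_image] at hb
    obtain ⟨a, ha, rfl⟩ := hb
    rw [hF2, Finset.mem_filter] at ha
    obtain ⟨hab, hels, hR, hne, hQ⟩ := hF a ha.1
    refine ⟨?_, fun p hp => sol_perm _ (hels p hp), ?_, ha.2⟩
    · rw [mem_boxA] at hab ⊢
      intro l
      exact hab _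
    · intro h
      apply hQ
      have := solB_perm (Equiv.swap (0 : Fin (r + 1)) 1) h
      convert this using 1
      funext i
      simp
  have c3 : (F3.card : ℝ) ≤ ε / 3 * (H : ℝ) ^ (r + 1) := by
    have hinv : ∀ a : Fin (r + 1) → ℤ, (fun i => sgn1 i * (sgn1 i * a i)) = a := by
      intro a
      funext i
      rw [← mul_assoc, sgn1_mul_self, one_mul]
    have hinj : Function.Injective (fun a : Fin (r + 1) → ℤ => (fun i => sgn1 i * a i)) := by
      intro a b h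
      rw [← hinv a, ← hinv b]
      funext i
      have := congrFun h i
      simp only at this
      rw [this]
    rw [← Finset.card_image_of_injective F3 hinj]
    apply hH0 H hH
    intro b hb
    rw [Finset.mem_image] at hb
    obtain ⟨a, ha, rfl⟩ := hb
    rw [hF3, Finset.mem_filter] at ha
    obtain ⟨hab, hels, hR, hne, hQ⟩ := hF a ha.1
    refine ⟨?_, fun p hp => sol_neg ha.2.1 (hels p hp), ?_, ha.2.2⟩
    · rw [mem_boxA] at hab ⊢
      intro l
      have h1 : |sgn1 l * a l| = |a l| := by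
        unfold sgn1
        split_ifs
        · rw [neg_one_mul, abs_neg]
        · rw [one_mul]
      rw [h1]
      exact hab l
    · intro h
      apply hQ
      have := solB_neg ha.2.1 h
      rw [hinv a] at this
      exact this
  have hcard : F.card ≤ F1.card + (F2.card + F3.card) :=
    (Finset.card_le_card hsub).trans ((Finset.card_union_le _ _).trans
      (Nat.add_le_add le_rfl (Finset.card_union_le _ _)))
  have hcardR : (F.card : ℝ) ≤ F1.card + (F2.card + F3.card) := by exact_mod_cast hcard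
  linarith

end Pool.Agent.H888.DH
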