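import Pool.Agent.H888.DH.Loc9

set_option linter.unusedVariables false
set_option linter.unusedSectionVars false
set_option linter.style.haveILetI false

namespace Pool.Agent.H888.DH

open Finset

/-- Chevalley–Warning for a diagonal form with sufficiently many unit coefficients. -/
theorem cw_sol {p : ℕ} [hp : Fact p.Prime] (k s : ℕ) (hk : 1 ≤ k) (a : Fin s → ℤ) (U : Finset (Fin s))
    (hU : k + 1 ≤ U.card) :
    ∃ x : Fin s → ZMod p, (∃ j ∈ U, x j ≠ 0) ∧ ∑ i, ((a i : ℤ) : ZMod p) * x i ^ k = 0 := by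
  classical
  set f : MvPolynomial {i // i ∈ U} (ZMod p) :=
    ∑ i : {i // i ∈ U}, MvPolynomial.C ((a i.1 : ℤ) : ZMod p) * MvPolynomial.X i ^ k with hf
  have hdeg : f.totalDegree ≤ k := by
    apply MvPolynomial.totalDegree_finsetSum_le
    intro i _
    refine (MvPolynomial.totalDegree_mul _ _).trans ?_
    rw [MvPolynomial.totalDegree_C, zero_add]
    refine (MvPolynomial.totalDegree_pow _ _).trans ?_
    rw [MvPolynomial.totalDegree_X, mul_one]
  have heval : ∀ x : {i // i ∈ U} → ZMod p, MvPolynomial.eval x f =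
      ∑ i : {i // i ∈ U}, ((a i.1 : ℤ) : ZMod p) * x i ^ k := by
    intro x
    rw [hf, map_sum]
    apply Finset.sum_congr rfl
    intro i _
    simp
  have hcw := char_dvd_card_solutions p (K := ZMod p) (f := f) (by
    rw [Fintype.card_coe]; omega)
  have h0 : MvPolynomial.eval (0 : {i // i ∈ U} → ZMod p) f = 0 := by
    rw [heval]
    apply Finset.sum_eq_zero
    intro i _
    rw [Pi.zero_apply, zero_pow (by omega), mul_zero]
  have hpos : 0 < Fintype.card {x : {i // i ∈ U} → ZMod p // MvPolynomial.eval x f = 0} :=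
    Fintype.card_pos_iff.mpr ⟨⟨0, h0⟩⟩
  have hlt : 1 < Fintype.card {x : {i // i ∈ U} → ZMod p // MvPolynomial.eval x f = 0} :=
    lt_of_lt_of_le hp.out.one_lt (Nat.le_of_dvd hpos hcw)
  obtain ⟨⟨y, h1⟩, hy⟩ := Fintype.exists_ne_of_one_lt_card hlt ⟨0, h0⟩
  have hy0 : y ≠ 0 := fun h => hy (Subtype.ext h)
  obtain ⟨j, hj⟩ := Function.ne_iff.mp hy0
  refine ⟨fun i => if h : i ∈ U then y ⟨i, h⟩ else 0, ⟨j.1, j.2, ?_⟩, ?_⟩
  · simp only [j.2, dif_pos]
    exact hj
  · rw [heval] at h1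
    have h2 : ∑ i : Fin s, ((a i : ℤ) : ZMod p) * (if h : i ∈ U then y ⟨i, h⟩ else 0) ^ k =
        ∑ i : {i // i ∈ U}, ((a i.1 : ℤ) : ZMod p) * y i ^ k := by
      rw [← Finset.sum_subset (Finset.subset_univ U)]
      · rw [← Finset.sum_coe_sort U]
        apply Finset.sum_congr rfl
        intro i _
        simp only [i.2, dif_pos]
      · intro i _ hi
        simp only [hi, dif_neg, not_false_eq_true]
        rw [zero_pow (by omega), mul_zero]
    exact h2.trans h1

section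
variable {p : ℕ} [hp : Fact p.Prime]

theorem sol_of_padicInt {k s : ℕ} (a : Fin s → ℤ) (z : Fin s → ℤ_[p]) (hz : z ≠ 0)
    (h : ∑ i, (a i : ℤ_[p]) * z i ^ k = 0) : Sol ℚ_[p] k s a := by
  refine ⟨fun i => (z i : ℚ_[p]), ?_, ?_⟩
  · intro h0
    apply hz
    funext i
    have := congrFun h0 i
    simpa using this
  · have := congrArg (PadicInt.Coe.ringHom (p := p)) h
    rw [map_sum, map_zero] at this
    rw [← this]
    apply Finset.sum_congr rfl
    intro i _
    rw [map_mul, map_pow, map_intCast]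
    rfl

theorem padic_sol_of_units (k s : ℕ) (hk : 1 ≤ k) (hpk : ¬ p ∣ k) (a : Fin s → ℤ) (U : Finset (Fin s))
    (hU : k + 1 ≤ U.card) (hUa : ∀ i ∈ U, ¬ (p : ℤ) ∣ a i) : Sol ℚ_[p] k s a := by
  classical
  obtain ⟨x, ⟨j, hjU, hj⟩, hx⟩ := cw_sol (p := p) k s hk a U hU
  set y : Fin s → ℤ := fun i => ((x i).val : ℤ) with hy
  have hyx : ∀ i, ((y i : ℤ) : ZMod p) = x i := by
    intro i
    rw [hy]
    simp
  have hpP : Prime (p : ℤ) := Nat.prime_iff_prime_int.mp hp.out
  have hyj : ¬ (p : ℤ) ∣ y j := by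
    intro h
    apply hj
    rw [← hyx j]
    exact (ZMod.intCast_zmod_eq_zero_iff_dvd _ _).mpr h
  have hdiv : (p : ℤ) ∣ ∑ i, a i * y i ^ k := by
    rw [← ZMod.intCast_zmod_eq_zero_iff_dvd]
    push_cast
    rw [← hx]
    apply Finset.sum_congr rfl
    intro i _
    rw [hyx i]
  set C : ℤ := ∑ i ∈ Finset.univ.erase j, a i * y i ^ k with hC
  have hsplit : ∑ i, a i * y i ^ k = a j * y j ^ k + C := by
    rw [hC]
    exact (Finset.add_sum_erase _ (fun i => a i * y i ^ k) (Finset.mem_univ j)).symm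
  obtain ⟨z, hz0, hz1⟩ := hensel_monomial (p := p) k (a j : ℤ_[p]) (C : ℤ_[p]) (y j : ℤ_[p]) 0 (by
      have h1 : (p : ℤ_[p]) ^ 1 ∣ ((a j * y j ^ k + C : ℤ) : ℤ_[p]) := by
        rw [padic_pow_dvd_int, pow_one, ← hsplit]
        exact hdiv
      push_cast at h1
      simpa using h1) (by
      intro h
      have h1 : (p : ℤ_[p]) ^ 1 ∣ ((k * a j * y j ^ (k - 1) : ℤ) : ℤ_[p]) := by
        push_cast
        simpa using h
      rw [padic_pow_dvd_int, pow_one] at h1
      rcases hpP.dvd_or_dvd h1 with h2 | h2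
      · rcases hpP.dvd_or_dvd h2 with h3 | h3
        · exact hpk (by exact_mod_cast h3)
        · exact hUa j hjU h3
      · exact hyj (hpP.dvd_of_dvd_pow h2))
  apply sol_of_padicInt a (fun i => if i = j then z else (y i : ℤ_[p]))
  · intro h0
    have h1 := congrFun h0 j
    simp only [if_true, Pi.zero_apply] at h1
    rw [h1, zero_sub, dvd_neg] at hz1
    have h2 : (p : ℤ_[p]) ^ 1 ∣ ((y j : ℤ) : ℤ_[p]) := by rw [pow_one]; exact hz1
    rw [padic_pow_dvd_int, pow_one] at h2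
    exact hyj h2
  · rw [← Finset.add_sum_erase _ _ (Finset.mem_univ j)]
    simp only [if_true]
    have : ∑ i ∈ Finset.univ.erase j, (a i : ℤ_[p]) * (if i = j then z else (y i : ℤ_[p])) ^ k = (C : ℤ_[p]) := by
      rw [hC]
      push_cast
      apply Finset.sum_congr rfl
      intro i hi
      rw [if_neg (Finset.ne_of_mem_erase hi)]
    rw [this]
    exact hz0

/-- Two coefficients close to `1` and `-1`. -/
theorem padic_sol_of_class (k r' : ℕ) (hk : 1 ≤ k) (a0 a1 : ℤ) (b : Fin r' → ℤ)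
    (h0 : (p : ℤ) ^ (2 * k + 1) ∣ a0 - 1) (h1 : (p : ℤ) ^ (2 * k + 1) ∣ a1 + 1) :
    Sol ℚ_[p] k (r' + 2) (Fin.cons a0 (Fin.cons a1 b)) := by
  have hpP : Prime (p : ℤ) := Nat.prime_iff_prime_int.mp hp.out
  have ha0 : ¬ (p : ℤ) ∣ a0 := by
    intro h
    have h2 : (p : ℤ) ∣ a0 - 1 := (dvd_pow_self _ (by omega)).trans h0
    have h3 : (p : ℤ) ∣ 1 := by
      have := dvd_sub h h2
      simpa using this
    exact hpP.not_dvd_one h3
  obtain ⟨z, hz0, hz1⟩ := hensel_monomial (p := p) k (a0 : ℤ_[p]) (a1 : ℤ_[p]) (1 : ℤ_[p]) k (by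
      have h2 : (p : ℤ_[p]) ^ (2 * k + 1) ∣ ((a0 + a1 : ℤ) : ℤ_[p]) := by
        rw [padic_pow_dvd_int]
        have := dvd_add h0 h1
        have e : a0 - 1 + (a1 + 1) = a0 + a1 := by ring
        rwa [e] at this
      push_cast at h2
      simpa using h2) (by
      intro h
      have h2 : (p : ℤ_[p]) ^ (k + 1) ∣ ((k * a0 : ℤ) : ℤ_[p]) := by
        push_cast
        simpa using h
      rw [padic_pow_dvd_int] at h2
      have h3 : IsCoprime ((p : ℤ) ^ (k + 1)) a0 := by
        apply IsCoprime.pow_left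
        rw [Prime.coprime_iff_not_dvd hpP]
        exact ha0
      have h4 : (p : ℤ) ^ (k + 1) ∣ k := h3.dvd_of_dvd_mul_right h2
      have h5 : p ^ (k + 1) ∣ k := by exact_mod_cast h4
      have h6 := Nat.le_of_dvd (by omega) h5
      have h7 : k < 2 ^ k := Nat.lt_two_pow_self
      have h8 : 2 ^ k ≤ p ^ (k + 1) :=
        (Nat.pow_le_pow_left hp.out.two_le k).trans (Nat.pow_le_pow_right hp.out.pos (by omega))
      omega)
  apply sol_of_padicInt _ (Fin.cons z (Fin.cons 1 0))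
  · intro h
    have := congrFun h 1
    have h1' : (1 : Fin (r' + 2)) = Fin.succ 0 := rfl
    rw [h1', Fin.cons_succ, Fin.cons_zero] at this
    exact one_ne_zero this
  · rw [Fin.sum_univ_succ, Fin.sum_univ_succ]
    simp only [Fin.cons_zero, Fin.cons_succ, Pi.zero_apply, one_pow, mul_one]
    rw [Finset.sum_eq_zero (fun i _ => by rw [zero_pow (by omega), mul_zero]), add_zero]
    exact hz0

end

theorem real_sol_of_signs (k r' : ℕ) (hk : 1 ≤ k) (a0 a1 : ℤ) (b : Fin r' → ℤ)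
    (h0 : 0 < a0) (h1 : a1 < 0) : Sol ℝ k (r' + 2) (Fin.cons a0 (Fin.cons a1 b)) := by
  have h0R : (0 : ℝ) < a0 := by exact_mod_cast h0
  have h1R : (a1 : ℝ) < 0 := by exact_mod_cast h1
  refine ⟨Fin.cons ((-(a1 : ℝ)) ^ ((k : ℝ)⁻¹)) (Fin.cons ((a0 : ℝ) ^ ((k : ℝ)⁻¹)) 0), ?_, ?_⟩
  · intro h
    have := congrFun h 0
    rw [Fin.cons_zero, Pi.zero_apply] at this
    have h2 : (0 : ℝ) < (-(a1 : ℝ)) ^ ((k : ℝ)⁻¹) := Real.rpow_pos_of_pos (by linarith) _
    linarith
  · rw [Fin.sum_univ_succ, Fin.sum_univ_succ]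
    simp only [Fin.cons_zero, Fin.cons_succ, Pi.zero_apply]
    rw [Finset.sum_eq_zero (fun i _ => by rw [zero_pow (by omega), mul_zero]), add_zero,
      Real.rpow_inv_natCast_pow (by linarith) (by omega), Real.rpow_inv_natCast_pow h0R.le (by omega)]
    ring

/-- Points of a box with two coordinates divisible by `p`. -/
theorem card_two_div (n H p : ℕ) (hp : 0 < p) (hpH : p ≤ H) (o o' : Fin n) (hoo : o ≠ o')
    (F : Finset (Fin n → ℤ)) (hF : ∀ b ∈ F, b ∈ boxA n H ∧ (p : ℤ) ∣ b o ∧ (p : ℤ) ∣ b o') :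
    (F.card : ℝ) ≤ 3 ^ n * (H : ℝ) ^ n * ((p : ℝ) ^ 2)⁻¹ := by
  classical
  have hpR : (0 : ℝ) < p := by exact_mod_cast hp
  have hpHR : (p : ℝ) ≤ H := by exact_mod_cast hpH
  have hH1 : (1 : ℝ) ≤ H := by exact_mod_cast (by omega : 1 ≤ H)
  set T := (Finset.Icc (-(H : ℤ)) H).filter (fun t => (p : ℤ) ∣ t) with hT
  have hTc : (T.card : ℝ) ≤ 3 * H / p := by
    have h1 : (T.card : ℝ) ≤ 2 * H / p + 1 := by
      apply card_le_of_dvd_sub T p hp (2 * H) (by positivity)
      · intro x hx y hy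
        rw [hT, Finset.mem_filter] at hx hy
        exact dvd_sub hx.2 hy.2
      · intro x hx y hy
        rw [hT, Finset.mem_filter, Finset.mem_Icc] at hx hy
        have : x - y ≤ 2 * H := by linarith [hx.1.2, hy.1.1]
        exact_mod_cast this
    have e1 : (1 : ℝ) ≤ H / p := by rw [le_div_iff₀ hpR]; linarith
    have : 3 * (H : ℝ) / p = 2 * H / p + H / p := by ring
    rw [this]; linarith
  set P : Finset (Fin n) := {o, o'} with hP
  have hPc : P.card = 2 := Finset.card_pair hoo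
  have hsub : F ⊆ Fintype.piFinset (fun l => if l ∈ P then T else Finset.Icc (-(H : ℤ)) H) := by
    intro b hb
    obtain ⟨hbb, h1, h2⟩ := hF b hb
    rw [boxA, Fintype.mem_piFinset] at hbb
    rw [Fintype.mem_piFinset]
    intro l
    split_ifs with hl
    · rw [hT, Finset.mem_filter]
      refine ⟨hbb l, ?_⟩
      rw [hP, Finset.mem_insert, Finset.mem_singleton] at hl
      rcases hl with rfl | rfl
      · exact h1
      · exact h2
    · exact hbb l
  have hcc : ((Fintype.piFinset (fun l => if l ∈ P then T else Finset.Icc (-(H : ℤ)) H)).card : ℝ) =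
      ∏ l : Fin n, (if l ∈ P then (T.card : ℝ) else (2 * H + 1)) := by
    rw [Fintype.card_piFinset]
    push_cast
    apply Finset.prod_congr rfl
    intro l _
    split_ifs
    · rfl
    · rw [Int.card_Icc]
      have : ((H : ℤ) + 1 - -(H : ℤ)).toNat = 2 * H + 1 := by omega
      rw [this]; push_cast; ring
  calc (F.card : ℝ) ≤ _ := by exact_mod_cast Finset.card_le_card hsub
    _ = ∏ l : Fin n, (if l ∈ P then (T.card : ℝ) else (2 * H + 1)) := hcc
    _ ≤ ∏ l : Fin n, (3 * (H : ℝ)) * (if l ∈ P then (p : ℝ)⁻¹ else 1) := by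
        apply Finset.prod_le_prod
        · intro l _
          split_ifs <;> positivity
        · intro l _
          split_ifs
          · rw [← div_eq_mul_inv]; exact hTc
          · linarith
    _ = 3 ^ n * (H : ℝ) ^ n * ((p : ℝ) ^ 2)⁻¹ := by
        rw [Finset.prod_mul_distrib, Finset.prod_const, Finset.card_univ, Fintype.card_fin, mul_pow,
          Finset.prod_ite_mem, Finset.univ_inter, Finset.prod_const, hPc, inv_pow]

/-- The bad `b`. -/
theorem card_badb (n H p0 : ℕ) (hn : 1 ≤ n) (hp0 : 1 ≤ p0) (hp0' : 4 * n ^ 2 * 2 ^ n ≤ p0) (hH : 2 * n ≤ H)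
    (F : Finset (Fin n → ℤ))
    (hF : ∀ b ∈ F, b ∈ boxA n H ∧ ((∃ o, b o = 0) ∨ ∃ p : ℕ, p.Prime ∧ p0 < p ∧ p ≤ H ∧
      ∃ o o', o ≠ o' ∧ (p : ℤ) ∣ b o ∧ (p : ℤ) ∣ b o')) :
    (F.card : ℝ) ≤ 1 / 2 * (2 * H + 1) ^ n := by
  classical
  obtain ⟨n', rfl⟩ : ∃ n', n = n' + 1 := ⟨n - 1, by omega⟩
  have hHR : (1 : ℝ) ≤ H := by exact_mod_cast (by omega : 1 ≤ H)
  set F1 := F.filter (fun b => ∃ o, b o = 0) with hF1
  set F2 := F.filter (fun b => ∃ p : ℕ, p.Prime ∧ p0 < p ∧ p ≤ H ∧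
      ∃ o o', o ≠ o' ∧ (p : ℤ) ∣ b o ∧ (p : ℤ) ∣ b o') with hF2
  have hsub : F ⊆ F1 ∪ F2 := by
    intro b hb
    rw [Finset.mem_union]
    rcases (hF b hb).2 with h | h
    · exact Or.inl (Finset.mem_filter.mpr ⟨hb, h⟩)
    · exact Or.inr (Finset.mem_filter.mpr ⟨hb, h⟩)
  have c1 : (F1.card : ℝ) ≤ 1 / 4 * (2 * H + 1) ^ (n' + 1) := by
    have hsub1 : F1 ⊆ Finset.univ.biUnion (fun o : Fin (n' + 1) => F.filter (fun b => b o = 0)) := by
      intro b hb
      rw [hF1, Finset.mem_filter] at hb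
      obtain ⟨hb1, o, ho⟩ := hb
      rw [Finset.mem_biUnion]
      exact ⟨o, Finset.mem_univ _, Finset.mem_filter.mpr ⟨hb1, ho⟩⟩
    calc (F1.card : ℝ) ≤ ((Finset.univ.biUnion (fun o : Fin (n' + 1) => F.filter (fun b => b o = 0))).card : ℝ) := by
          exact_mod_cast Finset.card_le_card hsub1
      _ ≤ ∑ o : Fin (n' + 1), ((F.filter (fun b => b o = 0)).card : ℝ) := by
          exact_mod_cast Finset.card_biUnion_le
      _ ≤ ∑ o : Fin (n' + 1), (2 * (H : ℝ) + 1) ^ n' := by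
          apply Finset.sum_le_sum
          intro o _
          have := card_coord_in n' H o {0} (F.filter (fun b => b o = 0)) (by
            intro b hb
            rw [Finset.mem_filter] at hb
            exact ⟨(hF b hb.1).1, by rw [Finset.mem_singleton]; exact hb.2⟩)
          simpa using this
      _ = (n' + 1) * (2 * (H : ℝ) + 1) ^ n' := by
          rw [Finset.sum_const, Finset.card_univ, Fintype.card_fin, nsmul_eq_mul]; push_cast; ring
      _ ≤ 1 / 4 * (2 * H + 1) ^ (n' + 1) := by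
          have h1 : 2 * ((n' : ℝ) + 1) ≤ H := by exact_mod_cast hH
          have h2 : (n' : ℝ) + 1 ≤ 1 / 4 * (2 * H + 1) := by linarith
          calc (n' + 1) * (2 * (H : ℝ) + 1) ^ n' ≤ (1 / 4 * (2 * H + 1)) * (2 * (H : ℝ) + 1) ^ n' := by gcongr
            _ = _ := by ring
  have c2 : (F2.card : ℝ) ≤ 1 / 4 * (2 * H + 1) ^ (n' + 1) := by
    have hsub2 : F2 ⊆ (Finset.Ioc p0 H).biUnion (fun p => (Finset.univ ×ˢ Finset.univ).biUnion
        (fun oo : Fin (n' + 1) × Fin (n' + 1) => F.filter (fun b => oo.1 ≠ oo.2 ∧ (p : ℤ) ∣ b oo.1 ∧ (p : ℤ) ∣ b oo.2))) := by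
      intro b hb
      rw [hF2, Finset.mem_filter] at hb
      obtain ⟨hb1, p, hp, hp1, hp2, o, o', hoo, h1, h2⟩ := hb
      rw [Finset.mem_biUnion]
      refine ⟨p, Finset.mem_Ioc.mpr ⟨hp1, hp2⟩, ?_⟩
      rw [Finset.mem_biUnion]
      exact ⟨(o, o'), by simp, Finset.mem_filter.mpr ⟨hb1, hoo, h1, h2⟩⟩
    have h2 : ∑ p ∈ Finset.Ioc p0 H, ((p : ℝ) ^ 2)⁻¹ ≤ 1 / p0 := by
      rcases le_total p0 H with h | h
      · have := sum_Ioc_inv_sq_le_sub (α := ℝ) (k := p0) (n := H) (by omega) h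
        refine this.trans ?_
        have : (0 : ℝ) ≤ (H : ℝ)⁻¹ := by positivity
        rw [one_div]; linarith
      · rw [Finset.Ioc_eq_empty (by omega)]; simp
    calc (F2.card : ℝ) ≤ (((Finset.Ioc p0 H).biUnion (fun p => (Finset.univ ×ˢ Finset.univ).biUnion
        (fun oo : Fin (n' + 1) × Fin (n' + 1) => F.filter (fun b => oo.1 ≠ oo.2 ∧ (p : ℤ) ∣ b oo.1 ∧ (p : ℤ) ∣ b oo.2)))).card : ℝ) :=
          Nat.cast_le.mpr (Finset.card_le_card hsub2)
      _ ≤ ∑ p ∈ Finset.Ioc p0 H, (((Finset.univ ×ˢ Finset.univ).biUnion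
        (fun oo : Fin (n' + 1) × Fin (n' + 1) => F.filter (fun b => oo.1 ≠ oo.2 ∧ (p : ℤ) ∣ b oo.1 ∧ (p : ℤ) ∣ b oo.2))).card : ℝ) := by
          exact_mod_cast Finset.card_biUnion_le
      _ ≤ ∑ p ∈ Finset.Ioc p0 H, ∑ oo ∈ (Finset.univ ×ˢ Finset.univ : Finset (Fin (n' + 1) × Fin (n' + 1))),
          ((F.filter (fun b => oo.1 ≠ oo.2 ∧ (p : ℤ) ∣ b oo.1 ∧ (p : ℤ) ∣ b oo.2)).card : ℝ) := by
          apply Finset.sum_le_sum
          intro p _
          exact_mod_cast Finset.card_biUnion_le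
      _ ≤ ∑ p ∈ Finset.Ioc p0 H, ∑ oo ∈ (Finset.univ ×ˢ Finset.univ : Finset (Fin (n' + 1) × Fin (n' + 1))),
          3 ^ (n' + 1) * (H : ℝ) ^ (n' + 1) * ((p : ℝ) ^ 2)⁻¹ := by
          apply Finset.sum_le_sum
          intro p hp
          rw [Finset.mem_Ioc] at hp
          apply Finset.sum_le_sum
          intro oo _
          by_cases hoo : oo.1 = oo.2
          · have : F.filter (fun b => oo.1 ≠ oo.2 ∧ (p : ℤ) ∣ b oo.1 ∧ (p : ℤ) ∣ b oo.2) = ∅ := by
              apply Finset.filter_false_of_mem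
              intro b _ h
              exact h.1 hoo
            rw [this]; simp; positivity
          · apply card_two_div (n' + 1) H p (by omega) hp.2 oo.1 oo.2 hoo
            intro b hb
            rw [Finset.mem_filter] at hb
            exact ⟨(hF b hb.1).1, hb.2.2⟩
      _ = (n' + 1) ^ 2 * 3 ^ (n' + 1) * (H : ℝ) ^ (n' + 1) * ∑ p ∈ Finset.Ioc p0 H, ((p : ℝ) ^ 2)⁻¹ := by
          rw [Finset.mul_sum]
          apply Finset.sum_congr rfl
          intro p _
          rw [Finset.sum_const, Finset.card_product, Finset.card_univ, Fintype.card_fin, nsmul_eq_mul]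
          push_cast; ring
      _ ≤ (n' + 1) ^ 2 * 3 ^ (n' + 1) * (H : ℝ) ^ (n' + 1) * (1 / p0) := by gcongr
      _ ≤ 1 / 4 * (2 * H + 1) ^ (n' + 1) := by
          have h3 : 4 * ((n' : ℝ) + 1) ^ 2 * 2 ^ (n' + 1) ≤ p0 := by exact_mod_cast hp0'
          have hp0R : (0 : ℝ) < p0 := by exact_mod_cast hp0
          have h4 : (3 : ℝ) ^ (n' + 1) * (H : ℝ) ^ (n' + 1) ≤ 2 ^ (n' + 1) * (2 * H + 1) ^ (n' + 1) := by
            rw [← mul_pow, ← mul_pow]
            apply pow_le_pow_left₀ (by positivity)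
            linarith
          rw [mul_one_div, div_le_iff₀ hp0R]
          calc ((n' : ℝ) + 1) ^ 2 * 3 ^ (n' + 1) * (H : ℝ) ^ (n' + 1)
              = ((n' : ℝ) + 1) ^ 2 * (3 ^ (n' + 1) * (H : ℝ) ^ (n' + 1)) := by ring
            _ ≤ ((n' : ℝ) + 1) ^ 2 * (2 ^ (n' + 1) * (2 * H + 1) ^ (n' + 1)) := by gcongr
            _ = 1 / 4 * (2 * H + 1) ^ (n' + 1) * (4 * ((n' : ℝ) + 1) ^ 2 * 2 ^ (n' + 1)) := by ring
            _ ≤ 1 / 4 * (2 * H + 1) ^ (n' + 1) * p0 := by gcongr
  have hcard : F.card ≤ F1.card + F2.card := (Finset.card_le_card hsub).trans (Finset.card_union_le _ _)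
  have hcardR : (F.card : ℝ) ≤ F1.card + F2.card := by exact_mod_cast hcard
  linarith

/-- Good coefficient vectors are everywhere locally soluble. -/
theorem els_of_good (k r' H p0 : ℕ) (hk : 3 ≤ k) (hr : 2 * k ≤ r') (hkp : k ≤ p0) (u v : ℕ)
    (b : Fin r' → ℤ) (hb : b ∈ boxA r' H) (hb0 : ∀ o, b o ≠ 0)
    (hbp : ∀ p : ℕ, p.Prime → p0 < p → p ≤ H → ∀ o o', o ≠ o' → ¬ ((p : ℤ) ∣ b o ∧ (p : ℤ) ∣ b o'))
    (Q : ℕ) (hQ : ∀ p : ℕ, p.Prime → p ≤ p0 → p ^ (2 * k + 1) ∣ Q) :
    (∀ p : ℕ, ∀ _ : Fact p.Prime, Sol ℚ_[p] k (r' + 2)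
      (Fin.cons (1 + Q * u : ℤ) (Fin.cons (-(1 + Q * v) : ℤ) b))) ∧
    Sol ℝ k (r' + 2) (Fin.cons (1 + Q * u : ℤ) (Fin.cons (-(1 + Q * v) : ℤ) b)) := by
  classical
  constructor
  · intro p hp
    rcases le_or_gt p p0 with hpp | hpp
    · have h1 : (p : ℤ) ^ (2 * k + 1) ∣ (Q : ℤ) := by exact_mod_cast hQ p hp.out hpp
      apply padic_sol_of_class k r' (by omega)
      · have e : (1 + Q * u : ℤ) - 1 = Q * u := by ring
        rw [e]; exact h1.mul_right _
      · have e : (-(1 + Q * v) : ℤ) + 1 = -(Q * v) := by ring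
        rw [e, dvd_neg]; exact h1.mul_right _
    · set a : Fin (r' + 2) → ℤ := Fin.cons (1 + Q * u : ℤ) (Fin.cons (-(1 + Q * v) : ℤ) b) with ha
      apply padic_sol_of_units k (r' + 2) (by omega) (by
        intro hd
        have := Nat.le_of_dvd (by omega) hd
        omega) a (Finset.univ.filter (fun i => ¬ (p : ℤ) ∣ a i))
      · have hN : (Finset.univ.filter (fun i => (p : ℤ) ∣ a i)).card ≤ 3 := by
          have hsub : Finset.univ.filter (fun i => (p : ℤ) ∣ a i) ⊆
              {0, 1} ∪ (Finset.univ.filter (fun o : Fin r' => (p : ℤ) ∣ b o)).image (fun o => o.succ.succ) := by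
            intro i hi
            rw [Finset.mem_filter] at hi
            rw [Finset.mem_union]
            revert hi
            refine Fin.cases ?_ (fun i' => ?_) i
            · intro _; left; simp
            · refine Fin.cases ?_ (fun i'' => ?_) i'
              · intro _; left
                rw [Finset.mem_insert, Finset.mem_singleton]
                right; rfl
              · intro hi
                right
                rw [Finset.mem_image]
                refine ⟨i'', ?_, rfl⟩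
                rw [Finset.mem_filter]
                refine ⟨Finset.mem_univ _, ?_⟩
                have := hi.2
                rw [ha, Fin.cons_succ, Fin.cons_succ] at this
                exact this
          have hone : (Finset.univ.filter (fun o : Fin r' => (p : ℤ) ∣ b o)).card ≤ 1 := by
            rw [Finset.card_le_one]
            intro o ho o' ho'
            rw [Finset.mem_filter] at ho ho'
            by_contra hne
            rcases le_or_gt p H with hpH | hpH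
            · exact hbp p hp.out hpp hpH o o' hne ⟨ho.2, ho'.2⟩
            · have h1 : (p : ℤ) ≤ |b o| := by
                have := Int.le_of_dvd (abs_pos.mpr (hb0 o)) ((dvd_abs _ _).mpr ho.2)
                exact this
              have h2 := mem_boxA.mp hb o
              have h3 : (H : ℤ) < p := by exact_mod_cast hpH
              linarith
          calc _ ≤ _ := Finset.card_le_card hsub
            _ ≤ ({0, 1} : Finset (Fin (r' + 2))).card + ((Finset.univ.filter (fun o : Fin r' => (p : ℤ) ∣ b o)).image (fun o => o.succ.succ)).card :=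
                Finset.card_union_le _ _
            _ ≤ 2 + 1 := Nat.add_le_add Finset.card_le_two (Finset.card_image_le.trans hone)
        have htot := Finset.card_filter_add_card_filter_not (s := (Finset.univ : Finset (Fin (r' + 2))))
          (fun i => (p : ℤ) ∣ a i)
        rw [Finset.card_univ, Fintype.card_fin] at htot
        omega
      · intro i hi
        rw [Finset.mem_filter] at hi
        exact hi.2
  · apply real_sol_of_signs k r' (by omega)
    · positivity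
    · have : (0 : ℤ) ≤ Q * v := by positivity
      linarith

theorem positive_prop (k r' : ℕ) (hk : 3 ≤ k) (hr : 2 * k ≤ r') :
    ∃ c : ℝ, 0 < c ∧ ∃ H1 : ℕ, ∀ H : ℕ, H1 ≤ H → ∃ S : Finset (Fin (r' + 2) → ℤ),
      (∀ a ∈ S, a ∈ boxA (r' + 2) H ∧ (∀ o, a o ≠ 0) ∧
        (∀ p : ℕ, ∀ _ : Fact p.Prime, Sol ℚ_[p] k (r' + 2) a) ∧ Sol ℝ k (r' + 2) a) ∧
      c * (2 * H + 1) ^ (r' + 2) ≤ S.card := by
  classical
  set p0 := max k (4 * r' ^ 2 * 2 ^ r') with hp0
  set Q := p0.factorial ^ (2 * k + 1) with hQ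
  have hQpos : 0 < Q := pow_pos (Nat.factorial_pos _) _
  have hQR : (0 : ℝ) < Q := by exact_mod_cast hQpos
  refine ⟨1 / (18 * (Q : ℝ) ^ 2), by positivity, 2 * r', ?_⟩
  intro H hH
  have hH1 : 1 ≤ H := by omega
  have hHR : (1 : ℝ) ≤ H := by exact_mod_cast hH1
  set X := (H - 1) / Q with hX
  set Gd := (boxA r' H).filter (fun b => ¬ ((∃ o, b o = 0) ∨ ∃ p : ℕ, p.Prime ∧ p0 < p ∧ p ≤ H ∧
      ∃ o o', o ≠ o' ∧ (p : ℤ) ∣ b o ∧ (p : ℤ) ∣ b o')) with hGd
  set Bd := (boxA r' H).filter (fun b => ((∃ o, b o = 0) ∨ ∃ p : ℕ, p.Prime ∧ p0 < p ∧ p ≤ H ∧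
      ∃ o o', o ≠ o' ∧ (p : ℤ) ∣ b o ∧ (p : ℤ) ∣ b o')) with hBd
  have hbad : (Bd.card : ℝ) ≤ 1 / 2 * (2 * H + 1) ^ r' := by
    apply card_badb r' H p0 (by omega) ((by omega : 1 ≤ k).trans (le_max_left _ _)) (le_max_right _ _) hH
    intro b hb
    rw [hBd, Finset.mem_filter] at hb
    exact hb
  have hbox : ((boxA r' H).card : ℝ) = (2 * H + 1) ^ r' := by
    rw [boxA, Fintype.card_piFinset, Finset.prod_const, Finset.card_univ, Fintype.card_fin, Int.card_Icc]
    have : ((H : ℤ) + 1 - -(H : ℤ)).toNat = 2 * H + 1 := by omega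
    rw [this]; push_cast; ring
  have htot : (Bd.card : ℝ) + Gd.card = (2 * H + 1) ^ r' := by
    rw [← hbox]
    have := Finset.card_filter_add_card_filter_not (s := boxA r' H)
      (fun b => ((∃ o, b o = 0) ∨ ∃ p : ℕ, p.Prime ∧ p0 < p ∧ p ≤ H ∧
      ∃ o o', o ≠ o' ∧ (p : ℤ) ∣ b o ∧ (p : ℤ) ∣ b o'))
    exact_mod_cast this
  have hGdc : 1 / 2 * (2 * (H : ℝ) + 1) ^ r' ≤ Gd.card := by linarith
  set Φ : (ℕ × ℕ) × (Fin r' → ℤ) → (Fin (r' + 2) → ℤ) := fun t =>
    Fin.cons (1 + Q * t.1.1 : ℤ) (Fin.cons (-(1 + Q * t.1.2) : ℤ) t.2) with hΦ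
  have hinj : Function.Injective Φ := by
    rintro ⟨⟨u, v⟩, b⟩ ⟨⟨u', v'⟩, b'⟩ h
    simp only [hΦ] at h
    obtain ⟨h1, h2⟩ := Fin.cons_injective2 h
    obtain ⟨h3, h4⟩ := Fin.cons_injective2 h2
    have e1 : (Q : ℤ) * u = Q * u' := by linarith
    have e2 : (Q : ℤ) * v = Q * v' := by linarith
    have hQ0 : (Q : ℤ) ≠ 0 := by exact_mod_cast hQpos.ne'
    have e1' : u = u' := by exact_mod_cast mul_left_cancel₀ hQ0 e1
    have e2' : v = v' := by exact_mod_cast mul_left_cancel₀ hQ0 e2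
    rw [e1', e2', h4]
  refine ⟨((Finset.range (X + 1) ×ˢ Finset.range (X + 1)) ×ˢ Gd).image Φ, ?_, ?_⟩
  · intro a ha
    rw [Finset.mem_image] at ha
    obtain ⟨⟨⟨u, v⟩, b⟩, ht, rfl⟩ := ha
    rw [Finset.mem_product, Finset.mem_product, Finset.mem_range, Finset.mem_range] at ht
    obtain ⟨⟨hu, hv⟩, hbG⟩ := ht
    simp only at hu hv hbG
    rw [hGd, Finset.mem_filter] at hbG
    obtain ⟨hbb, hbn⟩ := hbG
    rw [not_or] at hbn
    obtain ⟨hbn1, hbn2⟩ := hbn
    push Not at hbn1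
    have hle : ∀ w : ℕ, w < X + 1 → 1 + Q * w ≤ H := by
      intro w hw
      have h1 : Q * w ≤ Q * X := Nat.mul_le_mul_left _ (by omega)
      have h2 : Q * X ≤ H - 1 := Nat.mul_div_le _ _
      omega
    have hu' := hle u hu
    have hv' := hle v hv
    simp only [hΦ]
    refine ⟨?_, ?_, ?_⟩
    · rw [mem_boxA]
      intro i
      refine Fin.cases ?_ (fun i' => ?_) i
      · rw [Fin.cons_zero, abs_of_pos (by positivity)]
        exact_mod_cast hu'
      · rw [Fin.cons_succ]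
        refine Fin.cases ?_ (fun i'' => ?_) i'
        · rw [Fin.cons_zero, abs_neg, abs_of_pos (by positivity)]
          exact_mod_cast hv'
        · rw [Fin.cons_succ]
          exact mem_boxA.mp hbb i''
    · intro i
      refine Fin.cases ?_ (fun i' => ?_) i
      · rw [Fin.cons_zero]; positivity
      · rw [Fin.cons_succ]
        refine Fin.cases ?_ (fun i'' => ?_) i'
        · rw [Fin.cons_zero, neg_ne_zero]; positivity
        · rw [Fin.cons_succ]
          exact hbn1 i''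
    · apply els_of_good k r' H p0 hk hr (le_max_left _ _) u v b hbb hbn1
      · intro p hp hp1 hp2 o o' hoo hcon
        exact hbn2 ⟨p, hp, hp1, hp2, o, o', hoo, hcon.1, hcon.2⟩
      · intro p hp hpp
        rw [hQ]
        exact pow_dvd_pow_of_dvd (hp.dvd_factorial.mpr hpp) _
  · rw [Finset.card_image_of_injective _ hinj, Finset.card_product, Finset.card_product, Finset.card_range]
    push_cast
    have h1 : (H : ℝ) / Q ≤ X + 1 := by
      rw [div_le_iff₀ hQR]
      have h2 : H - 1 < Q * (X + 1) := Nat.lt_mul_div_succ _ hQpos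
      have h3 : H ≤ Q * (X + 1) := by omega
      have h4 : (H : ℝ) ≤ Q * (X + 1) := by exact_mod_cast h3
      linarith
    have h2 : (2 * (H : ℝ) + 1) / (3 * Q) ≤ X + 1 := by
      refine le_trans ?_ h1
      rw [div_le_div_iff₀ (by positivity) hQR]
      nlinarith
    calc 1 / (18 * (Q : ℝ) ^ 2) * (2 * (H : ℝ) + 1) ^ (r' + 2)
        = (((2 * (H : ℝ) + 1) / (3 * Q)) * ((2 * (H : ℝ) + 1) / (3 * Q))) * (1 / 2 * (2 * (H : ℝ) + 1) ^ r') := by
          rw [pow_add]; field_simp; ring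
      _ ≤ (((X : ℝ) + 1) * (X + 1)) * Gd.card := by gcongr

end Pool.Agent.H888.DH
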