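import Pool.Agent.H888.DH.Loc1

set_option linter.unusedVariables false
set_option linter.unusedSectionVars false
set_option linter.style.haveILetI false

namespace Pool.Agent.H888.DH

open Finset

section
variable {p : ℕ} [hp : Fact p.Prime]

theorem padic_norm_ge (x : ℤ_[p]) (M : ℕ) (h : ¬ (p : ℤ_[p]) ^ (M + 1) ∣ x) :
    (p : ℝ) ^ (-(M : ℤ)) ≤ ‖x‖ := by
  have hx : x ≠ 0 := by rintro rfl; exact h (dvd_zero _)
  have h1 : ¬ (‖x‖ ≤ (p : ℝ) ^ (-((M + 1 : ℕ) : ℤ))) := by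
    rw [PadicInt.norm_le_pow_iff_mem_span_pow, Ideal.mem_span_singleton]
    exact h
  rw [PadicInt.norm_le_pow_iff_le_valuation x hx] at h1
  have h2 : x.valuation ≤ M := by omega
  rw [PadicInt.norm_eq_zpow_neg_valuation hx]
  apply zpow_le_zpow_right₀
  · exact_mod_cast hp.out.one_lt.le
  · simpa using h2

theorem padic_norm_le (x : ℤ_[p]) (M : ℕ) (h : (p : ℤ_[p]) ^ M ∣ x) :
    ‖x‖ ≤ (p : ℝ) ^ (-(M : ℤ)) := by
  rw [PadicInt.norm_le_pow_iff_mem_span_pow, Ideal.mem_span_singleton]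
  exact h

/-- Hensel's lemma for `a T^k + C`. -/
theorem hensel_monomial (k : ℕ) (a C x : ℤ_[p]) (M : ℕ)
    (hf : (p : ℤ_[p]) ^ (2 * M + 1) ∣ a * x ^ k + C)
    (hd : ¬ (p : ℤ_[p]) ^ (M + 1) ∣ k * a * x ^ (k - 1)) :
    ∃ z : ℤ_[p], a * z ^ k + C = 0 ∧ (p : ℤ_[p]) ∣ z - x := by
  set F : Polynomial ℤ_[p] := Polynomial.C a * Polynomial.X ^ k + Polynomial.C C with hF
  have hev : ∀ y, Polynomial.aeval y F = a * y ^ k + C := by
    intro y; simp [hF]
  have hev' : ∀ y, Polynomial.aeval y (Polynomial.derivative F) = k * a * y ^ (k - 1) := by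
    intro y
    simp [hF, Polynomial.derivative_X_pow]
    ring
  have h1 : ‖Polynomial.aeval x F‖ < ‖Polynomial.aeval x (Polynomial.derivative F)‖ ^ 2 := by
    rw [hev, hev']
    have e1 := padic_norm_le _ _ hf
    have e2 := padic_norm_ge _ _ hd
    have hp1 : (1 : ℝ) < p := by exact_mod_cast hp.out.one_lt
    have hp0 : (0 : ℝ) < p := by linarith
    calc _ ≤ (p : ℝ) ^ (-((2 * M + 1 : ℕ) : ℤ)) := e1
      _ < ((p : ℝ) ^ (-(M : ℤ))) ^ 2 := by
          rw [← zpow_natCast, ← zpow_mul]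
          apply zpow_lt_zpow_right₀ hp1
          push_cast
          linarith
      _ ≤ _ := by
          have : (0 : ℝ) < (p : ℝ) ^ (-(M : ℤ)) := by positivity
          gcongr
  obtain ⟨z, hz0, hz1, _, _⟩ := hensels_lemma h1
  refine ⟨z, by rw [← hev]; exact hz0, ?_⟩
  rw [← PadicInt.norm_lt_one_iff_dvd]
  exact lt_of_lt_of_le hz1 (PadicInt.norm_le_one _)

/-- **Lifting lemma.** -/
theorem lift_count (k r : ℕ) (hk : 1 ≤ k) (a : Fin (r + 1) → ℤ) (n : ℕ) (x : Fin r → ℤ_[p])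
    (l : Fin r) (M m : ℕ) (hm : 2 * M + 1 ≤ m) [NeZero (p ^ m)]
    (hf : (p : ℤ_[p]) ^ (2 * M + 1) ∣ (a 0 : ℤ_[p]) * (n : ℤ_[p]) ^ k + ∑ j, (a (Fin.succ j) : ℤ_[p]) * (x j) ^ k)
    (hd : ¬ (p : ℤ_[p]) ^ (M + 1) ∣ k * (a (Fin.succ l) : ℤ_[p]) * (x l) ^ (k - 1)) :
    (p ^ (m - (2 * M + 1))) ^ (r - 1) ≤ ((SolN k r a n (p ^ m)).filter (fun z => ∀ j,
      ZMod.castHom (dvd_pow_self p (by omega : m ≠ 0)) (ZMod p) (z j) =
        ZMod.castHom (dvd_pow_self p (by omega : m ≠ 0)) (ZMod p) (PadicInt.toZModPow m (x j)))).card := by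
  classical
  set E := 2 * M + 1 with hE
  set q := p ^ (m - E) with hq
  have hppos : 0 < p := hp.out.pos
  have hq0 : 0 < q := pow_pos hppos _
  -- perturbation
  set y : ({j : Fin r // j ≠ l} → Fin q) → Fin r → ℤ_[p] :=
    fun t j => if h : j ≠ l then x j + (p : ℤ_[p]) ^ E * ((t ⟨j, h⟩ : ℕ) : ℤ_[p]) else x l with hy
  have hyx : ∀ t j, (p : ℤ_[p]) ^ E ∣ y t j - x j := by
    intro t j
    simp only [hy]
    by_cases h : j ≠ l
    · rw [dif_pos h]; exact ⟨((t ⟨j, h⟩ : ℕ) : ℤ_[p]), by ring⟩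
    · rw [dif_neg h]
      push Not at h
      rw [h, sub_self]; exact dvd_zero _
  have hyl : ∀ t, y t l = x l := by
    intro t; simp only [hy]; rw [dif_neg (by simp)]
  -- Hensel
  have hhen : ∀ t, ∃ z : ℤ_[p], (a (Fin.succ l) : ℤ_[p]) * z ^ k +
      ((a 0 : ℤ_[p]) * (n : ℤ_[p]) ^ k + ∑ j ∈ Finset.univ.erase l, (a (Fin.succ j) : ℤ_[p]) * (y t j) ^ k) = 0 ∧
      (p : ℤ_[p]) ∣ z - x l := by
    intro t
    apply hensel_monomial k _ _ _ M _ hd
    have h1 : (a (Fin.succ l) : ℤ_[p]) * (x l) ^ k +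
        ((a 0 : ℤ_[p]) * (n : ℤ_[p]) ^ k + ∑ j ∈ Finset.univ.erase l, (a (Fin.succ j) : ℤ_[p]) * (y t j) ^ k) =
        (a 0 : ℤ_[p]) * (n : ℤ_[p]) ^ k + ∑ j, (a (Fin.succ j) : ℤ_[p]) * (y t j) ^ k := by
      rw [← Finset.add_sum_erase Finset.univ _ (Finset.mem_univ l), hyl]
      ring
    rw [h1]
    have h2 : (a 0 : ℤ_[p]) * (n : ℤ_[p]) ^ k + ∑ j, (a (Fin.succ j) : ℤ_[p]) * (y t j) ^ k =
        ((a 0 : ℤ_[p]) * (n : ℤ_[p]) ^ k + ∑ j, (a (Fin.succ j) : ℤ_[p]) * (x j) ^ k) +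
        ∑ j, (a (Fin.succ j) : ℤ_[p]) * ((y t j) ^ k - (x j) ^ k) := by
      rw [add_assoc, ← Finset.sum_add_distrib]
      congr 1
      apply Finset.sum_congr rfl; intro j _; ring
    rw [h2]
    apply dvd_add hf
    apply Finset.dvd_sum
    intro j _
    exact Dvd.dvd.mul_left ((hyx t j).trans (sub_dvd_pow_sub_pow _ _ k)) _
  choose zz hzz1 hzz2 using hhen
  set sol : ({j : Fin r // j ≠ l} → Fin q) → Fin r → ℤ_[p] :=
    fun t j => if h : j ≠ l then y t j else zz t with hsol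
  have hsoleq : ∀ t, (a 0 : ℤ_[p]) * (n : ℤ_[p]) ^ k + ∑ j, (a (Fin.succ j) : ℤ_[p]) * (sol t j) ^ k = 0 := by
    intro t
    rw [← Finset.add_sum_erase Finset.univ _ (Finset.mem_univ l)]
    have e1 : sol t l = zz t := by simp only [hsol]; rw [dif_neg (by simp)]
    have e2 : ∑ j ∈ Finset.univ.erase l, (a (Fin.succ j) : ℤ_[p]) * (sol t j) ^ k =
        ∑ j ∈ Finset.univ.erase l, (a (Fin.succ j) : ℤ_[p]) * (y t j) ^ k := by
      apply Finset.sum_congr rfl
      intro j hj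
      have : j ≠ l := (Finset.mem_erase.mp hj).1
      simp only [hsol]; rw [dif_pos this]
    rw [e1, e2, ← hzz1 t]
    ring
  have hsolx : ∀ t j, (p : ℤ_[p]) ∣ sol t j - x j := by
    intro t j
    by_cases h : j ≠ l
    · have e1 : sol t j = y t j := by simp only [hsol]; rw [dif_pos h]
      rw [e1]
      exact (dvd_pow_self _ (by omega)).trans (hyx t j)
    · push Not at h
      rw [h]
      have e1 : sol t l = zz t := by simp only [hsol]; rw [dif_neg (by simp)]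
      rw [e1]; exact hzz2 t
  -- the injection
  have hcard : (Finset.univ : Finset ({j : Fin r // j ≠ l} → Fin q)).card = q ^ (r - 1) := by
    rw [Finset.card_univ, Fintype.card_fun, Fintype.card_fin, Fintype.card_subtype_compl]
    simp
  rw [← hcard]
  apply Finset.card_le_card_of_injOn (fun t j => PadicInt.toZModPow m (sol t j))
  · intro t _
    simp only [Finset.coe_filter, Set.mem_ofPred_eq]
    refine ⟨?_, ?_⟩
    · rw [mem_SolN]
      have h1 := congrArg (PadicInt.toZModPow m) (hsoleq t)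
      rw [map_add, map_mul, map_pow, map_sum, map_zero, map_intCast, map_natCast] at h1
      simpa only [map_mul, map_pow, map_intCast] using h1
    · intro j
      obtain ⟨w, hw⟩ := hsolx t j
      have h2 : sol t j = x j + p * w := by rw [← hw]; ring
      rw [h2, map_add, map_add, map_mul, map_natCast, map_mul, map_natCast, ZMod.natCast_self,
        zero_mul, add_zero]
  · intro t _ t' _ htt
    funext ⟨j, hj⟩
    have h1 : PadicInt.toZModPow m (sol t j) = PadicInt.toZModPow m (sol t' j) := congrFun htt j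
    have e1 : sol t j = x j + (p : ℤ_[p]) ^ E * ((t ⟨j, hj⟩ : ℕ) : ℤ_[p]) := by
      simp only [hsol, hy]; rw [dif_pos hj, dif_pos hj]
    have e2 : sol t' j = x j + (p : ℤ_[p]) ^ E * ((t' ⟨j, hj⟩ : ℕ) : ℤ_[p]) := by
      simp only [hsol, hy]; rw [dif_pos hj, dif_pos hj]
    rw [e1, e2, map_add, map_add, add_right_inj, map_mul, map_mul, map_pow, map_natCast,
      map_natCast, map_natCast] at h1
    have h2 : (((p ^ E * (t ⟨j, hj⟩ : ℕ) : ℕ)) : ZMod (p ^ m)) = ((p ^ E * (t' ⟨j, hj⟩ : ℕ) : ℕ) : ZMod (p ^ m)) := by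
      push_cast; exact h1
    rw [ZMod.natCast_eq_natCast_iff] at h2
    have h3 : ∀ u : Fin q, p ^ E * (u : ℕ) < p ^ m := by
      intro u
      calc p ^ E * (u : ℕ) < p ^ E * q := Nat.mul_lt_mul_of_pos_left u.2 (pow_pos hppos _)
        _ = p ^ m := by rw [hq, ← pow_add]; congr 1; omega
    have h4 := Nat.ModEq.eq_of_lt_of_lt h2 (h3 _) (h3 _)
    exact Fin.ext (Nat.eq_of_mul_eq_mul_left (pow_pos hppos _) h4)

end

end Pool.Agent.H888.DH
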