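import Pool.Agent.H888.DH.Loc2

set_option linter.unusedVariables false
set_option linter.unusedSectionVars false
set_option linter.style.haveILetI false

namespace Pool.Agent.H888.DH

open Finset

theorem not_pow_dvd_mul {α : Type*} [CommRing α] [IsDomain α] {π b c : α} (hπ : Prime π) {s t : ℕ}
    (hb : ¬ π ^ (s + 1) ∣ b) (hc : ¬ π ^ (t + 1) ∣ c) : ¬ π ^ (s + t + 1) ∣ b * c := by
  rw [← emultiplicity_lt_iff_not_dvd] at hb hc ⊢
  rw [emultiplicity_mul hπ]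
  have h1 : emultiplicity π b ≤ s := by
    have : emultiplicity π b < ((s : ℕ∞) + 1) := by exact_mod_cast hb
    exact Order.le_of_lt_add_one this
  have h2 : emultiplicity π c ≤ t := by
    have : emultiplicity π c < ((t : ℕ∞) + 1) := by exact_mod_cast hc
    exact Order.le_of_lt_add_one this
  calc emultiplicity π b + emultiplicity π c ≤ s + t := add_le_add h1 h2
    _ = ((s + t : ℕ) : ℕ∞) := by push_cast; rfl
    _ < ((s + t + 1 : ℕ) : ℕ∞) := by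
        exact_mod_cast Nat.lt_succ_self _

section
variable {p : ℕ} [hp : Fact p.Prime]

theorem padic_pow_dvd_int (z : ℤ) (s : ℕ) : (p : ℤ_[p]) ^ s ∣ (z : ℤ_[p]) ↔ (p : ℤ) ^ s ∣ z := by
  rw [← PadicInt.norm_int_le_pow_iff_dvd, PadicInt.norm_le_pow_iff_mem_span_pow,
    Ideal.mem_span_singleton]

theorem not_pow_dvd_self (k : ℕ) (hk : 1 ≤ k) : ¬ (p : ℤ_[p]) ^ k ∣ (k : ℤ_[p]) := by
  intro h
  have h1 : (p : ℤ_[p]) ^ k ∣ ((k : ℤ) : ℤ_[p]) := by exact_mod_cast h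
  rw [padic_pow_dvd_int] at h1
  have h2 : p ^ k ∣ k := by exact_mod_cast h1
  have h3 := Nat.le_of_dvd hk h2
  have h4 : k < p ^ k := Nat.lt_pow_self hp.out.one_lt
  omega

/-- from approximate solution to counts -/
theorem count_of_approx (k r : ℕ) (hk : 1 ≤ k) (a : Fin (r + 1) → ℤ) (n : ℕ) (x : Fin r → ℤ_[p])
    (l : Fin r) (M : ℕ)
    (hf : (p : ℤ_[p]) ^ (2 * M + 1) ∣ (a 0 : ℤ_[p]) * (n : ℤ_[p]) ^ k + ∑ j, (a (Fin.succ j) : ℤ_[p]) * (x j) ^ k)
    (hd : ¬ (p : ℤ_[p]) ^ (M + 1) ∣ k * (a (Fin.succ l) : ℤ_[p]) * (x l) ^ (k - 1))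
    (m : ℕ) (hm : 0 < m) [NeZero (p ^ m)] :
    (p ^ m) ^ (r - 1) ≤ (SolN k r a n (p ^ m)).card * (p ^ (2 * M + 1)) ^ (r - 1) := by
  classical
  rcases Nat.lt_or_ge m (2 * M + 1) with h | h
  · have h1 : 1 ≤ (SolN k r a n (p ^ m)).card := by
      apply Finset.card_pos.mpr
      refine ⟨fun j => PadicInt.toZModPow m (x j), ?_⟩
      rw [mem_SolN]
      obtain ⟨w, hw⟩ := (pow_dvd_pow (p : ℤ_[p]) h.le).trans hf
      have h2 := congrArg (PadicInt.toZModPow m) hw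
      rw [map_add, map_mul, map_pow, map_sum, map_intCast, map_natCast, map_mul, map_pow,
        map_natCast] at h2
      have h3 : ((p : ℕ) : ZMod (p ^ m)) ^ m = 0 := by
        rw [← Nat.cast_pow, ZMod.natCast_self]
      rw [h3, zero_mul] at h2
      simpa only [map_mul, map_pow, map_intCast] using h2
    calc (p ^ m) ^ (r - 1) ≤ (p ^ (2 * M + 1)) ^ (r - 1) :=
          Nat.pow_le_pow_left (Nat.pow_le_pow_right hp.out.pos h.le) _
      _ = 1 * (p ^ (2 * M + 1)) ^ (r - 1) := (one_mul _).symm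
      _ ≤ _ := Nat.mul_le_mul_right _ h1
  · have h1 := lift_count k r hk a n x l M m h hf hd
    have h2 : (p ^ (m - (2 * M + 1))) ^ (r - 1) ≤ (SolN k r a n (p ^ m)).card :=
      h1.trans (Finset.card_filter_le _ _)
    calc (p ^ m) ^ (r - 1) = (p ^ (m - (2 * M + 1))) ^ (r - 1) * (p ^ (2 * M + 1)) ^ (r - 1) := by
          rw [← mul_pow, ← pow_add]; congr 2; omega
      _ ≤ _ := Nat.mul_le_mul_right _ h2

theorem primitive_solution (k r : ℕ) (hk : 1 ≤ k) (a : Fin (r + 1) → ℤ) (x : Fin (r + 1) → ℚ_[p])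
    (hx : x ≠ 0) (hsol : ∑ o, (a o : ℚ_[p]) * (x o) ^ k = 0) :
    ∃ u : Fin (r + 1) → ℤ_[p], (∃ o, u o = 1) ∧ ∑ o, (a o : ℤ_[p]) * (u o) ^ k = 0 := by
  obtain ⟨o0, ho0⟩ := Finite.exists_max (fun o => ‖x o‖)
  have hne : x o0 ≠ 0 := by
    intro h0
    apply hx
    funext o
    have h1 : ‖x o‖ ≤ ‖x o0‖ := ho0 o
    rw [h0, norm_zero] at h1
    exact norm_le_zero_iff.mp h1
  have hnpos : 0 < ‖x o0‖ := norm_pos_iff.mpr hne
  have hex : ∀ o, ∃ u : ℤ_[p], (u : ℚ_[p]) = x o / x o0 := by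
    intro o
    exact ⟨⟨x o / x o0, by rw [norm_div, div_le_one hnpos]; exact ho0 o⟩, rfl⟩
  choose u hu using hex
  refine ⟨u, ⟨o0, ?_⟩, ?_⟩
  · apply Subtype.ext
    rw [hu, div_self hne, PadicInt.coe_one]
  · apply Subtype.ext
    rw [PadicInt.coe_sum, PadicInt.coe_zero]
    have : ∀ o, (((a o : ℤ_[p]) * (u o) ^ k : ℤ_[p]) : ℚ_[p]) =
        ((x o0) ^ k)⁻¹ * ((a o : ℚ_[p]) * (x o) ^ k) := by
      intro o
      rw [PadicInt.coe_mul, PadicInt.coe_pow, PadicInt.coe_intCast, hu, div_pow]; field_simp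
    rw [Finset.sum_congr rfl (fun o _ => this o), ← Finset.mul_sum, hsol, mul_zero]

/-- **Local solutions for small primes.** -/
theorem localP (k r : ℕ) (hk : 1 ≤ k) (a : Fin (r + 1) → ℤ) (M : ℕ)
    (ha : ∀ o, ¬ (p : ℤ) ^ (M + 1) ∣ a o) (x : Fin (r + 1) → ℚ_[p])
    (hx : x ≠ 0) (hsol : ∑ o, (a o : ℚ_[p]) * (x o) ^ k = 0) :
    ∃ c ≤ 2 * (k + M) + 1, ∀ n' : ℕ, ¬ p ∣ n' → ∀ m : ℕ, 0 < m → ∀ _ : NeZero (p ^ m),
      (p ^ m) ^ (r - 1) ≤ (SolN k r a (p ^ c * n') (p ^ m)).card * (p ^ (2 * (k + M) + 1)) ^ (r - 1) := by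
  classical
  obtain ⟨u, ⟨o0, ho0⟩, hu⟩ := primitive_solution k r hk a x hx hsol
  have ha' : ∀ o, ¬ (p : ℤ_[p]) ^ (M + 1) ∣ (a o : ℤ_[p]) := by
    intro o h
    exact ha o ((padic_pow_dvd_int _ _).mp h)
  have hkk : ¬ (p : ℤ_[p]) ^ (k - 1 + 1) ∣ (k : ℤ_[p]) := by
    rw [Nat.sub_add_cancel hk]; exact not_pow_dvd_self k hk
  have hprime : Prime (p : ℤ_[p]) := PadicInt.prime_p
  rw [Fin.sum_univ_succ] at hu
  -- a good index
  have hl : ∃ l : Fin r, ¬ (p : ℤ_[p]) ^ (k + M + 1) ∣ k * (a (Fin.succ l) : ℤ_[p]) * (u (Fin.succ l)) ^ (k - 1) := by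
    have hgen : ∃ l : Fin r, ¬ (p : ℤ_[p]) ^ (M + 1) ∣ (a (Fin.succ l) : ℤ_[p]) * (u (Fin.succ l)) ^ (k - 1) := by
      rcases Fin.eq_zero_or_eq_succ o0 with h0 | ⟨l, h0⟩
      · subst h0
        rw [ho0, one_pow, mul_one] at hu
        by_contra hcon
        push Not at hcon
        apply ha' 0
        have e1 : (a 0 : ℤ_[p]) = - ∑ i : Fin r, (a (Fin.succ i) : ℤ_[p]) * (u (Fin.succ i)) ^ k := by
          linear_combination hu
        rw [e1]
        apply Dvd.dvd.neg_right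
        apply Finset.dvd_sum
        intro l _
        have e2 : (a (Fin.succ l) : ℤ_[p]) * (u (Fin.succ l)) ^ k =
            (a (Fin.succ l) : ℤ_[p]) * (u (Fin.succ l)) ^ (k - 1) * u (Fin.succ l) := by
          rw [mul_assoc, ← pow_succ, Nat.sub_add_cancel hk]
        rw [e2]
        exact Dvd.dvd.mul_right (hcon l) _
      · refine ⟨l, ?_⟩
        rw [← h0, ho0, one_pow, mul_one]
        exact ha' _
    obtain ⟨l, hl⟩ := hgen
    refine ⟨l, ?_⟩
    rw [mul_assoc]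
    intro h
    apply not_pow_dvd_mul hprime hkk hl
    exact (pow_dvd_pow _ (by omega)).trans h
  obtain ⟨l, hl⟩ := hl
  set E := 2 * (k + M) + 1 with hE
  by_cases h : (p : ℤ_[p]) ^ E ∣ u 0
  · refine ⟨E, le_rfl, fun n' hn' m hm _ => ?_⟩
    apply count_of_approx k r hk a (p ^ E * n') (fun j => u (Fin.succ j)) l (k + M) _ hl m hm
    have e1 : (a 0 : ℤ_[p]) * ((p ^ E * n' : ℕ) : ℤ_[p]) ^ k +
        ∑ j : Fin r, (a (Fin.succ j) : ℤ_[p]) * (u (Fin.succ j)) ^ k =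
        (a 0 : ℤ_[p]) * (((p ^ E * n' : ℕ) : ℤ_[p]) ^ k - (u 0) ^ k) := by
      linear_combination hu
    rw [e1]
    apply Dvd.dvd.mul_left
    refine dvd_trans ?_ (sub_dvd_pow_sub_pow _ _ k)
    apply dvd_sub _ h
    push_cast
    exact dvd_mul_right _ _
  · -- u 0 = p^c * unit
    have hu0 : u 0 ≠ 0 := by rintro h0; rw [h0] at h; exact h (dvd_zero _)
    set c := (u 0).valuation with hc
    have hspec := PadicInt.unitCoeff_spec hu0
    have hcE : c ≤ E := by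
      by_contra hcon
      push Not at hcon
      apply h
      rw [hspec]
      exact Dvd.dvd.mul_left (pow_dvd_pow _ hcon.le) _
    refine ⟨c, hcE, fun n' hn' m hm _ => ?_⟩
    set ε₀ := PadicInt.unitCoeff hu0 with hε₀
    -- v = n' / ε₀
    have hn'u : IsUnit ((n' : ℕ) : ℤ_[p]) := by
      rw [PadicInt.isUnit_iff]
      by_contra hne
      have hlt : ‖((n' : ℕ) : ℤ_[p])‖ < 1 := lt_of_le_of_ne (PadicInt.norm_le_one _) hne
      rw [PadicInt.norm_lt_one_iff_dvd] at hlt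
      have : (p : ℤ_[p]) ^ 1 ∣ (((n' : ℤ)) : ℤ_[p]) := by
        rw [pow_one]; exact_mod_cast hlt
      rw [padic_pow_dvd_int, pow_one] at this
      exact hn' (by exact_mod_cast this)
    set v : ℤ_[p] := ((ε₀⁻¹ : (ℤ_[p])ˣ) : ℤ_[p]) * n' with hv
    have hvu : IsUnit v := (Units.isUnit _).mul hn'u
    have hnv : (((p ^ c * n' : ℕ)) : ℤ_[p]) = v * u 0 := by
      rw [hspec, hv]
      push_cast
      have : ((ε₀⁻¹ : (ℤ_[p])ˣ) : ℤ_[p]) * (ε₀ : ℤ_[p]) = 1 := Units.inv_mul _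
      linear_combination (-(n' : ℤ_[p]) * (p : ℤ_[p]) ^ c) * this
    apply count_of_approx k r hk a (p ^ c * n') (fun j => v * u (Fin.succ j)) l (k + M) _ _ m hm
    · have e1 : (a 0 : ℤ_[p]) * ((p ^ c * n' : ℕ) : ℤ_[p]) ^ k +
          ∑ j : Fin r, (a (Fin.succ j) : ℤ_[p]) * (v * u (Fin.succ j)) ^ k = 0 := by
        rw [hnv]
        have e2 : ∑ j : Fin r, (a (Fin.succ j) : ℤ_[p]) * (v * u (Fin.succ j)) ^ k =
            v ^ k * ∑ j : Fin r, (a (Fin.succ j) : ℤ_[p]) * (u (Fin.succ j)) ^ k := by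
          rw [Finset.mul_sum]
          apply Finset.sum_congr rfl; intro j _; ring
        rw [e2]
        linear_combination v ^ k * hu
      rw [e1]; exact dvd_zero _
    · intro hdvd
      apply hl
      have e1 : (k : ℤ_[p]) * (a (Fin.succ l) : ℤ_[p]) * (v * u (Fin.succ l)) ^ (k - 1) =
          v ^ (k - 1) * (k * (a (Fin.succ l) : ℤ_[p]) * (u (Fin.succ l)) ^ (k - 1)) := by ring
      rw [e1] at hdvd
      exact (IsUnit.dvd_mul_left (hvu.pow _)).mp hdvd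

end

end Pool.Agent.H888.DH
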