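import Pool.Agent.H888.DH.Var5

set_option linter.unusedVariables false
set_option linter.unusedSectionVars false
set_option linter.style.haveILetI false

namespace Pool.Agent.H888.DH

open Finset

/-- Tail of the arithmetic series. -/
theorem exists_tail (k r : ℕ) (hk : 3 ≤ k) (hr : 2 * k + 1 ≤ r) (ε : ℝ) (hε : 0 < ε) :
    ∃ G : ℕ, ∀ M : ℕ, ∑ g ∈ Finset.Ioc G M, (g : ℝ) * (beta k g) ^ r / (th k g) ^ r ≤ ε := by
  obtain ⟨C, hC0, hC⟩ := beta_bound k (2 * k * r)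
  have hk' : (0 : ℝ) < k := by positivity
  set c : ℝ := (C : ℝ) ^ ((1 : ℝ) / (2 * k)) with hc
  set f : ℕ → ℝ := fun g => (g : ℝ) * (beta k g) ^ r / (th k g) ^ r with hf
  have hbound : ∀ g : ℕ, ‖f g‖ ≤ c * (1 / (g : ℝ) ^ ((1 : ℝ) + 1 / (2 * k))) := by
    intro g
    rcases Nat.eq_zero_or_pos g with rfl | hg
    · simp only [hf, Nat.cast_zero, zero_mul, zero_div, norm_zero]
      positivity
    have hg' : (0 : ℝ) < g := by exact_mod_cast hg
    have hg1 : (1 : ℝ) ≤ g := by exact_mod_cast hg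
    have hth := th_ge_one k g hg
    have hth0 : 0 < th k g := by linarith
    have hf0 : 0 ≤ f g := by simp only [hf]; positivity
    rw [Real.norm_of_nonneg hf0]
    -- beta^r ≤ c g^{1/(2k)}
    have h1 : ((beta k g : ℝ)) ^ r ≤ c * (g : ℝ) ^ ((1 : ℝ) / (2 * k)) := by
      have e1 : ((beta k g : ℝ) ^ r) ^ (2 * k) ≤ C * g := by
        rw [← pow_mul, mul_comm r (2 * k)]
        exact_mod_cast hC g hg.ne'
      have e2 : (beta k g : ℝ) ^ r = (((beta k g : ℝ) ^ r) ^ (2 * k)) ^ ((1 : ℝ) / (2 * k)) := by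
        rw [← Real.rpow_natCast ((beta k g : ℝ) ^ r) (2 * k), ← Real.rpow_mul (by positivity)]
        push_cast
        rw [mul_one_div_cancel (by positivity), Real.rpow_one]
      rw [e2, hc, ← Real.mul_rpow (by positivity) (by positivity)]
      exact Real.rpow_le_rpow (by positivity) e1 (by positivity)
    -- theta^r ≥ g^2 g^{1/k}
    have h2 : (g : ℝ) ^ ((2 : ℝ) + 1 / k) ≤ (th k g) ^ r := by
      have e1 : (th k g) ^ (2 * k + 1) = (g : ℝ) ^ ((2 : ℝ) + 1 / k) := by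
        unfold th
        rw [← Real.rpow_natCast, ← Real.rpow_mul hg'.le]
        congr 1
        push_cast
        field_simp
      rw [← e1]
      exact pow_le_pow_right₀ hth hr
    have hgp : (0 : ℝ) < (g : ℝ) ^ ((2 : ℝ) + 1 / k) := Real.rpow_pos_of_pos hg' _
    calc f g = (g : ℝ) * (beta k g) ^ r / (th k g) ^ r := rfl
      _ ≤ (g : ℝ) * (c * (g : ℝ) ^ ((1 : ℝ) / (2 * k))) / (g : ℝ) ^ ((2 : ℝ) + 1 / k) := by
          apply div_le_div₀ (by positivity) _ hgp h2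
          apply mul_le_mul_of_nonneg_left h1 hg'.le
      _ = c * (1 / (g : ℝ) ^ ((1 : ℝ) + 1 / (2 * k))) := by
          have e3 : (g : ℝ) ^ ((2 : ℝ) + 1 / k) = (g : ℝ) * (g : ℝ) ^ ((1 : ℝ) / (2 * k)) *
              (g : ℝ) ^ ((1 : ℝ) + 1 / (2 * k)) := by
            nth_rewrite 2 [← Real.rpow_one (g : ℝ)]
            rw [← Real.rpow_add hg', ← Real.rpow_add hg']
            congr 1
            field_simp
            ring
          rw [e3]
          have : (0 : ℝ) < (g : ℝ) ^ ((1 : ℝ) / (2 * k)) := Real.rpow_pos_of_pos hg' _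
          have : (0 : ℝ) < (g : ℝ) ^ ((1 : ℝ) + 1 / (2 * k)) := Real.rpow_pos_of_pos hg' _
          field_simp
  have hsum : Summable f := by
    apply Summable.of_norm_bounded _ hbound
    apply Summable.mul_left
    rw [Real.summable_one_div_nat_rpow]
    have : (0 : ℝ) < 1 / (2 * k) := by positivity
    linarith
  have hnn : ∀ g, 0 ≤ f g := by
    intro g
    rcases Nat.eq_zero_or_pos g with rfl | hg
    · simp [hf]
    have hth := th_ge_one k g hg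
    simp only [hf]
    have : 0 ≤ th k g := by linarith
    positivity
  -- tail
  have htail := (_root_.tendsto_sum_nat_add f)
  have hev := (htail.eventually (gt_mem_nhds hε)).exists
  obtain ⟨G, hG⟩ := hev
  refine ⟨G, fun M => ?_⟩
  have hsumG : Summable (fun j => f (j + G)) := (summable_nat_add_iff G).mpr hsum
  have h1 : ∑ g ∈ Finset.Ioc G M, f g ≤ ∑' j, f (j + G) := by
    have hinj : Set.InjOn (fun g : ℕ => g - G) (Finset.Ioc G M : Set ℕ) := by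
      intro a ha b hb hab
      simp only [Finset.coe_Ioc, Set.mem_Ioc] at ha hb
      have : a - G = b - G := hab
      omega
    calc ∑ g ∈ Finset.Ioc G M, f g = ∑ g ∈ Finset.Ioc G M, f ((g - G) + G) := by
          apply Finset.sum_congr rfl
          intro g hg
          rw [Finset.mem_Ioc] at hg
          congr 1; omega
      _ = ∑ j ∈ (Finset.Ioc G M).image (fun g => g - G), f (j + G) := by
          rw [Finset.sum_image hinj]
      _ ≤ ∑' j, f (j + G) := hsumG.sum_le_tsum _ (fun j _ => hnn _)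
  exact h1.trans hG.le

/-- The exponent `B = R^{N0}`. -/
def N0 (k r : ℕ) : ℕ := r + k * r ^ 2 + 4

/-- exponent of `R` in `A`. -/
def eA (k r : ℕ) : ℕ := N0 k r * (k + 1) - 1

/-- The parameters attached to `R, A`. -/
noncomputable def mkPar (k r n C0 G : ℕ) (η : ℝ) (R A m : ℕ) : Par where
  k := k
  r := r
  n := n
  K := n ^ k * G.factorial
  L := ⌊η * A * ((R ^ N0 k r : ℕ) : ℝ) ^ k / ((n ^ k * G.factorial : ℕ) : ℝ)⌋₊
  m := m
  J := m / (8 * A)
  A := A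
  B := R ^ N0 k r
  B0 := R ^ N0 k r / C0 + 1
  R := R
  G := G
  C0 := C0
  η := η
  cA := 2 ^ eA k r

set_option maxHeartbeats 4000000 in
theorem propA (k r n C0 : ℕ) (hk : 3 ≤ k) (hr : 2 * k + 1 ≤ r) (hn : 1 ≤ n) (hC0 : 2 ≤ C0)
    (ε : ℝ) (hε : 0 < ε) :
    ∃ (G : ℕ) (η : ℝ), 0 < η ∧ η ≤ 1 ∧ ∃ R1 : ℕ, ∀ R A : ℕ, R1 ≤ R → R ^ eA k r ≤ A → A < (R + 1) ^ eA k r →
      ∑ a ∈ boxA (r + 1) A, (DD k r n (n ^ k * G.factorial)
        ⌊η * A * ((R ^ N0 k r : ℕ) : ℝ) ^ k / ((n ^ k * G.factorial : ℕ) : ℝ)⌋₊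
        (R ^ N0 k r) (R ^ N0 k r / C0 + 1) R a) ^ 2 ≤
      ε * (A : ℝ) ^ (r + 1) * (((R ^ N0 k r : ℕ) : ℝ) ^ r / (A * ((R ^ N0 k r : ℕ) : ℝ) ^ k)) ^ 2 := by
  -- constants
  set ε' : ℝ := ε / 18 ^ (r + 1) with hε'
  have hε'0 : 0 < ε' := by positivity
  set cτ : ℝ := (1500 * ((n ^ k : ℕ) : ℝ) ^ 2 * C0 ^ k) * (2 * r ^ 2 * 4 ^ r * C0 ^ (2 * k + r)) * 2 with hcτ
  have hC0R : (0 : ℝ) < C0 := by exact_mod_cast (by omega : 0 < C0)
  have hnR : (0 : ℝ) < ((n ^ k : ℕ) : ℝ) := by exact_mod_cast pow_pos hn k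
  have hrR : (0 : ℝ) < r := by exact_mod_cast (by omega : 0 < r)
  have hcτ0 : 0 < cτ := by positivity
  obtain ⟨G, hG⟩ := exists_tail k r hk hr (ε' / (3 * cτ)) (by positivity)
  set cη : ℝ := (1500 * ((n ^ k : ℕ) : ℝ) ^ 2 * C0 ^ k) * (r ^ 2 * G * 3 ^ r * C0 ^ (6 * k + r)) + 1 with hcη
  have hcη0 : 0 < cη := by positivity
  set η : ℝ := min 1 (Real.sqrt (ε' / (3 * cη))) with hη
  have hη0 : 0 < η := lt_min one_pos (Real.sqrt_pos.mpr (by positivity))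
  have hη1 : η ≤ 1 := min_le_left _ _
  have hη2 : η ^ 2 ≤ ε' / (3 * cη) := by
    rw [← Real.sq_sqrt (show 0 ≤ ε' / (3 * cη) by positivity)]
    have := min_le_right 1 (Real.sqrt (ε' / (3 * cη)))
    gcongr
  obtain ⟨Cβ, hCβ0, hCβ⟩ := beta_bound k (r * (N0 k r * k))
  have hCβR : (1 : ℝ) ≤ Cβ := by exact_mod_cast hCβ0
  set cR : ℝ := 54 * r ^ 2 * 2 ^ r * Cβ + 324 * ((n ^ k : ℕ) : ℝ) * C0 ^ k * 2 ^ eA k r +
    (1500 * ((n ^ k : ℕ) : ℝ) ^ 2 * C0 ^ k) * (r ^ 2 * G * 3 ^ r * C0 ^ (6 * k + r) +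
      2 * r ^ 2 * 4 ^ r * C0 ^ (2 * k + r) * Cβ ^ 2 + 2 * r * C0) with hcR
  have hcR0 : 0 < cR := by positivity
  obtain ⟨R2, hR2⟩ := exists_nat_ge (cR * 3 / ε')
  refine ⟨G, η, hη0, hη1, max (max R2 2) (max n (2 ^ eA k r)), ?_⟩
  intro R A hR hA1 hA2
  have hRR2 : R2 ≤ R := (le_max_left _ _).trans ((le_max_left _ _).trans hR)
  have hR22 : 2 ≤ R := (le_max_right R2 2).trans ((le_max_left _ _).trans hR)
  have hRn : n ≤ R := (le_max_left n _).trans ((le_max_right _ _).trans hR)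
  have hRe : 2 ^ eA k r ≤ R := (le_max_right n _).trans ((le_max_right _ _).trans hR)
  have hN0 : N0 k r = r + k * r ^ 2 + 4 := rfl
  have hN01 : 4 ≤ N0 k r := by omega
  have heA1 : eA k r + 1 = N0 k r * (k + 1) := by
    unfold eA
    have : 1 ≤ N0 k r * (k + 1) := Nat.one_le_iff_ne_zero.mpr (Nat.mul_ne_zero (by omega) (by omega))
    omega
  have hRpos : 0 < R := by omega
  have hAR : R ^ N0 k r * (R ^ N0 k r) ^ k ≤ A * R := by
    calc R ^ N0 k r * (R ^ N0 k r) ^ k = R ^ (N0 k r * (k + 1)) := by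
          rw [← pow_succ', ← pow_mul]
      _ = R ^ eA k r * R := by rw [← heA1, pow_succ]
      _ ≤ A * R := Nat.mul_le_mul_right _ hA1
  have hAup : A ≤ 2 ^ eA k r * R ^ eA k r := by
    calc A ≤ (R + 1) ^ eA k r := hA2.le
      _ ≤ (2 * R) ^ eA k r := Nat.pow_le_pow_left (by omega) _
      _ = _ := by rw [mul_pow]
  have hA3 : A ≤ R ^ N0 k r * (R ^ N0 k r) ^ k := by
    calc A ≤ 2 ^ eA k r * R ^ eA k r := hAup
      _ ≤ R * R ^ eA k r := Nat.mul_le_mul_right _ hRe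
      _ = R ^ (eA k r + 1) := by rw [pow_succ]; ring
      _ = R ^ N0 k r * (R ^ N0 k r) ^ k := by rw [heA1, ← pow_succ', ← pow_mul]
  have hcA : A * R ≤ 2 ^ eA k r * (R ^ N0 k r * (R ^ N0 k r) ^ k) := by
    calc A * R ≤ (2 ^ eA k r * R ^ eA k r) * R := Nat.mul_le_mul_right _ hAup
      _ = 2 ^ eA k r * R ^ (eA k r + 1) := by rw [pow_succ]; ring
      _ = _ := by rw [heA1, ← pow_succ', ← pow_mul]
  have hApos : 1 ≤ A := (Nat.one_le_pow _ _ hRpos).trans hA1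
  have hBR : R ≤ R ^ N0 k r := by
    calc R = R ^ 1 := (pow_one R).symm
      _ ≤ R ^ N0 k r := Nat.pow_le_pow_right hRpos (by omega)
  have hB2 : 2 ≤ R ^ N0 k r := hR22.trans hBR
  have hABk : (R ^ N0 k r) ^ k ≤ A := by
    have h1 : R * (R ^ N0 k r) ^ k ≤ A * R := (Nat.mul_le_mul_right _ hBR).trans hAR
    rw [mul_comm A R] at h1
    exact Nat.le_of_mul_le_mul_left h1 hRpos
  -- choose m
  set B := R ^ N0 k r with hB
  set K := n ^ k * G.factorial with hK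
  set L := ⌊η * A * ((B : ℕ) : ℝ) ^ k / ((K : ℕ) : ℝ)⌋₊ with hL
  obtain ⟨m, hmge, hmp⟩ := Nat.exists_infinite_primes
    (8 * A * (n ^ k * B ^ (2 * k) + 8) + ((r + 1) * A * B ^ k + K * L) + 1)
  have hJ1 : n ^ k * B ^ (2 * k) + 8 ≤ m / (8 * A) := by
    rw [Nat.le_div_iff_mul_le (by omega)]
    calc (n ^ k * B ^ (2 * k) + 8) * (8 * A) = 8 * A * (n ^ k * B ^ (2 * k) + 8) := by ring
      _ ≤ m := by omega
  set P := mkPar k r n C0 G η R A m with hPdef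
  have hKpos : 0 < K := Nat.mul_pos (pow_pos hn k) (Nat.factorial_pos G)
  have hOk : P.Ok := {
    hk := hk
    hr := hr
    hn := hn
    hnB := hRn.trans hBR
    hB0 := Nat.le_add_left 1 _
    hB0B := by
      show B / C0 + 1 ≤ B
      have : B / C0 ≤ B / 2 := Nat.div_le_div_left hC0 (by norm_num)
      omega
    hC0 := by
      show B ≤ C0 * (B / C0 + 1)
      have := Nat.lt_mul_div_succ B (by omega : 0 < C0)
      exact this.le
    hR := hRpos
    hm := hmp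
    hJ := by show 0 < m / (8 * A); omega
    hA1 := hApos
    h8 := by show 8 * A * (m / (8 * A)) ≤ m; exact Nat.mul_div_le m (8 * A)
    h9 := by
      show m ≤ 9 * A * (m / (8 * A))
      have h1 := Nat.lt_mul_div_succ m (by omega : 0 < 8 * A)
      have h2 : 8 * A * (m / (8 * A) + 1) ≤ 9 * A * (m / (8 * A)) := by
        have : 8 ≤ m / (8 * A) := by omega
        nlinarith
      omega
    hA := hA3
    hAR := hAR
    hcA := by
      show ((A : ℝ) * R) ≤ 2 ^ eA k r * ((B : ℕ) * ((B : ℕ) : ℝ) ^ k)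
      exact_mod_cast hcA
    hJbig := by show n ^ k * B ^ (2 * k) ≤ m / (8 * A); omega
    h4 := by
      show 4 * (m / (8 * A)) * B ^ k ≤ m
      calc 4 * (m / (8 * A)) * B ^ k ≤ 4 * (m / (8 * A)) * A := Nat.mul_le_mul_left _ hABk
        _ ≤ 8 * A * (m / (8 * A)) := by nlinarith [Nat.zero_le (m / (8 * A) * A)]
        _ ≤ m := Nat.mul_div_le m (8 * A)
    hη := hη0.le
    hKL := by
      show ((K : ℝ) * L) ≤ η * A * ((B : ℕ) : ℝ) ^ k
      have hKR : (0 : ℝ) < K := by exact_mod_cast hKpos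
      have h1 : (L : ℝ) ≤ η * A * ((B : ℕ) : ℝ) ^ k / K := Nat.floor_le (by positivity)
      calc (K : ℝ) * L ≤ K * (η * A * ((B : ℕ) : ℝ) ^ k / K) := by gcongr
        _ = _ := by field_simp
    hKG := by
      intro g hg1 hgG
      exact Nat.mul_dvd_mul_left _ (Nat.dvd_factorial hg1 hgG) }
  have hβ : ∀ q : ℕ, 1 ≤ q → q ≤ P.B ^ P.k → (beta P.k q : ℝ) ^ P.r ≤ Cβ * R := by
    intro q hq1 hq2
    have hq2' : q ≤ B ^ k := hq2
    have h1 := hCβ q (by omega)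
    have h2 : ((beta k q : ℝ) ^ r) ^ (N0 k r * k) ≤ ((Cβ : ℝ) * R) ^ (N0 k r * k) := by
      rw [← pow_mul]
      calc (beta k q : ℝ) ^ (r * (N0 k r * k)) ≤ Cβ * q := by exact_mod_cast h1
        _ ≤ Cβ * ((B : ℕ) : ℝ) ^ k := by
            apply mul_le_mul_of_nonneg_left _ (by positivity)
            exact_mod_cast hq2'
        _ = Cβ * (R : ℝ) ^ (N0 k r * k) := by
            rw [hB]; push_cast; rw [← pow_mul]
        _ ≤ (Cβ : ℝ) ^ (N0 k r * k) * (R : ℝ) ^ (N0 k r * k) := by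
            apply mul_le_mul_of_nonneg_right _ (by positivity)
            exact le_self_pow₀ hCβR (Nat.mul_ne_zero (by omega) (by omega))
        _ = _ := by rw [mul_pow]
    exact le_of_pow_le_pow_left₀ (Nat.mul_ne_zero (by omega) (by omega)) (by positivity) h2
  have hτ : ∑ g ∈ Finset.Ioc P.G (P.B ^ P.k), (g : ℝ) * (beta P.k g) ^ P.r / (th P.k g) ^ P.r ≤
    ε' / (3 * cτ) := hG _
  have hdot : ∀ a ∈ boxA (P.r + 1) P.A, ∀ x ∈ P.T, |dot a (VV P.n P.k x)| + P.K * P.L < P.m := by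
    intro a ha x hx
    have ha' := mem_boxA.mp ha
    have h1 : |dot a (VV P.n P.k x)| ≤ ((r + 1) * A * B ^ k : ℕ) := by
      unfold dot
      calc |∑ o, a o * VV P.n P.k x o| ≤ ∑ o, |a o * VV P.n P.k x o| := Finset.abs_sum_le_sum_abs _ _
        _ ≤ ∑ o : Fin (P.r + 1), ((A : ℤ) * (B : ℤ) ^ k) := by
            apply Finset.sum_le_sum
            intro o _
            rw [abs_mul]
            exact mul_le_mul (ha' o) (abs_VV_le hOk.hnB hOk.hB0 hx o) (abs_nonneg _) (by positivity)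
        _ = _ := by
            rw [Finset.sum_const, Finset.card_univ, Fintype.card_fin, nsmul_eq_mul]
            have : P.r = r := rfl
            rw [this]; push_cast; ring
    have h2 : (((r + 1) * A * B ^ k : ℕ) : ℤ) + (K : ℤ) * L < m := by
      have : (r + 1) * A * B ^ k + K * L < m := by omega
      exact_mod_cast this
    have h3 : (P.K : ℤ) * P.L = (K : ℤ) * L := rfl
    have h4 : (P.m : ℤ) = m := rfl
    rw [h3, h4]
    linarith
  have hmain := Par.second_moment hOk (Cβ * R) (ε' / (3 * cτ)) hβ hτ hdot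
  have hErr : P.Err (Cβ * R) (ε' / (3 * cτ)) ≤ ε' := by
    have hRR : (0 : ℝ) < R := by exact_mod_cast hRpos
    have hR1 : (1 : ℝ) ≤ R := by exact_mod_cast hRpos
    have eB : ((B : ℕ) : ℝ) = (R : ℝ) ^ N0 k r := by rw [hB]; push_cast; rfl
    have t1 : (R : ℝ) ^ (r + k * r ^ 2 + 1) * R / (R : ℝ) ^ N0 k r ≤ 1 / R := by
      rw [div_le_div_iff₀ (by positivity) hRR, one_mul, ← pow_succ, ← pow_succ]
      apply pow_le_pow_right₀ hR1
      rw [hN0]; omega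
    have t2 : 1 / (R : ℝ) ^ N0 k r ≤ 1 / R := by
      rw [div_le_div_iff₀ (by positivity) hRR, one_mul, one_mul]
      exact le_self_pow₀ hR1 (by omega)
    have t3 : (R : ℝ) ^ 2 / (R : ℝ) ^ N0 k r ≤ 1 / R := by
      rw [div_le_div_iff₀ (by positivity) hRR, one_mul, ← pow_succ]
      exact pow_le_pow_right₀ hR1 (by omega)
    have t4 : (R : ℝ) / (R : ℝ) ^ N0 k r ≤ 1 / R := by
      rw [div_le_div_iff₀ (by positivity) hRR, one_mul]
      nth_rewrite 1 [← pow_one (R : ℝ)]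
      rw [← pow_succ]
      exact pow_le_pow_right₀ hR1 (by omega)
    have hexp : P.Err (Cβ * R) (ε' / (3 * cτ)) =
      54 * r ^ 2 * 2 ^ r * (Cβ : ℝ) * ((R : ℝ) ^ (r + k * r ^ 2 + 1) * R / (R : ℝ) ^ N0 k r) +
      324 * ((n ^ k : ℕ) : ℝ) * C0 ^ k * 2 ^ eA k r * (1 / R) +
      (1500 * ((n ^ k : ℕ) : ℝ) ^ 2 * C0 ^ k) *
        (r ^ 2 * G * 3 ^ r * C0 ^ (6 * k + r) * (1 / (R : ℝ) ^ N0 k r) +
          2 * r ^ 2 * 4 ^ r * C0 ^ (2 * k + r) * Cβ ^ 2 * ((R : ℝ) ^ 2 / (R : ℝ) ^ N0 k r) +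
          2 * r * C0 * (R / (R : ℝ) ^ N0 k r)) +
      (1500 * ((n ^ k : ℕ) : ℝ) ^ 2 * C0 ^ k) * (r ^ 2 * G * 3 ^ r * C0 ^ (6 * k + r)) * η ^ 2 +
      cτ * (ε' / (3 * cτ)) := by
      unfold Par.Err
      rw [hcτ]
      simp only [hPdef, mkPar]
      rw [← hB, eB]
      ring
    rw [hexp]
    have s1 : cτ * (ε' / (3 * cτ)) = ε' / 3 := by field_simp
    have s2 : (1500 * ((n ^ k : ℕ) : ℝ) ^ 2 * C0 ^ k) * (r ^ 2 * G * 3 ^ r * C0 ^ (6 * k + r)) * η ^ 2 ≤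
        ε' / 3 := by
      calc _ ≤ cη * η ^ 2 := by
            apply mul_le_mul_of_nonneg_right _ (by positivity)
            rw [hcη]; linarith
        _ ≤ cη * (ε' / (3 * cη)) := mul_le_mul_of_nonneg_left hη2 hcη0.le
        _ = ε' / 3 := by field_simp
    have s3 : 54 * r ^ 2 * 2 ^ r * (Cβ : ℝ) * ((R : ℝ) ^ (r + k * r ^ 2 + 1) * R / (R : ℝ) ^ N0 k r) +
      324 * ((n ^ k : ℕ) : ℝ) * C0 ^ k * 2 ^ eA k r * (1 / R) +
      (1500 * ((n ^ k : ℕ) : ℝ) ^ 2 * C0 ^ k) *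
        (r ^ 2 * G * 3 ^ r * C0 ^ (6 * k + r) * (1 / (R : ℝ) ^ N0 k r) +
          2 * r ^ 2 * 4 ^ r * C0 ^ (2 * k + r) * Cβ ^ 2 * ((R : ℝ) ^ 2 / (R : ℝ) ^ N0 k r) +
          2 * r * C0 * (R / (R : ℝ) ^ N0 k r)) ≤ ε' / 3 := by
      calc _ ≤ 54 * r ^ 2 * 2 ^ r * (Cβ : ℝ) * (1 / R) +
              324 * ((n ^ k : ℕ) : ℝ) * C0 ^ k * 2 ^ eA k r * (1 / R) +
              (1500 * ((n ^ k : ℕ) : ℝ) ^ 2 * C0 ^ k) *
                (r ^ 2 * G * 3 ^ r * C0 ^ (6 * k + r) * (1 / R) +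
                  2 * r ^ 2 * 4 ^ r * C0 ^ (2 * k + r) * Cβ ^ 2 * (1 / R) +
                  2 * r * C0 * (1 / R)) := by gcongr
        _ = cR / R := by rw [hcR]; ring
        _ ≤ ε' / 3 := by
            rw [div_le_div_iff₀ hRR (by norm_num)]
            have h1 : cR * 3 / ε' ≤ R := hR2.trans (by exact_mod_cast hRR2)
            rw [div_le_iff₀ hε'0] at h1
            linarith
    linarith
  have hA0 : (0 : ℝ) < A := by exact_mod_cast hApos
  refine hmain.trans ?_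
  have hfin : (18 : ℝ) ^ (P.r + 1) * (P.A : ℝ) ^ (P.r + 1) * (P.B ^ P.r / (P.A * P.B ^ P.k)) ^ 2 *
      P.Err (Cβ * R) (ε' / (3 * cτ)) ≤ (18 : ℝ) ^ (P.r + 1) * (P.A : ℝ) ^ (P.r + 1) *
      (P.B ^ P.r / (P.A * P.B ^ P.k)) ^ 2 * ε' :=
    mul_le_mul_of_nonneg_left hErr (by positivity)
  refine hfin.trans (le_of_eq ?_)
  rw [hε']
  show (18 : ℝ) ^ (r + 1) * (A : ℝ) ^ (r + 1) * (((B : ℕ) : ℝ) ^ r / (A * ((B : ℕ) : ℝ) ^ k)) ^ 2 *
    (ε / 18 ^ (r + 1)) = _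
  field_simp

end Pool.Agent.H888.DH
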