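import Pool.Agent.H888.DH.Loc3
import Pool.Agent.H888.DH.PropA

set_option linter.unusedVariables false
set_option linter.unusedSectionVars false
set_option linter.style.haveILetI false

namespace Pool.Agent.H888.DH

open Finset

section
variable {p : ℕ} [hp : Fact p.Prime]

/-- Affine form. -/
def LL {r : ℕ} (a : Fin (r + 1) → ZMod p) (u : Fin r → ZMod p) : ZMod p :=
  a 0 + ∑ l, a (Fin.succ l) * u l

/-- number of solutions modulo `p`. -/
def Np (k r : ℕ) (a : Fin (r + 1) → ZMod p) : ℕ :=
  (Finset.univ.filter (fun z : Fin r → ZMod p => LL a (fun l => z l ^ k) = 0)).card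

theorem card_LL_one {r : ℕ} (u : Fin r → ZMod p) :
    (Finset.univ.filter (fun a : Fin (r + 1) → ZMod p => LL a u = 0)).card = p ^ r := by
  classical
  have h1 : (Finset.univ : Finset (Fin r → ZMod p)).card = p ^ r := by
    rw [Finset.card_univ, Fintype.card_fun, ZMod.card, Fintype.card_fin]
  rw [← h1]
  symm
  apply Finset.card_bij (fun b _ => (Fin.cons (-(∑ l, b l * u l)) b : Fin (r + 1) → ZMod p))
  · intro b _
    rw [Finset.mem_filter]
    refine ⟨Finset.mem_univ _, ?_⟩
    unfold LL
    simp only [Fin.cons_zero, Fin.cons_succ]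
    ring
  · intro b _ b' _ h
    funext l
    have := congrFun h (Fin.succ l)
    simpa using this
  · intro a ha
    rw [Finset.mem_filter] at ha
    replace ha := ha.2
    unfold LL at ha
    refine ⟨fun l => a (Fin.succ l), Finset.mem_univ _, ?_⟩
    funext o
    refine Fin.cases ?_ ?_ o
    · rw [Fin.cons_zero]
      linear_combination -ha
    · intro l; rw [Fin.cons_succ]

theorem card_LL_two {r : ℕ} (u u' : Fin r → ZMod p) (h : u ≠ u') :
    (Finset.univ.filter (fun a : Fin (r + 1) → ZMod p => LL a u = 0 ∧ LL a u' = 0)).card ≤ p ^ (r - 1) := by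
  classical
  obtain ⟨l, hl⟩ := Function.ne_iff.mp h
  have h1 : (Finset.univ : Finset ({j : Fin r // j ≠ l} → ZMod p)).card = p ^ (r - 1) := by
    rw [Finset.card_univ, Fintype.card_fun, ZMod.card, Fintype.card_subtype_compl]
    simp
  rw [← h1]
  apply Finset.card_le_card_of_injOn (fun a (j : {j : Fin r // j ≠ l}) => a (Fin.succ j.1))
  · intro a _; simp
  · intro a ha b hb hab
    rw [Finset.mem_coe, Finset.mem_filter] at ha hb
    replace ha := ha.2
    replace hb := hb.2
    unfold LL at ha hb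
    have hj : ∀ j : Fin r, j ≠ l → a (Fin.succ j) = b (Fin.succ j) := fun j hj =>
      congrFun hab ⟨j, hj⟩
    have e1 : ∑ j ∈ Finset.univ.erase l, a (Fin.succ j) * u j = ∑ j ∈ Finset.univ.erase l, b (Fin.succ j) * u j := by
      apply Finset.sum_congr rfl; intro j hj'; rw [hj j (Finset.mem_erase.mp hj').1]
    have e2 : ∑ j ∈ Finset.univ.erase l, a (Fin.succ j) * u' j = ∑ j ∈ Finset.univ.erase l, b (Fin.succ j) * u' j := by
      apply Finset.sum_congr rfl; intro j hj'; rw [hj j (Finset.mem_erase.mp hj').1]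
    rw [← Finset.add_sum_erase Finset.univ _ (Finset.mem_univ l),
      ← Finset.add_sum_erase Finset.univ _ (Finset.mem_univ l)] at ha hb
    have e3 : (a (Fin.succ l) - b (Fin.succ l)) * (u l - u' l) = 0 := by
      linear_combination ha.1 - ha.2 - hb.1 + hb.2 - e1 + e2
    have e4 : a (Fin.succ l) = b (Fin.succ l) := by
      rcases mul_eq_zero.mp e3 with h | h
      · exact sub_eq_zero.mp h
      · exact absurd (sub_eq_zero.mp h) hl
    have e5 : a 0 = b 0 := by linear_combination ha.1 - hb.1 - e1 - u l * e4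
    funext o
    refine Fin.cases e5 ?_ o
    intro j
    by_cases hjl : j = l
    · rw [hjl]; exact e4
    · exact hj j hjl

theorem card_roots_le (k : ℕ) (hk : 1 ≤ k) (c : ZMod p) :
    (Finset.univ.filter (fun y : ZMod p => y ^ k = c)).card ≤ k := by
  classical
  have h1 : (Finset.univ.filter (fun y : ZMod p => y ^ k = c)) ⊆
      (Polynomial.nthRoots k c).toFinset := by
    intro y hy
    rw [Multiset.mem_toFinset, Polynomial.mem_nthRoots (by omega)]
    exact (Finset.mem_filter.mp hy).2
  calc _ ≤ _ := Finset.card_le_card h1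
    _ ≤ Multiset.card (Polynomial.nthRoots k c) := Multiset.toFinset_card_le _
    _ ≤ k := Polynomial.card_nthRoots k _

theorem moment_mod_p (k r : ℕ) (hk : 1 ≤ k) (hr : 3 ≤ r) :
    ∑ a : Fin (r + 1) → ZMod p, ((Np k r a : ℝ) - (p : ℝ) ^ (r - 1)) ^ 2 ≤ (k : ℝ) ^ r * (p : ℝ) ^ (2 * r) := by
  classical
  have hpp : (0 : ℝ) < p := by exact_mod_cast hp.out.pos
  set V := Fin r → ZMod p
  have hN : ∀ a : Fin (r + 1) → ZMod p, (Np k r a : ℝ) =
      ∑ z : V, (if LL a (fun l => z l ^ k) = 0 then (1 : ℝ) else 0) := by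
    intro a
    unfold Np
    rw [Finset.card_filter]; push_cast; rfl
  have hcardV : (Fintype.card V : ℝ) = (p : ℝ) ^ r := by
    simp only [V, Fintype.card_fun, ZMod.card, Fintype.card_fin]; push_cast; rfl
  have hcardW : (Fintype.card (Fin (r + 1) → ZMod p) : ℝ) = (p : ℝ) ^ (r + 1) := by
    simp only [Fintype.card_fun, ZMod.card, Fintype.card_fin]; push_cast; rfl
  have hsum1 : ∑ a : Fin (r + 1) → ZMod p, (Np k r a : ℝ) = (p : ℝ) ^ r * (p : ℝ) ^ r := by
    simp only [hN]
    rw [Finset.sum_comm]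
    calc ∑ z : V, ∑ a : Fin (r + 1) → ZMod p, (if LL a (fun l => z l ^ k) = 0 then (1 : ℝ) else 0)
        = ∑ z : V, (p : ℝ) ^ r := by
          apply Finset.sum_congr rfl
          intro z _
          have := card_LL_one (p := p) (fun l => z l ^ k)
          rw [Finset.card_filter] at this
          exact_mod_cast this
      _ = _ := by rw [Finset.sum_const, Finset.card_univ, nsmul_eq_mul, hcardV]
  have hsum2 : ∑ a : Fin (r + 1) → ZMod p, (Np k r a : ℝ) ^ 2 ≤
      (p : ℝ) ^ r * ((p : ℝ) ^ r * (p : ℝ) ^ (r - 1) + (k : ℝ) ^ r * (p : ℝ) ^ r) := by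
    have e1 : ∀ a : Fin (r + 1) → ZMod p, (Np k r a : ℝ) ^ 2 = ∑ z : V, ∑ z' : V,
        (if LL a (fun l => z l ^ k) = 0 ∧ LL a (fun l => z' l ^ k) = 0 then (1 : ℝ) else 0) := by
      intro a
      rw [sq, hN, Finset.sum_mul_sum]
      apply Finset.sum_congr rfl; intro z _
      apply Finset.sum_congr rfl; intro z' _
      by_cases h1 : LL a (fun l => z l ^ k) = 0 <;> by_cases h2 : LL a (fun l => z' l ^ k) = 0 <;>
        simp [h1, h2]
    simp only [e1]
    rw [Finset.sum_comm]
    calc ∑ z : V, ∑ a : Fin (r + 1) → ZMod p, ∑ z' : V,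
        (if LL a (fun l => z l ^ k) = 0 ∧ LL a (fun l => z' l ^ k) = 0 then (1 : ℝ) else 0)
        ≤ ∑ z : V, ((p : ℝ) ^ r * (p : ℝ) ^ (r - 1) + (k : ℝ) ^ r * (p : ℝ) ^ r) := by
          apply Finset.sum_le_sum
          intro z _
          rw [Finset.sum_comm]
          calc ∑ z' : V, ∑ a : Fin (r + 1) → ZMod p,
              (if LL a (fun l => z l ^ k) = 0 ∧ LL a (fun l => z' l ^ k) = 0 then (1 : ℝ) else 0)
              ≤ ∑ z' : V, ((p : ℝ) ^ (r - 1) +
                (if (fun l => z' l ^ k) = (fun l => z l ^ k) then (p : ℝ) ^ r else 0)) := by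
                apply Finset.sum_le_sum
                intro z' _
                by_cases h : (fun l => z' l ^ k) = (fun l => z l ^ k)
                · rw [if_pos h]
                  have h1 := card_LL_one (p := p) (fun l => z l ^ k)
                  rw [Finset.card_filter] at h1
                  have h2 : ∑ a : Fin (r + 1) → ZMod p,
                      (if LL a (fun l => z l ^ k) = 0 ∧ LL a (fun l => z' l ^ k) = 0 then (1 : ℝ) else 0) =
                      (p : ℝ) ^ r := by
                    rw [h]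
                    simp only [and_self]
                    exact_mod_cast h1
                  rw [h2]
                  have : (0 : ℝ) ≤ (p : ℝ) ^ (r - 1) := by positivity
                  linarith
                · rw [if_neg h, add_zero]
                  have h1 := card_LL_two (p := p) (fun l => z l ^ k) (fun l => z' l ^ k) (fun h' => h h'.symm)
                  rw [Finset.card_filter] at h1
                  exact_mod_cast h1
            _ = Fintype.card V * (p : ℝ) ^ (r - 1) +
                (Finset.univ.filter (fun z' : V => (fun l => z' l ^ k) = (fun l => z l ^ k))).card * (p : ℝ) ^ r := by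
                rw [Finset.sum_add_distrib, Finset.sum_const, Finset.card_univ, nsmul_eq_mul,
                  ← Finset.sum_filter, Finset.sum_const, nsmul_eq_mul]
            _ ≤ _ := by
                rw [hcardV]
                have h3 : (Finset.univ.filter (fun z' : V => (fun l => z' l ^ k) = (fun l => z l ^ k))).card ≤ k ^ r := by
                  calc _ ≤ (Fintype.piFinset (fun l => Finset.univ.filter (fun y : ZMod p => y ^ k = z l ^ k))).card := by
                        apply Finset.card_le_card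
                        intro z' hz'
                        rw [Finset.mem_filter] at hz'
                        rw [Fintype.mem_piFinset]
                        intro l
                        rw [Finset.mem_filter]
                        exact ⟨Finset.mem_univ _, congrFun hz'.2 l⟩
                    _ = ∏ l, (Finset.univ.filter (fun y : ZMod p => y ^ k = z l ^ k)).card :=
                        Fintype.card_piFinset _
                    _ ≤ ∏ l : Fin r, k := Finset.prod_le_prod' (fun l _ => card_roots_le k hk _)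
                    _ = k ^ r := by rw [Finset.prod_const, Finset.card_univ, Fintype.card_fin]
                have h4 : ((Finset.univ.filter (fun z' : V => (fun l => z' l ^ k) = (fun l => z l ^ k))).card : ℝ) ≤ (k : ℝ) ^ r := by
                  exact_mod_cast h3
                have h5 := mul_le_mul_of_nonneg_right h4 (by positivity : (0 : ℝ) ≤ (p : ℝ) ^ r)
                linarith
      _ = _ := by rw [Finset.sum_const, Finset.card_univ, nsmul_eq_mul, hcardV]
  have hexp : ∑ a : Fin (r + 1) → ZMod p, ((Np k r a : ℝ) - (p : ℝ) ^ (r - 1)) ^ 2 =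
      ∑ a : Fin (r + 1) → ZMod p, (Np k r a : ℝ) ^ 2 - 2 * (p : ℝ) ^ (r - 1) *
        ∑ a : Fin (r + 1) → ZMod p, (Np k r a : ℝ) + (p : ℝ) ^ (r + 1) * ((p : ℝ) ^ (r - 1)) ^ 2 := by
    rw [Finset.mul_sum, ← Finset.sum_sub_distrib]
    have : (p : ℝ) ^ (r + 1) * ((p : ℝ) ^ (r - 1)) ^ 2 =
        ∑ a : Fin (r + 1) → ZMod p, ((p : ℝ) ^ (r - 1)) ^ 2 := by
      rw [Finset.sum_const, Finset.card_univ, nsmul_eq_mul, hcardW]
    rw [this, ← Finset.sum_add_distrib]
    apply Finset.sum_congr rfl; intro a _; ring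
  rw [hexp, hsum1]
  have e1 : (p : ℝ) ^ (r + 1) * ((p : ℝ) ^ (r - 1)) ^ 2 = (p : ℝ) ^ r * ((p : ℝ) ^ r * (p : ℝ) ^ (r - 1)) := by
    have h1 : (p : ℝ) ^ r = (p : ℝ) ^ (r - 1) * p := by rw [← pow_succ]; congr 1; omega
    rw [pow_succ, h1]; ring
  rw [e1]
  have e2 : (p : ℝ) ^ (2 * r) = (p : ℝ) ^ r * (p : ℝ) ^ r := by rw [two_mul, pow_add]
  rw [e2]
  nlinarith [hsum2]

/-- The bad classes modulo `p`. -/
noncomputable def BadP (k r p : ℕ) [Fact p.Prime] : Finset (Fin (r + 1) → ZMod p) := by
  classical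
  exact Finset.univ.filter (fun a => ¬ (|(Np k r a : ℝ) - (p : ℝ) ^ (r - 1)| < (p : ℝ) ^ (r - 3)) ∨
    (Finset.univ.filter (fun l : Fin r => a (Fin.succ l) ≠ 0)).card ≤ 2)

theorem card_BadP_le (k r : ℕ) (hk : 1 ≤ k) (hr : 7 ≤ r) :
    ((BadP k r p).card : ℝ) ≤ ((k : ℝ) ^ r + r ^ 2) * (p : ℝ) ^ (r - 1) := by
  classical
  have hpp : (0 : ℝ) < p := by exact_mod_cast hp.out.pos
  have hp1 : (1 : ℝ) ≤ p := by exact_mod_cast hp.out.one_lt.le
  set B1 := Finset.univ.filter (fun a : Fin (r + 1) → ZMod p =>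
    ¬ (|(Np k r a : ℝ) - (p : ℝ) ^ (r - 1)| < (p : ℝ) ^ (r - 3))) with hB1
  set B2 := Finset.univ.filter (fun a : Fin (r + 1) → ZMod p =>
    (Finset.univ.filter (fun l : Fin r => a (Fin.succ l) ≠ 0)).card ≤ 2) with hB2
  have hsub : BadP k r p ⊆ B1 ∪ B2 := by
    intro a ha
    rw [BadP, Finset.mem_filter] at ha
    rw [Finset.mem_union, hB1, hB2, Finset.mem_filter, Finset.mem_filter]
    rcases ha.2 with h | h
    · left; exact ⟨Finset.mem_univ _, h⟩
    · right; exact ⟨Finset.mem_univ _, h⟩
  have h1 : (B1.card : ℝ) ≤ (k : ℝ) ^ r * (p : ℝ) ^ (r - 1) := by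
    have hm := moment_mod_p (p := p) k r hk (by omega)
    have e1 : (B1.card : ℝ) * ((p : ℝ) ^ (r - 3)) ^ 2 ≤ (k : ℝ) ^ r * (p : ℝ) ^ (2 * r) := by
      calc (B1.card : ℝ) * ((p : ℝ) ^ (r - 3)) ^ 2 = ∑ a ∈ B1, ((p : ℝ) ^ (r - 3)) ^ 2 := by
            rw [Finset.sum_const, nsmul_eq_mul]
        _ ≤ ∑ a ∈ B1, ((Np k r a : ℝ) - (p : ℝ) ^ (r - 1)) ^ 2 := by
            apply Finset.sum_le_sum
            intro a ha
            rw [hB1, Finset.mem_filter] at ha
            have := not_lt.mp ha.2
            rw [← sq_abs ((Np k r a : ℝ) - _)]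
            gcongr
        _ ≤ ∑ a : Fin (r + 1) → ZMod p, ((Np k r a : ℝ) - (p : ℝ) ^ (r - 1)) ^ 2 :=
            Finset.sum_le_sum_of_subset_of_nonneg (Finset.subset_univ _) (fun _ _ _ => by positivity)
        _ ≤ _ := hm
    have e2 : (p : ℝ) ^ (2 * r) = (p : ℝ) ^ 6 * ((p : ℝ) ^ (r - 3)) ^ 2 := by
      rw [← pow_mul, ← pow_add]; congr 1; omega
    rw [e2, ← mul_assoc] at e1
    have e3 : (B1.card : ℝ) ≤ (k : ℝ) ^ r * (p : ℝ) ^ 6 := le_of_mul_le_mul_right e1 (by positivity)
    refine e3.trans ?_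
    apply mul_le_mul_of_nonneg_left _ (by positivity)
    exact pow_le_pow_right₀ hp1 (by omega)
  have h2 : (B2.card : ℝ) ≤ (r : ℝ) ^ 2 * (p : ℝ) ^ (r - 1) := by
    set S : Fin r × Fin r → Finset (Fin (r + 1) → ZMod p) := fun ij =>
      Fintype.piFinset (fun o => if o = 0 ∨ o = Fin.succ ij.1 ∨ o = Fin.succ ij.2 then Finset.univ else {0}) with hS
    have hsub2 : B2 ⊆ (Finset.univ : Finset (Fin r × Fin r)).biUnion S := by
      intro a ha
      rw [hB2, Finset.mem_filter] at ha
      rw [Finset.mem_biUnion]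
      obtain ⟨i, j, hij⟩ : ∃ i j : Fin r, (Finset.univ.filter (fun l : Fin r => a (Fin.succ l) ≠ 0)) ⊆ {i, j} := by
        set Q := Finset.univ.filter (fun l : Fin r => a (Fin.succ l) ≠ 0) with hQ
        have hr0 : 0 < r := by omega
        rcases Nat.lt_or_ge Q.card 1 with h0 | h0
        · have : Q = ∅ := Finset.card_eq_zero.mp (by omega)
          rw [this]; exact ⟨⟨0, hr0⟩, ⟨0, hr0⟩, Finset.empty_subset _⟩
        · rcases Nat.lt_or_ge Q.card 2 with h0' | h0'
          · obtain ⟨i, hi⟩ := Finset.card_eq_one.mp (by omega : Q.card = 1)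
            rw [hi]; exact ⟨i, i, by simp⟩
          · obtain ⟨i, j, _, hij⟩ := Finset.card_eq_two.mp (by have := ha.2; omega : Q.card = 2)
            rw [hij]; exact ⟨i, j, subset_rfl⟩
      refine ⟨(i, j), Finset.mem_univ _, ?_⟩
      rw [hS, Fintype.mem_piFinset]
      intro o
      by_cases ho : o = 0 ∨ o = Fin.succ i ∨ o = Fin.succ j
      · rw [if_pos ho]; exact Finset.mem_univ _
      · rw [if_neg ho, Finset.mem_singleton]
        push Not at ho
        obtain ⟨l, rfl⟩ := Fin.exists_succ_eq.mpr ho.1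
        by_contra hne
        have : l ∈ ({i, j} : Finset (Fin r)) := hij (by rw [Finset.mem_filter]; exact ⟨Finset.mem_univ _, hne⟩)
        rw [Finset.mem_insert, Finset.mem_singleton] at this
        rcases this with rfl | rfl
        · exact ho.2.1 rfl
        · exact ho.2.2 rfl
    have hScard : ∀ ij, (S ij).card ≤ p ^ (r - 1) := by
      intro ij
      rw [hS, Fintype.card_piFinset]
      calc ∏ o : Fin (r + 1), (if o = 0 ∨ o = Fin.succ ij.1 ∨ o = Fin.succ ij.2 then (Finset.univ : Finset (ZMod p)) else {0}).card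
          = ∏ o : Fin (r + 1), (if o = 0 ∨ o = Fin.succ ij.1 ∨ o = Fin.succ ij.2 then p else 1) := by
            apply Finset.prod_congr rfl
            intro o _
            split_ifs
            · rw [Finset.card_univ, ZMod.card]
            · rw [Finset.card_singleton]
        _ = p ^ (Finset.univ.filter (fun o : Fin (r + 1) => o = 0 ∨ o = Fin.succ ij.1 ∨ o = Fin.succ ij.2)).card := by
            rw [Finset.prod_ite, Finset.prod_const, Finset.prod_const_one, mul_one]
        _ ≤ p ^ 3 := by
            apply Nat.pow_le_pow_right hp.out.pos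
            calc _ ≤ ({0, Fin.succ ij.1, Fin.succ ij.2} : Finset (Fin (r + 1))).card := by
                  apply Finset.card_le_card
                  intro o ho
                  rw [Finset.mem_filter] at ho
                  simpa using ho.2
              _ ≤ 3 := Finset.card_le_three
        _ ≤ p ^ (r - 1) := Nat.pow_le_pow_right hp.out.pos (by omega)
    have : B2.card ≤ r ^ 2 * p ^ (r - 1) := by
      calc B2.card ≤ _ := Finset.card_le_card hsub2
        _ ≤ ∑ ij : Fin r × Fin r, (S ij).card := Finset.card_biUnion_le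
        _ ≤ ∑ ij : Fin r × Fin r, p ^ (r - 1) := Finset.sum_le_sum (fun ij _ => hScard ij)
        _ = _ := by
            rw [Finset.sum_const, Finset.card_univ, Fintype.card_prod, Fintype.card_fin, smul_eq_mul]
            ring
    exact_mod_cast this
  calc ((BadP k r p).card : ℝ) ≤ ((B1 ∪ B2).card : ℝ) := by exact_mod_cast Finset.card_le_card hsub
    _ ≤ (B1.card : ℝ) + B2.card := by exact_mod_cast Finset.card_union_le _ _
    _ ≤ _ := by linarith

/-- **Local count at good primes.** -/
theorem localG (k r : ℕ) (hk : 2 ≤ k) (hr : 7 ≤ r) (hkp : ¬ p ∣ k) (a : Fin (r + 1) → ℤ)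
    (ha : (fun o => ((a o : ℤ) : ZMod p)) ∉ BadP k r p) (n : ℕ) (hn : ¬ p ∣ n) (m : ℕ) (hm : 0 < m)
    [NeZero (p ^ m)] :
    (1 - 2 / (p : ℝ) ^ 2) * ((p : ℝ) ^ m) ^ (r - 1) ≤ (SolN k r a n (p ^ m)).card := by
  classical
  have hpp : (0 : ℝ) < p := by exact_mod_cast hp.out.pos
  rw [BadP, Finset.mem_filter] at ha
  push Not at ha
  obtain ⟨ha1, ha2⟩ := ha (Finset.mem_univ _)
  have hn0 : ((n : ℕ) : ZMod p) ≠ 0 := by
    intro h; exact hn ((ZMod.natCast_eq_zero_iff n p).mp h)
  have hk0 : ((k : ℕ) : ZMod p) ≠ 0 := by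
    intro h; exact hkp ((ZMod.natCast_eq_zero_iff k p).mp h)
  set S1 := Finset.univ.filter (fun c : Fin r → ZMod p =>
    (a 0 : ZMod p) * (n : ZMod p) ^ k + ∑ l, (a (Fin.succ l) : ZMod p) * (c l) ^ k = 0) with hS1
  set Sing := Finset.univ.filter (fun c : Fin r → ZMod p =>
    ∀ l, (a (Fin.succ l) : ZMod p) * (c l) ^ (k - 1) = 0) with hSing
  set 𝔅 := S1 \ Sing with h𝔅
  have hS1card : S1.card = Np k r (fun o => ((a o : ℤ) : ZMod p)) := by
    unfold Np
    symm
    apply Finset.card_bij (fun z _ l => (n : ZMod p) * z l)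
    · intro z hz
      rw [Finset.mem_filter, LL] at hz
      rw [hS1, Finset.mem_filter]
      refine ⟨Finset.mem_univ _, ?_⟩
      have e : (a 0 : ZMod p) * (n : ZMod p) ^ k + ∑ l, (a (Fin.succ l) : ZMod p) * ((n : ZMod p) * z l) ^ k =
          (n : ZMod p) ^ k * (((a 0 : ℤ) : ZMod p) + ∑ l, ((a (Fin.succ l) : ℤ) : ZMod p) * z l ^ k) := by
        rw [mul_add, Finset.mul_sum]
        congr 1
        · ring
        · apply Finset.sum_congr rfl; intro l _; ring
      rw [e, hz.2, mul_zero]
    · intro z _ z' _ h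
      funext l
      exact mul_left_cancel₀ hn0 (congrFun h l)
    · intro c hc
      rw [hS1, Finset.mem_filter] at hc
      refine ⟨fun l => (n : ZMod p)⁻¹ * c l, ?_, ?_⟩
      · rw [Finset.mem_filter, LL]
        refine ⟨Finset.mem_univ _, ?_⟩
        have hnk : (n : ZMod p) ^ k ≠ 0 := pow_ne_zero _ hn0
        apply mul_left_cancel₀ hnk
        rw [mul_zero, ← hc.2, mul_add, Finset.mul_sum]
        congr 1
        · ring
        · apply Finset.sum_congr rfl; intro l _
          rw [mul_pow]
          have : (n : ZMod p) ^ k * ((n : ZMod p)⁻¹) ^ k = 1 := by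
            rw [← mul_pow, mul_inv_cancel₀ hn0, one_pow]
          linear_combination (((a (Fin.succ l) : ℤ) : ZMod p) * c l ^ k) * this
      · funext l
        rw [← mul_assoc, mul_inv_cancel₀ hn0, one_mul]
  have hSingcard : Sing.card ≤ p ^ (r - 3) := by
    calc Sing.card ≤ (Fintype.piFinset (fun l : Fin r => if ((a (Fin.succ l) : ℤ) : ZMod p) ≠ 0 then ({0} : Finset (ZMod p)) else Finset.univ)).card := by
          apply Finset.card_le_card
          intro c hc
          rw [hSing, Finset.mem_filter] at hc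
          rw [Fintype.mem_piFinset]
          intro l
          split_ifs with h
          · rw [Finset.mem_singleton]
            rcases mul_eq_zero.mp (hc.2 l) with h' | h'
            · exact absurd h' h
            · exact (pow_eq_zero_iff (by omega)).mp h'
          · exact Finset.mem_univ _
      _ = ∏ l : Fin r, (if ((a (Fin.succ l) : ℤ) : ZMod p) ≠ 0 then 1 else p) := by
          rw [Fintype.card_piFinset]
          apply Finset.prod_congr rfl
          intro l _
          split_ifs
          · rw [Finset.card_singleton]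
          · rw [Finset.card_univ, ZMod.card]
      _ = p ^ (Finset.univ.filter (fun l : Fin r => ¬ ((a (Fin.succ l) : ℤ) : ZMod p) ≠ 0)).card := by
          rw [Finset.prod_ite, Finset.prod_const_one, one_mul, Finset.prod_const]
      _ ≤ p ^ (r - 3) := by
          apply Nat.pow_le_pow_right hp.out.pos
          have h3 := Finset.card_filter_add_card_filter_not (s := (Finset.univ : Finset (Fin r)))
            (fun l => ((a (Fin.succ l) : ℤ) : ZMod p) ≠ 0)
          rw [Finset.card_univ, Fintype.card_fin] at h3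
          omega
  have h𝔅card : (p : ℝ) ^ (r - 1) - 2 * (p : ℝ) ^ (r - 3) ≤ (𝔅.card : ℝ) := by
    have e1 : S1.card ≤ 𝔅.card + Sing.card := by
      have := Finset.card_sdiff_add_card_inter S1 Sing
      have h2 : (S1 ∩ Sing).card ≤ Sing.card := Finset.card_le_card Finset.inter_subset_right
      rw [h𝔅]; omega
    have e2 : (S1.card : ℝ) ≤ 𝔅.card + Sing.card := by exact_mod_cast e1
    have e3 : (Sing.card : ℝ) ≤ (p : ℝ) ^ (r - 3) := by exact_mod_cast hSingcard
    have e4 := (abs_lt.mp ha1).1
    rw [hS1card] at e2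
    linarith
  -- fibres
  set φ := ZMod.castHom (dvd_pow_self p (by omega : m ≠ 0)) (ZMod p) with hφ
  have hfib : ∀ c ∈ 𝔅, (p ^ (m - 1)) ^ (r - 1) ≤ ((SolN k r a n (p ^ m)).filter (fun z => (fun j => φ (z j)) = c)).card := by
    intro c hc
    rw [h𝔅, Finset.mem_sdiff, hS1, hSing, Finset.mem_filter, Finset.mem_filter] at hc
    obtain ⟨⟨_, hc1⟩, hc2⟩ := hc
    push Not at hc2
    obtain ⟨l, hl⟩ := hc2 (Finset.mem_univ _)
    have hf : (p : ℤ_[p]) ^ (2 * 0 + 1) ∣ (a 0 : ℤ_[p]) * (n : ℤ_[p]) ^ k +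
        ∑ j, (a (Fin.succ j) : ℤ_[p]) * (((c j).val : ℕ) : ℤ_[p]) ^ k := by
      have e1 : (p : ℤ) ^ 1 ∣ (a 0 * (n : ℤ) ^ k + ∑ j, a (Fin.succ j) * (((c j).val : ℕ) : ℤ) ^ k) := by
        rw [pow_one, ← ZMod.intCast_zmod_eq_zero_iff_dvd]
        push_cast
        simp only [ZMod.natCast_zmod_val]
        exact hc1
      have e2 := (padic_pow_dvd_int (p := p) _ 1).mpr e1
      simpa using e2
    have hd : ¬ (p : ℤ_[p]) ^ (0 + 1) ∣ k * (a (Fin.succ l) : ℤ_[p]) * ((((c l).val : ℕ) : ℤ_[p])) ^ (k - 1) := by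
      intro h
      have e1 : (p : ℤ_[p]) ^ 1 ∣ (((k : ℤ) * a (Fin.succ l) * (((c l).val : ℕ) : ℤ) ^ (k - 1) : ℤ) : ℤ_[p]) := by
        push_cast; simpa using h
      rw [padic_pow_dvd_int, pow_one, ← ZMod.intCast_zmod_eq_zero_iff_dvd] at e1
      push_cast at e1
      rw [ZMod.natCast_zmod_val, mul_assoc] at e1
      rcases mul_eq_zero.mp e1 with h' | h'
      · exact hk0 h'
      · exact hl h'
    have h1 := lift_count (p := p) k r (by omega) a n (fun j => (((c j).val : ℕ) : ℤ_[p])) l 0 m (by omega) hf hd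
    refine h1.trans (Finset.card_le_card ?_)
    intro z hz
    rw [Finset.mem_filter] at hz ⊢
    refine ⟨hz.1, ?_⟩
    funext j
    have := hz.2 j
    rw [map_natCast, map_natCast, ZMod.natCast_zmod_val] at this
    exact this
  have htot : (𝔅.card : ℝ) * ((p : ℝ) ^ (m - 1)) ^ (r - 1) ≤ (SolN k r a n (p ^ m)).card := by
    have e1 : ∑ c ∈ 𝔅, ((SolN k r a n (p ^ m)).filter (fun z => (fun j => φ (z j)) = c)).card ≤
        (SolN k r a n (p ^ m)).card := by
      rw [← Finset.card_biUnion]
      · apply Finset.card_le_card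
        intro z hz
        rw [Finset.mem_biUnion] at hz
        obtain ⟨c, _, hz⟩ := hz
        exact (Finset.mem_filter.mp hz).1
      · intro c _ c' _ hcc
        rw [Function.onFun, Finset.disjoint_left]
        intro z hz hz'
        exact hcc ((Finset.mem_filter.mp hz).2.symm.trans (Finset.mem_filter.mp hz').2)
    have e2 : 𝔅.card * (p ^ (m - 1)) ^ (r - 1) ≤ (SolN k r a n (p ^ m)).card := by
      calc 𝔅.card * (p ^ (m - 1)) ^ (r - 1) = ∑ c ∈ 𝔅, (p ^ (m - 1)) ^ (r - 1) := by
            rw [Finset.sum_const, smul_eq_mul]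
        _ ≤ _ := Finset.sum_le_sum hfib
        _ ≤ _ := e1
    exact_mod_cast e2
  calc (1 - 2 / (p : ℝ) ^ 2) * ((p : ℝ) ^ m) ^ (r - 1)
      = ((p : ℝ) ^ (r - 1) - 2 * (p : ℝ) ^ (r - 3)) * ((p : ℝ) ^ (m - 1)) ^ (r - 1) := by
        have e1 : ((p : ℝ) ^ m) ^ (r - 1) = (p : ℝ) ^ (r - 1) * ((p : ℝ) ^ (m - 1)) ^ (r - 1) := by
          rw [← mul_pow, ← pow_succ']; congr 2; omega
        have e2 : (p : ℝ) ^ (r - 1) = (p : ℝ) ^ (r - 3) * (p : ℝ) ^ 2 := by
          rw [← pow_add]; congr 1; omega
        rw [e1, e2]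
        field_simp
    _ ≤ (𝔅.card : ℝ) * ((p : ℝ) ^ (m - 1)) ^ (r - 1) := by
        apply mul_le_mul_of_nonneg_right h𝔅card (by positivity)
    _ ≤ _ := htot

/-- Number of vectors of the box in given classes. -/
theorem card_box_class (s A q : ℕ) (hq : 0 < q) [NeZero q] (S : Finset (Fin s → ZMod q))
    (F : Finset (Fin s → ℤ)) (hF : ∀ a ∈ F, a ∈ boxA s A ∧ (fun o => ((a o : ℤ) : ZMod q)) ∈ S) :
    (F.card : ℝ) ≤ S.card * (2 * A / q + 1) ^ s := by
  classical
  apply card_le_mul_real F S (fun a o => ((a o : ℤ) : ZMod q)) (fun a ha => (hF a ha).2)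
  intro c _
  set Fc := F.filter (fun a => (fun o => ((a o : ℤ) : ZMod q)) = c) with hFc
  have hsub : Fc ⊆ Fintype.piFinset (fun o => Fc.image (fun a => a o)) := by
    intro a ha
    rw [Fintype.mem_piFinset]
    intro o
    exact Finset.mem_image_of_mem _ ha
  calc (Fc.card : ℝ) ≤ ((Fintype.piFinset (fun o => Fc.image (fun a => a o))).card : ℝ) := by
        exact_mod_cast Finset.card_le_card hsub
    _ = ∏ o, ((Fc.image (fun a => a o)).card : ℝ) := by rw [Fintype.card_piFinset]; push_cast; rfl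
    _ ≤ ∏ o : Fin s, (2 * A / q + 1 : ℝ) := by
        apply Finset.prod_le_prod (fun _ _ => by positivity)
        intro o _
        apply card_le_of_dvd_sub _ q hq (2 * A) (by positivity)
        · intro u hu v hv
          rw [Finset.mem_image] at hu hv
          obtain ⟨a, ha, rfl⟩ := hu
          obtain ⟨b, hb, rfl⟩ := hv
          rw [hFc, Finset.mem_filter] at ha hb
          rw [← ZMod.intCast_zmod_eq_zero_iff_dvd]
          push_cast
          rw [sub_eq_zero]
          exact (congrFun ha.2 o).trans (congrFun hb.2 o).symm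
        · intro u hu v hv
          rw [Finset.mem_image] at hu hv
          obtain ⟨a, ha, rfl⟩ := hu
          obtain ⟨b, hb, rfl⟩ := hv
          rw [hFc, Finset.mem_filter] at ha hb
          have h1 := abs_le.mp (mem_boxA.mp (hF a ha.1).1 o)
          have h2 := abs_le.mp (mem_boxA.mp (hF b hb.1).1 o)
          have : a o - b o ≤ 2 * A := by linarith [h1.2, h2.1]
          exact_mod_cast this
    _ = _ := by rw [Finset.prod_const, Finset.card_univ, Fintype.card_fin]

end

end Pool.Agent.H888.DH
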