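import Pool.Agent.H888.DH.Loc4

set_option linter.unusedVariables false
set_option linter.unusedSectionVars false
set_option linter.style.haveILetI false

namespace Pool.Agent.H888.DH

open Finset

/-- primes up to `p0`. -/
def prs (p0 : ℕ) : Finset ℕ := (Finset.range (p0 + 1)).filter Nat.Prime

theorem mem_prs {p0 p : ℕ} : p ∈ prs p0 ↔ p ≤ p0 ∧ p.Prime := by
  simp [prs]

/-- bound for `n`. -/
def nmax (p0 E : ℕ) : ℕ := ∏ p ∈ prs p0, p ^ E

/-- lower bound for the density -/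
noncomputable def sig0 (r p0 E : ℕ) : ℝ := (∏ p ∈ prs p0, 1 / ((p : ℝ) ^ E) ^ (r - 1)) * (1 / 2)

theorem sig0_pos (r p0 E : ℕ) : 0 < sig0 r p0 E := by
  unfold sig0
  apply mul_pos _ (by norm_num)
  apply Finset.prod_pos
  intro p hp
  have := (mem_prs.mp hp).2.pos
  have : (0 : ℝ) < p := by exact_mod_cast this
  positivity

theorem prod_tail_ge (p0 : ℕ) (hp0 : 4 ≤ p0) (G : ℕ) (hG : p0 ≤ G) :
    1 - 2 / (p0 : ℝ) + 2 / G ≤ ∏ n ∈ Finset.Ioc p0 G, (1 - 2 / (n : ℝ) ^ 2) := by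
  induction G, hG using Nat.le_induction with
  | base => simp
  | succ G hG ih =>
    rw [Finset.prod_Ioc_succ_top (by omega)]
    have hGpos : (0 : ℝ) < G := by exact_mod_cast (by omega : 0 < G)
    have hp0' : (4 : ℝ) ≤ p0 := by exact_mod_cast hp0
    have h1 : (0 : ℝ) ≤ 1 - 2 / (p0 : ℝ) + 2 / G := by
      have : 2 / (p0 : ℝ) ≤ 1 := by rw [div_le_one (by linarith)]; linarith
      have : 0 ≤ 2 / (G : ℝ) := by positivity
      linarith
    have h2 : (0 : ℝ) ≤ 1 - 2 / ((G + 1 : ℕ) : ℝ) ^ 2 := by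
      have : 2 / ((G + 1 : ℕ) : ℝ) ^ 2 ≤ 1 := by
        rw [div_le_one (by positivity)]
        have : (4 : ℝ) ≤ ((G + 1 : ℕ) : ℝ) := by exact_mod_cast (by omega : 4 ≤ G + 1)
        nlinarith
      linarith
    have h3 : (1 - 2 / (p0 : ℝ) + 2 / G) * (1 - 2 / ((G + 1 : ℕ) : ℝ) ^ 2) ≤
        (∏ n ∈ Finset.Ioc p0 G, (1 - 2 / (n : ℝ) ^ 2)) * (1 - 2 / ((G + 1 : ℕ) : ℝ) ^ 2) :=
      mul_le_mul_of_nonneg_right ih h2
    refine le_trans ?_ h3
    have h4 : 1 - 2 / (p0 : ℝ) + 2 / G ≤ 1 := by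
      have : 2 / (G : ℝ) ≤ 2 / p0 := by
        apply div_le_div_of_nonneg_left (by norm_num) (by linarith)
        exact_mod_cast hG
      linarith
    have h5 : 2 / (G : ℝ) - 2 / ((G + 1 : ℕ) : ℝ) - 2 / ((G + 1 : ℕ) : ℝ) ^ 2 ≥ 0 := by
      push_cast
      have : 2 / (G : ℝ) - 2 / ((G : ℝ) + 1) - 2 / ((G : ℝ) + 1) ^ 2 = 2 / (G * (G + 1) ^ 2) := by
        field_simp
        ring
      rw [this]; positivity
    have h6 : (0 : ℝ) ≤ 2 / ((G + 1 : ℕ) : ℝ) ^ 2 := by positivity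
    have h7 : (1 - 2 / (p0 : ℝ) + 2 / G) * (2 / ((G + 1 : ℕ) : ℝ) ^ 2) ≤ 2 / ((G + 1 : ℕ) : ℝ) ^ 2 :=
      mul_le_of_le_one_left h6 h4
    linarith

theorem prod_tail_ge_half (p0 : ℕ) (hp0 : 4 ≤ p0) (G : ℕ) :
    1 / 2 ≤ ∏ n ∈ Finset.Ioc p0 G, (1 - 2 / (n : ℝ) ^ 2) := by
  rcases le_total p0 G with h | h
  · refine le_trans ?_ (prod_tail_ge p0 hp0 G h)
    have hp0' : (4 : ℝ) ≤ p0 := by exact_mod_cast hp0
    have : 2 / (p0 : ℝ) ≤ 1 / 2 := by rw [div_le_div_iff₀ (by linarith) (by norm_num)]; linarith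
    have : 0 ≤ 2 / (G : ℝ) := by positivity
    linarith
  · rw [Finset.Ioc_eq_empty (by omega)]
    norm_num

theorem prod_le_prod_of_subset_le_one {s t : Finset ℕ} (hst : s ⊆ t) (f : ℕ → ℝ)
    (h0 : ∀ i ∈ t, 0 ≤ f i) (h1 : ∀ i ∈ t, f i ≤ 1) : ∏ i ∈ t, f i ≤ ∏ i ∈ s, f i := by
  classical
  rw [← Finset.prod_sdiff hst]
  apply mul_le_of_le_one_left (Finset.prod_nonneg (fun i hi => h0 i (hst hi)))
  apply Finset.prod_le_one (fun i hi => h0 i (Finset.mem_sdiff.mp hi).1)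
    (fun i hi => h1 i (Finset.mem_sdiff.mp hi).1)

theorem sigma_lower (k r : ℕ) (hk : 3 ≤ k) (hr : 7 ≤ r) (p0 M : ℕ) (hp0 : 4 ≤ p0) (hkp : k ≤ p0)
    (a : Fin (r + 1) → ℤ)
    (hsmall : ∀ p : ℕ, ∀ _ : Fact p.Prime, ∃ x : Fin (r + 1) → ℚ_[p], x ≠ 0 ∧
      ∑ o, (a o : ℚ_[p]) * (x o) ^ k = 0)
    (ha : ∀ p : ℕ, p.Prime → p ≤ p0 → ∀ o, ¬ (p : ℤ) ^ (M + 1) ∣ a o) :
    ∃ n : ℕ, 1 ≤ n ∧ n ≤ nmax p0 (2 * (k + M) + 1) ∧ ∀ G : ℕ,
      (∀ p : ℕ, ∀ _ : Fact p.Prime, p0 < p → p ≤ G → (fun o => ((a o : ℤ) : ZMod p)) ∉ BadP k r p) →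
      ∀ _ : NeZero (n ^ k * G.factorial),
      sig0 r p0 (2 * (k + M) + 1) * ((n ^ k * G.factorial : ℕ) : ℝ) ^ (r - 1) ≤
        (SolN k r a n (n ^ k * G.factorial)).card := by
  classical
  set E := 2 * (k + M) + 1 with hE
  -- choose exponents
  have hc : ∀ p : ℕ, ∃ c : ℕ, (p.Prime → p ≤ p0 → c ≤ E ∧ ∀ n' : ℕ, ¬ p ∣ n' → ∀ m : ℕ, 0 < m →
      ∀ _ : NeZero (p ^ m), (p ^ m) ^ (r - 1) ≤
        (SolN k r a (p ^ c * n') (p ^ m)).card * (p ^ E) ^ (r - 1)) := by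
    intro p
    by_cases hp : p.Prime ∧ p ≤ p0
    · haveI : Fact p.Prime := ⟨hp.1⟩
      obtain ⟨x, hx, hsol⟩ := hsmall p inferInstance
      obtain ⟨c, hcE, hcc⟩ := localP (p := p) k r (by omega) a M (ha p hp.1 hp.2) x hx hsol
      exact ⟨c, fun _ _ => ⟨hcE, hcc⟩⟩
    · exact ⟨0, fun h1 h2 => absurd ⟨h1, h2⟩ hp⟩
  choose c hc using hc
  set n := ∏ p ∈ prs p0, p ^ c p with hn
  have hn1 : 1 ≤ n := by
    apply Nat.one_le_iff_ne_zero.mpr
    rw [hn, Finset.prod_ne_zero_iff]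
    intro p hp
    exact pow_ne_zero _ (mem_prs.mp hp).2.ne_zero
  have hnmax : n ≤ nmax p0 E := by
    unfold nmax
    apply Finset.prod_le_prod' 
    intro p hp
    have := mem_prs.mp hp
    exact Nat.pow_le_pow_right this.2.pos (hc p this.2 this.1).1
  refine ⟨n, hn1, hnmax, ?_⟩
  intro G hgood inst
  -- weights
  set w : ℕ → ℝ := fun p => if p ≤ p0 then 1 / ((p : ℝ) ^ E) ^ (r - 1) else
    if p ≤ G then 1 - 2 / (p : ℝ) ^ 2 else 0 with hw
  have hw0 : ∀ p, p.Prime → 0 ≤ w p := by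
    intro p hp
    simp only [hw]
    split_ifs
    · positivity
    · have : (2 : ℝ) ≤ p := by exact_mod_cast hp.two_le
      have : 2 / (p : ℝ) ^ 2 ≤ 1 := by rw [div_le_one (by positivity)]; nlinarith
      linarith
    · exact le_rfl
  have hlow := card_SolN_lower k r a n w hw0 (by
    intro p hp m hm inst'
    haveI : Fact p.Prime := ⟨hp⟩
    simp only [hw]
    split_ifs with h1 h2
    · -- small primes
      have hpp : p ∈ prs p0 := mem_prs.mpr ⟨h1, hp⟩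
      have hdec : n = p ^ c p * ∏ q ∈ (prs p0).erase p, q ^ c q := by
        rw [hn, ← Finset.mul_prod_erase _ _ hpp]
      have hnd : ¬ p ∣ ∏ q ∈ (prs p0).erase p, q ^ c q := by
        intro hd
        obtain ⟨q, hq, hd'⟩ := (Prime.dvd_finsetProd_iff hp.prime _).mp hd
        rw [Finset.mem_erase] at hq
        have h3 := (Nat.prime_dvd_prime_iff_eq hp (mem_prs.mp hq.2).2).mp (hp.dvd_of_dvd_pow hd')
        exact hq.1 h3.symm
      have h4 := (hc p hp h1).2 _ hnd m hm inst'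
      rw [← hdec] at h4
      have hpR : (0 : ℝ) < p := by exact_mod_cast hp.pos
      rw [one_div, inv_mul_le_iff₀ (by positivity), mul_comm]
      exact_mod_cast h4
    · have hnd : ¬ p ∣ n := by
        intro hd
        rw [hn] at hd
        obtain ⟨q, hq, hd'⟩ := (Prime.dvd_finsetProd_iff hp.prime _).mp hd
        have h3 := (Nat.prime_dvd_prime_iff_eq hp (mem_prs.mp hq).2).mp (hp.dvd_of_dvd_pow hd')
        have := (mem_prs.mp hq).1
        omega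
      have hkd : ¬ p ∣ k := by
        intro hd
        have := Nat.le_of_dvd (by omega) hd
        omega
      exact localG (p := p) k r (by omega) hr hkd a (hgood p inferInstance (by omega) h2) n hnd m hm
    · rw [zero_mul]; positivity) (n ^ k * G.factorial)
  refine le_trans ?_ hlow
  apply mul_le_mul_of_nonneg_right _ (by positivity)
  -- compare products
  set K := n ^ k * G.factorial with hK
  have hsub : K.primeFactors ⊆ prs p0 ∪ Finset.Ioc p0 G := by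
    intro p hp
    rw [Nat.mem_primeFactors] at hp
    rw [Finset.mem_union, mem_prs, Finset.mem_Ioc]
    by_cases h1 : p ≤ p0
    · left; exact ⟨h1, hp.1⟩
    · right
      refine ⟨by omega, ?_⟩
      rcases (Nat.Prime.dvd_mul hp.1).mp hp.2.1 with h2 | h2
      · exfalso
        have h3 := hp.1.dvd_of_dvd_pow h2
        rw [hn] at h3
        obtain ⟨q, hq, hd'⟩ := (Prime.dvd_finsetProd_iff hp.1.prime _).mp h3
        have h4 := (Nat.prime_dvd_prime_iff_eq hp.1 (mem_prs.mp hq).2).mp (hp.1.dvd_of_dvd_pow hd')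
        have := (mem_prs.mp hq).1
        omega
      · exact (Nat.Prime.dvd_factorial hp.1).mp h2
  have hdisj : Disjoint (prs p0) (Finset.Ioc p0 G) := by
    rw [Finset.disjoint_left]
    intro p hp hp'
    have := (mem_prs.mp hp).1
    rw [Finset.mem_Ioc] at hp'
    omega
  have hE1 : ∀ p ∈ prs p0, w p = 1 / ((p : ℝ) ^ E) ^ (r - 1) := by
    intro p hp
    simp only [hw]; rw [if_pos (mem_prs.mp hp).1]
  have hE2 : ∀ p ∈ Finset.Ioc p0 G, w p = 1 - 2 / (p : ℝ) ^ 2 := by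
    intro p hp
    rw [Finset.mem_Ioc] at hp
    simp only [hw]; rw [if_neg (by omega), if_pos hp.2]
  have hr1 : ∀ i ∈ prs p0 ∪ Finset.Ioc p0 G, 0 ≤ w i ∧ w i ≤ 1 := by
    intro i hi
    rw [Finset.mem_union] at hi
    rcases hi with hi | hi
    · rw [hE1 i hi]
      have hip : (1 : ℝ) ≤ i := by exact_mod_cast (mem_prs.mp hi).2.pos
      refine ⟨by positivity, ?_⟩
      rw [div_le_one (by positivity)]
      exact one_le_pow₀ (one_le_pow₀ hip)
    · rw [hE2 i hi]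
      rw [Finset.mem_Ioc] at hi
      have hip : (4 : ℝ) ≤ i := by exact_mod_cast (by omega : 4 ≤ i)
      have h1 : 2 / (i : ℝ) ^ 2 ≤ 1 := by rw [div_le_one (by positivity)]; nlinarith
      have h2 : 0 ≤ 2 / (i : ℝ) ^ 2 := by positivity
      exact ⟨by linarith, by linarith⟩
  calc sig0 r p0 E = (∏ p ∈ prs p0, 1 / ((p : ℝ) ^ E) ^ (r - 1)) * (1 / 2) := rfl
    _ ≤ (∏ p ∈ prs p0, 1 / ((p : ℝ) ^ E) ^ (r - 1)) * ∏ p ∈ Finset.Ioc p0 G, (1 - 2 / (p : ℝ) ^ 2) := by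
        apply mul_le_mul_of_nonneg_left (prod_tail_ge_half p0 hp0 G)
        exact Finset.prod_nonneg (fun p _ => by positivity)
    _ = (∏ p ∈ prs p0, w p) * ∏ p ∈ Finset.Ioc p0 G, w p := by
        rw [Finset.prod_congr rfl hE1, Finset.prod_congr rfl hE2]
    _ = ∏ p ∈ prs p0 ∪ Finset.Ioc p0 G, w p := by rw [Finset.prod_union hdisj]
    _ ≤ ∏ p ∈ K.primeFactors, w p :=
        prod_le_prod_of_subset_le_one hsub w (fun i hi => (hr1 i hi).1) (fun i hi => (hr1 i hi).2)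

end Pool.Agent.H888.DH
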