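import Pool.Agent.H888.DH.Loc5

set_option linter.unusedVariables false
set_option linter.unusedSectionVars false
set_option linter.style.haveILetI false

namespace Pool.Agent.H888.DH

open Finset

/-- a point of a given class in a given interval. -/
def pt {K : ℕ} [NeZero K] (u : ℤ) (c : ZMod K) (t : ℕ) : ℤ := u + ((c - (u : ZMod K)).val : ℤ) + K * t

theorem pt_cast {K : ℕ} [NeZero K] (u : ℤ) (c : ZMod K) (t : ℕ) : ((pt u c t : ℤ) : ZMod K) = c := by
  unfold pt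
  push_cast
  rw [ZMod.natCast_zmod_val, ZMod.natCast_self]
  ring

theorem pt_ge {K : ℕ} [NeZero K] (u : ℤ) (c : ZMod K) (t : ℕ) : u ≤ pt u c t := by
  unfold pt
  have : (0 : ℤ) ≤ K * t := by positivity
  have : (0 : ℤ) ≤ ((c - (u : ZMod K)).val : ℤ) := by positivity
  linarith

theorem pt_le {K : ℕ} [NeZero K] (u : ℤ) (c : ZMod K) (t T : ℕ) (ht : t < T) :
    pt u c t ≤ u + K * T - 1 := by
  unfold pt
  have h1 : ((c - (u : ZMod K)).val : ℤ) + 1 ≤ K := by
    have := ZMod.val_lt (c - (u : ZMod K))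
    exact_mod_cast this
  have h2 : (K : ℤ) * (t + 1) ≤ K * T := by
    apply mul_le_mul_of_nonneg_left _ (by positivity)
    exact_mod_cast ht
  linarith

theorem pt_inj {K : ℕ} [NeZero K] {u : ℤ} {c c' : ZMod K} {t t' : ℕ} (h : pt u c t = pt u c' t') :
    c = c' ∧ t = t' := by
  have hc : c = c' := by
    rw [← pt_cast u c t, h, pt_cast]
  subst hc
  refine ⟨rfl, ?_⟩
  unfold pt at h
  have hK : (K : ℤ) ≠ 0 := by exact_mod_cast NeZero.ne K
  have : (K : ℤ) * t = K * t' := by linarith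
  exact_mod_cast mul_left_cancel₀ hK this

/-- points counted by the local approximation, without gcd condition. -/
noncomputable def Nset (k r n K L B B0 : ℕ) (a : Fin (r + 1) → ℤ) : Finset (Fin r → ℤ) := by
  classical
  exact (Fintype.piFinset (fun _ => Finset.Icc (B0 : ℤ) B)).filter
    (fun x => ∃ t ∈ Finset.Icc (-(L : ℤ)) L, dot a (VV n k x) = K * t)

theorem pow_sub_pow_le (k : ℕ) (a b : ℝ) (hb : 0 ≤ b) (hab : b ≤ a) :
    a ^ (k + 1) - b ^ (k + 1) ≤ (k + 1) * a ^ k * (a - b) := by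
  induction k with
  | zero => simp
  | succ k ih =>
    have ha : 0 ≤ a := hb.trans hab
    have h1 : a ^ (k + 1 + 1) - b ^ (k + 1 + 1) = a * (a ^ (k + 1) - b ^ (k + 1)) + b ^ (k + 1) * (a - b) := by
      ring
    have h2 : b ^ (k + 1) ≤ a ^ (k + 1) := pow_le_pow_left₀ hb hab _
    have h3 : a * (a ^ (k + 1) - b ^ (k + 1)) ≤ a * ((k + 1) * a ^ k * (a - b)) :=
      mul_le_mul_of_nonneg_left ih ha
    have h4 : b ^ (k + 1) * (a - b) ≤ a ^ (k + 1) * (a - b) :=
      mul_le_mul_of_nonneg_right h2 (by linarith)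
    rw [h1]
    push_cast
    calc _ ≤ a * ((k + 1) * a ^ k * (a - b)) + a ^ (k + 1) * (a - b) := add_le_add h3 h4
      _ = _ := by ring

theorem dot_VV (k r n : ℕ) (a : Fin (r + 1) → ℤ) (x : Fin r → ℤ) :
    dot a (VV n k x) = a 0 * (n : ℤ) ^ k + ∑ l, a (Fin.succ l) * x l ^ k := by
  unfold dot
  rw [Fin.sum_univ_succ]
  simp only [VV_zero, VV_succ]

set_option maxHeartbeats 1000000 in
/-- **Lower bound for the number of points.** -/
theorem region_lower (k r n K A B B0 C0 L T1 T2 : ℕ) [NeZero K] (hk : 2 ≤ k)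
    (a : Fin (r + 1) → ℤ) (ε1 η : ℝ) (hε1 : 0 < ε1) (hε1' : ε1 ≤ 1) (hη : 0 < η) (hη1 : η ≤ 1)
    (hA : 1 ≤ A) (hB : 1 ≤ B) (ha : ∀ o, |a o| ≤ A) (haε : ∀ l : Fin r, ε1 * A ≤ |(a (Fin.succ l) : ℝ)|)
    (i j : Fin r) (hij : i ≠ j) (hsign : a (Fin.succ i) * a (Fin.succ j) < 0)
    (hji : |a (Fin.succ j)| ≤ |a (Fin.succ i)|) (hC0 : 64 * r / ε1 ^ 2 ≤ C0) (hC08 : 8 ≤ C0)
    (hB0 : (B0 : ℝ) ≤ 2 * B / C0) (hn : (n : ℝ) ^ k / ε1 ≤ ε1 / 4 * ((B : ℝ) / 4) ^ k)
    (hKL : η / 2 * A * (B : ℝ) ^ k ≤ K * L) (hT1 : (K * T1 + 1 : ℝ) ≤ 2 * B / C0)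
    (hT2 : (K * T2 + 1 : ℝ) ≤ η * B / (2 * k)) :
    (SolN k r a n K).card * (T1 ^ (r - 1) * T2) ≤ (Nset k r n K L B B0 a).card := by
  classical
  have hBR : (0 : ℝ) < B := by exact_mod_cast (by omega : 0 < B)
  have hAR : (0 : ℝ) < A := by exact_mod_cast (by omega : 0 < A)
  have hC0R : (8 : ℝ) ≤ C0 := by exact_mod_cast hC08
  have hC0R' : (0 : ℝ) < C0 := by linarith
  have hkR : (2 : ℝ) ≤ k := by exact_mod_cast hk
  have hr1 : (1 : ℝ) ≤ r := by
    have : 0 < r := Fin.pos i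
    exact_mod_cast this
  have hai : (0 : ℝ) < |(a (Fin.succ i) : ℝ)| := lt_of_lt_of_le (by positivity) (haε i)
  have hai0 : (a (Fin.succ i) : ℝ) ≠ 0 := abs_pos.mp hai
  have hε2 : (16 / (C0 : ℝ)) ^ k ≤ ε1 ^ 2 / (4 * r) := by
    have h1 : 16 / (C0 : ℝ) ≤ ε1 ^ 2 / (4 * r) := by
      rw [div_le_div_iff₀ hC0R' (by positivity)]
      rw [div_le_iff₀ (by positivity)] at hC0
      linarith
    have h2 : ε1 ^ 2 / (4 * r) ≤ 1 := by
      rw [div_le_one (by positivity)]; nlinarith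
    calc (16 / (C0 : ℝ)) ^ k ≤ (ε1 ^ 2 / (4 * r)) ^ k := by gcongr
      _ ≤ ε1 ^ 2 / (4 * r) := pow_le_of_le_one (by positivity) h2 (by omega)
  -- base points
  set ub : Fin r → ℤ := fun l => if l = j then ⌈(B : ℝ) / 4⌉ else ⌈2 * (B : ℝ) / C0⌉ with hub
  have hTC : 2 * (B : ℝ) / C0 ≤ B / 4 := by
    rw [div_le_div_iff₀ hC0R' (by norm_num)]; nlinarith
  -- points other than i
  set xo : (Fin r → ZMod K) → ({l : Fin r // l ≠ i} → Fin T1) → Fin r → ℤ :=
    fun z t l => if h : l ≠ i then pt (ub l) (z l) (t ⟨l, h⟩) else 0 with hxo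
  have hxo_j : ∀ z t, (B : ℝ) / 4 ≤ xo z t j ∧ (xo z t j : ℝ) ≤ B / 2 := by
    intro z t
    simp only [hxo]
    rw [dif_pos hij.symm]
    have e1 := pt_ge (ub j) (z j) (t ⟨j, hij.symm⟩ : ℕ)
    have e2 := pt_le (ub j) (z j) (t ⟨j, hij.symm⟩ : ℕ) T1 (t ⟨j, hij.symm⟩).2
    have e3 : ub j = ⌈(B : ℝ) / 4⌉ := by simp [hub]
    have e4 := Int.le_ceil ((B : ℝ) / 4)
    have e5 := Int.ceil_lt_add_one ((B : ℝ) / 4)
    rw [← e3] at e4 e5
    have e1' : ((ub j : ℤ) : ℝ) ≤ (pt (ub j) (z j) (t ⟨j, hij.symm⟩ : ℕ) : ℝ) := by exact_mod_cast e1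
    have e2' : (pt (ub j) (z j) (t ⟨j, hij.symm⟩ : ℕ) : ℝ) ≤ (ub j : ℝ) + K * T1 - 1 := by exact_mod_cast e2
    constructor <;> linarith
  have hxo_l : ∀ z t l, l ≠ i → l ≠ j → 2 * (B : ℝ) / C0 ≤ xo z t l ∧ (xo z t l : ℝ) ≤ 4 * B / C0 := by
    intro z t l hl hlj
    simp only [hxo]
    rw [dif_pos hl]
    have e1 := pt_ge (ub l) (z l) (t ⟨l, hl⟩ : ℕ)
    have e2 := pt_le (ub l) (z l) (t ⟨l, hl⟩ : ℕ) T1 (t ⟨l, hl⟩).2
    have e3 : ub l = ⌈2 * (B : ℝ) / C0⌉ := by simp [hub, hlj]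
    have e4 := Int.le_ceil (2 * (B : ℝ) / C0)
    have e5 := Int.ceil_lt_add_one (2 * (B : ℝ) / C0)
    rw [← e3] at e4 e5
    have e1' : ((ub l : ℤ) : ℝ) ≤ (pt (ub l) (z l) (t ⟨l, hl⟩ : ℕ) : ℝ) := by exact_mod_cast e1
    have e2' : (pt (ub l) (z l) (t ⟨l, hl⟩ : ℕ) : ℝ) ≤ (ub l : ℝ) + K * T1 - 1 := by exact_mod_cast e2
    have e6 : 4 * (B : ℝ) / C0 = 2 * B / C0 + 2 * B / C0 := by ring
    constructor
    · linarith
    · rw [e6]; linarith
  -- the value Y
  set YY : (Fin r → ZMod K) → ({l : Fin r // l ≠ i} → Fin T1) → ℝ := fun z t =>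
    -(((a 0 : ℝ) * (n : ℝ) ^ k + ∑ l ∈ Finset.univ.erase i, (a (Fin.succ l) : ℝ) * (xo z t l : ℝ) ^ k) /
      (a (Fin.succ i) : ℝ)) with hYY
  have hYb : ∀ z t, (2 * (B : ℝ) / C0) ^ k ≤ YY z t ∧ YY z t ≤ (3 * (B : ℝ) / 4) ^ k := by
    intro z t
    have hj_mem : j ∈ Finset.univ.erase i := Finset.mem_erase.mpr ⟨hij.symm, Finset.mem_univ _⟩
    set E : ℝ := (a 0 : ℝ) / (a (Fin.succ i) : ℝ) * (n : ℝ) ^ k +
      ∑ l ∈ (Finset.univ.erase i).erase j, (a (Fin.succ l) : ℝ) / (a (Fin.succ i) : ℝ) * (xo z t l : ℝ) ^ k with hE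
    set ρ : ℝ := |(a (Fin.succ j) : ℝ)| / |(a (Fin.succ i) : ℝ)| with hρ
    have hρeq : ρ = -((a (Fin.succ j) : ℝ) / (a (Fin.succ i) : ℝ)) := by
      have hs : ((a (Fin.succ i) : ℝ)) * (a (Fin.succ j) : ℝ) < 0 := by exact_mod_cast hsign
      rw [hρ]
      rcases lt_or_gt_of_ne hai0 with h | h
      · have hj : 0 < (a (Fin.succ j) : ℝ) := by nlinarith
        rw [abs_of_neg h, abs_of_pos hj, div_neg]
      · have hj : (a (Fin.succ j) : ℝ) < 0 := by nlinarith
        rw [abs_of_pos h, abs_of_neg hj, neg_div]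
    have hYeq : YY z t = ρ * (xo z t j : ℝ) ^ k - E := by
      rw [hYY, hE, hρeq]
      simp only
      rw [← Finset.add_sum_erase _ _ hj_mem]
      have : ∑ l ∈ (Finset.univ.erase i).erase j, (a (Fin.succ l) : ℝ) / (a (Fin.succ i) : ℝ) * (xo z t l : ℝ) ^ k =
        (∑ l ∈ (Finset.univ.erase i).erase j, (a (Fin.succ l) : ℝ) * (xo z t l : ℝ) ^ k) / (a (Fin.succ i) : ℝ) := by
        rw [Finset.sum_div]
        apply Finset.sum_congr rfl; intro l _; ring
      rw [this]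
      field_simp
      ring
    have hratio : ∀ o, |(a o : ℝ) / (a (Fin.succ i) : ℝ)| ≤ 1 / ε1 := by
      intro o
      rw [abs_div, div_le_div_iff₀ hai hε1, one_mul]
      have h1 : |(a o : ℝ)| ≤ A := by exact_mod_cast ha o
      have h2 := haε i
      nlinarith [abs_nonneg (a o : ℝ)]
    have hEb : |E| ≤ ε1 / 2 * ((B : ℝ) / 4) ^ k := by
      have h1 : |(a 0 : ℝ) / (a (Fin.succ i) : ℝ) * (n : ℝ) ^ k| ≤ ε1 / 4 * ((B : ℝ) / 4) ^ k := by
        rw [abs_mul, abs_of_nonneg (by positivity : (0 : ℝ) ≤ (n : ℝ) ^ k)]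
        calc _ ≤ 1 / ε1 * (n : ℝ) ^ k := mul_le_mul_of_nonneg_right (hratio 0) (by positivity)
          _ = (n : ℝ) ^ k / ε1 := by ring
          _ ≤ _ := hn
      have h2 : |∑ l ∈ (Finset.univ.erase i).erase j, (a (Fin.succ l) : ℝ) / (a (Fin.succ i) : ℝ) * (xo z t l : ℝ) ^ k| ≤
          ε1 / 4 * ((B : ℝ) / 4) ^ k := by
        calc _ ≤ ∑ l ∈ (Finset.univ.erase i).erase j, |(a (Fin.succ l) : ℝ) / (a (Fin.succ i) : ℝ) * (xo z t l : ℝ) ^ k| :=
              Finset.abs_sum_le_sum_abs _ _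
          _ ≤ ∑ l ∈ (Finset.univ.erase i).erase j, 1 / ε1 * (4 * (B : ℝ) / C0) ^ k := by
              apply Finset.sum_le_sum
              intro l hl
              rw [Finset.mem_erase, Finset.mem_erase] at hl
              obtain ⟨b1, b2⟩ := hxo_l z t l hl.2.1 hl.1
              have b0 : (0 : ℝ) ≤ xo z t l := le_trans (by positivity) b1
              rw [abs_mul, abs_of_nonneg (by positivity : (0 : ℝ) ≤ (xo z t l : ℝ) ^ k)]
              apply mul_le_mul (hratio _) _ (by positivity) (by positivity)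
              gcongr
          _ = ((Finset.univ.erase i).erase j).card * (1 / ε1 * (4 * (B : ℝ) / C0) ^ k) := by
              rw [Finset.sum_const, nsmul_eq_mul]
          _ ≤ r * (1 / ε1 * (4 * (B : ℝ) / C0) ^ k) := by
              apply mul_le_mul_of_nonneg_right _ (by positivity)
              have : ((Finset.univ.erase i).erase j).card ≤ r := by
                calc _ ≤ (Finset.univ : Finset (Fin r)).card :=
                      Finset.card_le_card ((Finset.erase_subset _ _).trans (Finset.erase_subset _ _))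
                  _ = r := by simp
              exact_mod_cast this
          _ = (r / ε1) * ((16 / (C0 : ℝ)) ^ k * ((B : ℝ) / 4) ^ k) := by
              rw [← mul_pow]
              have : 16 / (C0 : ℝ) * ((B : ℝ) / 4) = 4 * B / C0 := by ring
              rw [this]; ring
          _ ≤ (r / ε1) * ((ε1 ^ 2 / (4 * r)) * ((B : ℝ) / 4) ^ k) := by gcongr
          _ = _ := by field_simp
      calc |E| ≤ _ := abs_add_le _ _
        _ ≤ ε1 / 4 * ((B : ℝ) / 4) ^ k + ε1 / 4 * ((B : ℝ) / 4) ^ k := add_le_add h1 h2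
        _ = _ := by ring
    have hρ1 : ε1 ≤ ρ := by
      rw [hρ, le_div_iff₀ hai]
      have h1 : |(a (Fin.succ i) : ℝ)| ≤ A := by exact_mod_cast ha (Fin.succ i)
      have h2 := haε j
      nlinarith
    have hρ2 : ρ ≤ 1 := by
      rw [hρ, div_le_one hai]
      exact_mod_cast hji
    obtain ⟨x1, x2⟩ := hxo_j z t
    have hx0 : (0 : ℝ) ≤ xo z t j := le_trans (by positivity) x1
    have hE' := abs_le.mp hEb
    rw [hYeq]
    constructor
    · have h1 : ε1 * ((B : ℝ) / 4) ^ k ≤ ρ * (xo z t j : ℝ) ^ k := by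
        apply mul_le_mul hρ1 _ (by positivity) (by linarith)
        gcongr
      have h2 : (2 * (B : ℝ) / C0) ^ k ≤ ε1 / 2 * ((B : ℝ) / 4) ^ k := by
        have e : 2 * (B : ℝ) / C0 = (8 / C0) * ((B : ℝ) / 4) := by ring
        rw [e, mul_pow]
        apply mul_le_mul_of_nonneg_right _ (by positivity)
        calc (8 / (C0 : ℝ)) ^ k ≤ (16 / (C0 : ℝ)) ^ k := by gcongr; norm_num
          _ ≤ ε1 ^ 2 / (4 * r) := hε2
          _ ≤ ε1 / 2 := by
              rw [div_le_div_iff₀ (by positivity) (by norm_num)]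
              nlinarith
      linarith [hE'.2]
    · have h1 : ρ * (xo z t j : ℝ) ^ k ≤ ((B : ℝ) / 2) ^ k := by
        calc ρ * (xo z t j : ℝ) ^ k ≤ 1 * ((B : ℝ) / 2) ^ k := by
              apply mul_le_mul hρ2 _ (by positivity) (by norm_num)
              gcongr
          _ = _ := one_mul _
      have h2 : ε1 / 2 * ((B : ℝ) / 4) ^ k ≤ ((B : ℝ) / 4) ^ k := by
        have : 0 ≤ ((B : ℝ) / 4) ^ k := by positivity
        nlinarith
      have h3 : ((B : ℝ) / 2) ^ k + ((B : ℝ) / 4) ^ k ≤ ((B : ℝ) / 2 + (B : ℝ) / 4) ^ k :=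
        pow_add_pow_le (by positivity) (by positivity) (by omega)
      have h4 : (B : ℝ) / 2 + (B : ℝ) / 4 = 3 * B / 4 := by ring
      rw [h4] at h3
      linarith [hE'.1]
  -- the root y
  set yy : (Fin r → ZMod K) → ({l : Fin r // l ≠ i} → Fin T1) → ℝ := fun z t =>
    (YY z t) ^ ((1 : ℝ) / k) with hyy
  have hY0 : ∀ z t, 0 ≤ YY z t := fun z t => le_trans (by positivity) (hYb z t).1
  have hyk : ∀ z t, (yy z t) ^ k = YY z t := by
    intro z t
    simp only [hyy]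
    rw [← Real.rpow_natCast, ← Real.rpow_mul (hY0 z t)]
    have : (k : ℝ) ≠ 0 := by positivity
    rw [one_div_mul_cancel this, Real.rpow_one]
  have hy0 : ∀ z t, 0 ≤ yy z t := fun z t => Real.rpow_nonneg (hY0 z t) _
  have hyb : ∀ z t, 2 * (B : ℝ) / C0 ≤ yy z t ∧ yy z t ≤ 3 * B / 4 := by
    intro z t
    constructor
    · apply le_of_pow_le_pow_left₀ (by omega : k ≠ 0) (hy0 z t)
      rw [hyk]; exact (hYb z t).1
    · apply le_of_pow_le_pow_left₀ (by omega : k ≠ 0) (by positivity)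
      rw [hyk]; exact (hYb z t).2
  -- full point
  set xf : ((Fin r → ZMod K) × ({l : Fin r // l ≠ i} → Fin T1)) × Fin T2 → Fin r → ℤ :=
    fun q l => if l = i then pt ⌈yy q.1.1 q.1.2⌉ (q.1.1 i) (q.2 : ℕ) else xo q.1.1 q.1.2 l with hxf
  have hcard : ((SolN k r a n K ×ˢ (Finset.univ : Finset ({l : Fin r // l ≠ i} → Fin T1))) ×ˢ
      (Finset.univ : Finset (Fin T2))).card = (SolN k r a n K).card * (T1 ^ (r - 1) * T2) := by
    rw [Finset.card_product, Finset.card_product, Finset.card_univ, Finset.card_univ, Fintype.card_fin,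
      Fintype.card_fun, Fintype.card_fin, Fintype.card_subtype_compl]
    simp [mul_assoc]
  rw [← hcard]
  apply Finset.card_le_card_of_injOn xf
  · intro q hq
    rw [Finset.mem_coe, Finset.mem_product, Finset.mem_product] at hq
    obtain ⟨⟨hz, _⟩, _⟩ := hq
    set z := q.1.1 with hz'
    set t := q.1.2 with ht'
    have hxi : xf q i = pt ⌈yy z t⌉ (z i) (q.2 : ℕ) := by simp only [hxf]; rw [if_pos trivial]
    have hxl : ∀ l, l ≠ i → xf q l = xo z t l := by
      intro l hl; simp only [hxf]; rw [if_neg hl]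
    obtain ⟨y1, y2⟩ := hyb z t
    have g1 := pt_ge ⌈yy z t⌉ (z i) (q.2 : ℕ)
    have g2 := pt_le ⌈yy z t⌉ (z i) (q.2 : ℕ) T2 q.2.2
    rw [← hxi] at g1 g2
    have g3 := Int.le_ceil (yy z t)
    have g4 := Int.ceil_lt_add_one (yy z t)
    have g1' : ((⌈yy z t⌉ : ℤ) : ℝ) ≤ (xf q i : ℝ) := by exact_mod_cast g1
    have g2' : (xf q i : ℝ) ≤ (⌈yy z t⌉ : ℝ) + K * T2 - 1 := by exact_mod_cast g2
    have hxiy : yy z t ≤ xf q i := by linarith
    have hxiw : (xf q i : ℝ) ≤ yy z t + η * B / (2 * k) := by linarith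
    have hw4 : η * B / (2 * k) ≤ B / 4 := by
      rw [div_le_div_iff₀ (by positivity) (by norm_num)]
      nlinarith
    have hxiB : (xf q i : ℝ) ≤ B := by linarith
    have hBC : 4 * (B : ℝ) / C0 ≤ B := by
      rw [div_le_iff₀ hC0R']; nlinarith
    have hbounds : ∀ l, (B0 : ℤ) ≤ xf q l ∧ xf q l ≤ B := by
      intro l
      have hreal : (B0 : ℝ) ≤ xf q l ∧ (xf q l : ℝ) ≤ B := by
        by_cases hl : l = i
        · rw [hl]; exact ⟨by linarith, hxiB⟩
        · rw [hxl l hl]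
          by_cases hlj : l = j
          · rw [hlj]
            obtain ⟨b1, b2⟩ := hxo_j z t
            exact ⟨by linarith, by linarith⟩
          · obtain ⟨b1, b2⟩ := hxo_l z t l hl hlj
            exact ⟨by linarith, by linarith⟩
      exact ⟨by exact_mod_cast hreal.1, by exact_mod_cast hreal.2⟩
    -- congruence
    have hcong : ∀ l, ((xf q l : ℤ) : ZMod K) = z l := by
      intro l
      by_cases hl : l = i
      · rw [hl, hxi, pt_cast]
      · rw [hxl l hl]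
        simp only [hxo]
        rw [dif_pos hl, pt_cast]
    have hKdvd : (K : ℤ) ∣ dot a (VV n k (xf q)) := by
      rw [dot_VV, ← ZMod.intCast_zmod_eq_zero_iff_dvd]
      push_cast
      simp only [hcong]
      exact mem_SolN.mp hz
    -- size
    have hval : ((dot a (VV n k (xf q)) : ℤ) : ℝ) = (a (Fin.succ i) : ℝ) * ((xf q i : ℝ) ^ k - YY z t) := by
      rw [dot_VV]
      push_cast
      rw [← Finset.add_sum_erase Finset.univ _ (Finset.mem_univ i)]
      have e1 : ∑ l ∈ Finset.univ.erase i, (a (Fin.succ l) : ℝ) * (xf q l : ℝ) ^ k =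
          ∑ l ∈ Finset.univ.erase i, (a (Fin.succ l) : ℝ) * (xo z t l : ℝ) ^ k := by
        apply Finset.sum_congr rfl
        intro l hl
        rw [hxl l (Finset.mem_erase.mp hl).1]
      rw [e1]
      simp only [hYY]
      field_simp
      ring
    have hdiff : (xf q i : ℝ) ^ k - YY z t ≤ η / 2 * (B : ℝ) ^ k := by
      rw [← hyk z t]
      obtain ⟨k', rfl⟩ : ∃ k', k = k' + 1 := ⟨k - 1, by omega⟩
      have h1 := pow_sub_pow_le k' (xf q i : ℝ) (yy z t) (hy0 z t) hxiy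
      have h2 : (xf q i : ℝ) - yy z t ≤ η * B / (2 * ((k' + 1 : ℕ) : ℝ)) := by linarith
      have h3 : (xf q i : ℝ) ^ k' ≤ (B : ℝ) ^ k' :=
        pow_le_pow_left₀ (le_trans (hy0 z t) hxiy) hxiB _
      calc _ ≤ _ := h1
        _ ≤ (k' + 1) * (B : ℝ) ^ k' * (η * B / (2 * ((k' + 1 : ℕ) : ℝ))) := by
            apply mul_le_mul _ h2 (by linarith) (by positivity)
            apply mul_le_mul_of_nonneg_left h3 (by positivity)
        _ = _ := by push_cast; rw [pow_succ]; field_simp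
    have hdiff0 : 0 ≤ (xf q i : ℝ) ^ k - YY z t := by
      rw [← hyk z t]
      have : (yy z t) ^ k ≤ (xf q i : ℝ) ^ k := pow_le_pow_left₀ (hy0 z t) hxiy _
      linarith
    have hsize : |((dot a (VV n k (xf q)) : ℤ) : ℝ)| ≤ K * L := by
      rw [hval, abs_mul, abs_of_nonneg hdiff0]
      have h1 : |(a (Fin.succ i) : ℝ)| ≤ A := by exact_mod_cast ha (Fin.succ i)
      calc _ ≤ (A : ℝ) * (η / 2 * (B : ℝ) ^ k) := mul_le_mul h1 hdiff hdiff0 (by positivity)
        _ = η / 2 * A * (B : ℝ) ^ k := by ring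
        _ ≤ _ := hKL
    rw [Finset.mem_coe, Nset, Finset.mem_filter, Fintype.mem_piFinset]
    refine ⟨fun l => Finset.mem_Icc.mpr (hbounds l), ?_⟩
    obtain ⟨s, hs⟩ := hKdvd
    refine ⟨s, ?_, hs⟩
    rw [Finset.mem_Icc, ← abs_le]
    have hKpos : (0 : ℝ) < K := by exact_mod_cast Nat.pos_of_ne_zero (NeZero.ne K)
    rw [hs] at hsize
    push_cast at hsize
    rw [abs_mul, abs_of_pos hKpos] at hsize
    have := le_of_mul_le_mul_left hsize hKpos
    exact_mod_cast this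
  · intro q _ q' _ hqq
    have h1 : ∀ l, l ≠ i → xo q.1.1 q.1.2 l = xo q'.1.1 q'.1.2 l := by
      intro l hl
      have := congrFun hqq l
      simp only [hxf] at this
      rwa [if_neg hl, if_neg hl] at this
    have h2 : ∀ l (hl : l ≠ i), q.1.1 l = q'.1.1 l ∧ (q.1.2 ⟨l, hl⟩ : ℕ) = (q'.1.2 ⟨l, hl⟩ : ℕ) := by
      intro l hl
      have := h1 l hl
      simp only [hxo] at this
      rw [dif_pos hl, dif_pos hl] at this
      exact pt_inj this
    have ht : q.1.2 = q'.1.2 := by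
      funext ⟨l, hl⟩
      exact Fin.ext (h2 l hl).2
    have hYeq : YY q.1.1 q.1.2 = YY q'.1.1 q'.1.2 := by
      simp only [hYY]
      congr 3
      apply Finset.sum_congr rfl
      intro l hl
      rw [h1 l (Finset.mem_erase.mp hl).1]
    have h3 := congrFun hqq i
    simp only [hxf, if_true] at h3
    have hyeq : yy q.1.1 q.1.2 = yy q'.1.1 q'.1.2 := by simp only [hyy]; rw [hYeq]
    rw [hyeq] at h3
    obtain ⟨h4, h5⟩ := pt_inj h3
    have hz : q.1.1 = q'.1.1 := by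
      funext l
      by_cases hl : l = i
      · rw [hl]; exact h4
      · exact (h2 l hl).1
    exact Prod.ext (Prod.ext hz ht) (Fin.ext h5)

end Pool.Agent.H888.DH
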