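import Pool.Agent.H888.DH.Loc6

set_option linter.unusedVariables false
set_option linter.unusedSectionVars false
set_option linter.style.haveILetI false

namespace Pool.Agent.H888.DH

open Finset

/-- points of `Nset` violating the gcd condition. -/
noncomputable def Bset (k r n K L B B0 R : ℕ) (a : Fin (r + 1) → ℤ) : Finset (Fin r → ℤ) := by
  classical
  exact (Nset k r n K L B B0 a).filter (fun x => ∃ l l', l ≠ l' ∧ R < Int.gcd (x l) (x l'))

theorem sum_pair_le (B R : ℕ) (hR : 1 ≤ R) :
    (((Finset.Icc (1 : ℤ) B ×ˢ Finset.Icc (1 : ℤ) B).filter (fun t => R < Int.gcd t.1 t.2)).card : ℝ) ≤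
      (B : ℝ) ^ 2 / R := by
  classical
  set S : ℕ → Finset (ℤ × ℤ) := fun d =>
    ((Finset.Icc (1 : ℤ) B).filter (fun u => (d : ℤ) ∣ u)) ×ˢ ((Finset.Icc (1 : ℤ) B).filter (fun u => (d : ℤ) ∣ u)) with hS
  have hsub : (Finset.Icc (1 : ℤ) B ×ˢ Finset.Icc (1 : ℤ) B).filter (fun t => R < Int.gcd t.1 t.2) ⊆
      (Finset.Ioc R B).biUnion S := by
    intro t ht
    rw [Finset.mem_filter, Finset.mem_product, Finset.mem_Icc, Finset.mem_Icc] at ht
    obtain ⟨⟨⟨h1, h2⟩, h3, h4⟩, h5⟩ := ht
    rw [Finset.mem_biUnion]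
    have hd1 : ((Int.gcd t.1 t.2 : ℕ) : ℤ) ∣ t.1 := Int.gcd_dvd_left _ _
    have hd2 : ((Int.gcd t.1 t.2 : ℕ) : ℤ) ∣ t.2 := Int.gcd_dvd_right _ _
    refine ⟨Int.gcd t.1 t.2, ?_, ?_⟩
    · rw [Finset.mem_Ioc]
      refine ⟨h5, ?_⟩
      have := Int.le_of_dvd (by linarith) hd1
      have h6 : ((Int.gcd t.1 t.2 : ℕ) : ℤ) ≤ B := this.trans h2
      exact_mod_cast h6
    · rw [hS, Finset.mem_product, Finset.mem_filter, Finset.mem_filter, Finset.mem_Icc, Finset.mem_Icc]
      exact ⟨⟨⟨h1, h2⟩, hd1⟩, ⟨⟨h3, h4⟩, hd2⟩⟩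
  have hcount : ∀ d : ℕ, 1 ≤ d → (((Finset.Icc (1 : ℤ) B).filter (fun u => (d : ℤ) ∣ u)).card : ℝ) ≤ B / d := by
    intro d hd
    have h1 : ((Finset.Icc (1 : ℤ) B).filter (fun u => (d : ℤ) ∣ u)).card ≤ (Finset.Icc 1 (B / d)).card := by
      apply Finset.card_le_card_of_injOn (fun u => (u / (d : ℤ)).toNat)
      · intro u hu
        rw [Finset.mem_coe, Finset.mem_filter, Finset.mem_Icc] at hu
        obtain ⟨⟨hu1, hu2⟩, v, hv⟩ := hu
        have hd' : (0 : ℤ) < d := by exact_mod_cast hd
        have e : u / (d : ℤ) = v := by rw [hv, Int.mul_ediv_cancel_left _ hd'.ne']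
        rw [Finset.mem_coe, Finset.mem_Icc]
        show 1 ≤ (u / (d : ℤ)).toNat ∧ (u / (d : ℤ)).toNat ≤ B / d
        rw [e]
        have hv0 : 0 < v := by
          by_contra hcon
          push Not at hcon
          nlinarith
        refine ⟨by omega, ?_⟩
        rw [Nat.le_div_iff_mul_le hd]
        have h3 : ((v.toNat * d : ℕ) : ℤ) ≤ B := by
          push_cast
          rw [Int.toNat_of_nonneg hv0.le]
          calc v * d = u := by rw [hv]; ring
            _ ≤ B := hu2
        exact_mod_cast h3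
      · intro u hu u' hu' huu
        rw [Finset.mem_coe, Finset.mem_filter, Finset.mem_Icc] at hu hu'
        obtain ⟨⟨hu1, hu2⟩, v, hv⟩ := hu
        obtain ⟨⟨hu1', hu2'⟩, v', hv'⟩ := hu'
        have hd' : (0 : ℤ) < d := by exact_mod_cast hd
        have e : u / (d : ℤ) = v := by rw [hv, Int.mul_ediv_cancel_left _ hd'.ne']
        have e' : u' / (d : ℤ) = v' := by rw [hv', Int.mul_ediv_cancel_left _ hd'.ne']
        have huu' : (u / (d : ℤ)).toNat = (u' / (d : ℤ)).toNat := huu
        rw [e, e'] at huu'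
        have hv0 : 0 < v := by
          by_contra hcon
          push Not at hcon
          nlinarith
        have hv0' : 0 < v' := by
          by_contra hcon
          push Not at hcon
          nlinarith
        have : v = v' := by omega
        rw [hv, hv', this]
    rw [Nat.card_Icc, Nat.add_sub_cancel] at h1
    calc (((Finset.Icc (1 : ℤ) B).filter (fun u => (d : ℤ) ∣ u)).card : ℝ) ≤ ((B / d : ℕ) : ℝ) := by
          exact_mod_cast h1
      _ ≤ B / d := Nat.cast_div_le
  have hRR : (0 : ℝ) < R := by exact_mod_cast hR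
  calc _ ≤ (((Finset.Ioc R B).biUnion S).card : ℝ) := by exact_mod_cast Finset.card_le_card hsub
    _ ≤ ∑ d ∈ Finset.Ioc R B, ((S d).card : ℝ) := by exact_mod_cast Finset.card_biUnion_le
    _ ≤ ∑ d ∈ Finset.Ioc R B, (B : ℝ) ^ 2 * ((d : ℝ) ^ 2)⁻¹ := by
        apply Finset.sum_le_sum
        intro d hd
        rw [Finset.mem_Ioc] at hd
        have := hcount d (by omega)
        rw [hS]
        simp only
        rw [Finset.card_product]
        push_cast
        calc _ ≤ ((B : ℝ) / d) * (B / d) := mul_le_mul this this (by positivity) (by positivity)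
          _ = _ := by
              have : (d : ℝ) ≠ 0 := by
                have : 0 < d := by omega
                positivity
              field_simp
    _ = (B : ℝ) ^ 2 * ∑ d ∈ Finset.Ioc R B, ((d : ℝ) ^ 2)⁻¹ := by rw [Finset.mul_sum]
    _ ≤ (B : ℝ) ^ 2 * (R : ℝ)⁻¹ := by
        apply mul_le_mul_of_nonneg_left _ (by positivity)
        rcases le_total R B with h | h
        · have h1 := sum_Ioc_inv_sq_le_sub (α := ℝ) (k := R) (n := B) (by omega) h
          have h2 : (0 : ℝ) ≤ (B : ℝ)⁻¹ := by positivity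
          linarith
        · rw [Finset.Ioc_eq_empty (by omega), Finset.sum_empty]; positivity
    _ = _ := by rw [div_eq_mul_inv]

theorem card_badx (r B B0 R : ℕ) (hB0 : 1 ≤ B0) (hB : 1 ≤ B) (hR : 1 ≤ R) (F : Finset (Fin r → ℤ))
    (hF : ∀ x ∈ F, (∀ l, (B0 : ℤ) ≤ x l ∧ x l ≤ B) ∧ ∃ l l', l ≠ l' ∧ R < Int.gcd (x l) (x l')) :
    (F.card : ℝ) ≤ (r : ℝ) ^ 2 * ((B : ℝ) ^ (r - 2) * ((B : ℝ) ^ 2 / R)) := by
  classical
  have hB0' : (1 : ℤ) ≤ B0 := by exact_mod_cast hB0
  set S : Fin r × Fin r → Finset (Fin r → ℤ) := fun p => F.filter (fun x => p.1 ≠ p.2 ∧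
    R < Int.gcd (x p.1) (x p.2)) with hS
  have hsub : F ⊆ (Finset.univ : Finset (Fin r × Fin r)).biUnion S := by
    intro x hx
    obtain ⟨_, l, l', h1, h2⟩ := hF x hx
    rw [Finset.mem_biUnion]
    exact ⟨(l, l'), Finset.mem_univ _, Finset.mem_filter.mpr ⟨hx, h1, h2⟩⟩
  have hScard : ∀ p, ((S p).card : ℝ) ≤ (B : ℝ) ^ (r - 2) * ((B : ℝ) ^ 2 / R) := by
    intro p
    by_cases hp : p.1 = p.2
    · have : S p = ∅ := by
        rw [hS]
        apply Finset.filter_false_of_mem
        intro x _ h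
        exact h.1 hp
      rw [this, Finset.card_empty]; simp; positivity
    have h1 := card_le_mul_real (S p) ((Finset.Icc (1 : ℤ) B ×ˢ Finset.Icc (1 : ℤ) B).filter
      (fun t => R < Int.gcd t.1 t.2)) (fun x => (x p.1, x p.2)) (by
      intro x hx
      rw [hS, Finset.mem_filter] at hx
      obtain ⟨hxF, _, hg⟩ := hx
      have hb := (hF x hxF).1
      rw [Finset.mem_filter, Finset.mem_product, Finset.mem_Icc, Finset.mem_Icc]
      exact ⟨⟨⟨by linarith [(hb p.1).1], (hb p.1).2⟩, ⟨by linarith [(hb p.2).1], (hb p.2).2⟩⟩, hg⟩)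
      ((B : ℝ) ^ (r - 2)) (by
      intro t _
      set Q := (S p).filter (fun x => (x p.1, x p.2) = t) with hQ
      have hsubQ : Q ⊆ Fintype.piFinset (fun l => Q.image (fun x => x l)) := by
        intro x hx
        rw [Fintype.mem_piFinset]
        intro l; exact Finset.mem_image_of_mem _ hx
      calc (Q.card : ℝ) ≤ ((Fintype.piFinset (fun l => Q.image (fun x => x l))).card : ℝ) := by
            exact_mod_cast Finset.card_le_card hsubQ
        _ = ∏ l, ((Q.image (fun x => x l)).card : ℝ) := by rw [Fintype.card_piFinset]; push_cast; rfl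
        _ ≤ (B : ℝ) ^ (r - 2) := by
            apply prod_le_pow_sub_two _ (B : ℝ) (by exact_mod_cast hB) p.1 p.2 hp (fun l => by positivity)
            · have : (Q.image (fun x => x p.1)).card ≤ 1 := by
                rw [Finset.card_le_one]
                intro a ha b hb
                rw [Finset.mem_image] at ha hb
                obtain ⟨x, hx, rfl⟩ := ha
                obtain ⟨y, hy, rfl⟩ := hb
                rw [hQ, Finset.mem_filter] at hx hy
                exact congrArg Prod.fst (hx.2.trans hy.2.symm)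
              exact_mod_cast this
            · have : (Q.image (fun x => x p.2)).card ≤ 1 := by
                rw [Finset.card_le_one]
                intro a ha b hb
                rw [Finset.mem_image] at ha hb
                obtain ⟨x, hx, rfl⟩ := ha
                obtain ⟨y, hy, rfl⟩ := hb
                rw [hQ, Finset.mem_filter] at hx hy
                exact congrArg Prod.snd (hx.2.trans hy.2.symm)
              exact_mod_cast this
            · intro l
              have : (Q.image (fun x => x l)).card ≤ (Finset.Icc (1 : ℤ) B).card := by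
                apply Finset.card_le_card
                intro a ha
                rw [Finset.mem_image] at ha
                obtain ⟨x, hx, rfl⟩ := ha
                rw [hQ, Finset.mem_filter, hS, Finset.mem_filter] at hx
                have := (hF x hx.1.1).1 l
                rw [Finset.mem_Icc]
                exact ⟨by linarith [this.1], this.2⟩
              rw [Int.card_Icc] at this
              have h2 : ((B : ℤ) + 1 - 1).toNat = B := by omega
              rw [h2] at this
              exact_mod_cast this)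
    refine h1.trans ?_
    rw [mul_comm]
    apply mul_le_mul_of_nonneg_left (sum_pair_le B R hR) (by positivity)
  calc (F.card : ℝ) ≤ (((Finset.univ : Finset (Fin r × Fin r)).biUnion S).card : ℝ) := by
        exact_mod_cast Finset.card_le_card hsub
    _ ≤ ∑ p : Fin r × Fin r, ((S p).card : ℝ) := by exact_mod_cast Finset.card_biUnion_le
    _ ≤ ∑ p : Fin r × Fin r, (B : ℝ) ^ (r - 2) * ((B : ℝ) ^ 2 / R) := Finset.sum_le_sum (fun p _ => hScard p)
    _ = _ := by
        rw [Finset.sum_const, Finset.card_univ, Fintype.card_prod, Fintype.card_fin, nsmul_eq_mul]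
        push_cast; ring

/-- Number of coefficient vectors for a fixed value. -/
theorem card_a_fixed (k r n A B0 : ℕ) (hk : 1 ≤ k) (hr : 1 ≤ r) (hn : 1 ≤ n) (hB0 : 1 ≤ B0)
    (x : Fin r → ℤ) (hx : ∀ l, (B0 : ℤ) ≤ x l) (v : ℤ) (F : Finset (Fin (r + 1) → ℤ))
    (hF : ∀ a ∈ F, a ∈ boxA (r + 1) A ∧ dot a (VV n k x) = v) :
    (F.card : ℝ) ≤ (2 * A + 1) ^ (r - 1) * (2 * A * (n : ℝ) ^ k / (B0 : ℝ) ^ k + 1) := by
  classical
  have hB0' : (1 : ℤ) ≤ B0 := by exact_mod_cast hB0
  set l1 : Fin r := ⟨0, by omega⟩ with hl1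
  have hX : (0 : ℤ) < x l1 ^ k := pow_pos (by linarith [hx l1]) _
  have hXB : (B0 : ℤ) ^ k ≤ x l1 ^ k := pow_le_pow_left₀ (by linarith) (hx l1) _
  set T : Finset ({j : Fin r // j ≠ l1} → ℤ) := Fintype.piFinset (fun _ => Finset.Icc (-(A : ℤ)) A) with hT
  have hTcard : (T.card : ℝ) = (2 * A + 1) ^ (r - 1) := by
    rw [hT, Fintype.card_piFinset, Finset.prod_const, Int.card_Icc, Finset.card_univ,
      Fintype.card_subtype_compl]
    have h1 : ((A : ℤ) + 1 - -(A : ℤ)).toNat = 2 * A + 1 := by omega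
    rw [h1]
    simp
  have h1 := card_le_mul_real F T (fun a j => a (Fin.succ j.1)) (by
    intro a ha
    rw [hT, Fintype.mem_piFinset]
    intro j
    rw [Finset.mem_Icc]
    exact abs_le.mp (mem_boxA.mp (hF a ha).1 _)) (2 * A * (n : ℝ) ^ k / (B0 : ℝ) ^ k + 1) (by
    intro t _
    set Q := F.filter (fun a => (fun j : {j : Fin r // j ≠ l1} => a (Fin.succ j.1)) = t) with hQ
    -- relation between elements of Q
    have hrel : ∀ a ∈ Q, ∀ b ∈ Q, (a 0 - b 0) * (n : ℤ) ^ k + (a (Fin.succ l1) - b (Fin.succ l1)) * x l1 ^ k = 0 := by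
      intro a ha b hb
      rw [hQ, Finset.mem_filter] at ha hb
      have e1 := (hF a ha.1).2
      have e2 := (hF b hb.1).2
      rw [dot_VV, ← Finset.add_sum_erase Finset.univ _ (Finset.mem_univ l1)] at e1 e2
      have e3 : ∑ l ∈ Finset.univ.erase l1, a (Fin.succ l) * x l ^ k =
          ∑ l ∈ Finset.univ.erase l1, b (Fin.succ l) * x l ^ k := by
        apply Finset.sum_congr rfl
        intro l hl
        have hne : l ≠ l1 := (Finset.mem_erase.mp hl).1
        have : a (Fin.succ l) = b (Fin.succ l) := by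
          have := congrFun (ha.2.trans hb.2.symm) ⟨l, hne⟩
          exact this
        rw [this]
      linear_combination e1 - e2 - e3
    have hinj : Q.card = (Q.image (fun a => a 0)).card := by
      rw [Finset.card_image_of_injOn]
      intro a ha b hb hab
      have hab' : a 0 = b 0 := hab
      have e1 := hrel a ha b hb
      rw [hab', sub_self, zero_mul, zero_add] at e1
      have e2 : a (Fin.succ l1) = b (Fin.succ l1) := by
        rcases mul_eq_zero.mp e1 with h | h
        · linarith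
        · exact absurd h hX.ne'
      rw [Finset.mem_coe, hQ, Finset.mem_filter] at ha hb
      funext o
      refine Fin.cases hab' ?_ o
      intro l
      by_cases hl : l = l1
      · rw [hl]; exact e2
      · have := congrFun (ha.2.trans hb.2.symm) ⟨l, hl⟩
        exact this
    rw [hinj]
    -- gcd
    set g := Int.gcd (x l1 ^ k) ((n : ℤ) ^ k) with hg
    have hg0 : 0 < g := Int.gcd_pos_of_ne_zero_left _ hX.ne'
    have hnk : (0 : ℤ) < (n : ℤ) ^ k := by
      have : (0 : ℤ) < n := by exact_mod_cast hn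
      positivity
    have hgn : (g : ℤ) ≤ (n : ℤ) ^ k := Int.le_of_dvd hnk (Int.gcd_dvd_right _ _)
    obtain ⟨X', hX'⟩ : (g : ℤ) ∣ x l1 ^ k := Int.gcd_dvd_left _ _
    obtain ⟨n', hn'⟩ : (g : ℤ) ∣ (n : ℤ) ^ k := Int.gcd_dvd_right _ _
    have hgz : (0 : ℤ) < g := by exact_mod_cast hg0
    have hX'0 : 0 < X' := by
      by_contra hcon
      push Not at hcon
      nlinarith
    have hcop : IsCoprime X' n' := by
      rw [Int.isCoprime_iff_gcd_eq_one]
      have e := Int.gcd_div_gcd_div_gcd (i := x l1 ^ k) (j := (n : ℤ) ^ k) hg0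
      rw [← hg] at e
      rwa [hX', hn', Int.mul_ediv_cancel_left _ hgz.ne', Int.mul_ediv_cancel_left _ hgz.ne'] at e
    have hXN : ((X'.toNat : ℕ) : ℤ) = X' := Int.toNat_of_nonneg hX'0.le
    have h2 := card_le_of_dvd_sub (Q.image (fun a => a 0)) X'.toNat (by omega) (2 * A) (by positivity)
      (by
        intro u hu w hw
        rw [Finset.mem_image] at hu hw
        obtain ⟨a, ha, rfl⟩ := hu
        obtain ⟨b, hb, rfl⟩ := hw
        rw [hXN]
        have e1 := hrel a ha b hb
        rw [hX', hn'] at e1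
        have e2 : (g : ℤ) * ((a 0 - b 0) * n' + (a (Fin.succ l1) - b (Fin.succ l1)) * X') = 0 := by
          linear_combination e1
        have e3 : (a 0 - b 0) * n' + (a (Fin.succ l1) - b (Fin.succ l1)) * X' = 0 := by
          rcases mul_eq_zero.mp e2 with h | h
          · exact absurd h hgz.ne'
          · exact h
        apply hcop.dvd_of_dvd_mul_right
        exact ⟨-(a (Fin.succ l1) - b (Fin.succ l1)), by linear_combination e3⟩)
      (by
        intro u hu w hw
        rw [Finset.mem_image] at hu hw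
        obtain ⟨a, ha, rfl⟩ := hu
        obtain ⟨b, hb, rfl⟩ := hw
        rw [hQ, Finset.mem_filter] at ha hb
        have h1 := abs_le.mp (mem_boxA.mp (hF a ha.1).1 0)
        have h2 := abs_le.mp (mem_boxA.mp (hF b hb.1).1 0)
        have : a 0 - b 0 ≤ 2 * A := by linarith [h1.2, h2.1]
        exact_mod_cast this)
    refine h2.trans ?_
    have hX'R : (0 : ℝ) < X'.toNat := by exact_mod_cast (by omega : 0 < X'.toNat)
    have hB0R : (0 : ℝ) < (B0 : ℝ) ^ k := by
      have : (0 : ℝ) < B0 := by exact_mod_cast hB0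
      positivity
    have h3 : (B0 : ℝ) ^ k ≤ (n : ℝ) ^ k * X'.toNat := by
      have e1 : (B0 : ℤ) ^ k ≤ (n : ℤ) ^ k * (X'.toNat : ℤ) := by
        rw [hXN]
        calc (B0 : ℤ) ^ k ≤ x l1 ^ k := hXB
          _ = g * X' := hX'
          _ ≤ (n : ℤ) ^ k * X' := mul_le_mul_of_nonneg_right hgn hX'0.le
      exact_mod_cast e1
    have h4 : 2 * (A : ℝ) / X'.toNat ≤ 2 * A * (n : ℝ) ^ k / (B0 : ℝ) ^ k := by
      rw [div_le_div_iff₀ hX'R hB0R]
      calc 2 * (A : ℝ) * (B0 : ℝ) ^ k ≤ 2 * A * ((n : ℝ) ^ k * X'.toNat) := by gcongr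
        _ = _ := by ring
    linarith)
  rw [hTcard] at h1
  exact h1

/-- first moment of the gcd-bad points. -/
theorem gcd_moment (k r n K L A B B0 R : ℕ) (hk : 1 ≤ k) (hr : 1 ≤ r) (hn : 1 ≤ n) (hB0 : 1 ≤ B0)
    (hB : 1 ≤ B) (hR : 1 ≤ R) :
    ∑ a ∈ boxA (r + 1) A, ((Bset k r n K L B B0 R a).card : ℝ) ≤
      ((r : ℝ) ^ 2 * ((B : ℝ) ^ (r - 2) * ((B : ℝ) ^ 2 / R))) *
        ((2 * L + 1) * ((2 * A + 1) ^ (r - 1) * (2 * A * (n : ℝ) ^ k / (B0 : ℝ) ^ k + 1))) := by
  classical
  set X : Finset (Fin r → ℤ) := (Fintype.piFinset (fun _ => Finset.Icc (B0 : ℤ) B)).filter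
    (fun x => ∃ l l', l ≠ l' ∧ R < Int.gcd (x l) (x l')) with hX
  have hXcard := card_badx r B B0 R hB0 hB hR X (by
    intro x hx
    rw [hX, Finset.mem_filter, Fintype.mem_piFinset] at hx
    exact ⟨fun l => Finset.mem_Icc.mp (hx.1 l), hx.2⟩)
  have h1 : ∀ a, ((Bset k r n K L B B0 R a).card : ℝ) = ∑ x ∈ X,
      (if ∃ t ∈ Finset.Icc (-(L : ℤ)) L, dot a (VV n k x) = K * t then (1 : ℝ) else 0) := by
    intro a
    rw [← Finset.sum_filter, Finset.sum_const, nsmul_eq_mul, mul_one]
    congr 2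
    rw [Bset, Nset, hX, Finset.filter_filter, Finset.filter_filter]
    apply Finset.filter_congr
    intro x _
    tauto
  simp only [h1]
  rw [Finset.sum_comm]
  calc ∑ x ∈ X, ∑ a ∈ boxA (r + 1) A,
        (if ∃ t ∈ Finset.Icc (-(L : ℤ)) L, dot a (VV n k x) = K * t then (1 : ℝ) else 0)
      ≤ ∑ x ∈ X, ((2 * L + 1) * ((2 * A + 1) ^ (r - 1) * (2 * A * (n : ℝ) ^ k / (B0 : ℝ) ^ k + 1)) : ℝ) := by
        apply Finset.sum_le_sum
        intro x hx
        rw [hX, Finset.mem_filter, Fintype.mem_piFinset] at hx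
        rw [← Finset.sum_filter, Finset.sum_const, nsmul_eq_mul, mul_one]
        have hsub : (boxA (r + 1) A).filter (fun a => ∃ t ∈ Finset.Icc (-(L : ℤ)) L, dot a (VV n k x) = K * t) ⊆
            (Finset.Icc (-(L : ℤ)) L).biUnion (fun t => (boxA (r + 1) A).filter (fun a => dot a (VV n k x) = K * t)) := by
          intro a ha
          rw [Finset.mem_filter] at ha
          obtain ⟨hab, t, ht, hdt⟩ := ha
          rw [Finset.mem_biUnion]
          exact ⟨t, ht, Finset.mem_filter.mpr ⟨hab, hdt⟩⟩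
        calc _ ≤ (((Finset.Icc (-(L : ℤ)) L).biUnion (fun t => (boxA (r + 1) A).filter (fun a => dot a (VV n k x) = K * t))).card : ℝ) := by
              exact_mod_cast Finset.card_le_card hsub
          _ ≤ ∑ t ∈ Finset.Icc (-(L : ℤ)) L, (((boxA (r + 1) A).filter (fun a => dot a (VV n k x) = K * t)).card : ℝ) := by
              exact_mod_cast Finset.card_biUnion_le
          _ ≤ ∑ t ∈ Finset.Icc (-(L : ℤ)) L, ((2 * A + 1) ^ (r - 1) * (2 * A * (n : ℝ) ^ k / (B0 : ℝ) ^ k + 1) : ℝ) := by
              apply Finset.sum_le_sum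
              intro t _
              apply card_a_fixed k r n A B0 hk hr hn hB0 x (fun l => (Finset.mem_Icc.mp (hx.1 l)).1) (K * t)
              intro a ha
              exact Finset.mem_filter.mp ha
          _ = _ := by
              rw [Finset.sum_const, Int.card_Icc, nsmul_eq_mul]
              have h2 : ((L : ℤ) + 1 - -(L : ℤ)).toNat = 2 * L + 1 := by omega
              rw [h2]; push_cast; ring
    _ = X.card * ((2 * L + 1) * ((2 * A + 1) ^ (r - 1) * (2 * A * (n : ℝ) ^ k / (B0 : ℝ) ^ k + 1))) := by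
        rw [Finset.sum_const, nsmul_eq_mul]
    _ ≤ _ := mul_le_mul_of_nonneg_right hXcard (by positivity)

/-- If there is no solution in `T`, then `DD` is minus the local count. -/
theorem DD_of_no_sol (k r n K L B B0 R : ℕ) (hK : 0 < K) (a : Fin (r + 1) → ℤ)
    (hno : ∀ x ∈ Tset r B0 B R, dot a (VV n k x) ≠ 0) :
    ((Nset k r n K L B B0 a).card : ℝ) - ((Bset k r n K L B B0 R a).card : ℝ) ≤
      (2 * L + 1) * |DD k r n K L B B0 R a| := by
  classical
  set Q := (Nset k r n K L B B0 a).filter (fun x => ¬ ∃ l l', l ≠ l' ∧ R < Int.gcd (x l) (x l')) with hQ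
  have h1 : (Nset k r n K L B B0 a).card = (Bset k r n K L B B0 R a).card + Q.card := by
    rw [Bset, hQ]
    exact (Finset.card_filter_add_card_filter_not _).symm
  have h2 : DD k r n K L B B0 R a = -((1 / (2 * L + 1 : ℝ)) * ∑ x ∈ Tset r B0 B R,
      ∑ t ∈ Finset.Icc (-(L : ℤ)) L, (if dot a (VV n k x) = K * t then (1 : ℝ) else 0)) := by
    unfold DD
    rw [Finset.mul_sum, ← Finset.sum_neg_distrib]
    apply Finset.sum_congr rfl
    intro x hx
    rw [if_neg (hno x hx), zero_sub]
  have h3 : (Q.card : ℝ) ≤ ∑ x ∈ Tset r B0 B R,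
      ∑ t ∈ Finset.Icc (-(L : ℤ)) L, (if dot a (VV n k x) = K * t then (1 : ℝ) else 0) := by
    calc (Q.card : ℝ) = ∑ x ∈ Q, (1 : ℝ) := by rw [Finset.sum_const, nsmul_eq_mul, mul_one]
      _ ≤ ∑ x ∈ Q, ∑ t ∈ Finset.Icc (-(L : ℤ)) L, (if dot a (VV n k x) = K * t then (1 : ℝ) else 0) := by
          apply Finset.sum_le_sum
          intro x hx
          rw [hQ, Finset.mem_filter, Nset, Finset.mem_filter] at hx
          obtain ⟨⟨_, t, ht, hdt⟩, _⟩ := hx
          calc (1 : ℝ) = (if dot a (VV n k x) = K * t then (1 : ℝ) else 0) := by rw [if_pos hdt]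
            _ ≤ _ := Finset.single_le_sum (f := fun t : ℤ => (if dot a (VV n k x) = K * t then (1 : ℝ) else 0))
                (fun t _ => by positivity) ht
      _ ≤ _ := by
          apply Finset.sum_le_sum_of_subset_of_nonneg
          · intro x hx
            rw [hQ, Finset.mem_filter, Nset, Finset.mem_filter, Fintype.mem_piFinset] at hx
            rw [mem_Tset]
            refine ⟨fun l => Finset.mem_Icc.mp (hx.1.1 l), ?_⟩
            intro l l' hll
            by_contra hcon
            push Not at hcon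
            exact hx.2 ⟨l, l', hll, hcon⟩
          · intro x _ _
            exact Finset.sum_nonneg (fun t _ => by positivity)
  set SS := ∑ x ∈ Tset r B0 B R,
      ∑ t ∈ Finset.Icc (-(L : ℤ)) L, (if dot a (VV n k x) = K * t then (1 : ℝ) else 0) with hSS
  have h4 : 0 ≤ SS := Finset.sum_nonneg (fun x _ => Finset.sum_nonneg (fun t _ => by positivity))
  rw [h2, abs_neg, abs_of_nonneg (by positivity)]
  have h5 : ((Nset k r n K L B B0 a).card : ℝ) = (Bset k r n K L B B0 R a).card + Q.card := by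
    exact_mod_cast h1
  rw [h5]
  have h6 : (2 * (L : ℝ) + 1) * (1 / (2 * L + 1 : ℝ) * SS) = SS := by
    have : (2 * (L : ℝ) + 1) ≠ 0 := by positivity
    field_simp
  rw [h6]
  linarith

end Pool.Agent.H888.DH
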