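import Pool.Agent.H888.DH.Loc7

set_option linter.unusedVariables false
set_option linter.unusedSectionVars false
set_option linter.style.haveILetI false

namespace Pool.Agent.H888.DH

open Finset

/-- Nontrivial solution over a ring. -/
def Sol (F : Type*) [Ring F] (k s : ℕ) (a : Fin s → ℤ) : Prop :=
  ∃ x : Fin s → F, x ≠ 0 ∧ ∑ i, (a i : F) * x i ^ k = 0

/-- mixed signs among the running coefficients -/
def Mixed {r : ℕ} (a : Fin (r + 1) → ℤ) : Prop := ∃ i j : Fin r, a (Fin.succ i) * a (Fin.succ j) < 0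

/-- A nontrivial integral solution with `|x i| ^ k ≤ H`. -/
def SolB (k s H : ℕ) (a : Fin s → ℤ) : Prop :=
  ∃ x : Fin s → ℤ, x ≠ 0 ∧ (∀ i, |x i| ^ k ≤ (H : ℤ)) ∧ ∑ i, a i * x i ^ k = 0

theorem sol_of_dot (k r n H : ℕ) (hk : 1 ≤ k) (hn : 1 ≤ n) (a : Fin (r + 1) → ℤ) (x : Fin r → ℤ)
    (hnH : n ^ k ≤ H) (hxH : ∀ l, |x l| ^ k ≤ (H : ℤ))
    (h : dot a (VV n k x) = 0) : SolB k (r + 1) H a := by
  rw [dot_VV] at h
  refine ⟨Fin.cons (n : ℤ) x, ?_, ?_, ?_⟩
  · intro h0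
    have := congrFun h0 0
    simp only [Fin.cons_zero, Pi.zero_apply] at this
    have : n = 0 := by exact_mod_cast this
    omega
  · intro i
    refine Fin.cases ?_ (fun i' => ?_) i
    · simp only [Fin.cons_zero, Nat.abs_cast]
      exact_mod_cast hnH
    · simp only [Fin.cons_succ]
      exact hxH i'
  · rw [Fin.sum_univ_succ]
    simp only [Fin.cons_zero, Fin.cons_succ]
    exact h

set_option maxHeartbeats 2000000 in
theorem per_n (k r n C0 : ℕ) (hk : 3 ≤ k) (hr : 2 * k + 1 ≤ r) (hn : 1 ≤ n) (ε1 σ0 : ℝ)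
    (hε1 : 0 < ε1) (hε1' : ε1 ≤ 1) (hσ0 : 0 < σ0) (hC08 : 8 ≤ C0) (hC0 : 64 * r / ε1 ^ 2 ≤ C0)
    (δ : ℝ) (hδ : 0 < δ) :
    ∃ G R1 : ℕ, ∀ R A : ℕ, R1 ≤ R → R ^ eA k r ≤ A → A < (R + 1) ^ eA k r →
      ∀ W : Finset (Fin (r + 1) → ℤ), (∀ a ∈ W, a ∈ boxA (r + 1) A ∧ ¬ SolB k (r + 1) A a ∧ Mixed a ∧
        (∀ o, ε1 * A ≤ |(a o : ℝ)|) ∧ ∀ _ : NeZero (n ^ k * G.factorial),
          σ0 * ((n ^ k * G.factorial : ℕ) : ℝ) ^ (r - 1) ≤ (SolN k r a n (n ^ k * G.factorial)).card) →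
      (W.card : ℝ) ≤ δ * (A : ℝ) ^ (r + 1) := by
  classical
  have hkR : (3 : ℝ) ≤ k := by exact_mod_cast hk
  have hC0R : (8 : ℝ) ≤ C0 := by exact_mod_cast hC08
  have hC0R' : (0 : ℝ) < C0 := by linarith
  set τ : ℝ := σ0 / (24 * k * (2 * C0) ^ (r - 1)) with hτ
  have hτ0 : 0 < τ := by positivity
  obtain ⟨G, η, hη0, hη1, R1, hA⟩ := propA k r n C0 hk hr hn (by omega) (δ / 2 * τ ^ 2) (by positivity)
  set K := n ^ k * G.factorial with hK
  have hKpos : 0 < K := Nat.mul_pos (pow_pos hn k) (Nat.factorial_pos G)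
  haveI : NeZero K := ⟨hKpos.ne'⟩
  have hKR : (1 : ℝ) ≤ K := by exact_mod_cast hKpos
  have hnR : (1 : ℝ) ≤ n := by exact_mod_cast hn
  set c4 : ℝ := (1 / τ) * (r ^ 2 * 3 ^ r * (n : ℝ) ^ k * C0 ^ k) with hc4
  have hrR : (7 : ℝ) ≤ r := by exact_mod_cast (by omega : 7 ≤ r)
  obtain ⟨Rb, hRb⟩ := exists_nat_ge (max (max (2 * K / η) (16 * (n : ℝ) ^ k / ε1 ^ 2))
    (max (max (2 * C0 * K) ((1 + K) * (4 * k) / η)) (max (c4 * 2 / δ) (2 * C0 + 4))))
  refine ⟨G, max R1 Rb, ?_⟩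
  intro R A hR hA1 hA2 W hW
  have hR1 : R1 ≤ R := (le_max_left _ _).trans hR
  have hRb' : Rb ≤ R := (le_max_right _ _).trans hR
  have hRbR : (Rb : ℝ) ≤ R := by exact_mod_cast hRb'
  have hall := hRb.trans hRbR
  have q1 : 2 * K / η ≤ R := ((le_max_left _ _).trans (le_max_left _ _)).trans hall
  have q2 : 16 * (n : ℝ) ^ k / ε1 ^ 2 ≤ R := ((le_max_right _ _).trans (le_max_left _ _)).trans hall
  have q3 : 2 * (C0 : ℝ) * K ≤ R :=
    ((le_max_left _ _).trans ((le_max_left _ _).trans (le_max_right _ _))).trans hall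
  have q4 : (1 + K) * (4 * k) / η ≤ R :=
    ((le_max_right _ _).trans ((le_max_left _ _).trans (le_max_right _ _))).trans hall
  have q5 : c4 * 2 / δ ≤ R :=
    ((le_max_left _ _).trans ((le_max_right _ _).trans (le_max_right _ _))).trans hall
  have q6 : 2 * (C0 : ℝ) + 4 ≤ R :=
    ((le_max_right _ _).trans ((le_max_right _ _).trans (le_max_right _ _))).trans hall
  have hmain := hA R A hR1 hA1 hA2
  set B := R ^ N0 k r with hB
  set L := ⌊η * A * ((B : ℕ) : ℝ) ^ k / ((K : ℕ) : ℝ)⌋₊ with hL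
  set B0 := B / C0 + 1 with hB0
  have hRpos : 0 < R := by
    have : (0 : ℝ) < R := by linarith
    exact_mod_cast this
  have hRR : (0 : ℝ) < R := by exact_mod_cast hRpos
  have hN04 : 4 ≤ N0 k r := by unfold N0; omega
  have hRB : (R : ℝ) ≤ B := by
    have : R ≤ B := by
      calc R = R ^ 1 := (pow_one R).symm
        _ ≤ R ^ N0 k r := Nat.pow_le_pow_right hRpos (by omega)
    exact_mod_cast this
  have hBpos : 1 ≤ B := Nat.one_le_pow _ _ hRpos
  have hB1 : (1 : ℝ) ≤ B := by exact_mod_cast hBpos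
  have hBR0 : (0 : ℝ) < B := by linarith
  have hApos : 1 ≤ A := (Nat.one_le_pow _ _ hRpos).trans hA1
  have hAR : (1 : ℝ) ≤ A := by exact_mod_cast hApos
  have hABk : (B : ℝ) ^ k ≤ A := by
    have : B ^ k ≤ A := by
      calc B ^ k = R ^ (N0 k r * k) := by rw [hB, ← pow_mul]
        _ ≤ R ^ eA k r := by
            apply Nat.pow_le_pow_right hRpos
            unfold eA
            have : N0 k r * (k + 1) = N0 k r * k + N0 k r := by ring
            omega
        _ ≤ A := hA1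
    exact_mod_cast this
  set μ : ℝ := (B : ℝ) ^ r / (A * (B : ℝ) ^ k) with hμ
  have hμ0 : 0 < μ := by positivity
  have hB0R : (B0 : ℝ) ≤ 2 * B / C0 := by
    have h1 : ((B / C0 : ℕ) : ℝ) ≤ B / C0 := Nat.cast_div_le
    have h2 : (1 : ℝ) ≤ B / C0 := by rw [le_div_iff₀ hC0R']; linarith
    have h3 : (B0 : ℝ) = ((B / C0 : ℕ) : ℝ) + 1 := by rw [hB0]; push_cast; ring
    have h4 : 2 * (B : ℝ) / C0 = B / C0 + B / C0 := by ring
    rw [h3, h4]; linarith
  have hBB0 : (B : ℝ) ≤ C0 * B0 := by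
    have := (Nat.lt_mul_div_succ B (by omega : 0 < C0)).le
    exact_mod_cast this
  have hB0pos : 1 ≤ B0 := Nat.le_add_left 1 _
  have hB0R0 : (0 : ℝ) < B0 := by exact_mod_cast hB0pos
  -- K L bounds
  have hXdef : (K : ℝ) ≤ η / 2 * A * (B : ℝ) ^ k := by
    have h1 : (K : ℝ) ≤ η / 2 * R := by
      rw [div_le_iff₀ hη0] at q1; linarith
    have h2 : (R : ℝ) ≤ A * (B : ℝ) ^ k := by
      calc (R : ℝ) ≤ B := hRB
        _ ≤ (B : ℝ) ^ k := le_self_pow₀ hB1 (by omega)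
        _ = 1 * (B : ℝ) ^ k := (one_mul _).symm
        _ ≤ _ := by gcongr
    calc (K : ℝ) ≤ η / 2 * R := h1
      _ ≤ η / 2 * (A * (B : ℝ) ^ k) := by gcongr
      _ = _ := by ring
  have hLup : (K : ℝ) * L ≤ η * A * (B : ℝ) ^ k := by
    have h1 : (L : ℝ) ≤ η * A * ((B : ℕ) : ℝ) ^ k / K := Nat.floor_le (by positivity)
    rw [le_div_iff₀ (by linarith)] at h1
    linarith
  have hLlow : η / 2 * A * (B : ℝ) ^ k ≤ K * L := by
    have h1 : η * A * ((B : ℕ) : ℝ) ^ k / K < L + 1 := Nat.lt_floor_add_one _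
    rw [div_lt_iff₀ (by linarith)] at h1
    nlinarith
  have hL1 : (1 : ℝ) ≤ L := by
    have h1 : (K : ℝ) * 1 ≤ K * L := by linarith
    exact le_of_mul_le_mul_left h1 (by linarith)
  -- T1, T2
  set T1 := B / (C0 * K) with hT1
  set T2 := ⌊(η * B / (2 * k) - 1) / K⌋₊ with hT2
  have hT1up : (K * T1 + 1 : ℝ) ≤ 2 * B / C0 := by
    have h1 : (T1 : ℝ) ≤ (B : ℝ) / ((C0 * K : ℕ) : ℝ) := Nat.cast_div_le
    push_cast at h1
    have h2 : (K : ℝ) * T1 ≤ B / C0 := by
      calc (K : ℝ) * T1 ≤ K * ((B : ℝ) / (C0 * K)) := by gcongr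
        _ = B / C0 := by field_simp
    have h3 : (1 : ℝ) ≤ B / C0 := by rw [le_div_iff₀ hC0R']; linarith
    have h4 : 2 * (B : ℝ) / C0 = B / C0 + B / C0 := by ring
    rw [h4]; linarith
  have hT1low : (B : ℝ) / (2 * C0 * K) ≤ T1 := by
    have h1 : (B : ℝ) / ((C0 * K : ℕ) : ℝ) < T1 + 1 := by
      have := Nat.lt_mul_div_succ B (Nat.mul_pos (by omega : 0 < C0) hKpos)
      rw [div_lt_iff₀ (by positivity)]
      have h2 : (B : ℝ) < ((C0 * K * (B / (C0 * K) + 1) : ℕ) : ℝ) := by exact_mod_cast this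
      push_cast at h2 ⊢
      linarith
    push_cast at h1
    have h2 : (1 : ℝ) ≤ B / (2 * C0 * K) := by
      rw [le_div_iff₀ (by positivity)]; linarith
    have h3 : (B : ℝ) / (C0 * K) = B / (2 * C0 * K) + B / (2 * C0 * K) := by field_simp; ring
    rw [h3] at h1; linarith
  have hq4' : (1 + K : ℝ) ≤ η * B / (4 * k) := by
    rw [le_div_iff₀ (by positivity)]
    rw [div_le_iff₀ hη0] at q4
    nlinarith
  have hsplit : η * B / (2 * k) = η * B / (4 * k) + η * B / (4 * k) := by field_simp; ring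
  have hT2up : (K * T2 + 1 : ℝ) ≤ η * B / (2 * k) := by
    have h0 : 0 ≤ (η * B / (2 * k) - 1) / K := by
      apply div_nonneg _ (by linarith)
      rw [hsplit]; linarith
    have h1 : (T2 : ℝ) ≤ (η * B / (2 * k) - 1) / K := Nat.floor_le h0
    rw [le_div_iff₀ (by linarith)] at h1
    linarith
  have hT2low : η * B / (4 * k * K) ≤ T2 := by
    have h1 : (η * B / (2 * k) - 1) / K < T2 + 1 := Nat.lt_floor_add_one _
    rw [div_lt_iff₀ (by linarith)] at h1
    have h2 : η * B / (4 * k * K) = (η * B / (4 * k)) / K := by field_simp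
    rw [h2, div_le_iff₀ (by linarith)]
    rw [hsplit] at h1
    linarith
  -- exceptional sets
  set E4 := (boxA (r + 1) A).filter (fun a => τ * μ * (2 * L + 1) ≤ ((Bset k r n K L B B0 R a).card : ℝ)) with hE4
  set E5 := (boxA (r + 1) A).filter (fun a => τ * μ ≤ |DD k r n K L B B0 R a|) with hE5
  have hWsub : W ⊆ E4 ∪ E5 := by
    intro a haW
    obtain ⟨hab, hnosol, ⟨i', j', hij⟩, haε, hσ⟩ := hW a haW
    have haA := mem_boxA.mp hab
    rw [Finset.mem_union]
    by_contra hcon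
    push Not at hcon
    obtain ⟨h4, h5⟩ := hcon
    rw [hE4, Finset.mem_filter] at h4
    rw [hE5, Finset.mem_filter] at h5
    have h4' : ((Bset k r n K L B B0 R a).card : ℝ) < τ * μ * (2 * L + 1) := by
      by_contra hc; push Not at hc; exact h4 ⟨hab, hc⟩
    have h5' : |DD k r n K L B B0 R a| < τ * μ := by
      by_contra hc; push Not at hc; exact h5 ⟨hab, hc⟩
    -- region
    have hreg : ∃ i j : Fin r, i ≠ j ∧ a (Fin.succ i) * a (Fin.succ j) < 0 ∧
        |a (Fin.succ j)| ≤ |a (Fin.succ i)| := by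
      have hne : i' ≠ j' := by
        rintro rfl
        have := mul_self_nonneg (a (Fin.succ i'))
        linarith
      rcases le_total |a (Fin.succ j')| |a (Fin.succ i')| with h | h
      · exact ⟨i', j', hne, hij, h⟩
      · exact ⟨j', i', hne.symm, by rw [mul_comm]; exact hij, h⟩
    obtain ⟨i, j, hne, hsign, hji⟩ := hreg
    have hcount := region_lower k r n K A B B0 C0 L T1 T2 (by omega) a ε1 η hε1 hε1' hη0 hη1 hApos hBpos
      haA (fun l => haε (Fin.succ l)) i j hne hsign hji hC0 hC08 hB0R (by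
        rw [div_le_iff₀ (by positivity)] at q2
        rw [div_le_iff₀ hε1]
        have h1 : (R : ℝ) / 4 ≤ ((B : ℝ) / 4) ^ k := by
          calc (R : ℝ) / 4 ≤ B / 4 := by linarith
            _ ≤ ((B : ℝ) / 4) ^ k := le_self_pow₀ (by linarith) (by omega)
        have h2 : (n : ℝ) ^ k ≤ ε1 ^ 2 / 4 * (R / 4) := by linarith
        calc (n : ℝ) ^ k ≤ ε1 ^ 2 / 4 * (R / 4) := h2
          _ ≤ ε1 ^ 2 / 4 * ((B : ℝ) / 4) ^ k := by gcongr
          _ = _ := by ring) hLlow hT1up hT2up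
    have hσ' := hσ inferInstance
    have hNlow : 2 * (τ * μ * (2 * L + 1)) ≤ ((Nset k r n K L B B0 a).card : ℝ) := by
      have h1 : ((SolN k r a n K).card : ℝ) * ((T1 : ℝ) ^ (r - 1) * T2) ≤ ((Nset k r n K L B B0 a).card : ℝ) := by
        exact_mod_cast hcount
      refine le_trans ?_ h1
      have h2 : (2 * L + 1 : ℝ) ≤ 3 * (η * A * (B : ℝ) ^ k / K) := by
        have : (L : ℝ) ≤ η * A * (B : ℝ) ^ k / K := by
          rw [le_div_iff₀ (by linarith)]; linarith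
        linarith
      calc 2 * (τ * μ * (2 * L + 1)) ≤ 2 * (τ * μ * (3 * (η * A * (B : ℝ) ^ k / K))) := by gcongr
        _ = (σ0 * (K : ℝ) ^ (r - 1)) * (((B : ℝ) / (2 * C0 * K)) ^ (r - 1) * (η * B / (4 * k * K))) := by
            have e1 : (B : ℝ) ^ r = (B : ℝ) ^ (r - 1) * B := by rw [← pow_succ]; congr 1; omega
            rw [hτ, hμ, e1, div_pow, mul_pow (2 * (C0 : ℝ)) K]
            field_simp
            ring
        _ ≤ ((SolN k r a n K).card : ℝ) * ((T1 : ℝ) ^ (r - 1) * T2) := by gcongr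
    have hDD := DD_of_no_sol k r n K L B B0 R hKpos a (by
      intro x hx h0
      have hxx := (mem_Tset.mp hx).1
      refine hnosol (sol_of_dot k r n A (by omega) hn a x ?_ ?_ h0)
      · have h1 : (n : ℝ) ^ k ≤ A := by
          rw [div_le_iff₀ (by positivity)] at q2
          have e1 : ε1 ^ 2 ≤ 1 := pow_le_one₀ hε1.le hε1'
          have e2 : (R : ℝ) * ε1 ^ 2 ≤ R * 1 := by gcongr
          have e3 : (R : ℝ) ≤ A := by
            have := le_self_pow₀ hB1 (by omega : k ≠ 0)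
            linarith
          have e4 : (0 : ℝ) ≤ (n : ℝ) ^ k := by positivity
          linarith
        exact_mod_cast h1
      · intro l
        have h1 : |x l| ≤ (B : ℤ) := by
          rw [abs_le]
          constructor
          · have := (hxx l).1
            have h2 : (0 : ℤ) ≤ B0 := Int.natCast_nonneg _
            have h3 : (0 : ℤ) ≤ B := Int.natCast_nonneg _
            linarith
          · exact (hxx l).2
        have h2 : (B : ℤ) ^ k ≤ A := by exact_mod_cast hABk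
        exact (pow_le_pow_left₀ (abs_nonneg _) h1 k).trans h2)
    have h6 : (2 * (L : ℝ) + 1) * |DD k r n K L B B0 R a| < (2 * L + 1) * (τ * μ) := by
      apply mul_lt_mul_of_pos_left h5' (by positivity)
    linarith
  -- card E5
  have hE5card : (E5.card : ℝ) ≤ δ / 2 * (A : ℝ) ^ (r + 1) := by
    have h1 : (E5.card : ℝ) * (τ * μ) ^ 2 ≤ (δ / 2 * (A : ℝ) ^ (r + 1)) * (τ * μ) ^ 2 := by
      calc (E5.card : ℝ) * (τ * μ) ^ 2 = ∑ a ∈ E5, (τ * μ) ^ 2 := by rw [Finset.sum_const, nsmul_eq_mul]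
        _ ≤ ∑ a ∈ E5, (DD k r n K L B B0 R a) ^ 2 := by
            apply Finset.sum_le_sum
            intro a ha
            rw [hE5, Finset.mem_filter] at ha
            rw [← sq_abs (DD k r n K L B B0 R a)]
            have := ha.2
            gcongr
        _ ≤ ∑ a ∈ boxA (r + 1) A, (DD k r n K L B B0 R a) ^ 2 :=
            Finset.sum_le_sum_of_subset_of_nonneg (Finset.filter_subset _ _) (fun _ _ _ => by positivity)
        _ ≤ δ / 2 * τ ^ 2 * (A : ℝ) ^ (r + 1) * μ ^ 2 := hmain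
        _ = _ := by ring
    exact le_of_mul_le_mul_right h1 (by positivity)
  -- card E4
  have hE4card : (E4.card : ℝ) ≤ δ / 2 * (A : ℝ) ^ (r + 1) := by
    have hgm := gcd_moment k r n K L A B B0 R (by omega) (by omega) hn hB0pos hBpos hRpos
    have h1 : (E4.card : ℝ) * (τ * μ * (2 * L + 1)) ≤
        ((r : ℝ) ^ 2 * ((B : ℝ) ^ (r - 2) * ((B : ℝ) ^ 2 / R))) *
        ((2 * L + 1) * ((2 * A + 1) ^ (r - 1) * (2 * A * (n : ℝ) ^ k / (B0 : ℝ) ^ k + 1))) := by
      calc (E4.card : ℝ) * (τ * μ * (2 * L + 1)) = ∑ a ∈ E4, (τ * μ * (2 * L + 1)) := by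
            rw [Finset.sum_const, nsmul_eq_mul]
        _ ≤ ∑ a ∈ E4, ((Bset k r n K L B B0 R a).card : ℝ) := by
            apply Finset.sum_le_sum
            intro a ha
            rw [hE4, Finset.mem_filter] at ha
            exact ha.2
        _ ≤ ∑ a ∈ boxA (r + 1) A, ((Bset k r n K L B B0 R a).card : ℝ) :=
            Finset.sum_le_sum_of_subset_of_nonneg (Finset.filter_subset _ _) (fun _ _ _ => by positivity)
        _ ≤ _ := hgm
    have h2 : (2 * (A : ℝ) + 1) ^ (r - 1) * (2 * A * (n : ℝ) ^ k / (B0 : ℝ) ^ k + 1) ≤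
        (3 * (A : ℝ)) ^ (r - 1) * (3 * A * ((n : ℝ) ^ k * C0 ^ k / B ^ k)) := by
      apply mul_le_mul
      · gcongr; linarith
      · have e1 : 1 / (B0 : ℝ) ^ k ≤ C0 ^ k / B ^ k := by
          rw [div_le_div_iff₀ (by positivity) (by positivity), one_mul, ← mul_pow]
          gcongr
        have e2 : 2 * (A : ℝ) * (n : ℝ) ^ k / (B0 : ℝ) ^ k ≤ 2 * A * ((n : ℝ) ^ k * C0 ^ k / B ^ k) := by
          calc 2 * (A : ℝ) * (n : ℝ) ^ k / (B0 : ℝ) ^ k = 2 * A * (n : ℝ) ^ k * (1 / (B0 : ℝ) ^ k) := by ring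
            _ ≤ 2 * A * (n : ℝ) ^ k * (C0 ^ k / B ^ k) := by gcongr
            _ = _ := by ring
        have e3 : (1 : ℝ) ≤ A * ((n : ℝ) ^ k * C0 ^ k / B ^ k) := by
          have f1 : (1 : ℝ) ≤ A / (B : ℝ) ^ k := by rw [le_div_iff₀ (by positivity)]; linarith
          have f2 : (1 : ℝ) ≤ (n : ℝ) ^ k * C0 ^ k := by
            have g1 : (1 : ℝ) ≤ (n : ℝ) ^ k := one_le_pow₀ hnR
            have g2 : (1 : ℝ) ≤ (C0 : ℝ) ^ k := one_le_pow₀ (by linarith)
            nlinarith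
          calc (1 : ℝ) = 1 * 1 := by norm_num
            _ ≤ (A / (B : ℝ) ^ k) * ((n : ℝ) ^ k * C0 ^ k) := by gcongr
            _ = _ := by ring
        linarith
      · positivity
      · positivity
    have h3 : (E4.card : ℝ) * (τ * μ * (2 * L + 1)) ≤
        (c4 / R * (A : ℝ) ^ (r + 1)) * (τ * μ * (2 * L + 1)) := by
      calc _ ≤ _ := h1
        _ ≤ ((r : ℝ) ^ 2 * ((B : ℝ) ^ (r - 2) * ((B : ℝ) ^ 2 / R))) *
          ((2 * L + 1) * ((3 * (A : ℝ)) ^ (r - 1) * (3 * A * ((n : ℝ) ^ k * C0 ^ k / B ^ k)))) := by gcongr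
        _ = _ := by
            have e1 : (B : ℝ) ^ r = (B : ℝ) ^ (r - 2) * B ^ 2 := by rw [← pow_add]; congr 1; omega
            have e2 : (3 : ℝ) ^ r = 3 ^ (r - 1) * 3 := by rw [← pow_succ]; congr 1; omega
            have e3 : (A : ℝ) ^ (r + 1) = (A : ℝ) ^ (r - 1) * A ^ 2 := by rw [← pow_add]; congr 1; omega
            rw [hc4, hμ, e1, e2, e3, mul_pow]
            field_simp
    have h4 : (E4.card : ℝ) ≤ c4 / R * (A : ℝ) ^ (r + 1) := le_of_mul_le_mul_right h3 (by positivity)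
    refine h4.trans ?_
    apply mul_le_mul_of_nonneg_right _ (by positivity)
    rw [div_le_div_iff₀ hRR (by norm_num)]
    rw [div_le_iff₀ hδ] at q5
    linarith
  calc (W.card : ℝ) ≤ ((E4 ∪ E5).card : ℝ) := by exact_mod_cast Finset.card_le_card hWsub
    _ ≤ (E4.card : ℝ) + E5.card := by exact_mod_cast Finset.card_union_le _ _
    _ ≤ δ / 2 * (A : ℝ) ^ (r + 1) + δ / 2 * (A : ℝ) ^ (r + 1) := add_le_add hE4card hE5card
    _ = _ := by ring

end Pool.Agent.H888.DH
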