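import Pool.Agent.H888.DH.Loc8

set_option linter.unusedVariables false
set_option linter.unusedSectionVars false
set_option linter.style.haveILetI false

namespace Pool.Agent.H888.DH

open Finset

/-- Vectors of a box with one coordinate in a given set. -/
theorem card_coord_in (r H : ℕ) (o : Fin (r + 1)) (T : Finset ℤ) (F : Finset (Fin (r + 1) → ℤ))
    (hF : ∀ a ∈ F, a ∈ boxA (r + 1) H ∧ a o ∈ T) :
    (F.card : ℝ) ≤ T.card * (2 * H + 1) ^ r := by
  classical
  have hsub : F ⊆ Fintype.piFinset (Function.update (fun _ => Finset.Icc (-(H : ℤ)) H) o T) := by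
    intro a ha
    rw [Fintype.mem_piFinset]
    intro l
    by_cases hl : l = o
    · subst hl; rw [Function.update_self]; exact (hF a ha).2
    · rw [Function.update_of_ne hl]
      have := (hF a ha).1
      rw [boxA, Fintype.mem_piFinset] at this
      exact this l
  calc (F.card : ℝ) ≤ ((Fintype.piFinset (Function.update (fun _ => Finset.Icc (-(H : ℤ)) H) o T)).card : ℝ) := by
        exact_mod_cast Finset.card_le_card hsub
    _ = T.card * (2 * H + 1) ^ r := by
        rw [Fintype.card_piFinset, ← Finset.mul_prod_erase Finset.univ _ (Finset.mem_univ o)]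
        rw [Function.update_self]
        have : ∀ l ∈ Finset.univ.erase o,
            (Function.update (fun _ => Finset.Icc (-(H : ℤ)) H) o T l).card = 2 * H + 1 := by
          intro l hl
          rw [Function.update_of_ne (Finset.ne_of_mem_erase hl), Int.card_Icc]
          omega
        rw [Finset.prod_congr rfl this, Finset.prod_const, Finset.card_erase_of_mem (Finset.mem_univ o),
          Finset.card_univ, Fintype.card_fin]
        push_cast
        simp

/-- E1: some coordinate small -/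
theorem card_E1 (r H : ℕ) (ε1 : ℝ) (hε1 : 0 < ε1) (hH : 1 ≤ ε1 * H) (F : Finset (Fin (r + 1) → ℤ))
    (hF : ∀ a ∈ F, a ∈ boxA (r + 1) H ∧ ∃ o, |(a o : ℝ)| < ε1 * H) :
    (F.card : ℝ) ≤ (r + 1) * ε1 * 3 ^ (r + 1) * (H : ℝ) ^ (r + 1) := by
  classical
  have hHpos : (1 : ℝ) ≤ H := by
    have : 0 < H := by
      rcases Nat.eq_zero_or_pos H with h | h
      · subst h; simp at hH; linarith
      · exact h
    exact_mod_cast this
  set X := ⌊ε1 * H⌋₊ with hX
  have hsub : F ⊆ Finset.univ.biUnion (fun o : Fin (r + 1) => F.filter (fun a => |(a o : ℝ)| < ε1 * H)) := by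
    intro a ha
    obtain ⟨o, ho⟩ := (hF a ha).2
    rw [Finset.mem_biUnion]
    exact ⟨o, Finset.mem_univ _, Finset.mem_filter.mpr ⟨ha, ho⟩⟩
  have h1 : ∀ o : Fin (r + 1), ((F.filter (fun a => |(a o : ℝ)| < ε1 * H)).card : ℝ) ≤
      ε1 * 3 ^ (r + 1) * (H : ℝ) ^ (r + 1) := by
    intro o
    have h2 := card_coord_in r H o (Finset.Icc (-(X : ℤ)) X) (F.filter (fun a => |(a o : ℝ)| < ε1 * H)) (by
      intro a ha
      rw [Finset.mem_filter] at ha
      refine ⟨(hF a ha.1).1, ?_⟩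
      have h3 : ((a o).natAbs : ℝ) ≤ ε1 * H := by
        rw [Nat.cast_natAbs]; push_cast; exact ha.2.le
      have h4 : (a o).natAbs ≤ X := Nat.le_floor h3
      rw [Finset.mem_Icc]; omega)
    refine h2.trans ?_
    rw [Int.card_Icc]
    have h5 : (((X : ℤ) + 1 - -(X : ℤ)).toNat : ℝ) = 2 * X + 1 := by
      have : ((X : ℤ) + 1 - -(X : ℤ)).toNat = 2 * X + 1 := by omega
      rw [this]; push_cast; ring
    rw [h5]
    have h6 : (X : ℝ) ≤ ε1 * H := Nat.floor_le (by positivity)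
    calc (2 * (X : ℝ) + 1) * (2 * H + 1) ^ r ≤ (3 * (ε1 * H)) * (3 * H) ^ r := by
          gcongr
          · linarith
          · linarith
      _ = _ := by rw [mul_pow]; ring
  calc (F.card : ℝ) ≤ ((Finset.univ.biUnion (fun o : Fin (r + 1) =>
        F.filter (fun a => |(a o : ℝ)| < ε1 * H))).card : ℝ) := by exact_mod_cast Finset.card_le_card hsub
    _ ≤ ∑ o : Fin (r + 1), ((F.filter (fun a => |(a o : ℝ)| < ε1 * H)).card : ℝ) := by
        exact_mod_cast Finset.card_biUnion_le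
    _ ≤ ∑ o : Fin (r + 1), ε1 * 3 ^ (r + 1) * (H : ℝ) ^ (r + 1) := Finset.sum_le_sum (fun o _ => h1 o)
    _ = _ := by
        rw [Finset.sum_const, Finset.card_univ, Fintype.card_fin, nsmul_eq_mul]; push_cast; ring

/-- E2: some coordinate highly divisible by a small prime -/
theorem card_E2 (r H p0 M : ℕ) (hH : p0 ^ (M + 1) ≤ H) (hH1 : 1 ≤ H) (F : Finset (Fin (r + 1) → ℤ))
    (hF : ∀ a ∈ F, a ∈ boxA (r + 1) H ∧ ∃ p : ℕ, p.Prime ∧ p ≤ p0 ∧ ∃ o, (p : ℤ) ^ (M + 1) ∣ a o) :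
    (F.card : ℝ) ≤ (p0 + 1) * (r + 1) * (3 ^ (r + 1) / 2 ^ (M + 1)) * (H : ℝ) ^ (r + 1) := by
  classical
  have hHpos : (1 : ℝ) ≤ H := by exact_mod_cast hH1
  have hsub : F ⊆ (Finset.range (p0 + 1)).biUnion (fun p => Finset.univ.biUnion (fun o : Fin (r + 1) =>
      F.filter (fun a => p.Prime ∧ (p : ℤ) ^ (M + 1) ∣ a o))) := by
    intro a ha
    obtain ⟨p, hp, hpp, o, ho⟩ := (hF a ha).2
    rw [Finset.mem_biUnion]
    refine ⟨p, Finset.mem_range.mpr (by omega), ?_⟩
    rw [Finset.mem_biUnion]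
    exact ⟨o, Finset.mem_univ _, Finset.mem_filter.mpr ⟨ha, hp, ho⟩⟩
  have h1 : ∀ p ∈ Finset.range (p0 + 1), ∀ o : Fin (r + 1),
      ((F.filter (fun a => p.Prime ∧ (p : ℤ) ^ (M + 1) ∣ a o)).card : ℝ) ≤
      3 ^ (r + 1) / 2 ^ (M + 1) * (H : ℝ) ^ (r + 1) := by
    intro p hp o
    by_cases hpp : p.Prime
    · have hp2 := hpp.two_le
      have hpos : 0 < p ^ (M + 1) := pow_pos hpp.pos _
      have hpR : (2 : ℝ) ≤ p := by exact_mod_cast hp2
      have hpH : (p : ℝ) ^ (M + 1) ≤ H := by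
        have : p ^ (M + 1) ≤ H :=
          (Nat.pow_le_pow_left (by have := Finset.mem_range.mp hp; omega) _).trans hH
        exact_mod_cast this
      set T := (Finset.Icc (-(H : ℤ)) H).filter (fun t => (p : ℤ) ^ (M + 1) ∣ t) with hT
      have hTc : (T.card : ℝ) ≤ 2 * H / ((p ^ (M + 1) : ℕ) : ℝ) + 1 := by
        apply card_le_of_dvd_sub T (p ^ (M + 1)) hpos (2 * H) (by positivity)
        · intro x hx y hy
          rw [hT, Finset.mem_filter] at hx hy
          push_cast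
          exact dvd_sub hx.2 hy.2
        · intro x hx y hy
          rw [hT, Finset.mem_filter, Finset.mem_Icc] at hx hy
          have : x - y ≤ 2 * H := by linarith [hx.1.2, hy.1.1]
          exact_mod_cast this
      have h2 := card_coord_in r H o T (F.filter (fun a => p.Prime ∧ (p : ℤ) ^ (M + 1) ∣ a o)) (by
        intro a ha
        rw [Finset.mem_filter] at ha
        refine ⟨(hF a ha.1).1, ?_⟩
        rw [hT, Finset.mem_filter]
        refine ⟨?_, ha.2.2⟩
        have := (hF a ha.1).1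
        rw [boxA, Fintype.mem_piFinset] at this
        exact this o)
      refine h2.trans ?_
      push_cast at hTc
      calc (T.card : ℝ) * (2 * H + 1) ^ r ≤ (3 * H / 2 ^ (M + 1)) * (3 * H) ^ r := by
            apply mul_le_mul
            · have e1 : (1 : ℝ) ≤ H / (p : ℝ) ^ (M + 1) := by rw [le_div_iff₀ (by positivity)]; linarith
              have e2 : 2 * (H : ℝ) / (p : ℝ) ^ (M + 1) + 1 ≤ 3 * H / (p : ℝ) ^ (M + 1) := by
                have : 3 * (H : ℝ) / (p : ℝ) ^ (M + 1) = 2 * H / (p : ℝ) ^ (M + 1) + H / (p : ℝ) ^ (M + 1) := by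
                  ring
                rw [this]; linarith
              refine (hTc.trans e2).trans ?_
              gcongr
            · gcongr; linarith
            · positivity
            · positivity
        _ = _ := by rw [mul_pow]; ring
    · have : F.filter (fun a => p.Prime ∧ (p : ℤ) ^ (M + 1) ∣ a o) = ∅ := by
        apply Finset.filter_false_of_mem
        intro a _ h
        exact hpp h.1
      rw [this]; simp; positivity
  calc (F.card : ℝ) ≤ (((Finset.range (p0 + 1)).biUnion (fun p => Finset.univ.biUnion (fun o : Fin (r + 1) =>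
      F.filter (fun a => p.Prime ∧ (p : ℤ) ^ (M + 1) ∣ a o)))).card : ℝ) := by
        exact_mod_cast Finset.card_le_card hsub
    _ ≤ ∑ p ∈ Finset.range (p0 + 1), ((Finset.univ.biUnion (fun o : Fin (r + 1) =>
        F.filter (fun a => p.Prime ∧ (p : ℤ) ^ (M + 1) ∣ a o))).card : ℝ) := by
        exact_mod_cast Finset.card_biUnion_le
    _ ≤ ∑ p ∈ Finset.range (p0 + 1), ∑ o : Fin (r + 1),
        ((F.filter (fun a => p.Prime ∧ (p : ℤ) ^ (M + 1) ∣ a o)).card : ℝ) := by
        apply Finset.sum_le_sum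
        intro p _
        exact_mod_cast Finset.card_biUnion_le
    _ ≤ ∑ p ∈ Finset.range (p0 + 1), ∑ o : Fin (r + 1), 3 ^ (r + 1) / 2 ^ (M + 1) * (H : ℝ) ^ (r + 1) := by
        apply Finset.sum_le_sum
        intro p hp
        apply Finset.sum_le_sum
        intro o _
        exact h1 p hp o
    _ = _ := by
        rw [Finset.sum_const, Finset.sum_const, Finset.card_univ, Fintype.card_fin, Finset.card_range,
          nsmul_eq_mul, nsmul_eq_mul]; push_cast; ring

/-- E3: reduction modulo a large prime is bad -/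
theorem card_E3 (k r H p0 Gm : ℕ) (hk : 1 ≤ k) (hr : 7 ≤ r) (hp0 : 1 ≤ p0) (hH : Gm ≤ H) (hH1 : 1 ≤ H)
    (F : Finset (Fin (r + 1) → ℤ))
    (hF : ∀ a ∈ F, a ∈ boxA (r + 1) H ∧ ∃ p : ℕ, ∃ _ : Fact p.Prime, p0 < p ∧ p ≤ Gm ∧
      (fun o => ((a o : ℤ) : ZMod p)) ∈ BadP k r p) :
    (F.card : ℝ) ≤ ((k ^ r + r ^ 2 : ℕ) : ℝ) * 3 ^ (r + 1) / p0 * (H : ℝ) ^ (r + 1) := by
  classical
  have hHpos : (1 : ℝ) ≤ H := by exact_mod_cast hH1
  have hsub : F ⊆ (Finset.Ioc p0 Gm).biUnion (fun p =>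
      F.filter (fun a => ∃ _ : Fact p.Prime, (fun o => ((a o : ℤ) : ZMod p)) ∈ BadP k r p)) := by
    intro a ha
    obtain ⟨p, hp, h1, h2, h3⟩ := (hF a ha).2
    rw [Finset.mem_biUnion]
    exact ⟨p, Finset.mem_Ioc.mpr ⟨h1, h2⟩, Finset.mem_filter.mpr ⟨ha, hp, h3⟩⟩
  set C : ℝ := ((k ^ r + r ^ 2 : ℕ) : ℝ) * 3 ^ (r + 1) * (H : ℝ) ^ (r + 1) with hC
  have hC0 : 0 ≤ C := by positivity
  have h1 : ∀ p ∈ Finset.Ioc p0 Gm,
      ((F.filter (fun a => ∃ _ : Fact p.Prime, (fun o => ((a o : ℤ) : ZMod p)) ∈ BadP k r p)).card : ℝ) ≤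
      C * ((p : ℝ) ^ 2)⁻¹ := by
    intro p hp
    rw [Finset.mem_Ioc] at hp
    by_cases hpp : p.Prime
    · haveI : Fact p.Prime := ⟨hpp⟩
      have hpR : (0 : ℝ) < p := by exact_mod_cast hpp.pos
      have h2 := card_box_class (r + 1) H p hpp.pos (BadP k r p)
        (F.filter (fun a => ∃ _ : Fact p.Prime, (fun o => ((a o : ℤ) : ZMod p)) ∈ BadP k r p)) (by
          intro a ha
          rw [Finset.mem_filter] at ha
          exact ⟨(hF a ha.1).1, ha.2.2⟩)
      have h3 : ((BadP k r p).card : ℝ) ≤ ((k ^ r + r ^ 2 : ℕ) : ℝ) * (p : ℝ) ^ (r - 1) := by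
        exact_mod_cast card_BadP_le k r hk hr
      have hpH : (p : ℝ) ≤ H := by exact_mod_cast (hp.2.trans hH)
      have h4 : 2 * (H : ℝ) / p + 1 ≤ 3 * H / p := by
        have e1 : (1 : ℝ) ≤ H / p := by rw [le_div_iff₀ hpR]; linarith
        have : 3 * (H : ℝ) / p = 2 * H / p + H / p := by ring
        rw [this]; linarith
      calc _ ≤ ((BadP k r p).card : ℝ) * (2 * H / p + 1) ^ (r + 1) := h2
        _ ≤ (((k ^ r + r ^ 2 : ℕ) : ℝ) * (p : ℝ) ^ (r - 1)) * (3 * H / p) ^ (r + 1) := by gcongr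
        _ = C * ((p : ℝ) ^ 2)⁻¹ := by
            have e1 : (p : ℝ) ^ (r + 1) = (p : ℝ) ^ (r - 1) * p ^ 2 := by rw [← pow_add]; congr 1; omega
            rw [hC, div_pow, e1, mul_pow]
            field_simp
    · have : F.filter (fun a => ∃ _ : Fact p.Prime, (fun o => ((a o : ℤ) : ZMod p)) ∈ BadP k r p) = ∅ := by
        apply Finset.filter_false_of_mem
        rintro a _ ⟨h, _⟩
        exact hpp h.out
      rw [this]; simp; positivity
  have h2 : ∑ p ∈ Finset.Ioc p0 Gm, ((p : ℝ) ^ 2)⁻¹ ≤ 1 / p0 := by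
    rcases le_total p0 Gm with h | h
    · have := sum_Ioc_inv_sq_le_sub (α := ℝ) (k := p0) (n := Gm) (by omega) h
      refine this.trans ?_
      have : (0 : ℝ) ≤ (Gm : ℝ)⁻¹ := by positivity
      rw [one_div]; linarith
    · rw [Finset.Ioc_eq_empty (by omega)]; simp
  calc (F.card : ℝ) ≤ (((Finset.Ioc p0 Gm).biUnion (fun p =>
      F.filter (fun a => ∃ _ : Fact p.Prime, (fun o => ((a o : ℤ) : ZMod p)) ∈ BadP k r p))).card : ℝ) := by
        exact_mod_cast Finset.card_le_card hsub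
    _ ≤ ∑ p ∈ Finset.Ioc p0 Gm,
      ((F.filter (fun a => ∃ _ : Fact p.Prime, (fun o => ((a o : ℤ) : ZMod p)) ∈ BadP k r p)).card : ℝ) := by
        exact_mod_cast Finset.card_biUnion_le
    _ ≤ ∑ p ∈ Finset.Ioc p0 Gm, C * ((p : ℝ) ^ 2)⁻¹ := Finset.sum_le_sum h1
    _ = C * ∑ p ∈ Finset.Ioc p0 Gm, ((p : ℝ) ^ 2)⁻¹ := by rw [Finset.mul_sum]
    _ ≤ C * (1 / p0) := by gcongr
    _ = _ := by rw [hC]; ring

end Pool.Agent.H888.DH
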