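import Pool.Agent.H888.DH.Arith

set_option linter.unusedVariables false
set_option linter.unusedSectionVars false
set_option linter.style.haveILetI false

namespace Pool.Agent.H888.DH

open Finset

/-- `z` is within (less than) `J` of a multiple of `m`. -/
def near (m J : ℕ) (z : ℤ) : Prop := ∃ w : ℤ, |z - m * w| < J

theorem linCount (D : ℕ) [NeZero D] (α β : ℤ) (g : ℕ) (hg : g = Nat.gcd (Int.gcd α β) D)
    (c : ZMod D) (Sol : Finset (ZMod D × ZMod D))
    (hSol : ∀ z ∈ Sol, (α : ZMod D) * z.1 + (β : ZMod D) * z.2 = c) : Sol.card ≤ g * D := by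
  classical
  have hD : 0 < D := Nat.pos_of_ne_zero (NeZero.ne D)
  have hg0 : 0 < g := by rw [hg]; exact Nat.gcd_pos_of_pos_right _ hD
  obtain ⟨D', hD'⟩ : g ∣ D := by rw [hg]; exact Nat.gcd_dvd_right _ _
  have hD'0 : 0 < D' := by
    rcases Nat.eq_zero_or_pos D' with h | h
    · rw [h] at hD'; omega
    · exact h
  -- Bezout
  obtain ⟨u, v, huv⟩ : ∃ u v : ℤ, ((α : ZMod D)) * u + (β : ZMod D) * v = (g : ZMod D) := by
    have h1 : (g : ℤ) = (Int.gcd α β : ℤ) * (Nat.gcdA (Int.gcd α β) D) + D * (Nat.gcdB (Int.gcd α β) D) := by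
      rw [hg]; exact Nat.gcd_eq_gcd_ab _ _
    have h2 : (Int.gcd α β : ℤ) = α * Int.gcdA α β + β * Int.gcdB α β := Int.gcd_eq_gcd_ab α β
    refine ⟨Int.gcdA α β * Nat.gcdA (Int.gcd α β) D, Int.gcdB α β * Nat.gcdA (Int.gcd α β) D, ?_⟩
    have h3 : ((g : ℤ) : ZMod D) = (((Int.gcd α β : ℤ) * (Nat.gcdA (Int.gcd α β) D) + D * (Nat.gcdB (Int.gcd α β) D) : ℤ) : ZMod D) := by
      rw [h1]
    rw [h2] at h3
    push_cast at h3
    rw [ZMod.natCast_self] at h3
    rw [h3]
    push_cast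
    ring
  have hinj : (Sol ×ˢ (Finset.range D')).card ≤ (Finset.univ : Finset (ZMod D × ZMod D)).card := by
    apply Finset.card_le_card_of_injOn
      (fun w : (ZMod D × ZMod D) × ℕ => (w.1.1 + w.2 * u, w.1.2 + w.2 * v))
    · intro w _; simp
    · intro w hw w' hw' hww
      simp only [Finset.coe_product, Set.mem_prod, Finset.mem_coe, Finset.mem_range] at hw hw'
      simp only [Prod.mk.injEq] at hww
      have e1 := hSol w.1 hw.1
      have e2 := hSol w'.1 hw'.1
      have e3 : ((w.2 : ℕ) : ZMod D) * (g : ZMod D) = ((w'.2 : ℕ) : ZMod D) * (g : ZMod D) := by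
        have h1 : (α : ZMod D) * (w.1.1 + w.2 * u) + (β : ZMod D) * (w.1.2 + w.2 * v) =
            (α : ZMod D) * (w'.1.1 + w'.2 * u) + (β : ZMod D) * (w'.1.2 + w'.2 * v) := by
          rw [hww.1, hww.2]
        have h2 : (α : ZMod D) * (w.1.1 + w.2 * u) + (β : ZMod D) * (w.1.2 + w.2 * v) =
            c + w.2 * g := by
          rw [← e1, ← huv]; ring
        have h3 : (α : ZMod D) * (w'.1.1 + w'.2 * u) + (β : ZMod D) * (w'.1.2 + w'.2 * v) =
            c + w'.2 * g := by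
          rw [← e2, ← huv]; ring
        rw [h2, h3] at h1
        exact add_left_cancel h1
      have e4 : w.2 = w'.2 := by
        have h1 : (((w.2 * g : ℕ)) : ZMod D) = ((w'.2 * g : ℕ) : ZMod D) := by
          push_cast; exact e3
        rw [ZMod.natCast_eq_natCast_iff] at h1
        have h2 : w.2 * g < D := by
          calc w.2 * g < D' * g := Nat.mul_lt_mul_of_pos_right hw.2 hg0
            _ = D := by rw [mul_comm]; exact hD'.symm
        have h3 : w'.2 * g < D := by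
          calc w'.2 * g < D' * g := Nat.mul_lt_mul_of_pos_right hw'.2 hg0
            _ = D := by rw [mul_comm]; exact hD'.symm
        have h4 := Nat.ModEq.eq_of_lt_of_lt h1 h2 h3
        exact Nat.eq_of_mul_eq_mul_right hg0 h4
      rw [e4] at hww
      have e5 : w.1 = w'.1 := Prod.ext (add_right_cancel hww.1) (add_right_cancel hww.2)
      exact Prod.ext e5 e4
  rw [Finset.card_product, Finset.card_range, Finset.card_univ, Fintype.card_prod, ZMod.card] at hinj
  have : Sol.card * D' ≤ (g * D) * D' := by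
    calc Sol.card * D' ≤ D * D := hinj
      _ = g * D' * D := by rw [← hD']
      _ = _ := by ring
  exact Nat.le_of_mul_le_mul_right this hD'0

/-- Counting pairs `(ρ, ρ')` in a box in a coset. -/
theorem pairCount (D : ℕ) [NeZero D] (α β : ℤ) (g : ℕ) (hg : g = Nat.gcd (Int.gcd α β) D)
    (c : ℤ) (J : ℕ) (hDJ : D ≤ J) (P : Finset (ℤ × ℤ))
    (hP : ∀ z ∈ P, |z.1| < J ∧ |z.2| < J ∧ (D : ℤ) ∣ α * z.1 + β * z.2 - c) :
    (P.card : ℝ) ≤ 9 * g * J ^ 2 / D := by
  classical
  have hD : 0 < D := Nat.pos_of_ne_zero (NeZero.ne D)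
  have hD' : (0 : ℝ) < D := by exact_mod_cast hD
  have hJ' : (D : ℝ) ≤ J := by exact_mod_cast hDJ
  set f : ℤ × ℤ → ZMod D × ZMod D := fun z => (z.1, z.2) with hf
  set Sol := P.image f with hSol
  have h1 : Sol.card ≤ g * D := by
    apply linCount D α β g hg (c : ZMod D)
    intro z hz
    rw [hSol, Finset.mem_image] at hz
    obtain ⟨w, hw, rfl⟩ := hz
    have h2 := (ZMod.intCast_zmod_eq_zero_iff_dvd _ D).mpr (hP w hw).2.2
    push_cast at h2
    exact sub_eq_zero.mp h2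
  have h2 : (P.card : ℝ) = ∑ t ∈ Sol, ((P.filter (fun z => f z = t)).card : ℝ) := by
    rw [Finset.card_eq_sum_card_image f P]
    push_cast
    rfl
  have h3 : ∀ t ∈ Sol, ((P.filter (fun z => f z = t)).card : ℝ) ≤ (3 * J / D) ^ 2 := by
    intro t _
    set Q := P.filter (fun z => f z = t) with hQ
    have hsub : Q ⊆ (Q.image Prod.fst) ×ˢ (Q.image Prod.snd) := by
      intro z hz
      rw [Finset.mem_product]
      exact ⟨Finset.mem_image_of_mem _ hz, Finset.mem_image_of_mem _ hz⟩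
    have h4 : ((Q.image Prod.fst).card : ℝ) ≤ 2 * J / D + 1 := by
      apply card_le_of_dvd_sub _ D hD (2 * J) (by positivity)
      · intro x hx y hy
        rw [Finset.mem_image] at hx hy
        obtain ⟨z, hz, rfl⟩ := hx
        obtain ⟨w, hw, rfl⟩ := hy
        rw [hQ, Finset.mem_filter] at hz hw
        rw [← ZMod.intCast_zmod_eq_zero_iff_dvd]
        have e1 := congrArg Prod.fst hz.2
        have e2 := congrArg Prod.fst hw.2
        push_cast
        rw [sub_eq_zero]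
        exact e1.trans e2.symm
      · intro x hx y hy
        rw [Finset.mem_image] at hx hy
        obtain ⟨z, hz, rfl⟩ := hx
        obtain ⟨w, hw, rfl⟩ := hy
        rw [hQ, Finset.mem_filter] at hz hw
        have e1 := abs_lt.mp (hP z hz.1).1
        have e2 := abs_lt.mp (hP w hw.1).1
        have : z.1 - w.1 ≤ 2 * J := by linarith [e1.2, e2.1]
        exact_mod_cast this
    have h5 : ((Q.image Prod.snd).card : ℝ) ≤ 2 * J / D + 1 := by
      apply card_le_of_dvd_sub _ D hD (2 * J) (by positivity)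
      · intro x hx y hy
        rw [Finset.mem_image] at hx hy
        obtain ⟨z, hz, rfl⟩ := hx
        obtain ⟨w, hw, rfl⟩ := hy
        rw [hQ, Finset.mem_filter] at hz hw
        rw [← ZMod.intCast_zmod_eq_zero_iff_dvd]
        have e1 := congrArg Prod.snd hz.2
        have e2 := congrArg Prod.snd hw.2
        push_cast
        rw [sub_eq_zero]
        exact e1.trans e2.symm
      · intro x hx y hy
        rw [Finset.mem_image] at hx hy
        obtain ⟨z, hz, rfl⟩ := hx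
        obtain ⟨w, hw, rfl⟩ := hy
        rw [hQ, Finset.mem_filter] at hz hw
        have e1 := abs_lt.mp (hP z hz.1).2.1
        have e2 := abs_lt.mp (hP w hw.1).2.1
        have : z.2 - w.2 ≤ 2 * J := by linarith [e1.2, e2.1]
        exact_mod_cast this
    have h6 : (2 * J / D + 1 : ℝ) ≤ 3 * J / D := by
      have : (1 : ℝ) ≤ J / D := by rw [le_div_iff₀ hD']; linarith
      have e : (3 * J / D : ℝ) = 2 * J / D + J / D := by ring
      rw [e]; linarith
    calc (Q.card : ℝ) ≤ (((Q.image Prod.fst) ×ˢ (Q.image Prod.snd)).card : ℝ) := by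
          exact_mod_cast Finset.card_le_card hsub
      _ = ((Q.image Prod.fst).card : ℝ) * ((Q.image Prod.snd).card : ℝ) := by
          rw [Finset.card_product]; push_cast; ring
      _ ≤ (3 * J / D) * (3 * J / D) := by
          apply mul_le_mul (h4.trans h6) (h5.trans h6) (by positivity) (by positivity)
      _ = _ := by ring
  rw [h2]
  calc _ ≤ ∑ t ∈ Sol, ((3 * J / D : ℝ)) ^ 2 := Finset.sum_le_sum h3
    _ = Sol.card * (3 * J / D) ^ 2 := by rw [Finset.sum_const, nsmul_eq_mul]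
    _ ≤ (g * D) * (3 * J / D) ^ 2 := by
        apply mul_le_mul_of_nonneg_right _ (by positivity)
        exact_mod_cast h1
    _ = _ := by field_simp; ring

/-- number of nonzero multiples of `g` of absolute value at most `Z`. -/
theorem count_multiples (g : ℕ) (hg : 0 < g) (Z : ℝ) (hZ : 0 ≤ Z) (H : Finset ℤ)
    (hH : ∀ h ∈ H, h ≠ 0 ∧ (g : ℤ) ∣ h ∧ |(h : ℝ)| ≤ Z) : (H.card : ℝ) ≤ 2 * Z / g := by
  classical
  have hg' : (0 : ℝ) < g := by exact_mod_cast hg
  set N := ⌊Z / g⌋₊ with hN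
  have h1 : H.card ≤ ((Finset.Icc (-(N : ℤ)) N).erase 0).card := by
    apply Finset.card_le_card_of_injOn (fun h => h / (g : ℤ))
    · intro h hh
      obtain ⟨h0, ⟨t, ht⟩, hZ'⟩ := hH h hh
      have hgz : (g : ℤ) ≠ 0 := by exact_mod_cast hg.ne'
      have e : h / (g : ℤ) = t := by rw [ht, Int.mul_ediv_cancel_left _ hgz]
      simp only [Finset.coe_erase, Finset.coe_Icc, Set.mem_sdiff, Set.mem_Icc, Set.mem_singleton_iff]
      rw [e]
      have ht0 : t ≠ 0 := by rintro rfl; rw [mul_zero] at ht; exact h0 ht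
      have h2 : |(t : ℝ)| ≤ Z / g := by
        rw [le_div_iff₀ hg']
        rw [ht] at hZ'
        push_cast at hZ'
        rw [abs_mul, abs_of_pos hg'] at hZ'
        linarith
      have h3 : t.natAbs ≤ N := by
        rw [hN, Nat.le_floor_iff (by positivity)]
        calc ((t.natAbs : ℕ) : ℝ) = |(t : ℝ)| := by
              rw [Nat.cast_natAbs]; push_cast; rfl
          _ ≤ Z / g := h2
      exact ⟨⟨by omega, by omega⟩, ht0⟩
    · intro h hh h' hh' hhh
      obtain ⟨_, ⟨t, ht⟩, _⟩ := hH h hh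
      obtain ⟨_, ⟨t', ht'⟩, _⟩ := hH h' hh'
      have hgz : (g : ℤ) ≠ 0 := by exact_mod_cast hg.ne'
      have e : h / (g : ℤ) = t := by rw [ht, Int.mul_ediv_cancel_left _ hgz]
      have e' : h' / (g : ℤ) = t' := by rw [ht', Int.mul_ediv_cancel_left _ hgz]
      have : h / (g : ℤ) = h' / (g : ℤ) := hhh
      rw [e, e'] at this
      rw [ht, ht', this]
  have h2 : ((Finset.Icc (-(N : ℤ)) N).erase 0).card = 2 * N := by
    rw [Finset.card_erase_of_mem (by simp), Int.card_Icc]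
    omega
  rw [h2] at h1
  have h3 : (N : ℝ) ≤ Z / g := Nat.floor_le (by positivity)
  calc (H.card : ℝ) ≤ ((2 * N : ℕ) : ℝ) := by exact_mod_cast h1
    _ = 2 * N := by push_cast; ring
    _ ≤ 2 * (Z / g) := by linarith
    _ = 2 * Z / g := by ring

/-- The triple lemma, version where the third minor is the largest. -/
theorem tripleMax (m J : ℕ) (hm : m.Prime) (Xa Xb Xc Ya Yb Yc : ℤ)
    (h1 : |Xb * Yc - Xc * Yb| ≤ |Xa * Yb - Xb * Ya|)
    (h2 : |Xa * Yc - Xc * Ya| ≤ |Xa * Yb - Xb * Ya|)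
    (h3 : |Xa * Yb - Xb * Ya| ≤ J) (h4 : |Xa * Yb - Xb * Ya| < m)
    (S : Finset (ℤ × ℤ)) (hS0 : ∀ z ∈ S, 0 ≤ z.1 ∧ z.1 < m ∧ 0 ≤ z.2 ∧ z.2 < m)
    (hS : ∀ z ∈ S, ∃ wa wb wc : ℤ, |z.1 * Xa - z.2 * Ya - m * wa| < J ∧
      |z.1 * Xb - z.2 * Yb - m * wb| < J ∧ |z.1 * Xc - z.2 * Yc - m * wc| < J ∧
      wa * (Xb * Yc - Xc * Yb) - wb * (Xa * Yc - Xc * Ya) + wc * (Xa * Yb - Xb * Ya) ≠ 0) :
    (S.card : ℝ) ≤ 54 * J ^ 3 / m := by
  classical
  set D1 := Xb * Yc - Xc * Yb with hD1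
  set D2 := Xa * Yc - Xc * Ya with hD2
  set D3 := Xa * Yb - Xb * Ya with hD3
  have hm0 : (0 : ℝ) < m := by exact_mod_cast hm.pos
  rcases S.eq_empty_or_nonempty with rfl | hne
  · simp; positivity
  -- D3 ≠ 0
  have hD30 : D3 ≠ 0 := by
    obtain ⟨z, hz⟩ := hne
    obtain ⟨wa, wb, wc, _, _, _, h⟩ := hS z hz
    intro h0
    rw [h0, abs_zero] at h1 h2
    have e1 : D1 = 0 := abs_nonpos_iff.mp h1
    have e2 : D2 = 0 := abs_nonpos_iff.mp h2
    apply h
    rw [e1, e2, h0]; ring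
  set D := D3.natAbs with hD
  have hDpos : 0 < D := Int.natAbs_pos.mpr hD30
  haveI : NeZero D := ⟨hDpos.ne'⟩
  have hDabs : (D : ℤ) = |D3| := by rw [hD, Int.natCast_natAbs]
  have hDJ : D ≤ J := by
    have : (D : ℤ) ≤ J := by rw [hDabs]; exact h3
    exact_mod_cast this
  have hDm : D < m := by
    have : (D : ℤ) < m := by rw [hDabs]; exact h4
    exact_mod_cast this
  set g : ℕ := Nat.gcd (Int.gcd D1 (-D2)) D with hg
  have hg0 : 0 < g := Nat.gcd_pos_of_pos_right _ hDpos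
  -- choose the data
  choose! wa wb wc hwa hwb hwc hΔ using hS
  set ρa : ℤ × ℤ → ℤ := fun z => z.1 * Xa - z.2 * Ya - m * wa z with hρa
  set ρb : ℤ × ℤ → ℤ := fun z => z.1 * Xb - z.2 * Yb - m * wb z with hρb
  set ρc : ℤ × ℤ → ℤ := fun z => z.1 * Xc - z.2 * Yc - m * wc z with hρc
  set hh : ℤ × ℤ → ℤ := fun z => wa z * D1 - wb z * D2 + wc z * D3 with hhh
  have hid : ∀ z, ρa z * D1 - ρb z * D2 + ρc z * D3 = - (m * hh z) := by
    intro z
    simp only [hρa, hρb, hρc, hhh, hD1, hD2, hD3]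
    ring
  have hgD1 : (g : ℤ) ∣ D1 := by
    have e1 : (g : ℤ) ∣ (Int.gcd D1 (-D2) : ℤ) := by exact_mod_cast Nat.gcd_dvd_left _ _
    exact e1.trans (Int.gcd_dvd_left _ _)
  have hgD2 : (g : ℤ) ∣ D2 := by
    have e1 : (g : ℤ) ∣ (Int.gcd D1 (-D2) : ℤ) := by exact_mod_cast Nat.gcd_dvd_left _ _
    exact (Int.dvd_neg).mp (e1.trans (Int.gcd_dvd_right _ _))
  have hgD3 : (g : ℤ) ∣ D3 := by
    have e1 : (g : ℤ) ∣ (D : ℤ) := by exact_mod_cast Nat.gcd_dvd_right _ _
    rw [hDabs] at e1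
    exact (dvd_abs _ _).mp e1
  have hDD3 : (D : ℤ) ∣ D3 := by rw [hDabs]; exact abs_dvd_self D3
  set H := S.image hh with hH
  -- the number of h
  have hHcard : (H.card : ℝ) ≤ 2 * (3 * J * D / m) / g := by
    apply count_multiples g hg0 (3 * J * D / m) (by positivity)
    intro h hh'
    rw [hH, Finset.mem_image] at hh'
    obtain ⟨z, hz, rfl⟩ := hh'
    refine ⟨hΔ z hz, ?_, ?_⟩
    · exact dvd_add (dvd_sub (hgD1.mul_left _) (hgD2.mul_left _)) (hgD3.mul_left _)
    · rw [le_div_iff₀ hm0]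
      have e1 : |(m : ℤ) * hh z| ≤ 3 * J * D := by
        rw [← abs_neg, ← hid z]
        have a1 : |ρa z * D1| ≤ J * D := by
          rw [abs_mul, hDabs]
          exact mul_le_mul (hwa z hz).le h1 (abs_nonneg _) (by positivity)
        have a2 : |ρb z * D2| ≤ J * D := by
          rw [abs_mul, hDabs]
          exact mul_le_mul (hwb z hz).le h2 (abs_nonneg _) (by positivity)
        have a3 : |ρc z * D3| ≤ J * D := by
          rw [abs_mul, hDabs]
          exact mul_le_mul (hwc z hz).le le_rfl (abs_nonneg _) (by positivity)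
        calc |ρa z * D1 - ρb z * D2 + ρc z * D3| ≤ |ρa z * D1 - ρb z * D2| + |ρc z * D3| :=
              abs_add_le _ _
          _ ≤ |ρa z * D1| + |ρb z * D2| + |ρc z * D3| := by
              have := abs_sub (ρa z * D1) (ρb z * D2)
              linarith
          _ ≤ 3 * J * D := by linarith
      have e2 : |((m * hh z : ℤ) : ℝ)| ≤ ((3 * J * D : ℤ) : ℝ) := by exact_mod_cast e1
      push_cast at e2
      rw [abs_mul, abs_of_pos hm0] at e2
      linarith
  -- fibres
  have hfib : ∀ h ∈ H, ((S.filter (fun z => hh z = h)).card : ℝ) ≤ 9 * g * J ^ 2 / D := by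
    intro h _
    have hinj : (S.filter (fun z => hh z = h)).card =
        ((S.filter (fun z => hh z = h)).image (fun z => (ρa z, ρb z))).card := by
      rw [Finset.card_image_of_injOn]
      intro z hz z' hz' hzz
      have hzS := (Finset.mem_filter.mp hz).1
      have hzS' := (Finset.mem_filter.mp hz').1
      simp only [Prod.mk.injEq] at hzz
      obtain ⟨za, zb⟩ := hzz
      simp only [hρa, hρb] at za zb
      -- (z.1 - z'.1) * D3 ≡ 0 mod m
      have e1 : (z.1 - z'.1) * D3 = m * ((wa z - wa z') * Yb - (wb z - wb z') * Ya) := by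
        rw [hD3]; linear_combination Yb * za - Ya * zb
      have e2 : (z.2 - z'.2) * D3 = m * ((wa z - wa z') * Xb - (wb z - wb z') * Xa) := by
        rw [hD3]; linear_combination Xb * za - Xa * zb
      have hcop : IsCoprime (m : ℤ) D3 := by
        rw [Int.isCoprime_iff_gcd_eq_one]
        have : Nat.Coprime m D := (Nat.Prime.coprime_iff_not_dvd hm).mpr
          (fun hd => absurd (Nat.le_of_dvd hDpos hd) (by omega))
        exact this
      have e3 : (m : ℤ) ∣ z.1 - z'.1 := hcop.dvd_of_dvd_mul_right ⟨_, e1⟩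
      have e4 : (m : ℤ) ∣ z.2 - z'.2 := hcop.dvd_of_dvd_mul_right ⟨_, e2⟩
      obtain ⟨b1, b2, b3, b4⟩ := hS0 z hzS
      obtain ⟨c1, c2, c3, c4⟩ := hS0 z' hzS'
      have e5 : z.1 - z'.1 = 0 := Int.eq_zero_of_abs_lt_dvd e3 (by rw [abs_lt]; constructor <;> linarith)
      have e6 : z.2 - z'.2 = 0 := Int.eq_zero_of_abs_lt_dvd e4 (by rw [abs_lt]; constructor <;> linarith)
      exact Prod.ext (by linarith) (by linarith)
    rw [hinj]
    apply pairCount D D1 (-D2) g hg (-(m * h)) J hDJ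
    intro w hw
    rw [Finset.mem_image] at hw
    obtain ⟨z, hz, rfl⟩ := hw
    rw [Finset.mem_filter] at hz
    refine ⟨hwa z hz.1, hwb z hz.1, ?_⟩
    have e := hid z
    rw [hz.2] at e
    have e' : D1 * ρa z + -D2 * ρb z - -(m * h) = - (ρc z * D3) := by linear_combination e
    show (D : ℤ) ∣ D1 * ρa z + -D2 * ρb z - -(m * h)
    rw [e']
    exact (Dvd.dvd.mul_left hDD3 _).neg_right
  have hsum : (S.card : ℝ) = ∑ h ∈ H, ((S.filter (fun z => hh z = h)).card : ℝ) := by
    rw [Finset.card_eq_sum_card_image hh S]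
    push_cast
    rfl
  have hD' : (0 : ℝ) < D := by exact_mod_cast hDpos
  have hg' : (0 : ℝ) < g := by exact_mod_cast hg0
  rw [hsum]
  calc _ ≤ ∑ h ∈ H, (9 * g * J ^ 2 / D : ℝ) := Finset.sum_le_sum hfib
    _ = H.card * (9 * g * J ^ 2 / D) := by rw [Finset.sum_const, nsmul_eq_mul]
    _ ≤ (2 * (3 * J * D / m) / g) * (9 * g * J ^ 2 / D) := by
        apply mul_le_mul_of_nonneg_right hHcard (by positivity)
    _ = 54 * J ^ 3 / m := by field_simp; ring

/-- The triple lemma. -/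
theorem triple (m J : ℕ) (hm : m.Prime) (Xa Xb Xc Ya Yb Yc : ℤ) (M : ℤ)
    (h1 : |Xb * Yc - Xc * Yb| ≤ M) (h2 : |Xa * Yc - Xc * Ya| ≤ M) (h3 : |Xa * Yb - Xb * Ya| ≤ M)
    (hMJ : M ≤ J) (hMm : M < m)
    (S : Finset (ℤ × ℤ)) (hS0 : ∀ z ∈ S, 0 ≤ z.1 ∧ z.1 < m ∧ 0 ≤ z.2 ∧ z.2 < m)
    (hS : ∀ z ∈ S, ∃ wa wb wc : ℤ, |z.1 * Xa - z.2 * Ya - m * wa| < J ∧
      |z.1 * Xb - z.2 * Yb - m * wb| < J ∧ |z.1 * Xc - z.2 * Yc - m * wc| < J ∧
      wa * (Xb * Yc - Xc * Yb) - wb * (Xa * Yc - Xc * Ya) + wc * (Xa * Yb - Xb * Ya) ≠ 0) :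
    (S.card : ℝ) ≤ 54 * J ^ 3 / m := by
  rcases le_total |Xb * Yc - Xc * Yb| |Xa * Yb - Xb * Ya| with ha | ha
  · rcases le_total |Xa * Yc - Xc * Ya| |Xa * Yb - Xb * Ya| with hb | hb
    · exact tripleMax m J hm Xa Xb Xc Ya Yb Yc ha hb (h3.trans hMJ) (h3.trans_lt hMm) S hS0 hS
    · -- D2 max: order (a, c, b)
      apply tripleMax m J hm Xa Xc Xb Ya Yc Yb _ hb (h2.trans hMJ) (h2.trans_lt hMm) S hS0
      · intro z hz
        obtain ⟨wa, wb, wc, e1, e2, e3, e4⟩ := hS z hz
        refine ⟨wa, wc, wb, e1, e3, e2, ?_⟩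
        intro h
        apply e4
        linear_combination -h
      · rw [abs_sub_comm]; exact ha.trans hb
  · rcases le_total |Xa * Yc - Xc * Ya| |Xb * Yc - Xc * Yb| with hb | hb
    · -- D1 max: order (b, c, a)
      apply tripleMax m J hm Xb Xc Xa Yb Yc Ya _ _ (h1.trans hMJ) (h1.trans_lt hMm) S hS0
      · intro z hz
        obtain ⟨wa, wb, wc, e1, e2, e3, e4⟩ := hS z hz
        refine ⟨wb, wc, wa, e2, e3, e1, ?_⟩
        intro h
        apply e4
        linear_combination h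
      · rw [abs_sub_comm]; exact hb
      · rw [abs_sub_comm]; exact ha
    · apply tripleMax m J hm Xa Xc Xb Ya Yc Yb _ (ha.trans hb) (h2.trans hMJ) (h2.trans_lt hMm) S hS0
      · intro z hz
        obtain ⟨wa, wb, wc, e1, e2, e3, e4⟩ := hS z hz
        refine ⟨wa, wc, wb, e1, e3, e2, ?_⟩
        intro h
        apply e4
        linear_combination -h
      · rw [abs_sub_comm]; exact hb

end Pool.Agent.H888.DH
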