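import Pool.Agent.H888.DH.Compl
import Pool.Agent.H888.DH.Triple

set_option linter.unusedVariables false
set_option linter.unusedSectionVars false
set_option linter.style.haveILetI false

namespace Pool.Agent.H888.DH

open Finset

theorem card_le_mul_real {α β : Type*} [DecidableEq β] (S : Finset α) (T : Finset β)
    (f : α → β) (hf : ∀ x ∈ S, f x ∈ T) (b : ℝ)
    (hb : ∀ t ∈ T, ((S.filter (fun x => f x = t)).card : ℝ) ≤ b) : (S.card : ℝ) ≤ T.card * b := by
  rw [Finset.card_eq_sum_card_fiberwise hf]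
  push_cast
  calc _ ≤ ∑ t ∈ T, b := Finset.sum_le_sum hb
    _ = T.card * b := by rw [Finset.sum_const, nsmul_eq_mul]

theorem near_neg {m J : ℕ} {z : ℤ} (h : near m J z) : near m J (-z) := by
  obtain ⟨w, hw⟩ := h
  exact ⟨-w, by rw [show -z - m * -w = -(z - m * w) by ring, abs_neg]; exact hw⟩

theorem near_sub {m J : ℕ} {z z' : ℤ} (h : near m J z) (h' : near m J z') :
    near m (2 * J) (z - z') := by
  obtain ⟨w, hw⟩ := h
  obtain ⟨w', hw'⟩ := h'
  refine ⟨w - w', ?_⟩
  have e : z - z' - m * (w - w') = (z - m * w) - (z' - m * w') := by ring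
  rw [e]
  calc |(z - m * w) - (z' - m * w')| ≤ |z - m * w| + |z' - m * w'| := abs_sub _ _
    _ < J + J := add_lt_add hw hw'
    _ = ((2 * J : ℕ) : ℤ) := by push_cast; ring

/-- `j` has no small multiple close to `0` mod `m`. -/
def bad (m J A B k : ℕ) (j : ℤ) : Prop :=
  ∀ h : ℕ, 1 ≤ h → h * B ^ k ≤ A → ¬ near m (2 * J) (j * h)

theorem qlemma (m J A B k : ℕ) (hm : 0 < m) (hJ : 0 < J) (hB : 1 ≤ B) (hk : 1 ≤ k)
    (h4 : 4 * J * B ^ k ≤ m) (hA : A ≤ B * B ^ k) (j : ℤ) (hbad : bad m J A B k j) :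
    ∃ q : ℕ, 1 ≤ q ∧ q ≤ B ^ k ∧ A ≤ q * B ^ k ∧
      ∀ H : ℤ, |H| ≤ (B : ℤ) ^ k → near m (2 * J) (j * H) → (q : ℤ) ∣ H := by
  classical
  have hex : ∃ h : ℕ, 1 ≤ h ∧ near m (2 * J) (j * h) := by
    refine ⟨m, hm, j, ?_⟩
    rw [show j * (m : ℤ) - m * j = 0 by ring, abs_zero]
    push_cast
    have : (0 : ℤ) < J := by exact_mod_cast hJ
    linarith
  obtain ⟨hq1, hqn⟩ := Nat.find_spec hex
  have hmin : ∀ h : ℕ, 1 ≤ h → near m (2 * J) (j * h) → Nat.find hex ≤ h := fun h h1 h2 =>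
    Nat.find_min' hex ⟨h1, h2⟩
  set q := Nat.find hex with hq
  by_cases hqB : q ≤ B ^ k
  · refine ⟨q, hq1, hqB, ?_, ?_⟩
    · by_contra hcon
      push Not at hcon
      exact hbad q hq1 hcon.le hqn
    · intro H hH hn
      obtain ⟨w0, hw0⟩ := hqn
      obtain ⟨w, hw⟩ := hn
      have hqpos : (0 : ℤ) < q := by exact_mod_cast hq1
      have hBk : (0 : ℤ) < (B : ℤ) ^ k := by positivity
      have key : w0 * H = w * q := by
        have e1 : (m : ℤ) * (w0 * H - w * q) =
            (j * H - m * w) * q - (j * q - m * w0) * H := by ring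
        have e2 : |(m : ℤ) * (w0 * H - w * q)| < m := by
          rw [e1]
          calc |(j * H - m * w) * q - (j * q - m * w0) * H|
              ≤ |(j * H - m * w) * q| + |(j * q - m * w0) * H| := abs_sub _ _
            _ = |j * H - m * w| * q + |j * q - m * w0| * |H| := by
                rw [abs_mul, abs_mul, abs_of_pos hqpos]
            _ < (2 * J : ℕ) * (B : ℤ) ^ k + (2 * J : ℕ) * (B : ℤ) ^ k := by
                have a1 : |j * H - m * w| * q < (2 * J : ℕ) * (B : ℤ) ^ k := by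
                  calc |j * H - m * w| * q < (2 * J : ℕ) * (q : ℤ) :=
                        mul_lt_mul_of_pos_right hw hqpos
                    _ ≤ _ := by
                        apply mul_le_mul_of_nonneg_left _ (by positivity)
                        exact_mod_cast hqB
                have a2 : |j * q - m * w0| * |H| ≤ (2 * J : ℕ) * (B : ℤ) ^ k :=
                  mul_le_mul hw0.le hH (abs_nonneg _) (by positivity)
                linarith
            _ = ((4 * J * B ^ k : ℕ) : ℤ) := by push_cast; ring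
            _ ≤ m := by exact_mod_cast h4
        have e3 : (w0 * H - w * q : ℤ) = 0 := by
          have hm' : (0 : ℤ) < m := by exact_mod_cast hm
          rw [abs_mul, abs_of_pos hm'] at e2
          have : |w0 * H - w * q| < 1 :=
            lt_of_mul_lt_mul_left (by rw [mul_one]; exact e2) hm'.le
          exact Int.abs_lt_one_iff.mp this
        linarith
      -- reduce
      set d := Int.gcd w0 q with hd
      have hd0 : 0 < d := Int.gcd_pos_of_ne_zero_right _ hqpos.ne'
      obtain ⟨w1, hw1⟩ : (d : ℤ) ∣ w0 := Int.gcd_dvd_left _ _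
      obtain ⟨q1, hq1'⟩ : (d : ℤ) ∣ q := Int.gcd_dvd_right _ _
      have hd' : (0 : ℤ) < d := by exact_mod_cast hd0
      have hq1pos : 0 < q1 := by
        by_contra hcon
        push Not at hcon
        nlinarith
      have hcop : IsCoprime q1 w1 := by
        rw [Int.isCoprime_iff_gcd_eq_one, Int.gcd_comm]
        have e := Int.gcd_div_gcd_div_gcd (i := w0) (j := q) hd0
        rw [← hd] at e
        rwa [hw1, hq1', Int.mul_ediv_cancel_left _ hd'.ne', Int.mul_ediv_cancel_left _ hd'.ne'] at e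
      have hq1near : near m (2 * J) (j * q1) := by
        refine ⟨w1, ?_⟩
        have e : (d : ℤ) * (j * q1 - m * w1) = j * q - m * w0 := by
          rw [hq1', hw1]; ring
        have e' : |(d : ℤ) * (j * q1 - m * w1)| < (2 * J : ℕ) := by rw [e]; exact hw0
        rw [abs_mul, abs_of_pos hd'] at e'
        have hd1 : (1 : ℤ) ≤ d := hd'
        nlinarith [abs_nonneg (j * q1 - m * w1)]
      have hle : (q : ℤ) ≤ q1 := by
        have h1 := hmin q1.toNat (by omega) (by
          rw [Int.toNat_of_nonneg hq1pos.le]; exact hq1near)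
        omega
      have hd1 : (d : ℤ) = 1 := by nlinarith
      rw [hd1, one_mul] at hq1' hw1
      rw [hq1']
      apply hcop.dvd_of_dvd_mul_left
      rw [hw1, hq1'] at key
      exact ⟨w, by rw [key]; ring⟩
  · refine ⟨B, hB, ?_, hA, ?_⟩
    · calc B = B ^ 1 := (pow_one B).symm
        _ ≤ B ^ k := Nat.pow_le_pow_right hB hk
    · intro H hH hn
      rcases eq_or_ne H 0 with rfl | hH0
      · exact dvd_zero _
      · exfalso
        apply hqB
        have h1 : near m (2 * J) (j * (H.natAbs : ℕ)) := by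
          rcases Int.natAbs_eq H with h | h
          · rw [← h]; exact hn
          · have : ((H.natAbs : ℕ) : ℤ) = -H := by omega
            rw [this, mul_neg]
            exact near_neg hn
        have h2 := hmin H.natAbs (Int.natAbs_pos.mpr hH0) h1
        have h3 : (H.natAbs : ℤ) ≤ (B : ℤ) ^ k := by rw [Int.natCast_natAbs]; exact hH
        have h4 : H.natAbs ≤ B ^ k := by exact_mod_cast h3
        exact h2.trans h4

/-- If neither is bad, near points have rank `≤ 2`. -/
theorem not_bad_rank (m J A B k : ℕ) (hm : 0 < m) (hJ : 0 < J) (hA : 1 ≤ A) (hB : 1 ≤ B)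
    (h8 : 8 * A * J ≤ m) (hA2 : A ≤ B ^ (2 * k)) (i j : ℤ)
    (hi : ¬ bad m J A B k i) (hj : ¬ bad m J A B k j) :
    ∃ h h' a b : ℤ, 1 ≤ h ∧ 1 ≤ h' ∧ ∀ X Y w : ℤ, |X| ≤ (B : ℤ) ^ k → |Y| ≤ (B : ℤ) ^ k →
      |i * X - j * Y - m * w| < J → h * h' * w = h * a * X - h' * b * Y := by
  unfold bad at hi hj
  push Not at hi hj
  obtain ⟨h', hh'1, hh'A, a, ha⟩ := hi
  obtain ⟨h, hh1, hhA, b, hb⟩ := hj
  refine ⟨h, h', a, b, by exact_mod_cast hh1, by exact_mod_cast hh'1, ?_⟩
  intro X Y w hX hY hw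
  have hBk : (0 : ℤ) < (B : ℤ) ^ k := by positivity
  have hBk1 : (1 : ℤ) ≤ (B : ℤ) ^ k := hBk
  have hh0 : (0 : ℤ) < h := by exact_mod_cast hh1
  have hh0' : (0 : ℤ) < h' := by exact_mod_cast hh'1
  have hJ' : (0 : ℤ) < J := by exact_mod_cast hJ
  have e1 : (m : ℤ) * (h * h' * w - (h * a * X - h' * b * Y)) =
      (h * (i * h' - m * a) * X - h' * (j * h - m * b) * Y) - h * h' * (i * X - j * Y - m * w) := by
    ring
  have b1 : |(h : ℤ) * (i * h' - m * a) * X| ≤ h * (2 * J) * (B : ℤ) ^ k := by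
    rw [abs_mul, abs_mul, abs_of_pos hh0]
    apply mul_le_mul _ hX (abs_nonneg _) (by positivity)
    apply mul_le_mul_of_nonneg_left _ hh0.le
    push_cast at ha
    exact ha.le
  have b2 : |(h' : ℤ) * (j * h - m * b) * Y| ≤ h' * (2 * J) * (B : ℤ) ^ k := by
    rw [abs_mul, abs_mul, abs_of_pos hh0']
    apply mul_le_mul _ hY (abs_nonneg _) (by positivity)
    apply mul_le_mul_of_nonneg_left _ hh0'.le
    push_cast at hb
    exact hb.le
  have b3 : |(h : ℤ) * h' * (i * X - j * Y - m * w)| ≤ h * h' * J := by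
    rw [abs_mul, abs_mul, abs_of_pos hh0, abs_of_pos hh0']
    apply mul_le_mul_of_nonneg_left hw.le (by positivity)
  have c1 : (h : ℤ) * (B : ℤ) ^ k ≤ A := by exact_mod_cast hhA
  have c2 : (h' : ℤ) * (B : ℤ) ^ k ≤ A := by exact_mod_cast hh'A
  have c3 : (A : ℤ) ≤ (B : ℤ) ^ k * (B : ℤ) ^ k := by
    have : (A : ℤ) ≤ (B : ℤ) ^ (2 * k) := by exact_mod_cast hA2
    rwa [two_mul, pow_add] at this
  have c4 : (8 : ℤ) * A * J ≤ m := by exact_mod_cast h8
  have hA' : (1 : ℤ) ≤ A := by exact_mod_cast hA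
  have e2 : |(m : ℤ) * (h * h' * w - (h * a * X - h' * b * Y))| ≤
      h * (2 * J) * (B : ℤ) ^ k + h' * (2 * J) * (B : ℤ) ^ k + h * h' * J := by
    rw [e1]
    calc _ ≤ |(h : ℤ) * (i * h' - m * a) * X - h' * (j * h - m * b) * Y| +
          |(h : ℤ) * h' * (i * X - j * Y - m * w)| := abs_sub _ _
      _ ≤ |(h : ℤ) * (i * h' - m * a) * X| + |(h' : ℤ) * (j * h - m * b) * Y| +
          |(h : ℤ) * h' * (i * X - j * Y - m * w)| := by
          have := abs_sub ((h : ℤ) * (i * h' - m * a) * X) (h' * (j * h - m * b) * Y)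
          linarith
      _ ≤ _ := by linarith
  have e3 : (h : ℤ) * (2 * J) * (B : ℤ) ^ k + h' * (2 * J) * (B : ℤ) ^ k + h * h' * J < m := by
    have d1 : (h : ℤ) * (2 * J) * (B : ℤ) ^ k ≤ 2 * A * J := by
      have := mul_le_mul_of_nonneg_right c1 (show (0 : ℤ) ≤ 2 * J by positivity)
      linarith
    have d2 : (h' : ℤ) * (2 * J) * (B : ℤ) ^ k ≤ 2 * A * J := by
      have := mul_le_mul_of_nonneg_right c2 (show (0 : ℤ) ≤ 2 * J by positivity)
      linarith
    have d3 : (h : ℤ) * h' ≤ A := by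
      -- (h B^k)(h' B^k) ≤ A^2 ≤ A B^{2k}
      have f1 : ((h : ℤ) * h') * ((B : ℤ) ^ k * (B : ℤ) ^ k) ≤ A * ((B : ℤ) ^ k * (B : ℤ) ^ k) := by
        calc ((h : ℤ) * h') * ((B : ℤ) ^ k * (B : ℤ) ^ k) = (h * (B : ℤ) ^ k) * (h' * (B : ℤ) ^ k) := by
              ring
          _ ≤ A * A := mul_le_mul c1 c2 (by positivity) (by positivity)
          _ ≤ A * ((B : ℤ) ^ k * (B : ℤ) ^ k) := mul_le_mul_of_nonneg_left c3 (by positivity)
      exact le_of_mul_le_mul_right f1 (by positivity)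
    have d4 : (h : ℤ) * h' * J ≤ A * J := mul_le_mul_of_nonneg_right d3 hJ'.le
    have hAJ : (0 : ℤ) < A * J := by positivity
    linarith
  have hm' : (0 : ℤ) < m := by exact_mod_cast hm
  have e4 := e2.trans_lt e3
  rw [abs_mul, abs_of_pos hm'] at e4
  have : |(h : ℤ) * h' * w - (h * a * X - h' * b * Y)| < 1 :=
    lt_of_mul_lt_mul_left (by rw [mul_one]; exact e4) hm'.le
  have := Int.abs_lt_one_iff.mp this
  linarith

end Pool.Agent.H888.DH
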