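import Pool.Agent.H888.DH.Rank3

set_option linter.unusedVariables false
set_option linter.unusedSectionVars false
set_option linter.style.haveILetI false

namespace Pool.Agent.H888.DH

open Finset

/-- The admissible points. -/
noncomputable def Tset (r B0 B R : ℕ) : Finset (Fin r → ℤ) := by
  classical
  exact (Fintype.piFinset (fun _ => Finset.Icc (B0 : ℤ) B)).filter
    (fun x => ∀ l l', l ≠ l' → Int.gcd (x l) (x l') ≤ R)

theorem mem_Tset {r B0 B R : ℕ} {x : Fin r → ℤ} :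
    x ∈ Tset r B0 B R ↔ (∀ l, (B0 : ℤ) ≤ x l ∧ x l ≤ B) ∧ ∀ l l', l ≠ l' → Int.gcd (x l) (x l') ≤ R := by
  classical
  simp only [Tset, Finset.mem_filter, Fintype.mem_piFinset, Finset.mem_Icc]

theorem card_Tset_le {r B0 B R : ℕ} (hB0 : 1 ≤ B0) : (Tset r B0 B R).card ≤ B ^ r := by
  classical
  calc (Tset r B0 B R).card ≤ (Fintype.piFinset (fun _ : Fin r => Finset.Icc (B0 : ℤ) B)).card := by
        unfold Tset; exact Finset.card_filter_le _ _
    _ = (Finset.Icc (B0 : ℤ) B).card ^ r := by rw [Fintype.card_piFinset]; simp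
    _ ≤ B ^ r := by
        apply Nat.pow_le_pow_left
        rw [Int.card_Icc]
        omega

/-- The vector `(n^k, x_1^k, …, x_r^k)`. -/
def VV (n k : ℕ) {r : ℕ} (x : Fin r → ℤ) : Fin (r + 1) → ℤ :=
  Fin.cons ((n : ℤ) ^ k) (fun l => x l ^ k)

@[simp] theorem VV_zero (n k : ℕ) {r : ℕ} (x : Fin r → ℤ) : VV n k x 0 = (n : ℤ) ^ k := rfl

@[simp] theorem VV_succ (n k : ℕ) {r : ℕ} (x : Fin r → ℤ) (l : Fin r) :
    VV n k x l.succ = x l ^ k := rfl

noncomputable def box2 (m : ℕ) : Finset (ℤ × ℤ) := (Finset.Ico (0 : ℤ) m) ×ˢ (Finset.Ico (0 : ℤ) m)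

theorem mem_box2 {m : ℕ} {z : ℤ × ℤ} : z ∈ box2 m ↔ 0 ≤ z.1 ∧ z.1 < m ∧ 0 ≤ z.2 ∧ z.2 < m := by
  simp only [box2, Finset.mem_product, Finset.mem_Ico]
  tauto

def nearW {r : ℕ} (m J : ℕ) (V W : Fin (r + 1) → ℤ) (z : ℤ × ℤ) (w : Fin (r + 1) → ℤ) : Prop :=
  ∀ o, |z.1 * V o - z.2 * W o - m * w o| < J

def minor {r : ℕ} (V W w : Fin (r + 1) → ℤ) (a b : Fin r) : ℤ :=
  w 0 * (V a.succ * W b.succ - V b.succ * W a.succ) -
    w a.succ * (V 0 * W b.succ - V b.succ * W 0) +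
    w b.succ * (V 0 * W a.succ - V a.succ * W 0)

/-- Triples `(x, y, (i,j))` with a non-vanishing minor `(0,a,b)` and `j` bad. -/
noncomputable def Zab (k r n m J A B B0 R : ℕ) (a b : Fin r) :
    Finset ((Fin r → ℤ) × (Fin r → ℤ) × (ℤ × ℤ)) := by
  classical
  exact ((Tset r B0 B R) ×ˢ (Tset r B0 B R) ×ˢ (box2 m)).filter (fun p =>
    bad m J A B k p.2.2.2 ∧ ∃ w, nearW m J (VV n k p.1) (VV n k p.2.1) p.2.2 w ∧
      minor (VV n k p.1) (VV n k p.2.1) w a b ≠ 0)

theorem abs_pow_sub_pow_le {B k : ℕ} {u v : ℤ} (hu : 0 ≤ u) (hu' : u ≤ B) (hv : 0 ≤ v) (hv' : v ≤ B) :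
    |u ^ k - v ^ k| ≤ (B : ℤ) ^ k := by
  have h1 : u ^ k ≤ (B : ℤ) ^ k := pow_le_pow_left₀ hu hu' k
  have h2 : v ^ k ≤ (B : ℤ) ^ k := pow_le_pow_left₀ hv hv' k
  have h3 : 0 ≤ u ^ k := pow_nonneg hu k
  have h4 : 0 ≤ v ^ k := pow_nonneg hv k
  rw [abs_le]; constructor <;> linarith

theorem card_Zab_le (k r n m J A B B0 R : ℕ) (hk : 2 ≤ k) (hm : m.Prime) (hJ : 0 < J)
    (hB0 : 1 ≤ B0) (hB : 1 ≤ B) (hR : 1 ≤ R) (hnB : n ≤ B) (h4 : 4 * J * B ^ k ≤ m)
    (hA : A ≤ B * B ^ k) (hAR : B * B ^ k ≤ A * R) (hBJ : B ^ (2 * k) ≤ J) (hBm : B ^ (2 * k) < m)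
    (β : ℝ) (hβ : ∀ q : ℕ, 1 ≤ q → q ≤ B ^ k → (beta k q : ℝ) ^ r ≤ β) (a b : Fin r) :
    ((Zab k r n m J A B B0 R a b).card : ℝ) ≤
      ((B : ℝ) ^ r * (B * B) * (54 * J ^ 3 / m)) *
        (β * (2 ^ r * ((R : ℝ) ^ r * (R : ℝ) ^ (k * r ^ 2) * B))) := by
  classical
  have hBk : (0 : ℤ) < (B : ℤ) ^ k := by positivity
  have hB0' : (1 : ℤ) ≤ B0 := by exact_mod_cast hB0
  set W : Finset (((Fin r → ℤ) × (ℤ × ℤ)) × (ℤ × ℤ)) :=
    (((Tset r B0 B R) ×ˢ ((Finset.Icc (1 : ℤ) B) ×ˢ (Finset.Icc (1 : ℤ) B))) ×ˢ (box2 m)).filter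
      (fun q => bad m J A B k q.2.2 ∧ ∃ w0 wa wb : ℤ,
        |q.2.1 * (n : ℤ) ^ k - q.2.2 * (n : ℤ) ^ k - m * w0| < J ∧
        |q.2.1 * (q.1.1 a) ^ k - q.2.2 * (q.1.2.1) ^ k - m * wa| < J ∧
        |q.2.1 * (q.1.1 b) ^ k - q.2.2 * (q.1.2.2) ^ k - m * wb| < J ∧
        w0 * ((q.1.1 a) ^ k * (q.1.2.2) ^ k - (q.1.1 b) ^ k * (q.1.2.1) ^ k) -
          wa * ((n : ℤ) ^ k * (q.1.2.2) ^ k - (q.1.1 b) ^ k * (n : ℤ) ^ k) +
          wb * ((n : ℤ) ^ k * (q.1.2.1) ^ k - (q.1.1 a) ^ k * (n : ℤ) ^ k) ≠ 0) with hW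
  -- |W|
  have hWcard : (W.card : ℝ) ≤ ((B : ℝ) ^ r * (B * B)) * (54 * J ^ 3 / m) := by
    have h1 := card_le_mul_real W ((Tset r B0 B R) ×ˢ ((Finset.Icc (1 : ℤ) B) ×ˢ (Finset.Icc (1 : ℤ) B)))
      (fun q => q.1) (by
        intro q hq
        rw [hW, Finset.mem_filter] at hq
        exact (Finset.mem_product.mp hq.1).1) (54 * J ^ 3 / m) (by
        intro t ht
        have hinj : (W.filter (fun q => q.1 = t)).card =
            ((W.filter (fun q => q.1 = t)).image (fun q => q.2)).card := by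
          rw [Finset.card_image_of_injOn]
          intro q hq q' hq' hqq
          exact Prod.ext ((Finset.mem_filter.mp hq).2.trans (Finset.mem_filter.mp hq').2.symm) hqq
        rw [hinj]
        rw [Finset.mem_product, Finset.mem_product, Finset.mem_Icc, Finset.mem_Icc] at ht
        obtain ⟨htT, ⟨hu1, hu2⟩, ⟨hv1, hv2⟩⟩ := ht
        have hT := (mem_Tset.mp htT).1
        have hx1 : ∀ l, 0 ≤ t.1 l := fun l => by linarith [(hT l).1]
        have hM0 : ∀ u v : ℤ, 0 ≤ u → u ≤ B → 0 ≤ v → v ≤ B → ∀ u' v' : ℤ, 0 ≤ u' → u' ≤ B → 0 ≤ v' →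
            v' ≤ B → |u ^ k * v ^ k - u' ^ k * v' ^ k| ≤ ((B ^ (2 * k) : ℕ) : ℤ) := by
          intro u v hu hu' hv hv' u' v' hu1 hu1' hv1 hv1'
          have e1 : u ^ k ≤ (B : ℤ) ^ k := pow_le_pow_left₀ hu hu' k
          have e2 : v ^ k ≤ (B : ℤ) ^ k := pow_le_pow_left₀ hv hv' k
          have e3 : u' ^ k ≤ (B : ℤ) ^ k := pow_le_pow_left₀ hu1 hu1' k
          have e4 : v' ^ k ≤ (B : ℤ) ^ k := pow_le_pow_left₀ hv1 hv1' k
          have f1 : u ^ k * v ^ k ≤ (B : ℤ) ^ k * (B : ℤ) ^ k := mul_le_mul e1 e2 (pow_nonneg hv k) hBk.le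
          have f2 : u' ^ k * v' ^ k ≤ (B : ℤ) ^ k * (B : ℤ) ^ k :=
            mul_le_mul e3 e4 (pow_nonneg hv1 k) hBk.le
          have f3 : 0 ≤ u ^ k * v ^ k := mul_nonneg (pow_nonneg hu k) (pow_nonneg hv k)
          have f4 : 0 ≤ u' ^ k * v' ^ k := mul_nonneg (pow_nonneg hu1 k) (pow_nonneg hv1 k)
          have f5 : ((B ^ (2 * k) : ℕ) : ℤ) = (B : ℤ) ^ k * (B : ℤ) ^ k := by
            push_cast; rw [two_mul, pow_add]
          rw [f5, abs_le]; constructor <;> linarith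
        have hn0 : (0 : ℤ) ≤ n := by positivity
        have hnB' : (n : ℤ) ≤ B := by exact_mod_cast hnB
        apply triple m J hm ((n : ℤ) ^ k) ((t.1 a) ^ k) ((t.1 b) ^ k) ((n : ℤ) ^ k) (t.2.1 ^ k)
          (t.2.2 ^ k) ((B ^ (2 * k) : ℕ) : ℤ)
          (hM0 _ _ (hx1 a) (hT a).2 (by linarith) hv2 _ _ (hx1 b) (hT b).2 (by linarith) hu2)
          (hM0 _ _ hn0 hnB' (by linarith) hv2 _ _ (hx1 b) (hT b).2 hn0 hnB')
          (hM0 _ _ hn0 hnB' (by linarith) hu2 _ _ (hx1 a) (hT a).2 hn0 hnB')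
          (by exact_mod_cast hBJ) (by exact_mod_cast hBm)
        · intro z hz
          rw [Finset.mem_image] at hz
          obtain ⟨q, hq, rfl⟩ := hz
          rw [Finset.mem_filter, hW, Finset.mem_filter] at hq
          exact mem_box2.mp (Finset.mem_product.mp hq.1.1).2
        · intro z hz
          rw [Finset.mem_image] at hz
          obtain ⟨q, hq, rfl⟩ := hz
          rw [Finset.mem_filter, hW, Finset.mem_filter] at hq
          obtain ⟨⟨_, _, hex⟩, rfl⟩ := hq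
          exact hex)
    refine h1.trans ?_
    apply mul_le_mul_of_nonneg_right _ (by positivity)
    rw [Finset.card_product, Finset.card_product, Int.card_Icc]
    have h2 : ((B : ℤ) + 1 - 1).toNat = B := by omega
    rw [h2]
    have h3 : ((Tset r B0 B R).card : ℝ) ≤ (B : ℝ) ^ r := by exact_mod_cast card_Tset_le hB0
    push_cast
    exact mul_le_mul_of_nonneg_right h3 (by positivity)
  -- the fibres
  set P : ℝ := β * (2 ^ r * ((R : ℝ) ^ r * (R : ℝ) ^ (k * r ^ 2) * B)) with hP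
  have hmain := card_le_mul_real (Zab k r n m J A B B0 R a b) W
    (fun p => ((p.1, (p.2.1 a, p.2.1 b)), p.2.2)) (by
      intro p hp
      rw [Zab, Finset.mem_filter, Finset.mem_product, Finset.mem_product] at hp
      obtain ⟨⟨hpx, hpy, hpz⟩, hbad, w, hw, hmin⟩ := hp
      have hy := (mem_Tset.mp hpy).1
      rw [hW, Finset.mem_filter, Finset.mem_product, Finset.mem_product, Finset.mem_product,
        Finset.mem_Icc, Finset.mem_Icc]
      refine ⟨⟨⟨hpx, ⟨by linarith [(hy a).1], (hy a).2⟩, ⟨by linarith [(hy b).1], (hy b).2⟩⟩, hpz⟩,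
        hbad, w 0, w a.succ, w b.succ, ?_, ?_, ?_, ?_⟩
      · exact hw 0
      · exact hw a.succ
      · exact hw b.succ
      · exact hmin) P (by
      intro t ht
      rw [hW, Finset.mem_filter, Finset.mem_product, Finset.mem_product, Finset.mem_product] at ht
      obtain ⟨⟨⟨htT, _, _⟩, htz⟩, hbad, _⟩ := ht
      have hx := (mem_Tset.mp htT).1
      obtain ⟨q, hq1, hqB, hqA, hqd⟩ := qlemma m J A B k hm.pos hJ hB (by omega) h4 hA t.2.2 hbad
      set F := (Zab k r n m J A B B0 R a b).filter (fun p => ((p.1, (p.2.1 a, p.2.1 b)), p.2.2) = t)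
        with hF
      have hinj : F.card = (F.image (fun p => p.2.1)).card := by
        rw [Finset.card_image_of_injOn]
        intro p hp p' hp' hpp
        have e1 := (Finset.mem_filter.mp hp).2
        have e2 := (Finset.mem_filter.mp hp').2
        have e3 := e1.trans e2.symm
        simp only [Prod.mk.injEq] at e3
        exact Prod.ext e3.1.1 (Prod.ext hpp e3.2)
      rw [hinj]
      set S : Fin r → Finset ℤ := fun l => (Finset.Icc (B0 : ℤ) B).filter
        (fun v => near m J (t.2.1 * (t.1.1 l) ^ k - t.2.2 * v ^ k)) with hS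
      have hcard := completion k r hk q B R hq1 hB hR (R : ℝ) (by exact_mod_cast hR) (by
          have h1 : B * B ^ k ≤ (R * q) * B ^ k := by
            calc B * B ^ k ≤ A * R := hAR
              _ ≤ (q * B ^ k) * R := Nat.mul_le_mul_right _ hqA
              _ = (R * q) * B ^ k := by ring
          have h2 : B ≤ R * q := Nat.le_of_mul_le_mul_right h1 (by positivity)
          exact_mod_cast h2) S (by
          intro l x hx'
          rw [hS, Finset.mem_filter, Finset.mem_Icc] at hx'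
          exact ⟨by linarith [hx'.1.1], hx'.1.2⟩) (by
          intro l x hx' y hy'
          rw [hS, Finset.mem_filter, Finset.mem_Icc] at hx' hy'
          apply hqd
          · apply abs_pow_sub_pow_le <;> linarith [hx'.1.1, hx'.1.2, hy'.1.1, hy'.1.2]
          · have e := near_sub hy'.2 hx'.2
            have e' : t.2.1 * t.1.1 l ^ k - t.2.2 * y ^ k - (t.2.1 * t.1.1 l ^ k - t.2.2 * x ^ k) =
                t.2.2 * (x ^ k - y ^ k) := by ring
            rwa [e'] at e) (F.image (fun p => p.2.1)) (by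
          intro y hy l
          rw [Finset.mem_image] at hy
          obtain ⟨p, hp, rfl⟩ := hy
          rw [hF, Finset.mem_filter, Zab, Finset.mem_filter, Finset.mem_product,
            Finset.mem_product] at hp
          obtain ⟨⟨⟨_, hpy, _⟩, _, w, hw, _⟩, rfl⟩ := hp
          rw [hS, Finset.mem_filter, Finset.mem_Icc]
          exact ⟨(mem_Tset.mp hpy).1 l, w l.succ, hw l.succ⟩) (by
          intro y hy
          rw [Finset.mem_image] at hy
          obtain ⟨p, hp, rfl⟩ := hy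
          rw [hF, Finset.mem_filter, Zab, Finset.mem_filter, Finset.mem_product,
            Finset.mem_product] at hp
          exact (mem_Tset.mp hp.1.1.2.1).2)
      refine hcard.trans ?_
      rw [hP]
      apply mul_le_mul_of_nonneg_right (hβ q hq1 hqB) (by positivity))
  refine hmain.trans ?_
  have hP0 : 0 ≤ P := by
    have h1 : (0 : ℝ) ≤ β := le_trans (by positivity) (hβ 1 le_rfl (Nat.one_le_pow _ _ hB))
    positivity
  exact mul_le_mul_of_nonneg_right hWcard hP0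

/-- All rank three points. -/
noncomputable def R3set (k r n m J B B0 R : ℕ) :
    Finset ((Fin r → ℤ) × (Fin r → ℤ) × (ℤ × ℤ)) := by
  classical
  exact ((Tset r B0 B R) ×ˢ (Tset r B0 B R) ×ˢ (box2 m)).filter (fun p =>
    ∃ w, nearW m J (VV n k p.1) (VV n k p.2.1) p.2.2 w ∧
      ∃ a b, minor (VV n k p.1) (VV n k p.2.1) w a b ≠ 0)

theorem abs_VV_le {k r n B B0 R : ℕ} (hnB : n ≤ B) (hB0 : 1 ≤ B0) {x : Fin r → ℤ}
    (hx : x ∈ Tset r B0 B R) (o : Fin (r + 1)) : |VV n k x o| ≤ (B : ℤ) ^ k := by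
  have hB0' : (1 : ℤ) ≤ B0 := by exact_mod_cast hB0
  refine Fin.cases ?_ ?_ o
  · rw [VV_zero, abs_of_nonneg (by positivity)]
    exact pow_le_pow_left₀ (by positivity) (by exact_mod_cast hnB) k
  · intro l
    have := (mem_Tset.mp hx).1 l
    rw [VV_succ, abs_of_nonneg (pow_nonneg (by linarith) k)]
    exact pow_le_pow_left₀ (by linarith) this.2 k

theorem card_R3set_le (k r n m J A B B0 R : ℕ) (hk : 2 ≤ k) (hm : m.Prime) (hJ : 0 < J)
    (hA1 : 1 ≤ A) (hB0 : 1 ≤ B0) (hB : 1 ≤ B) (hR : 1 ≤ R) (hnB : n ≤ B) (h8 : 8 * A * J ≤ m)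
    (h4 : 4 * J * B ^ k ≤ m) (hA2 : A ≤ B ^ (2 * k))
    (hA : A ≤ B * B ^ k) (hAR : B * B ^ k ≤ A * R) (hBJ : B ^ (2 * k) ≤ J) (hBm : B ^ (2 * k) < m)
    (β : ℝ) (hβ : ∀ q : ℕ, 1 ≤ q → q ≤ B ^ k → (beta k q : ℝ) ^ r ≤ β) :
    ((R3set k r n m J B B0 R).card : ℝ) ≤
      2 * r ^ 2 * (((B : ℝ) ^ r * (B * B) * (54 * J ^ 3 / m)) *
        (β * (2 ^ r * ((R : ℝ) ^ r * (R : ℝ) ^ (k * r ^ 2) * B)))) := by
  classical
  set Q := ((B : ℝ) ^ r * (B * B) * (54 * J ^ 3 / m)) *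
        (β * (2 ^ r * ((R : ℝ) ^ r * (R : ℝ) ^ (k * r ^ 2) * B))) with hQ
  set sw : ((Fin r → ℤ) × (Fin r → ℤ) × (ℤ × ℤ)) → ((Fin r → ℤ) × (Fin r → ℤ) × (ℤ × ℤ)) :=
    fun p => (p.2.1, p.1, (p.2.2.2, p.2.2.1)) with hsw
  set U : Finset (Fin r × Fin r) := Finset.univ with hU
  have hsub : R3set k r n m J B B0 R ⊆
      (U.biUnion (fun ab => Zab k r n m J A B B0 R ab.1 ab.2)) ∪
      (U.biUnion (fun ab => (Zab k r n m J A B B0 R ab.1 ab.2).image sw)) := by
    intro p hp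
    rw [R3set, Finset.mem_filter, Finset.mem_product, Finset.mem_product] at hp
    obtain ⟨⟨hx, hy, hz⟩, w, hw, a, b, hab⟩ := hp
    by_cases hbj : bad m J A B k p.2.2.2
    · rw [Finset.mem_union]; left
      rw [Finset.mem_biUnion]
      refine ⟨(a, b), Finset.mem_univ _, ?_⟩
      rw [Zab, Finset.mem_filter, Finset.mem_product, Finset.mem_product]
      exact ⟨⟨hx, hy, hz⟩, hbj, w, hw, hab⟩
    · by_cases hbi : bad m J A B k p.2.2.1
      · rw [Finset.mem_union]; right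
        rw [Finset.mem_biUnion]
        refine ⟨(a, b), Finset.mem_univ _, ?_⟩
        rw [Finset.mem_image]
        refine ⟨(p.2.1, p.1, (p.2.2.2, p.2.2.1)), ?_, rfl⟩
        rw [Zab, Finset.mem_filter, Finset.mem_product, Finset.mem_product]
        refine ⟨⟨hy, hx, ?_⟩, hbi, fun o => - w o, ?_, ?_⟩
        · have := mem_box2.mp hz
          exact mem_box2.mpr ⟨this.2.2.1, this.2.2.2, this.1, this.2.1⟩
        · intro o
          have := hw o
          show |p.2.2.2 * VV n k p.2.1 o - p.2.2.1 * VV n k p.1 o - m * (- w o)| < J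
          rw [← abs_neg]
          have e : -(p.2.2.2 * VV n k p.2.1 o - p.2.2.1 * VV n k p.1 o - m * (- w o)) =
            p.2.2.1 * VV n k p.1 o - p.2.2.2 * VV n k p.2.1 o - m * w o := by ring
          rw [e]; exact this
        · intro h0
          apply hab
          rw [← h0]
          unfold minor
          ring
      · exfalso
        obtain ⟨h, h', a', b', hh, hh', hrel⟩ :=
          not_bad_rank m J A B k hm.pos hJ hA1 hB h8 hA2 p.2.2.1 p.2.2.2 hbi hbj
        have hr : ∀ o, h * h' * w o = h * a' * VV n k p.1 o - h' * b' * VV n k p.2.1 o := fun o =>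
          hrel _ _ _ (abs_VV_le hnB hB0 hx o) (abs_VV_le hnB hB0 hy o) (hw o)
        apply hab
        have h1 : h * h' ≠ 0 := by positivity
        have h2 : (h * h') * minor (VV n k p.1) (VV n k p.2.1) w a b = 0 := by
          unfold minor
          have e0 := hr 0
          have ea := hr a.succ
          have eb := hr b.succ
          linear_combination (VV n k p.1 a.succ * VV n k p.2.1 b.succ -
            VV n k p.1 b.succ * VV n k p.2.1 a.succ) * e0 -
            (VV n k p.1 0 * VV n k p.2.1 b.succ - VV n k p.1 b.succ * VV n k p.2.1 0) * ea +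
            (VV n k p.1 0 * VV n k p.2.1 a.succ - VV n k p.1 a.succ * VV n k p.2.1 0) * eb
        rcases mul_eq_zero.mp h2 with h3 | h3
        · exact absurd h3 h1
        · exact h3
  have hZ : ∀ ab : Fin r × Fin r, ((Zab k r n m J A B B0 R ab.1 ab.2).card : ℝ) ≤ Q := fun ab =>
    card_Zab_le k r n m J A B B0 R hk hm hJ hB0 hB hR hnB h4 hA hAR hBJ hBm β hβ ab.1 ab.2
  have hUcard : (U.card : ℝ) = r ^ 2 := by
    rw [hU, Finset.card_univ, Fintype.card_prod, Fintype.card_fin]; push_cast; ring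
  have c1 : ((U.biUnion (fun ab => Zab k r n m J A B B0 R ab.1 ab.2)).card : ℝ) ≤ r ^ 2 * Q := by
    calc _ ≤ ((∑ ab ∈ U, (Zab k r n m J A B B0 R ab.1 ab.2).card : ℕ) : ℝ) := by
          exact_mod_cast Finset.card_biUnion_le
      _ = ∑ ab ∈ U, ((Zab k r n m J A B B0 R ab.1 ab.2).card : ℝ) := by push_cast; rfl
      _ ≤ ∑ ab ∈ U, Q := Finset.sum_le_sum (fun ab _ => hZ ab)
      _ = r ^ 2 * Q := by rw [Finset.sum_const, nsmul_eq_mul, hUcard]
  have c2 : ((U.biUnion (fun ab => (Zab k r n m J A B B0 R ab.1 ab.2).image sw)).card : ℝ) ≤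
      r ^ 2 * Q := by
    calc _ ≤ ((∑ ab ∈ U, ((Zab k r n m J A B B0 R ab.1 ab.2).image sw).card : ℕ) : ℝ) := by
          exact_mod_cast Finset.card_biUnion_le
      _ = ∑ ab ∈ U, (((Zab k r n m J A B B0 R ab.1 ab.2).image sw).card : ℝ) := by push_cast; rfl
      _ ≤ ∑ ab ∈ U, Q := Finset.sum_le_sum (fun ab _ =>
          le_trans (by exact_mod_cast Finset.card_image_le) (hZ ab))
      _ = r ^ 2 * Q := by rw [Finset.sum_const, nsmul_eq_mul, hUcard]
  calc ((R3set k r n m J B B0 R).card : ℝ) ≤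
      (((U.biUnion (fun ab => Zab k r n m J A B B0 R ab.1 ab.2)).card +
        (U.biUnion (fun ab => (Zab k r n m J A B B0 R ab.1 ab.2).image sw)).card : ℕ) : ℝ) := by
        exact_mod_cast (Finset.card_le_card hsub).trans (Finset.card_union_le _ _)
    _ ≤ r ^ 2 * Q + r ^ 2 * Q := by push_cast; exact add_le_add c1 c2
    _ = _ := by ring

end Pool.Agent.H888.DH
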