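import Mathlib

set_option linter.unusedVariables false
set_option linter.unusedSectionVars false
set_option linter.style.haveILetI false

namespace Pool.Agent.H888.DH

open Finset Complex

section
variable {m : ℕ} [NeZero m]

/-- Additive character. -/
noncomputable def ee (x : ZMod m) : ℂ := ZMod.stdAddChar x

theorem ee_add (x y : ZMod m) : ee (x + y) = ee x * ee y := AddChar.map_add_eq_mul _ x y

theorem ee_zero : ee (0 : ZMod m) = 1 := AddChar.map_zero_eq_one _

theorem ee_conj (x : ZMod m) : (starRingEnd ℂ) (ee x) = ee (-x) :=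
  (AddChar.map_neg_eq_conj _ x).symm

theorem norm_ee (x : ZMod m) : ‖ee x‖ = 1 := AddChar.norm_apply _ x

theorem ee_sum {ι : Type*} (s : Finset ι) (f : ι → ZMod m) :
    ee (∑ l ∈ s, f l) = ∏ l ∈ s, ee (f l) := by
  classical
  induction s using Finset.induction_on with
  | empty => simp [ee_zero]
  | insert a s ha ih => rw [Finset.sum_insert ha, Finset.prod_insert ha, ee_add, ih]

theorem sum_ee (b : ZMod m) : ∑ x : ZMod m, ee (x * b) = if b = 0 then (m : ℂ) else 0 := by
  have := AddChar.sum_mulShift b (ZMod.isPrimitive_stdAddChar m)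
  rw [ZMod.card] at this
  simpa [ee] using this

/-- Fejér weight. -/
noncomputable def WW (J : ℕ) (a : ZMod m) : ℝ := ‖∑ t ∈ range J, ee (a * (t : ZMod m))‖ ^ 2 / (J : ℝ) ^ 2

def nearZ (J : ℕ) (c : ZMod m) : Prop := ∃ t < J, ∃ t' < J, ((t' : ℕ) : ZMod m) - (t : ℕ) = c

theorem WW_nonneg (J : ℕ) (a : ZMod m) : 0 ≤ WW J a := by unfold WW; positivity

theorem sum_WW (J : ℕ) (hJ : 0 < J) (hJm : J ≤ m) (c : ZMod m) [Decidable (nearZ J c)] :
    ‖∑ a : ZMod m, (WW J a : ℂ) * ee (a * c)‖ ≤ (m / J : ℝ) * (if nearZ J c then 1 else 0) := by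
  classical
  have hJ' : (0 : ℝ) < J := by exact_mod_cast hJ
  have h1 : ∀ a : ZMod m, (WW J a : ℂ) = (1 / (J : ℂ) ^ 2) *
      ∑ t ∈ range J, ∑ t' ∈ range J, ee (a * ((t : ZMod m) - (t' : ZMod m))) := by
    intro a
    unfold WW
    push_cast
    rw [← Complex.mul_conj', map_sum, Finset.sum_mul_sum]
    rw [div_eq_mul_one_div, mul_comm]
    congr 1
    apply Finset.sum_congr rfl; intro t _
    apply Finset.sum_congr rfl; intro t' _
    rw [ee_conj, ← ee_add]
    congr 1; ring
  have h2 : ∑ a : ZMod m, (WW J a : ℂ) * ee (a * c) = (1 / (J : ℂ) ^ 2) *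
      ∑ t ∈ range J, ∑ t' ∈ range J, (if ((t : ZMod m) - (t' : ZMod m) + c) = 0 then (m : ℂ) else 0) := by
    calc ∑ a : ZMod m, (WW J a : ℂ) * ee (a * c)
        = ∑ a : ZMod m, (1 / (J : ℂ) ^ 2) *
            ∑ t ∈ range J, ∑ t' ∈ range J, ee (a * ((t : ZMod m) - (t' : ZMod m) + c)) := by
          apply Finset.sum_congr rfl; intro a _
          rw [h1 a, mul_assoc, Finset.sum_mul]
          congr 1
          apply Finset.sum_congr rfl; intro t _
          rw [Finset.sum_mul]
          apply Finset.sum_congr rfl; intro t' _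
          rw [← ee_add]; congr 1; ring
      _ = (1 / (J : ℂ) ^ 2) * ∑ t ∈ range J, ∑ t' ∈ range J, ∑ a : ZMod m,
            ee (a * ((t : ZMod m) - (t' : ZMod m) + c)) := by
          rw [← Finset.mul_sum, Finset.sum_comm]
          congr 1
          apply Finset.sum_congr rfl; intro t _
          rw [Finset.sum_comm]
      _ = _ := by
          congr 1
          apply Finset.sum_congr rfl; intro t _
          apply Finset.sum_congr rfl; intro t' _
          rw [sum_ee]
  rw [h2]
  by_cases hc : nearZ J c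
  · rw [if_pos hc, mul_one, norm_mul]
    have h3 : ‖(1 / (J : ℂ) ^ 2)‖ = 1 / (J : ℝ) ^ 2 := by simp
    rw [h3]
    have h4 : ‖∑ t ∈ range J, ∑ t' ∈ range J,
        (if ((t : ZMod m) - (t' : ZMod m) + c) = 0 then (m : ℂ) else 0)‖ ≤ J * m := by
      calc _ ≤ ∑ t ∈ range J, ‖∑ t' ∈ range J,
            (if ((t : ZMod m) - (t' : ZMod m) + c) = 0 then (m : ℂ) else 0)‖ := norm_sum_le _ _
        _ ≤ ∑ t ∈ range J, (m : ℝ) := by
            apply Finset.sum_le_sum
            intro t _
            have hcard : ((range J).filter (fun t' : ℕ => ((t : ZMod m) - (t' : ZMod m) + c) = 0)).card ≤ 1 := by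
              rw [Finset.card_le_one]
              intro u hu v hv
              rw [Finset.mem_filter, Finset.mem_range] at hu hv
              have e : ((u : ℕ) : ZMod m) = ((v : ℕ) : ZMod m) := by
                have e1 := hu.2
                have e2 := hv.2
                linear_combination e2 - e1
              rw [ZMod.natCast_eq_natCast_iff] at e
              exact Nat.ModEq.eq_of_lt_of_lt e (by omega) (by omega)
            rw [← Finset.sum_filter, Finset.sum_const, nsmul_eq_mul, norm_mul]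
            simp only [Complex.norm_natCast]
            calc (((range J).filter (fun t' : ℕ => ((t : ZMod m) - (t' : ZMod m) + c) = 0)).card : ℝ) * m
                ≤ 1 * m := by
                  apply mul_le_mul_of_nonneg_right _ (by positivity)
                  exact_mod_cast hcard
              _ = m := one_mul _
        _ = J * m := by rw [Finset.sum_const, Finset.card_range, nsmul_eq_mul]
    refine (mul_le_mul_of_nonneg_left h4 (by positivity)).trans (le_of_eq ?_)
    field_simp
  · rw [if_neg hc, mul_zero]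
    have h5 : ∑ t ∈ range J, ∑ t' ∈ range J,
        (if ((t : ZMod m) - (t' : ZMod m) + c) = 0 then (m : ℂ) else 0) = 0 := by
      apply Finset.sum_eq_zero; intro t ht
      apply Finset.sum_eq_zero; intro t' ht'
      rw [if_neg]
      intro h
      apply hc
      exact ⟨t, Finset.mem_range.mp ht, t', Finset.mem_range.mp ht', by linear_combination -h⟩
    rw [h5, mul_zero, norm_zero]

/-- **General second moment lemma.** -/
theorem second_moment {ι κ : Type*} [Fintype ι] [DecidableEq ι] (J : ℕ) (hJ : 0 < J) (hJm : J ≤ m)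
    (P : Finset κ) (c : κ → ℂ) (v : κ → ι → ZMod m)
    [∀ p p', Decidable (∀ l, nearZ J (v p l - v p' l))] :
    ∑ a : ι → ZMod m, (∏ l, WW J (a l)) * ‖∑ p ∈ P, c p * ee (∑ l, a l * v p l)‖ ^ 2 ≤
      (m / J : ℝ) ^ Fintype.card ι * ∑ p ∈ P, ∑ p' ∈ P, ‖c p‖ * ‖c p'‖ *
        (if ∀ l, nearZ J (v p l - v p' l) then 1 else 0) := by
  classical
  have h1 : ((∑ a : ι → ZMod m, (∏ l, WW J (a l)) * ‖∑ p ∈ P, c p * ee (∑ l, a l * v p l)‖ ^ 2 : ℝ) : ℂ)
      = ∑ p ∈ P, ∑ p' ∈ P, (c p * (starRingEnd ℂ) (c p')) *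
          ∏ l, ∑ a : ZMod m, (WW J a : ℂ) * ee (a * (v p l - v p' l)) := by
    push_cast
    calc ∑ a : ι → ZMod m, (∏ l, (WW J (a l) : ℂ)) * (‖∑ p ∈ P, c p * ee (∑ l, a l * v p l)‖ : ℂ) ^ 2
        = ∑ a : ι → ZMod m, ∑ p ∈ P, ∑ p' ∈ P, (c p * (starRingEnd ℂ) (c p')) *
            ∏ l, ((WW J (a l) : ℂ) * ee (a l * (v p l - v p' l))) := by
          apply Finset.sum_congr rfl; intro a _
          rw [← Complex.mul_conj', map_sum, Finset.sum_mul_sum, Finset.mul_sum]
          apply Finset.sum_congr rfl; intro p _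
          rw [Finset.mul_sum]
          apply Finset.sum_congr rfl; intro p' _
          rw [Finset.prod_mul_distrib, map_mul, ee_conj]
          have e : ee (∑ l, a l * v p l) * ee (-∑ l, a l * v p' l) =
              ∏ l, ee (a l * (v p l - v p' l)) := by
            rw [← ee_add, ← ee_sum]
            congr 1
            rw [← sub_eq_add_neg, ← Finset.sum_sub_distrib]
            apply Finset.sum_congr rfl; intro l _; ring
          rw [← e]; ring
      _ = ∑ p ∈ P, ∑ p' ∈ P, (c p * (starRingEnd ℂ) (c p')) *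
            ∑ a : ι → ZMod m, ∏ l, ((WW J (a l) : ℂ) * ee (a l * (v p l - v p' l))) := by
          rw [Finset.sum_comm]
          apply Finset.sum_congr rfl; intro p _
          rw [Finset.sum_comm]
          apply Finset.sum_congr rfl; intro p' _
          rw [Finset.mul_sum]
      _ = _ := by
          apply Finset.sum_congr rfl; intro p _
          apply Finset.sum_congr rfl; intro p' _
          congr 1
          rw [Finset.prod_univ_sum, Fintype.piFinset_univ]
  have hnn : 0 ≤ ∑ a : ι → ZMod m, (∏ l, WW J (a l)) * ‖∑ p ∈ P, c p * ee (∑ l, a l * v p l)‖ ^ 2 :=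
    Finset.sum_nonneg (fun a _ => mul_nonneg (Finset.prod_nonneg (fun l _ => WW_nonneg _ _))
      (by positivity))
  have h2 : ∑ a : ι → ZMod m, (∏ l, WW J (a l)) * ‖∑ p ∈ P, c p * ee (∑ l, a l * v p l)‖ ^ 2 =
      ‖((∑ a : ι → ZMod m, (∏ l, WW J (a l)) * ‖∑ p ∈ P, c p * ee (∑ l, a l * v p l)‖ ^ 2 : ℝ) : ℂ)‖ := by
    rw [Complex.norm_real, Real.norm_of_nonneg hnn]
  rw [h2, h1]
  calc ‖∑ p ∈ P, ∑ p' ∈ P, (c p * (starRingEnd ℂ) (c p')) *
          ∏ l, ∑ a : ZMod m, (WW J a : ℂ) * ee (a * (v p l - v p' l))‖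
      ≤ ∑ p ∈ P, ∑ p' ∈ P, ‖(c p * (starRingEnd ℂ) (c p')) *
          ∏ l, ∑ a : ZMod m, (WW J a : ℂ) * ee (a * (v p l - v p' l))‖ :=
        (norm_sum_le _ _).trans (Finset.sum_le_sum (fun p _ => norm_sum_le _ _))
    _ ≤ ∑ p ∈ P, ∑ p' ∈ P, (m / J : ℝ) ^ Fintype.card ι * (‖c p‖ * ‖c p'‖ *
          (if ∀ l, nearZ J (v p l - v p' l) then 1 else 0)) := by
        apply Finset.sum_le_sum; intro p _
        apply Finset.sum_le_sum; intro p' _
        rw [norm_mul, norm_mul, norm_prod, RCLike.norm_conj]
        have e1 : ∏ l, ‖∑ a : ZMod m, (WW J a : ℂ) * ee (a * (v p l - v p' l))‖ ≤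
            (m / J : ℝ) ^ Fintype.card ι * (if ∀ l, nearZ J (v p l - v p' l) then 1 else 0) := by
          calc _ ≤ ∏ l, ((m / J : ℝ) * (if nearZ J (v p l - v p' l) then 1 else 0)) := by
                apply Finset.prod_le_prod (fun l _ => norm_nonneg _)
                intro l _
                exact sum_WW J hJ hJm _
            _ = (m / J : ℝ) ^ Fintype.card ι * (if ∀ l, nearZ J (v p l - v p' l) then 1 else 0) := by
                rw [Finset.prod_mul_distrib, Finset.prod_const, Finset.card_univ]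
                congr 1
                by_cases h : ∀ l, nearZ J (v p l - v p' l)
                · rw [if_pos h]
                  exact Finset.prod_eq_one (fun l _ => if_pos (h l))
                · rw [if_neg h]
                  push Not at h
                  obtain ⟨l, hl⟩ := h
                  exact Finset.prod_eq_zero (Finset.mem_univ l) (if_neg hl)
        calc ‖c p‖ * ‖c p'‖ * ∏ l, ‖∑ a : ZMod m, (WW J a : ℂ) * ee (a * (v p l - v p' l))‖
            ≤ ‖c p‖ * ‖c p'‖ * ((m / J : ℝ) ^ Fintype.card ι *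
              (if ∀ l, nearZ J (v p l - v p' l) then 1 else 0)) :=
              mul_le_mul_of_nonneg_left e1 (by positivity)
          _ = _ := by ring
    _ = _ := by
        rw [Finset.mul_sum]
        apply Finset.sum_congr rfl; intro p _
        rw [Finset.mul_sum]

end

end Pool.Agent.H888.DH
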