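import Pool.Agent.H888.DH.Exact

set_option linter.unusedVariables false
set_option linter.unusedSectionVars false
set_option linter.style.haveILetI false

namespace Pool.Agent.H888.DH

open Finset Complex

/-- The parameters. -/
structure Par where
  k : ℕ
  r : ℕ
  n : ℕ
  K : ℕ
  L : ℕ
  m : ℕ
  J : ℕ
  A : ℕ
  B : ℕ
  B0 : ℕ
  R : ℕ
  G : ℕ
  C0 : ℕ
  η : ℝ
  cA : ℝ

structure Par.Ok (P : Par) : Prop where
  hk : 3 ≤ P.k
  hr : 2 * P.k + 1 ≤ P.r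
  hn : 1 ≤ P.n
  hnB : P.n ≤ P.B
  hB0 : 1 ≤ P.B0
  hB0B : P.B0 ≤ P.B
  hC0 : P.B ≤ P.C0 * P.B0
  hR : 1 ≤ P.R
  hm : P.m.Prime
  hJ : 0 < P.J
  hA1 : 1 ≤ P.A
  h8 : 8 * P.A * P.J ≤ P.m
  h9 : P.m ≤ 9 * P.A * P.J
  hA : P.A ≤ P.B * P.B ^ P.k
  hAR : P.B * P.B ^ P.k ≤ P.A * P.R
  hcA : (P.A * P.R : ℝ) ≤ P.cA * (P.B * (P.B : ℝ) ^ P.k)
  hJbig : P.n ^ P.k * P.B ^ (2 * P.k) ≤ P.J
  h4 : 4 * P.J * P.B ^ P.k ≤ P.m
  hη : 0 ≤ P.η
  hKL : (P.K * P.L : ℝ) ≤ P.η * P.A * (P.B : ℝ) ^ P.k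
  hKG : ∀ g : ℕ, 1 ≤ g → g ≤ P.G → P.n ^ P.k * g ∣ P.K

/-- gcd of the `y_l^k - x_l^k`. -/
noncomputable def gE {r : ℕ} (k : ℕ) (x y : Fin r → ℤ) : ℕ :=
  (Finset.univ.gcd (fun l => y l ^ k - x l ^ k)).natAbs

theorem gE_dvd {r : ℕ} (k : ℕ) (x y : Fin r → ℤ) (l : Fin r) :
    (gE k x y : ℤ) ∣ y l ^ k - x l ^ k := by
  unfold gE
  rw [Int.natAbs_dvd]
  exact Finset.gcd_dvd (Finset.mem_univ l)

theorem gE_bezout {r : ℕ} (k : ℕ) (x y : Fin r → ℤ) :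
    ∃ c : Fin r → ℤ, ∑ l, c l * (y l ^ k - x l ^ k) = (gE k x y : ℤ) := by
  obtain ⟨f, hf⟩ := Finset.gcd_eq_sum_mul Finset.univ (fun l => y l ^ k - x l ^ k)
  unfold gE
  rcases Int.natAbs_eq (Finset.univ.gcd (fun l => y l ^ k - x l ^ k)) with h | h
  · refine ⟨f, ?_⟩
    rw [← h, hf]
    apply Finset.sum_congr rfl; intro l _; ring
  · refine ⟨fun l => - f l, ?_⟩
    have : (((Finset.univ.gcd (fun l => y l ^ k - x l ^ k)).natAbs : ℕ) : ℤ) =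
      - (Finset.univ.gcd (fun l => y l ^ k - x l ^ k)) := by linarith
    rw [this, hf, ← Finset.sum_neg_distrib]
    apply Finset.sum_congr rfl; intro l _; ring

theorem pow_ne_of_ne {k : ℕ} (hk : 1 ≤ k) {u v : ℤ} (hu : 0 ≤ u) (hv : 0 ≤ v) (h : u ≠ v) :
    u ^ k ≠ v ^ k := by
  intro he
  exact h ((pow_left_inj₀ hu hv (by omega)).mp he)

theorem gE_pos {r : ℕ} {k : ℕ} (hk : 1 ≤ k) {x y : Fin r → ℤ} (hx : ∀ l, 0 ≤ x l) (hy : ∀ l, 0 ≤ y l)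
    {l : Fin r} (h : x l ≠ y l) : 1 ≤ gE k x y := by
  by_contra hcon
  have h0 : gE k x y = 0 := by omega
  have h1 := gE_dvd k x y l
  rw [h0] at h1
  have h2 : y l ^ k - x l ^ k = 0 := by simpa using h1
  exact pow_ne_of_ne hk (hy l) (hx l) h.symm (by linarith)

/-- Lower bound for a difference of powers. -/
theorem abs_pow_sub_pow_ge (k : ℕ) (hk : 1 ≤ k) (a b c : ℤ) (hc : 0 ≤ c) (ha : c ≤ a) (hb : c ≤ b) :
    |a - b| * c ^ (k - 1) ≤ |a ^ k - b ^ k| := by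
  have key : ∀ a b : ℤ, c ≤ a → c ≤ b → b ≤ a → (a - b) * c ^ (k - 1) ≤ a ^ k - b ^ k := by
    intro a b ha hb hab
    have hb0 : 0 ≤ b := hc.trans hb
    have h1 : c ^ (k - 1) ≤ a ^ (k - 1) := pow_le_pow_left₀ hc ha _
    have h2 : b ^ (k - 1) ≤ a ^ (k - 1) := pow_le_pow_left₀ hb0 hab _
    have e1 : a ^ k = a * a ^ (k - 1) := by rw [← pow_succ', Nat.sub_add_cancel hk]
    have e2 : b ^ k = b * b ^ (k - 1) := by rw [← pow_succ', Nat.sub_add_cancel hk]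
    rw [e1, e2]
    have h3 : (a - b) * c ^ (k - 1) ≤ (a - b) * a ^ (k - 1) :=
      mul_le_mul_of_nonneg_left h1 (by linarith)
    have h4 : b * b ^ (k - 1) ≤ b * a ^ (k - 1) := mul_le_mul_of_nonneg_left h2 hb0
    linarith
  rcases le_total b a with h | h
  · rw [abs_of_nonneg (by linarith : 0 ≤ a - b)]
    exact (key a b ha hb h).trans (le_abs_self _)
  · rw [abs_sub_comm a b, abs_sub_comm (a ^ k), abs_of_nonneg (by linarith : 0 ≤ b - a)]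
    exact (key b a hb ha h).trans (le_abs_self _)

variable (P : Par)

/-- shorthand for the admissible set -/
noncomputable abbrev Par.T : Finset (Fin P.r → ℤ) := Tset P.r P.B0 P.B P.R

/-- exact points of a pair. -/
noncomputable def Par.Ex (x y : Fin P.r → ℤ) : Finset (ℤ × ℤ) := by
  classical
  exact (box2 P.m).filter (fun z => (x, y, z) ∈ NearSet P.k P.r P.n P.m P.J P.B P.B0 P.R ∧
    (x, y, z) ∉ R3set P.k P.r P.n P.m P.J P.B P.B0 P.R)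

noncomputable def Par.ExS (x y : Fin P.r → ℤ) : ℝ :=
  ∑ z ∈ P.Ex x y, psiN P.m P.K P.L z.1 * psiN P.m P.K P.L z.2

theorem Par.mem_Ex {x y : Fin P.r → ℤ} {z : ℤ × ℤ} (hz : z ∈ P.Ex x y) :
    x ∈ P.T ∧ y ∈ P.T ∧ z ∈ box2 P.m ∧ ∃ w, nearW P.m P.J (VV P.n P.k x) (VV P.n P.k y) z w ∧
      ∀ a b, minor (VV P.n P.k x) (VV P.n P.k y) w a b = 0 := by
  classical
  rw [Par.Ex, Finset.mem_filter] at hz
  obtain ⟨hz1, hz2, hz3⟩ := hz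
  rw [NearSet, Finset.mem_filter, Finset.mem_product, Finset.mem_product] at hz2
  obtain ⟨⟨hx, hy, _⟩, w, hw⟩ := hz2
  refine ⟨hx, hy, hz1, w, hw, ?_⟩
  by_contra hcon
  push Not at hcon
  apply hz3
  rw [R3set, Finset.mem_filter, Finset.mem_product, Finset.mem_product]
  exact ⟨⟨hx, hy, hz1⟩, w, hw, hcon⟩

theorem Par.ExS_nonneg (x y : Fin P.r → ℤ) : 0 ≤ P.ExS x y :=
  Finset.sum_nonneg (fun _ _ => mul_nonneg (psiN_nonneg _ _ _ _) (psiN_nonneg _ _ _ _))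

theorem Par.ExS_le_card (x y : Fin P.r → ℤ) : P.ExS x y ≤ 4 * (P.Ex x y).card := by
  unfold Par.ExS
  calc _ ≤ ∑ z ∈ P.Ex x y, (4 : ℝ) := by
        apply Finset.sum_le_sum
        intro z _
        calc _ ≤ (2 : ℝ) * 2 := mul_le_mul (psiN_le_two _ _ _ _) (psiN_le_two _ _ _ _)
              (psiN_nonneg _ _ _ _) (by norm_num)
          _ = 4 := by norm_num
    _ = _ := by rw [Finset.sum_const, nsmul_eq_mul, mul_comm]

theorem mem_T_pos {P : Par} (hP : P.Ok) {x : Fin P.r → ℤ} (hx : x ∈ P.T) (l : Fin P.r) :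
    1 ≤ x l ∧ (P.B0 : ℤ) ≤ x l ∧ x l ≤ P.B := by
  have h1 := (mem_Tset.mp hx).1 l
  have h2 : (1 : ℤ) ≤ P.B0 := by exact_mod_cast hP.hB0
  exact ⟨by linarith, h1.1, h1.2⟩

theorem abs_D_le {P : Par} (hP : P.Ok) {x y : Fin P.r → ℤ} (hx : x ∈ P.T) (hy : y ∈ P.T)
    (o o' : Fin (P.r + 1)) : |VV P.n P.k x o * VV P.n P.k y o' - VV P.n P.k x o' * VV P.n P.k y o| ≤
      (P.B : ℤ) ^ (2 * P.k) := by
  have hnn : ∀ (x : Fin P.r → ℤ), x ∈ P.T → ∀ o, 0 ≤ VV P.n P.k x o := by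
    intro x hx o
    refine Fin.cases ?_ ?_ o
    · rw [VV_zero]; positivity
    · intro l; rw [VV_succ]; exact pow_nonneg (by linarith [(mem_T_pos hP hx l).1]) _
  have h1 := fun o => (abs_le.mp (abs_VV_le (k := P.k) hP.hnB hP.hB0 hx o)).2
  have h2 := fun o => (abs_le.mp (abs_VV_le (k := P.k) hP.hnB hP.hB0 hy o)).2
  have hBk : (0 : ℤ) ≤ (P.B : ℤ) ^ P.k := by positivity
  rw [two_mul, pow_add, abs_le]
  have a1 := mul_le_mul (h1 o) (h2 o') (hnn y hy o') hBk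
  have a2 := mul_le_mul (h1 o') (h2 o) (hnn y hy o) hBk
  have a3 := mul_nonneg (hnn x hx o) (hnn y hy o')
  have a4 := mul_nonneg (hnn x hx o') (hnn y hy o)
  constructor <;> linarith

/-- Basic count for a pair. -/
theorem Par.card_Ex_le {P : Par} (hP : P.Ok) (x y : Fin P.r → ℤ) (hx : x ∈ P.T) (hy : y ∈ P.T)
    (l0 : Fin P.r) (hne : x l0 ≠ y l0) (q : Fin (P.r + 1)) (D : ℤ)
    (hD : D = VV P.n P.k x l0.succ * VV P.n P.k y q - VV P.n P.k x q * VV P.n P.k y l0.succ)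
    (hD0 : D ≠ 0) :
    ((P.Ex x y).card : ℝ) ≤ 375 * ((P.n ^ P.k : ℕ) : ℝ) ^ 2 * gE P.k x y * P.J ^ 2 * P.B ^ P.k /
      (P.B0 ^ P.k * |(D : ℝ)|) := by
  have hk := hP.hk
  have hB : 1 ≤ P.B := hP.hB0.trans hP.hB0B
  have hg := gE_pos (k := P.k) (by omega) (fun l => by linarith [(mem_T_pos hP hx l).1])
    (fun l => by linarith [(mem_T_pos hP hy l).1]) hne
  have hB2 : P.B ^ (2 * P.k) ≤ P.J := le_trans (Nat.le_mul_of_pos_left _ (pow_pos hP.hn _)) hP.hJbig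
  apply exact_count P.r P.k P.m P.J P.B P.B0 (VV P.n P.k x) (VV P.n P.k y) (P.n ^ P.k) (gE P.k x y)
    (Nat.one_le_pow _ _ hP.hn) hg hP.hB0 hB hP.hm.pos hP.hJ (abs_VV_le hP.hnB hP.hB0 hx)
    (abs_VV_le hP.hnB hP.hB0 hy) l0 q _ D hD hD0 _ _ hP.h4
  · intro z hz; exact (P.mem_Ex hz).2.2.1
  · intro z hz
    obtain ⟨_, _, _, w, hw, hmin⟩ := P.mem_Ex hz
    obtain ⟨c, hc⟩ := gE_bezout P.k x y
    obtain ⟨P', Q', h1, h2⟩ := exact_struct (VV P.n P.k x) (VV P.n P.k y) w ((P.n : ℤ) ^ P.k)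
      (VV_zero _ _ _) (VV_zero _ _ _) (gE P.k x y : ℤ) c (by
        simpa only [VV_succ] using hc) hmin
    refine ⟨w, P', Q', hw, h1, ?_⟩
    intro o
    rw [← h2 o]; push_cast; ring
  · rw [VV_succ]
    exact pow_le_pow_left₀ (by positivity) (mem_T_pos hP hy l0).2.1 _
  · rw [hD]
    refine (abs_D_le hP hx hy _ _).trans ?_
    have : P.B ^ (2 * P.k) ≤ P.J * P.B ^ P.k :=
      hB2.trans (Nat.le_mul_of_pos_right _ (pow_pos (by omega) _))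
    exact_mod_cast this
  · exact le_trans (Nat.pow_le_pow_left hP.hB0B _)
      (le_trans (Nat.pow_le_pow_right hB (by omega)) hB2)

/-- Weighted bound when `g ≤ G`. -/
theorem Par.psi_small {P : Par} (hP : P.Ok) (x y : Fin P.r → ℤ) (hx : x ∈ P.T) (hy : y ∈ P.T)
    (l0 : Fin P.r) (hne : x l0 ≠ y l0) (q : Fin (P.r + 1)) (D : ℤ)
    (hD : D = VV P.n P.k x l0.succ * VV P.n P.k y q - VV P.n P.k x q * VV P.n P.k y l0.succ)
    (hD0 : D ≠ 0) (hgG : gE P.k x y ≤ P.G) (z : ℤ × ℤ) (hz : z ∈ P.Ex x y) :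
    psiN P.m P.K P.L z.1 ≤ 2 * P.η * P.B ^ (2 * P.k) / |(D : ℝ)| ∧
    psiN P.m P.K P.L z.2 ≤ 2 * P.η * P.B ^ (2 * P.k) / |(D : ℝ)| := by
  have hk := hP.hk
  have hB : 1 ≤ P.B := hP.hB0.trans hP.hB0B
  have hg := gE_pos (k := P.k) (by omega) (fun l => by linarith [(mem_T_pos hP hx l).1])
    (fun l => by linarith [(mem_T_pos hP hy l).1]) hne
  obtain ⟨_, _, _, w, hw, hmin⟩ := P.mem_Ex hz
  obtain ⟨c, hc⟩ := gE_bezout P.k x y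
  obtain ⟨P', Q', h1, h2⟩ := exact_struct (VV P.n P.k x) (VV P.n P.k y) w ((P.n : ℤ) ^ P.k)
    (VV_zero _ _ _) (VV_zero _ _ _) (gE P.k x y : ℤ) c (by simpa only [VV_succ] using hc) hmin
  have hn0 : (0 : ℤ) < (P.n : ℤ) ^ P.k := by
    have : (0 : ℤ) < P.n := by exact_mod_cast hP.hn
    positivity
  have hg0 : (0 : ℤ) < (gE P.k x y : ℤ) := by exact_mod_cast hg
  set G' : ℤ := (P.n : ℤ) ^ P.k * gE P.k x y with hG'
  have hG'pos : 0 < G' := mul_pos hn0 hg0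
  have hclose := exact_close P.r P.k P.m P.J P.B (VV P.n P.k x) (VV P.n P.k y) w G' hG'pos
    (abs_VV_le hP.hnB hP.hB0 hx) (abs_VV_le hP.hnB hP.hB0 hy) l0.succ q D hD z P' Q' hw h2
  have hGK : G' ∣ (P.K : ℤ) := by
    have := hP.hKG _ hg hgG
    rw [hG']; exact_mod_cast this
  have hDpos : (0 : ℝ) < |(D : ℝ)| := by rw [abs_pos]; exact_mod_cast hD0
  have hm : (0 : ℝ) < P.m := by exact_mod_cast hP.hm.pos
  have hG'R : (0 : ℝ) < G' := by exact_mod_cast hG'pos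
  have hA1 : (0 : ℝ) < P.A := by exact_mod_cast hP.hA1
  have hJ1 : (0 : ℝ) < P.J := by exact_mod_cast hP.hJ
  have h8 : 8 * (P.A : ℝ) * P.J ≤ P.m := by exact_mod_cast hP.h8
  have hη := hP.hη
  have main : ∀ (i P0 I0 : ℤ), G' * i = P.m * P0 + I0 → |I0| * |D| ≤ 2 * G' * P.J * (P.B : ℤ) ^ P.k →
      psiN P.m P.K P.L i ≤ 2 * P.η * P.B ^ (2 * P.k) / |(D : ℝ)| := by
    intro i P0 I0 hi hI0
    refine (psiN_le_close P.m P.K P.L hP.hm.pos i G' P0 I0 hG'pos hGK hi).trans ?_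
    have hI0' : |(I0 : ℝ)| * |(D : ℝ)| ≤ 2 * G' * P.J * (P.B : ℝ) ^ P.k := by
      have : ((|I0| * |D| : ℤ) : ℝ) ≤ ((2 * G' * P.J * (P.B : ℤ) ^ P.k : ℤ) : ℝ) := by
        exact_mod_cast hI0
      push_cast at this
      exact this
    rw [div_le_div_iff₀ (by positivity) hDpos]
    have hpi : Real.pi ≤ 4 := Real.pi_le_four
    calc 2 * Real.pi * (P.K * P.L * |(I0 : ℝ)|) * |(D : ℝ)|
        = 2 * Real.pi * (P.K * P.L) * (|(I0 : ℝ)| * |(D : ℝ)|) := by ring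
      _ ≤ 2 * Real.pi * (P.η * P.A * (P.B : ℝ) ^ P.k) * (2 * G' * P.J * (P.B : ℝ) ^ P.k) := by
          apply mul_le_mul _ hI0' (by positivity) (by positivity)
          apply mul_le_mul_of_nonneg_left hP.hKL (by positivity)
      _ ≤ 2 * 4 * (P.η * P.A * (P.B : ℝ) ^ P.k) * (2 * G' * P.J * (P.B : ℝ) ^ P.k) := by
          gcongr
      _ = 2 * P.η * (P.B : ℝ) ^ (2 * P.k) * (G' * (8 * P.A * P.J)) := by
          rw [two_mul P.k, pow_add]; ring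
      _ ≤ 2 * P.η * (P.B : ℝ) ^ (2 * P.k) * (G' * P.m) := by gcongr
  constructor
  · exact main z.1 P' (G' * z.1 - P.m * P') (by ring) hclose.1
  · exact main z.2 (-Q') (G' * z.2 + P.m * Q') (by ring) hclose.2

/-- Bound (a). -/
theorem Par.ExS_le_a {P : Par} (hP : P.Ok) (x y : Fin P.r → ℤ) (hx : x ∈ P.T) (hy : y ∈ P.T)
    (l0 : Fin P.r) (hne : x l0 ≠ y l0) (q : Fin (P.r + 1)) (D : ℤ)
    (hD : D = VV P.n P.k x l0.succ * VV P.n P.k y q - VV P.n P.k x q * VV P.n P.k y l0.succ)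
    (hD0 : D ≠ 0) :
    P.ExS x y ≤ 1500 * ((P.n ^ P.k : ℕ) : ℝ) ^ 2 * P.J ^ 2 * P.C0 ^ P.k * (gE P.k x y / |(D : ℝ)|) := by
  have h1 := P.ExS_le_card x y
  have h2 := Par.card_Ex_le hP x y hx hy l0 hne q D hD hD0
  have hB0 : (0 : ℝ) < P.B0 := by exact_mod_cast hP.hB0
  have hDpos : (0 : ℝ) < |(D : ℝ)| := by rw [abs_pos]; exact_mod_cast hD0
  have hC0 : (P.B : ℝ) ≤ P.C0 * P.B0 := by exact_mod_cast hP.hC0
  have h3 : (P.B : ℝ) ^ P.k ≤ P.C0 ^ P.k * P.B0 ^ P.k := by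
    rw [← mul_pow]; gcongr
  calc P.ExS x y ≤ 4 * (P.Ex x y).card := h1
    _ ≤ 4 * (375 * ((P.n ^ P.k : ℕ) : ℝ) ^ 2 * gE P.k x y * P.J ^ 2 * P.B ^ P.k /
      (P.B0 ^ P.k * |(D : ℝ)|)) := by gcongr
    _ ≤ 4 * (375 * ((P.n ^ P.k : ℕ) : ℝ) ^ 2 * gE P.k x y * P.J ^ 2 * (P.C0 ^ P.k * P.B0 ^ P.k) /
      (P.B0 ^ P.k * |(D : ℝ)|)) := by gcongr
    _ = _ := by field_simp; ring

/-- Bound (b). -/
theorem Par.ExS_le_b {P : Par} (hP : P.Ok) (x y : Fin P.r → ℤ) (hx : x ∈ P.T) (hy : y ∈ P.T)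
    (l0 : Fin P.r) (hne : x l0 ≠ y l0) (q : Fin (P.r + 1)) (D : ℤ)
    (hD : D = VV P.n P.k x l0.succ * VV P.n P.k y q - VV P.n P.k x q * VV P.n P.k y l0.succ)
    (hD0 : D ≠ 0) (hgG : gE P.k x y ≤ P.G) :
    P.ExS x y ≤ 1500 * ((P.n ^ P.k : ℕ) : ℝ) ^ 2 * P.J ^ 2 * P.C0 ^ P.k * P.G *
      (P.η ^ 2 * P.B ^ (4 * P.k) / |(D : ℝ)| ^ 3) := by
  have h2 := Par.card_Ex_le hP x y hx hy l0 hne q D hD hD0
  have hB0 : (0 : ℝ) < P.B0 := by exact_mod_cast hP.hB0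
  have hDpos : (0 : ℝ) < |(D : ℝ)| := by rw [abs_pos]; exact_mod_cast hD0
  have hC0 : (P.B : ℝ) ≤ P.C0 * P.B0 := by exact_mod_cast hP.hC0
  have hη := hP.hη
  have h3 : (P.B : ℝ) ^ P.k ≤ P.C0 ^ P.k * P.B0 ^ P.k := by
    rw [← mul_pow]; gcongr
  have hgG' : (gE P.k x y : ℝ) ≤ P.G := by exact_mod_cast hgG
  have h4 : P.ExS x y ≤ (P.Ex x y).card * (2 * P.η * P.B ^ (2 * P.k) / |(D : ℝ)|) ^ 2 := by
    unfold Par.ExS
    calc _ ≤ ∑ z ∈ P.Ex x y, (2 * P.η * P.B ^ (2 * P.k) / |(D : ℝ)|) ^ 2 := by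
          apply Finset.sum_le_sum
          intro z hz
          obtain ⟨a1, a2⟩ := Par.psi_small hP x y hx hy l0 hne q D hD hD0 hgG z hz
          rw [sq]
          exact mul_le_mul a1 a2 (psiN_nonneg _ _ _ _) (by positivity)
      _ = _ := by rw [Finset.sum_const, nsmul_eq_mul]
  calc P.ExS x y ≤ _ := h4
    _ ≤ (375 * ((P.n ^ P.k : ℕ) : ℝ) ^ 2 * gE P.k x y * P.J ^ 2 * P.B ^ P.k /
      (P.B0 ^ P.k * |(D : ℝ)|)) * (2 * P.η * P.B ^ (2 * P.k) / |(D : ℝ)|) ^ 2 := by gcongr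
    _ ≤ (375 * ((P.n ^ P.k : ℕ) : ℝ) ^ 2 * P.G * P.J ^ 2 * (P.C0 ^ P.k * P.B0 ^ P.k) /
      (P.B0 ^ P.k * |(D : ℝ)|)) * (2 * P.η * P.B ^ (2 * P.k) / |(D : ℝ)|) ^ 2 := by gcongr
    _ = _ := by
        have e : (P.B : ℝ) ^ (4 * P.k) = (P.B ^ (2 * P.k)) ^ 2 := by rw [← pow_mul]; congr 1; ring
        rw [e]
        field_simp
        ring

end Pool.Agent.H888.DH
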