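import Pool.Agent.H888.DH.Var1

set_option linter.unusedVariables false
set_option linter.unusedSectionVars false
set_option linter.style.haveILetI false

namespace Pool.Agent.H888.DH

open Finset Complex

theorem prod_le_pow_sub_two {r : ℕ} (f : Fin r → ℝ) (b : ℝ) (hb : 1 ≤ b) (l0 q : Fin r)
    (hlq : l0 ≠ q) (hf0 : ∀ l, 0 ≤ f l) (h0 : f l0 ≤ 1) (h1 : f q ≤ 1) (hf : ∀ l, f l ≤ b) :
    ∏ l, f l ≤ b ^ (r - 2) := by
  classical
  calc ∏ l, f l ≤ ∏ l, (if l = l0 ∨ l = q then 1 else b) := by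
        apply Finset.prod_le_prod (fun l _ => hf0 l)
        intro l _
        split_ifs with h
        · rcases h with rfl | rfl
          · exact h0
          · exact h1
        · exact hf l
    _ = b ^ (Finset.univ.filter (fun l => ¬ (l = l0 ∨ l = q))).card := by
        rw [Finset.prod_ite, Finset.prod_const_one, one_mul, Finset.prod_const]
    _ = b ^ (r - 2) := by
        congr 1
        have h2 : (Finset.univ.filter (fun l : Fin r => (l = l0 ∨ l = q))) = {l0, q} := by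
          ext l; simp
        have h3 := Finset.card_filter_add_card_filter_not (s := (Finset.univ : Finset (Fin r)))
          (fun l => (l = l0 ∨ l = q))
        rw [h2, Finset.card_pair hlq, Finset.card_univ, Fintype.card_fin] at h3
        omega

/-- Number of `y` with two coordinates prescribed, close to the line and in given classes. -/
theorem group_count {P : Par} (hP : P.Ok) (x : Fin P.r → ℤ) (hx : x ∈ P.T) (l0 q : Fin P.r)
    (hlq : l0 ≠ q) (u v : ℤ) (M : ℝ) (hM : 0 ≤ M) (g : ℕ) (hg : 1 ≤ g)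
    (Y : Finset (Fin P.r → ℤ))
    (hY : ∀ y ∈ Y, y ∈ P.T ∧ y l0 = u ∧ y q = v ∧ (∀ l, |((x l0 * y l - x l * u : ℤ) : ℝ)| ≤ M) ∧
      ∀ l, (g : ℤ) ∣ y l ^ P.k - x l ^ P.k) :
    (Y.card : ℝ) ≤ (beta P.k g * (2 * M / P.B0 / (g : ℝ) ^ ((1 : ℝ) / P.k) + 1)) ^ (P.r - 2) := by
  classical
  have hk := hP.hk
  set S : Fin P.r → Finset ℤ := fun l => (Finset.Icc (P.B0 : ℤ) P.B).filter (fun w =>
    |((x l0 * w - x l * u : ℤ) : ℝ)| ≤ M ∧ (g : ℤ) ∣ w ^ P.k - x l ^ P.k ∧ (l = l0 → w = u) ∧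
      (l = q → w = v)) with hS
  have hsub : Y ⊆ Fintype.piFinset S := by
    intro y hy
    obtain ⟨h1, h2, h3, h4, h5⟩ := hY y hy
    rw [Fintype.mem_piFinset]
    intro l
    rw [hS, Finset.mem_filter, Finset.mem_Icc]
    have := mem_T_pos hP h1 l
    refine ⟨⟨this.2.1, this.2.2⟩, h4 l, h5 l, ?_, ?_⟩
    · rintro rfl; exact h2
    · rintro rfl; exact h3
  set b : ℝ := beta P.k g * (2 * M / P.B0 / (g : ℝ) ^ ((1 : ℝ) / P.k) + 1) with hb
  have hg' : (0 : ℝ) < g := by exact_mod_cast hg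
  have hB0 : (0 : ℝ) < P.B0 := by exact_mod_cast hP.hB0
  have hθ : (0 : ℝ) < (g : ℝ) ^ ((1 : ℝ) / P.k) := Real.rpow_pos_of_pos hg' _
  have hb1 : 1 ≤ b := by
    have h1 : (1 : ℝ) ≤ beta P.k g := one_le_beta _ _ (by omega) (by omega)
    have h2 : (1 : ℝ) ≤ 2 * M / P.B0 / (g : ℝ) ^ ((1 : ℝ) / P.k) + 1 := by
      have : 0 ≤ 2 * M / P.B0 / (g : ℝ) ^ ((1 : ℝ) / P.k) := by positivity
      linarith
    nlinarith
  calc (Y.card : ℝ) ≤ ((Fintype.piFinset S).card : ℝ) := by exact_mod_cast Finset.card_le_card hsub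
    _ = ∏ l, ((S l).card : ℝ) := by rw [Fintype.card_piFinset]; push_cast; rfl
    _ ≤ b ^ (P.r - 2) := by
        apply prod_le_pow_sub_two _ b hb1 l0 q hlq (fun l => by positivity)
        · have : (S l0).card ≤ 1 := by
            rw [Finset.card_le_one]
            intro a ha c hc
            rw [hS, Finset.mem_filter] at ha hc
            rw [ha.2.2.2.1 rfl, hc.2.2.2.1 rfl]
          exact_mod_cast this
        · have : (S q).card ≤ 1 := by
            rw [Finset.card_le_one]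
            intro a ha c hc
            rw [hS, Finset.mem_filter] at ha hc
            rw [ha.2.2.2.2 rfl, hc.2.2.2.2 rfl]
          exact_mod_cast this
        · intro l
          rw [hb]
          apply card_pow_congr_le P.k g (by omega) hg (S l) _ (2 * M / P.B0) (by positivity)
          · intro a ha c hc
            rw [hS, Finset.mem_filter] at ha hc
            have e1 : ((a : ℝ) - c) * (x l0 : ℝ) ≤ 2 * M := by
              have h1 := (abs_le.mp ha.2.1).2
              have h2 := (abs_le.mp hc.2.1).1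
              push_cast at h1 h2
              linarith
            have hx0 : (P.B0 : ℝ) ≤ x l0 := by exact_mod_cast (mem_T_pos hP hx l0).2.1
            rcases le_total ((a : ℝ) - c) 0 with h0 | h0
            · have : 0 ≤ 2 * M / P.B0 := by positivity
              linarith
            · rw [le_div_iff₀ hB0]
              calc ((a : ℝ) - c) * P.B0 ≤ (a - c) * x l0 := mul_le_mul_of_nonneg_left hx0 h0
                _ ≤ 2 * M := e1
          · intro a ha c hc
            rw [hS, Finset.mem_filter] at ha hc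
            have := dvd_sub ha.2.2.1 hc.2.2.1
            rwa [sub_sub_sub_cancel_right] at this

theorem beta_one (k : ℕ) : beta k 1 = 1 := by
  unfold beta; simp

theorem group_count_one {P : Par} (hP : P.Ok) (x : Fin P.r → ℤ) (hx : x ∈ P.T) (l0 q : Fin P.r)
    (hlq : l0 ≠ q) (u v : ℤ) (M : ℝ) (hM : 0 ≤ M)
    (Y : Finset (Fin P.r → ℤ))
    (hY : ∀ y ∈ Y, y ∈ P.T ∧ y l0 = u ∧ y q = v ∧ (∀ l, |((x l0 * y l - x l * u : ℤ) : ℝ)| ≤ M)) :
    (Y.card : ℝ) ≤ (2 * M / P.B0 + 1) ^ (P.r - 2) := by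
  have := group_count hP x hx l0 q hlq u v M hM 1 le_rfl Y (fun y hy => by
    obtain ⟨h1, h2, h3, h4⟩ := hY y hy
    exact ⟨h1, h2, h3, h4, fun l => by simp⟩)
  rwa [beta_one, Nat.cast_one, one_mul, Real.one_rpow, div_one] at this

/-- Pairs based at `(l0,q)`. -/
noncomputable def Par.Yb (P : Par) (x : Fin P.r → ℤ) (l0 q : Fin P.r) : Finset (Fin P.r → ℤ) := by
  classical
  exact P.T.filter (fun y => x l0 ≠ y l0 ∧ x l0 * y q - x q * y l0 ≠ 0 ∧
    ∀ l, |x l0 * y l - x l * y l0| ≤ |x l0 * y q - x q * y l0|)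

theorem Par.mem_Yb {P : Par} {x : Fin P.r → ℤ} {l0 q : Fin P.r} {y : Fin P.r → ℤ} :
    y ∈ P.Yb x l0 q ↔ y ∈ P.T ∧ x l0 ≠ y l0 ∧ x l0 * y q - x q * y l0 ≠ 0 ∧
    ∀ l, |x l0 * y l - x l * y l0| ≤ |x l0 * y q - x q * y l0| := by
  classical
  rw [Par.Yb, Finset.mem_filter]

theorem D_lower {P : Par} (hP : P.Ok) {x y : Fin P.r → ℤ} (hx : x ∈ P.T) (hy : y ∈ P.T)
    (l0 q : Fin P.r) :
    |((x l0 * y q - x q * y l0 : ℤ) : ℝ)| * (P.B0 : ℝ) ^ (2 * (P.k - 1)) ≤
      |((VV P.n P.k x l0.succ * VV P.n P.k y q.succ - VV P.n P.k x q.succ * VV P.n P.k y l0.succ : ℤ) : ℝ)| := by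
  have hk := hP.hk
  have h0 : (0 : ℤ) ≤ P.B0 := by positivity
  have hsq : ∀ a b : ℤ, (P.B0 : ℤ) ≤ a → (P.B0 : ℤ) ≤ b → (P.B0 : ℤ) * P.B0 ≤ a * b :=
    fun a b ha hb => mul_le_mul ha hb h0 (h0.trans ha)
  have h1 := abs_pow_sub_pow_ge P.k (by omega) (x l0 * y q) (x q * y l0) ((P.B0 : ℤ) * P.B0)
    (by positivity) (hsq _ _ (mem_T_pos hP hx l0).2.1 (mem_T_pos hP hy q).2.1)
    (hsq _ _ (mem_T_pos hP hx q).2.1 (mem_T_pos hP hy l0).2.1)
  rw [mul_pow, mul_pow, mul_pow, ← pow_add, ← two_mul] at h1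
  simp only [VV_succ]
  exact_mod_cast h1

/-- The constant `C₁`. -/
noncomputable def Par.C1 (P : Par) : ℝ := 1500 * ((P.n ^ P.k : ℕ) : ℝ) ^ 2 * P.J ^ 2 * P.C0 ^ P.k

theorem Par.C1_nonneg (P : Par) : 0 ≤ P.C1 := by unfold Par.C1; positivity

theorem Par.ExS_le_a' {P : Par} (hP : P.Ok) (x y : Fin P.r → ℤ) (hx : x ∈ P.T)
    (l0 q : Fin P.r) (hy : y ∈ P.Yb x l0 q) :
    P.ExS x y ≤ P.C1 * (gE P.k x y /
      (|((x l0 * y q - x q * y l0 : ℤ) : ℝ)| * (P.B0 : ℝ) ^ (2 * (P.k - 1)))) := by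
  obtain ⟨hyT, hne, hΔ, _⟩ := Par.mem_Yb.mp hy
  have hB0 : (0 : ℝ) < P.B0 := by exact_mod_cast hP.hB0
  have hMpos : (0 : ℝ) < |((x l0 * y q - x q * y l0 : ℤ) : ℝ)| := by
    rw [abs_pos]; exact_mod_cast hΔ
  have h1 := D_lower hP hx hyT l0 q
  set D := (VV P.n P.k x l0.succ * VV P.n P.k y q.succ - VV P.n P.k x q.succ * VV P.n P.k y l0.succ) with hD
  have hlow : (0 : ℝ) < |((x l0 * y q - x q * y l0 : ℤ) : ℝ)| * (P.B0 : ℝ) ^ (2 * (P.k - 1)) := by
    positivity
  have hD0 : D ≠ 0 := by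
    intro h0
    rw [h0] at h1
    simp only [Int.cast_zero, abs_zero] at h1
    linarith
  refine (Par.ExS_le_a hP x y hx hyT l0 hne q.succ D hD hD0).trans ?_
  unfold Par.C1
  apply mul_le_mul_of_nonneg_left _ (by positivity)
  exact div_le_div_of_nonneg_left (by positivity) hlow h1

theorem Par.ExS_le_b' {P : Par} (hP : P.Ok) (x y : Fin P.r → ℤ) (hx : x ∈ P.T)
    (l0 q : Fin P.r) (hy : y ∈ P.Yb x l0 q) (hgG : gE P.k x y ≤ P.G) :
    P.ExS x y ≤ P.C1 * P.G * (P.η ^ 2 * P.B ^ (4 * P.k) /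
      (|((x l0 * y q - x q * y l0 : ℤ) : ℝ)| * (P.B0 : ℝ) ^ (2 * (P.k - 1))) ^ 3) := by
  obtain ⟨hyT, hne, hΔ, _⟩ := Par.mem_Yb.mp hy
  have hB0 : (0 : ℝ) < P.B0 := by exact_mod_cast hP.hB0
  have hMpos : (0 : ℝ) < |((x l0 * y q - x q * y l0 : ℤ) : ℝ)| := by
    rw [abs_pos]; exact_mod_cast hΔ
  have h1 := D_lower hP hx hyT l0 q
  set D := (VV P.n P.k x l0.succ * VV P.n P.k y q.succ - VV P.n P.k x q.succ * VV P.n P.k y l0.succ) with hD
  have hlow : (0 : ℝ) < |((x l0 * y q - x q * y l0 : ℤ) : ℝ)| * (P.B0 : ℝ) ^ (2 * (P.k - 1)) := by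
    positivity
  have hD0 : D ≠ 0 := by
    intro h0
    rw [h0] at h1
    simp only [Int.cast_zero, abs_zero] at h1
    linarith
  refine (Par.ExS_le_b hP x y hx hyT l0 hne q.succ D hD hD0 hgG).trans ?_
  unfold Par.C1
  apply mul_le_mul_of_nonneg_left _ (by positivity)
  apply div_le_div_of_nonneg_left (by positivity) (by positivity)
  gcongr

/-- The numerical inequality for E1. -/
theorem E1_num (k r : ℕ) (hk : 3 ≤ k) (hr : 2 * k + 1 ≤ r) (B B0 C0 η M : ℝ) (hB0 : 1 ≤ B0)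
    (hBB : B0 ≤ B) (hC0 : B ≤ C0 * B0) (hη : 0 ≤ η) (hM : 1 ≤ M) (hMB : M ≤ B ^ 2) :
    (2 * M / B0 + 1) ^ (r - 2) * min (1 / (M * B0 ^ (2 * (k - 1))))
      (η ^ 2 * B ^ (4 * k) / (M * B0 ^ (2 * (k - 1))) ^ 3) ≤
      3 ^ r * C0 ^ (6 * k + r) * (η ^ 2 * B ^ r / B ^ (2 * k + 2) + B ^ 2 / B ^ (2 * k)) := by
  have hB0' : 0 < B0 := by linarith
  have hB : 1 ≤ B := by linarith
  have hB' : 0 < B := by linarith
  have hC1 : 1 ≤ C0 := by
    by_contra hcon
    push Not at hcon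
    nlinarith
  have hC' : 0 < C0 := by linarith
  have hM0 : 0 < M := by linarith
  rcases le_total B0 M with h | h
  · -- M ≥ B0
    have h1 : 2 * M / B0 + 1 ≤ 3 * M / B0 := by
      have : (1 : ℝ) ≤ M / B0 := by rw [le_div_iff₀ hB0']; linarith
      have e : 3 * M / B0 = 2 * M / B0 + M / B0 := by ring
      rw [e]; linarith
    calc (2 * M / B0 + 1) ^ (r - 2) * min (1 / (M * B0 ^ (2 * (k - 1))))
          (η ^ 2 * B ^ (4 * k) / (M * B0 ^ (2 * (k - 1))) ^ 3)
        ≤ (3 * M / B0) ^ (r - 2) * (η ^ 2 * B ^ (4 * k) / (M * B0 ^ (2 * (k - 1))) ^ 3) := by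
          apply mul_le_mul _ (min_le_right _ _) _ (by positivity)
          · gcongr
          · apply le_min <;> positivity
      _ = 3 ^ (r - 2) * η ^ 2 * (B ^ (4 * k) * M ^ (r - 5) / B0 ^ (r + 6 * k - 8)) := by
          have e1 : M ^ (r - 2) = M ^ (r - 5) * M ^ 3 := by rw [← pow_add]; congr 1; omega
          have e2 : B0 ^ (r + 6 * k - 8) = B0 ^ (r - 2) * (B0 ^ (2 * (k - 1))) ^ 3 := by
            rw [← pow_mul, ← pow_add]; congr 1; omega
          rw [div_pow, mul_pow, mul_pow M, e1, e2]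
          field_simp
      _ ≤ 3 ^ r * η ^ 2 * (C0 ^ (6 * k + r) * (B ^ r / B ^ (2 * k + 2))) := by
          apply mul_le_mul
          · apply mul_le_mul_of_nonneg_right _ (by positivity)
            exact pow_le_pow_right₀ (by norm_num) (by omega)
          · rw [← mul_div_assoc, div_le_div_iff₀ (by positivity) (by positivity)]
            have e1 : M ^ (r - 5) ≤ B ^ (2 * (r - 5)) := by
              calc M ^ (r - 5) ≤ (B ^ 2) ^ (r - 5) := by gcongr
                _ = _ := by rw [← pow_mul]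
            have e2 : B ^ (r + 6 * k - 8) ≤ C0 ^ (r + 6 * k - 8) * B0 ^ (r + 6 * k - 8) := by
              rw [← mul_pow]; gcongr
            have e3 : C0 ^ (r + 6 * k - 8) ≤ C0 ^ (6 * k + r) := pow_le_pow_right₀ hC1 (by omega)
            calc B ^ (4 * k) * M ^ (r - 5) * B ^ (2 * k + 2)
                ≤ B ^ (4 * k) * B ^ (2 * (r - 5)) * B ^ (2 * k + 2) := by gcongr
              _ = B ^ (r + 6 * k - 8) * B ^ r := by
                  rw [← pow_add, ← pow_add, ← pow_add]; congr 1; omega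
              _ ≤ (C0 ^ (r + 6 * k - 8) * B0 ^ (r + 6 * k - 8)) * B ^ r := by gcongr
              _ ≤ (C0 ^ (6 * k + r) * B0 ^ (r + 6 * k - 8)) * B ^ r := by gcongr
              _ = C0 ^ (6 * k + r) * B ^ r * B0 ^ (r + 6 * k - 8) := by ring
          · positivity
          · positivity
      _ = 3 ^ r * C0 ^ (6 * k + r) * (η ^ 2 * B ^ r / B ^ (2 * k + 2)) := by ring
      _ ≤ _ := by
          apply mul_le_mul_of_nonneg_left _ (by positivity)
          have : 0 ≤ B ^ 2 / B ^ (2 * k) := by positivity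
          linarith
  · have h1 : 2 * M / B0 + 1 ≤ 3 := by
      have : M / B0 ≤ 1 := by rw [div_le_iff₀ hB0']; linarith
      have e : 2 * M / B0 = 2 * (M / B0) := by ring
      rw [e]; linarith
    calc (2 * M / B0 + 1) ^ (r - 2) * min (1 / (M * B0 ^ (2 * (k - 1))))
          (η ^ 2 * B ^ (4 * k) / (M * B0 ^ (2 * (k - 1))) ^ 3)
        ≤ 3 ^ (r - 2) * (1 / (M * B0 ^ (2 * (k - 1)))) := by
          apply mul_le_mul _ (min_le_left _ _) _ (by positivity)
          · gcongr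
          · apply le_min <;> positivity
      _ ≤ 3 ^ r * (C0 ^ (6 * k + r) * (B ^ 2 / B ^ (2 * k))) := by
          apply mul_le_mul
          · exact pow_le_pow_right₀ (by norm_num) (by omega)
          · rw [← mul_div_assoc, div_le_div_iff₀ (by positivity) (by positivity), one_mul]
            have e2 : B ^ (2 * (k - 1)) ≤ C0 ^ (2 * (k - 1)) * B0 ^ (2 * (k - 1)) := by
              rw [← mul_pow]; gcongr
            have e3 : C0 ^ (2 * (k - 1)) ≤ C0 ^ (6 * k + r) := pow_le_pow_right₀ hC1 (by omega)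
            calc B ^ (2 * k) = B ^ (2 * (k - 1)) * B ^ 2 := by rw [← pow_add]; congr 1; omega
              _ ≤ (C0 ^ (2 * (k - 1)) * B0 ^ (2 * (k - 1))) * B ^ 2 := by gcongr
              _ ≤ (C0 ^ (6 * k + r) * (1 * B0 ^ (2 * (k - 1)))) * B ^ 2 := by
                  rw [one_mul]; gcongr
              _ ≤ (C0 ^ (6 * k + r) * (M * B0 ^ (2 * (k - 1)))) * B ^ 2 := by gcongr
              _ = _ := by ring
          · positivity
          · positivity
      _ ≤ _ := by
          have : 0 ≤ η ^ 2 * B ^ r / B ^ (2 * k + 2) := by positivity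
          rw [← mul_assoc]
          apply mul_le_mul_of_nonneg_left _ (by positivity)
          linarith

/-- E1, for fixed `x`, base `(l0, q)`. -/
theorem Par.E1 {P : Par} (hP : P.Ok) (x : Fin P.r → ℤ) (hx : x ∈ P.T) (l0 q : Fin P.r) :
    ∑ y ∈ (P.Yb x l0 q).filter (fun y => gE P.k x y ≤ P.G), P.ExS x y ≤
      (P.B : ℝ) ^ 2 * (P.C1 * P.G * (3 ^ P.r * P.C0 ^ (6 * P.k + P.r) *
        (P.η ^ 2 * P.B ^ P.r / P.B ^ (2 * P.k + 2) + P.B ^ 2 / P.B ^ (2 * P.k)))) := by
  classical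
  have hk := hP.hk
  have hB : 1 ≤ P.B := hP.hB0.trans hP.hB0B
  by_cases hlq : l0 = q
  · -- empty
    subst hlq
    have : (P.Yb x l0 l0).filter (fun y => gE P.k x y ≤ P.G) = ∅ := by
      rw [Finset.filter_eq_empty_iff]
      intro y hy
      exact absurd (by ring) (Par.mem_Yb.mp hy).2.2.1
    rw [this, Finset.sum_empty]
    have := P.C1_nonneg
    have := hP.hη
    positivity
  set Y := (P.Yb x l0 q).filter (fun y => gE P.k x y ≤ P.G) with hYdef
  set f : (Fin P.r → ℤ) → ℤ × ℤ := fun y => (y l0, y q) with hf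
  set U : Finset (ℤ × ℤ) := (Finset.Icc (1 : ℤ) P.B) ×ˢ (Finset.Icc (1 : ℤ) P.B) with hU
  have hmaps : ∀ y ∈ Y, f y ∈ U := by
    intro y hy
    rw [hYdef, Finset.mem_filter] at hy
    have hyT := (Par.mem_Yb.mp hy.1).1
    rw [hU, Finset.mem_product, Finset.mem_Icc, Finset.mem_Icc]
    exact ⟨⟨(mem_T_pos hP hyT l0).1, (mem_T_pos hP hyT l0).2.2⟩,
      ⟨(mem_T_pos hP hyT q).1, (mem_T_pos hP hyT q).2.2⟩⟩
  set bd : ℝ := P.C1 * P.G * (3 ^ P.r * P.C0 ^ (6 * P.k + P.r) *
        (P.η ^ 2 * P.B ^ P.r / P.B ^ (2 * P.k + 2) + P.B ^ 2 / P.B ^ (2 * P.k))) with hbd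
  have hη := hP.hη
  have hC1 := P.C1_nonneg
  have hbd0 : 0 ≤ bd := by positivity
  rw [← Finset.sum_fiberwise_of_maps_to hmaps]
  calc ∑ t ∈ U, ∑ y ∈ Y.filter (fun y => f y = t), P.ExS x y ≤ ∑ t ∈ U, bd := by
        apply Finset.sum_le_sum
        intro t _
        rcases (Y.filter (fun y => f y = t)).eq_empty_or_nonempty with hemp | ⟨y0, hy0⟩
        · rw [hemp, Finset.sum_empty]; exact hbd0
        -- M
        set M : ℝ := |((x l0 * t.2 - x q * t.1 : ℤ) : ℝ)| with hMdef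
        have hmem : ∀ y ∈ Y.filter (fun y => f y = t), y ∈ P.T ∧ y l0 = t.1 ∧ y q = t.2 ∧
            x l0 ≠ y l0 ∧ x l0 * y q - x q * y l0 ≠ 0 ∧
            (∀ l, |x l0 * y l - x l * y l0| ≤ |x l0 * y q - x q * y l0|) ∧ gE P.k x y ≤ P.G := by
          intro y hy
          rw [Finset.mem_filter, hYdef, Finset.mem_filter] at hy
          obtain ⟨⟨hyb, hg⟩, hft⟩ := hy
          obtain ⟨a1, a2, a3, a4⟩ := Par.mem_Yb.mp hyb
          refine ⟨a1, congrArg Prod.fst hft, congrArg Prod.snd hft, a2, a3, a4, hg⟩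
        have hM1 : 1 ≤ M := by
          obtain ⟨a1, a2, a3, a4, a5, a6, a7⟩ := hmem y0 hy0
          rw [a2, a3] at a5
          have : (1 : ℤ) ≤ |x l0 * t.2 - x q * t.1| := Int.one_le_abs a5
          rw [hMdef]; exact_mod_cast this
        have hMB : M ≤ (P.B : ℝ) ^ 2 := by
          obtain ⟨a1, a2, a3, a4, a5, a6, a7⟩ := hmem y0 hy0
          have b1 := mem_T_pos hP hx l0
          have b2 := mem_T_pos hP hx q
          have b3 := mem_T_pos hP a1 l0
          have b4 := mem_T_pos hP a1 q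
          rw [a2] at b3
          rw [a3] at b4
          have hBnn : (0 : ℤ) ≤ P.B := by positivity
          have c1 : x l0 * t.2 ≤ (P.B : ℤ) * P.B := mul_le_mul b1.2.2 b4.2.2 (by linarith) hBnn
          have c2 : x q * t.1 ≤ (P.B : ℤ) * P.B := mul_le_mul b2.2.2 b3.2.2 (by linarith) hBnn
          have c3 : 0 ≤ x l0 * t.2 := mul_nonneg (by linarith) (by linarith)
          have c4 : 0 ≤ x q * t.1 := mul_nonneg (by linarith) (by linarith)
          have : |x l0 * t.2 - x q * t.1| ≤ (P.B : ℤ) ^ 2 := by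
            rw [abs_le, sq]; constructor <;> linarith
          rw [hMdef]; exact_mod_cast this
        have hcount := group_count_one hP x hx l0 q hlq t.1 t.2 M (by linarith)
          (Y.filter (fun y => f y = t)) (by
            intro y hy
            obtain ⟨a1, a2, a3, a4, a5, a6, a7⟩ := hmem y hy
            refine ⟨a1, a2, a3, ?_⟩
            intro l
            have := a6 l
            rw [a2, a3] at this
            rw [hMdef]; exact_mod_cast this)
        have hB0 : (1 : ℝ) ≤ P.B0 := by exact_mod_cast hP.hB0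
        have hB0' : (0 : ℝ) < P.B0 := by linarith
        have hMpos : 0 < M := by linarith
        have hterm : ∀ y ∈ Y.filter (fun y => f y = t), P.ExS x y ≤ P.C1 * P.G *
            min (1 / (M * (P.B0 : ℝ) ^ (2 * (P.k - 1))))
              (P.η ^ 2 * P.B ^ (4 * P.k) / (M * (P.B0 : ℝ) ^ (2 * (P.k - 1))) ^ 3) := by
          intro y hy
          obtain ⟨a1, a2, a3, a4, a5, a6, a7⟩ := hmem y hy
          have hyb : y ∈ P.Yb x l0 q := Par.mem_Yb.mpr ⟨a1, a4, a5, a6⟩
          have e1 := Par.ExS_le_a' hP x y hx l0 q hyb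
          have e2 := Par.ExS_le_b' hP x y hx l0 q hyb a7
          rw [a2, a3, ← hMdef] at e1 e2
          rw [mul_min_of_nonneg _ _ (by positivity)]
          apply le_min _ e2
          refine e1.trans ?_
          rw [mul_assoc]
          apply mul_le_mul_of_nonneg_left _ hC1
          have hgG : (gE P.k x y : ℝ) ≤ P.G := by exact_mod_cast a7
          rw [mul_one_div]
          gcongr
        calc ∑ y ∈ Y.filter (fun y => f y = t), P.ExS x y
            ≤ (Y.filter (fun y => f y = t)).card • (P.C1 * P.G *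
            min (1 / (M * (P.B0 : ℝ) ^ (2 * (P.k - 1))))
              (P.η ^ 2 * P.B ^ (4 * P.k) / (M * (P.B0 : ℝ) ^ (2 * (P.k - 1))) ^ 3)) :=
              Finset.sum_le_card_nsmul _ _ _ hterm
          _ = ((Y.filter (fun y => f y = t)).card : ℝ) * (P.C1 * P.G *
            min (1 / (M * (P.B0 : ℝ) ^ (2 * (P.k - 1))))
              (P.η ^ 2 * P.B ^ (4 * P.k) / (M * (P.B0 : ℝ) ^ (2 * (P.k - 1))) ^ 3)) := by
              rw [nsmul_eq_mul]
          _ ≤ (2 * M / P.B0 + 1) ^ (P.r - 2) * (P.C1 * P.G *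
            min (1 / (M * (P.B0 : ℝ) ^ (2 * (P.k - 1))))
              (P.η ^ 2 * P.B ^ (4 * P.k) / (M * (P.B0 : ℝ) ^ (2 * (P.k - 1))) ^ 3)) := by
              apply mul_le_mul_of_nonneg_right hcount
              apply mul_nonneg (by positivity)
              apply le_min <;> positivity
          _ = P.C1 * P.G * ((2 * M / P.B0 + 1) ^ (P.r - 2) *
            min (1 / (M * (P.B0 : ℝ) ^ (2 * (P.k - 1))))
              (P.η ^ 2 * P.B ^ (4 * P.k) / (M * (P.B0 : ℝ) ^ (2 * (P.k - 1))) ^ 3)) := by ring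
          _ ≤ bd := by
              rw [hbd]
              apply mul_le_mul_of_nonneg_left _ (by positivity)
              apply E1_num P.k P.r hP.hk hP.hr P.B P.B0 P.C0 P.η M hB0 (by exact_mod_cast hP.hB0B)
                (by exact_mod_cast hP.hC0) hη hM1 hMB
    _ = _ := by
        rw [Finset.sum_const, hU, Finset.card_product, Int.card_Icc, nsmul_eq_mul]
        have h2 : ((P.B : ℤ) + 1 - 1).toNat = P.B := by omega
        rw [h2]; push_cast; ring

end Pool.Agent.H888.DH
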