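import Pool.Agent.H888.DH.Var2

set_option linter.unusedVariables false
set_option linter.unusedSectionVars false
set_option linter.style.haveILetI false

namespace Pool.Agent.H888.DH

open Finset Complex

/-- `k`-th root. -/
noncomputable def th (k g : ℕ) : ℝ := (g : ℝ) ^ ((1 : ℝ) / k)

theorem th_pow (k g : ℕ) (hk : 1 ≤ k) : (th k g) ^ k = g := by
  unfold th
  rw [← Real.rpow_natCast, ← Real.rpow_mul (by positivity)]
  have : (k : ℝ) ≠ 0 := by positivity
  rw [one_div_mul_cancel this, Real.rpow_one]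

theorem th_ge_one (k g : ℕ) (hg : 1 ≤ g) : 1 ≤ th k g := by
  unfold th
  apply Real.one_le_rpow (by exact_mod_cast hg) (by positivity)

theorem th_le (k g B : ℕ) (hk : 1 ≤ k) (hg : g ≤ B ^ k) : th k g ≤ B := by
  have h1 : (th k g) ^ k ≤ (B : ℝ) ^ k := by
    rw [th_pow k g hk]; exact_mod_cast hg
  exact le_of_pow_le_pow_left₀ (by omega) (by positivity) h1

theorem div_th_le (k g B : ℕ) (hk : 1 ≤ k) (hg1 : 1 ≤ g) (hg : g ≤ B ^ k) :
    (g : ℝ) / th k g ≤ (B : ℝ) ^ (k - 1) := by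
  have h1 := th_ge_one k g hg1
  have h2 := th_le k g B hk hg
  rw [div_le_iff₀ (by linarith)]
  calc (g : ℝ) = (th k g) ^ (k - 1) * th k g := by
        rw [← pow_succ, Nat.sub_add_cancel hk, th_pow k g hk]
    _ ≤ _ := by gcongr

theorem add_one_pow_le (a : ℝ) (ha : 0 ≤ a) (t : ℕ) : (a + 1) ^ t ≤ 2 ^ t * (a ^ t + 1) := by
  rcases le_total a 1 with h | h
  · calc (a + 1) ^ t ≤ 2 ^ t := by gcongr; linarith
      _ ≤ 2 ^ t * (a ^ t + 1) := by
        have : 0 ≤ a ^ t := by positivity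
        nlinarith [pow_pos (show (0:ℝ) < 2 by norm_num) t]
  · calc (a + 1) ^ t ≤ (2 * a) ^ t := by gcongr; linarith
      _ = 2 ^ t * a ^ t := by rw [mul_pow]
      _ ≤ 2 ^ t * (a ^ t + 1) := by
        have : (0 : ℝ) < 2 ^ t := by positivity
        nlinarith

theorem E2_num (k r : ℕ) (hk : 3 ≤ k) (hr : 2 * k + 1 ≤ r) (B B0 C0 M θ β g : ℝ) (hB0 : 1 ≤ B0)
    (hBB : B0 ≤ B) (hC0 : B ≤ C0 * B0) (hM : 1 ≤ M) (hMB : M ≤ B ^ 2) (hθ : 1 ≤ θ) (hβ : 1 ≤ β)
    (hg : 0 ≤ g) :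
    (β * (2 * M / B0 / θ + 1)) ^ (r - 2) * (g / (M * B0 ^ (2 * (k - 1)))) ≤
      β ^ (r - 2) * g * (4 ^ r * C0 ^ (2 * k + r)) * (B ^ 2 / B ^ (2 * k)) *
        (B ^ (r - 4) / θ ^ (r - 2) + 1) := by
  have hB0' : 0 < B0 := by linarith
  have hB : 1 ≤ B := by linarith
  have hB' : 0 < B := by linarith
  have hC1 : 1 ≤ C0 := by
    by_contra hcon
    push Not at hcon
    nlinarith
  have hC' : 0 < C0 := by linarith
  have hM0 : 0 < M := by linarith
  have hθ0 : 0 < θ := by linarith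
  have h1 : (2 * M / B0 / θ + 1) ^ (r - 2) ≤ 2 ^ (r - 2) * ((2 * M / B0 / θ) ^ (r - 2) + 1) :=
    add_one_pow_le _ (by positivity) _
  have h2 : ((2 * M / B0 / θ) ^ (r - 2) + 1) / M ≤
      2 ^ (r - 2) * C0 ^ (r - 2) * (B ^ (r - 4) / θ ^ (r - 2) + 1) := by
    have e1 : (2 * M / B0 / θ) ^ (r - 2) / M ≤ 2 ^ (r - 2) * C0 ^ (r - 2) * (B ^ (r - 4) / θ ^ (r - 2)) := by
      have e0 : (2 * M / B0 / θ) ^ (r - 2) / M = 2 ^ (r - 2) * (M ^ (r - 3) / (B0 ^ (r - 2) * θ ^ (r - 2))) := by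
        have : M ^ (r - 2) = M ^ (r - 3) * M := by rw [← pow_succ]; congr 1; omega
        rw [div_pow, div_pow, mul_pow, this]
        field_simp
      rw [e0, mul_assoc]
      apply mul_le_mul_of_nonneg_left _ (by positivity)
      rw [← mul_div_assoc, div_le_div_iff₀ (by positivity) (by positivity)]
      have e2 : M ^ (r - 3) ≤ B ^ (2 * (r - 3)) := by
        calc M ^ (r - 3) ≤ (B ^ 2) ^ (r - 3) := by gcongr
          _ = _ := by rw [← pow_mul]
      have e3 : B ^ (r - 2) ≤ C0 ^ (r - 2) * B0 ^ (r - 2) := by rw [← mul_pow]; gcongr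
      calc M ^ (r - 3) * θ ^ (r - 2) ≤ B ^ (2 * (r - 3)) * θ ^ (r - 2) := by gcongr
        _ = B ^ (r - 2) * B ^ (r - 4) * θ ^ (r - 2) := by
            rw [← pow_add]; congr 2; omega
        _ ≤ (C0 ^ (r - 2) * B0 ^ (r - 2)) * B ^ (r - 4) * θ ^ (r - 2) := by gcongr
        _ = _ := by ring
    have e2 : 1 / M ≤ 2 ^ (r - 2) * C0 ^ (r - 2) * 1 := by
      have a1 : 1 / M ≤ 1 := by rw [div_le_iff₀ hM0]; linarith
      have a2 : (1 : ℝ) ≤ 2 ^ (r - 2) := one_le_pow₀ (by norm_num)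
      have a3 : (1 : ℝ) ≤ C0 ^ (r - 2) := one_le_pow₀ hC1
      have a4 : (1 : ℝ) ≤ 2 ^ (r - 2) * C0 ^ (r - 2) := by nlinarith
      linarith
    rw [add_div, mul_add]
    exact add_le_add e1 e2
  have h3 : 1 / B0 ^ (2 * (k - 1)) ≤ C0 ^ (2 * k) * (B ^ 2 / B ^ (2 * k)) := by
    rw [← mul_div_assoc, div_le_div_iff₀ (by positivity) (by positivity), one_mul]
    have e2 : B ^ (2 * (k - 1)) ≤ C0 ^ (2 * (k - 1)) * B0 ^ (2 * (k - 1)) := by
      rw [← mul_pow]; gcongr
    have e3 : C0 ^ (2 * (k - 1)) ≤ C0 ^ (2 * k) := pow_le_pow_right₀ hC1 (by omega)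
    calc B ^ (2 * k) = B ^ (2 * (k - 1)) * B ^ 2 := by rw [← pow_add]; congr 1; omega
      _ ≤ (C0 ^ (2 * (k - 1)) * B0 ^ (2 * (k - 1))) * B ^ 2 := by gcongr
      _ ≤ (C0 ^ (2 * k) * B0 ^ (2 * (k - 1))) * B ^ 2 := by gcongr
      _ = _ := by ring
  calc (β * (2 * M / B0 / θ + 1)) ^ (r - 2) * (g / (M * B0 ^ (2 * (k - 1))))
      = β ^ (r - 2) * g * ((2 * M / B0 / θ + 1) ^ (r - 2) / M) * (1 / B0 ^ (2 * (k - 1))) := by
        rw [mul_pow]; field_simp
    _ ≤ β ^ (r - 2) * g * ((2 ^ (r - 2) * ((2 * M / B0 / θ) ^ (r - 2) + 1)) / M) *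
        (C0 ^ (2 * k) * (B ^ 2 / B ^ (2 * k))) := by gcongr
    _ = β ^ (r - 2) * g * (2 ^ (r - 2) * (((2 * M / B0 / θ) ^ (r - 2) + 1) / M)) *
        (C0 ^ (2 * k) * (B ^ 2 / B ^ (2 * k))) := by ring
    _ ≤ β ^ (r - 2) * g * (2 ^ (r - 2) * (2 ^ (r - 2) * C0 ^ (r - 2) * (B ^ (r - 4) / θ ^ (r - 2) + 1))) *
        (C0 ^ (2 * k) * (B ^ 2 / B ^ (2 * k))) := by gcongr
    _ = β ^ (r - 2) * g * ((2 ^ (r - 2) * 2 ^ (r - 2)) * (C0 ^ (r - 2) * C0 ^ (2 * k))) *
        (B ^ 2 / B ^ (2 * k)) * (B ^ (r - 4) / θ ^ (r - 2) + 1) := by ring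
    _ ≤ β ^ (r - 2) * g * (4 ^ r * C0 ^ (2 * k + r)) * (B ^ 2 / B ^ (2 * k)) *
        (B ^ (r - 4) / θ ^ (r - 2) + 1) := by
        have a1 : (2 : ℝ) ^ (r - 2) * 2 ^ (r - 2) ≤ 4 ^ r := by
          rw [← mul_pow]; norm_num
          exact pow_le_pow_right₀ (by norm_num) (by omega)
        have a2 : C0 ^ (r - 2) * C0 ^ (2 * k) ≤ C0 ^ (2 * k + r) := by
          rw [← pow_add]; exact pow_le_pow_right₀ hC1 (by omega)
        gcongr

/-- Number of `v ≤ B` with `v^k` in a given class. -/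
theorem count_v {k g B : ℕ} (hk : 2 ≤ k) (hg : 1 ≤ g) (hgB : g ≤ B ^ k) (c : ℤ) (V : Finset ℤ)
    (hV : ∀ v ∈ V, 1 ≤ v ∧ v ≤ B ∧ (g : ℤ) ∣ v ^ k - c) :
    (V.card : ℝ) ≤ 2 * beta k g * (B / th k g) := by
  have h1 := card_pow_congr_le k g hk hg V (by
    intro a ha b hb
    have := dvd_sub (hV a ha).2.2 (hV b hb).2.2
    rwa [sub_sub_sub_cancel_right] at this) B (by positivity) (by
    intro a ha b hb
    have h1 := (hV a ha).2.1
    have h2 := (hV b hb).1
    have h1' : (a : ℝ) ≤ B := by exact_mod_cast h1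
    have h2' : (1 : ℝ) ≤ b := by exact_mod_cast h2
    linarith)
  have h2 := th_le k g B (by omega) hgB
  have h3 := th_ge_one k g hg
  have h4 : (1 : ℝ) ≤ B / th k g := by rw [le_div_iff₀ (by linarith)]; linarith
  refine h1.trans ?_
  have h5 : (0 : ℝ) ≤ beta k g := by positivity
  calc (beta k g : ℝ) * ((B : ℝ) / (g : ℝ) ^ ((1 : ℝ) / k) + 1)
      ≤ beta k g * (B / th k g + B / th k g) := by
        apply mul_le_mul_of_nonneg_left _ h5
        have : (B : ℝ) / (g : ℝ) ^ ((1 : ℝ) / k) = B / th k g := rfl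
        rw [this]
        linarith
    _ = _ := by ring

/-- E2, for fixed `x`, base `(l0, q)`. -/
theorem Par.E2 {P : Par} (hP : P.Ok) (β₀ τ : ℝ)
    (hβ : ∀ q : ℕ, 1 ≤ q → q ≤ P.B ^ P.k → (beta P.k q : ℝ) ^ P.r ≤ β₀)
    (hτ : ∑ g ∈ Finset.Ioc P.G (P.B ^ P.k), (g : ℝ) * (beta P.k g) ^ P.r / (th P.k g) ^ P.r ≤ τ)
    (x : Fin P.r → ℤ) (hx : x ∈ P.T) (l0 q : Fin P.r) :
    ∑ y ∈ (P.Yb x l0 q).filter (fun y => P.G < gE P.k x y), P.ExS x y ≤
      (2 * P.C1 * (4 ^ P.r * P.C0 ^ (2 * P.k + P.r))) *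
        (2 * P.B ^ P.r * τ / P.B ^ (2 * P.k) + P.B ^ 3 * β₀ ^ 2 / P.B ^ P.k) := by
  classical
  have hk := hP.hk
  have hr := hP.hr
  have hB : 1 ≤ P.B := hP.hB0.trans hP.hB0B
  have hBR : (1 : ℝ) ≤ P.B := by exact_mod_cast hB
  have hB0R : (1 : ℝ) ≤ P.B0 := by exact_mod_cast hP.hB0
  have hC1 := P.C1_nonneg
  have hβ0 : 1 ≤ β₀ := by
    have := hβ 1 le_rfl (Nat.one_le_pow _ _ hB)
    rw [beta_one] at this; simpa using this
  have hτ0 : 0 ≤ τ := le_trans (Finset.sum_nonneg (fun g _ => by unfold th; positivity)) hτ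
  by_cases hlq : l0 = q
  · subst hlq
    have : (P.Yb x l0 l0).filter (fun y => P.G < gE P.k x y) = ∅ := by
      rw [Finset.filter_eq_empty_iff]
      intro y hy
      exact absurd (by ring) (Par.mem_Yb.mp hy).2.2.1
    rw [this, Finset.sum_empty]
    positivity
  set Y := (P.Yb x l0 q).filter (fun y => P.G < gE P.k x y) with hYdef
  set f : (Fin P.r → ℤ) → (ℤ × ℕ) × ℤ := fun y => ((y l0, gE P.k x y), y q) with hf
  -- set of (u,g)
  set W' : Finset (ℤ × ℕ) := ((Finset.Icc (1 : ℤ) P.B) ×ˢ (Finset.Ioc P.G (P.B ^ P.k))).filter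
    (fun t => t.1 ≠ x l0 ∧ (t.2 : ℤ) ∣ t.1 ^ P.k - x l0 ^ P.k) with hW'
  set W : Finset ((ℤ × ℕ) × ℤ) := (W' ×ˢ (Finset.Icc (1 : ℤ) P.B)).filter
    (fun t => (t.1.2 : ℤ) ∣ t.2 ^ P.k - x q ^ P.k) with hW
  have hmaps : ∀ y ∈ Y, f y ∈ W := by
    intro y hy
    rw [hYdef, Finset.mem_filter] at hy
    obtain ⟨hyT, hne, _, _⟩ := Par.mem_Yb.mp hy.1
    rw [hW, Finset.mem_filter, Finset.mem_product, hW', Finset.mem_filter, Finset.mem_product,
      Finset.mem_Icc, Finset.mem_Ioc, Finset.mem_Icc]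
    have h1 := mem_T_pos hP hyT l0
    have h2 := mem_T_pos hP hyT q
    have h3 := mem_T_pos hP hx l0
    refine ⟨⟨⟨⟨⟨h1.1, h1.2.2⟩, ⟨hy.2, ?_⟩⟩, hne.symm, gE_dvd _ _ _ _⟩, ⟨h2.1, h2.2.2⟩⟩, gE_dvd _ _ _ _⟩
    have h4 := gE_dvd P.k x y l0
    have h5 : y l0 ^ P.k - x l0 ^ P.k ≠ 0 := by
      intro h0
      exact pow_ne_of_ne (k := P.k) (by omega) (by linarith) (by linarith) hne (by linarith)
    have h6 := Int.le_of_dvd (abs_pos.mpr h5) ((dvd_abs _ _).mpr h4)
    have h7 := abs_pow_sub_pow_le (k := P.k) (B := P.B) (u := y l0) (v := x l0) (by linarith)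
      h1.2.2 (by linarith) h3.2.2
    have h8 : (gE P.k x y : ℤ) ≤ (P.B : ℤ) ^ P.k := h6.trans h7
    exact_mod_cast h8
  set Φ : ℕ → ℝ := fun g => P.C1 * ((beta P.k g : ℝ) ^ (P.r - 2) * g * (4 ^ P.r * P.C0 ^ (2 * P.k + P.r)) *
    ((P.B : ℝ) ^ 2 / P.B ^ (2 * P.k)) * ((P.B : ℝ) ^ (P.r - 4) / (th P.k g) ^ (P.r - 2) + 1)) with hΦ
  have hΦ0 : ∀ g, 0 ≤ Φ g := by
    intro g; rw [hΦ]; simp only; unfold th; positivity
  rw [← Finset.sum_fiberwise_of_maps_to hmaps]
  have step1 : ∑ t ∈ W, ∑ y ∈ Y.filter (fun y => f y = t), P.ExS x y ≤ ∑ t ∈ W, Φ t.1.2 := by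
    apply Finset.sum_le_sum
    intro t ht
    rcases (Y.filter (fun y => f y = t)).eq_empty_or_nonempty with hemp | ⟨y0, hy0⟩
    · rw [hemp, Finset.sum_empty]; exact hΦ0 _
    set M : ℝ := |((x l0 * t.2 - x q * t.1.1 : ℤ) : ℝ)| with hMdef
    have hmem : ∀ y ∈ Y.filter (fun y => f y = t), y ∈ P.T ∧ y l0 = t.1.1 ∧ y q = t.2 ∧
        x l0 ≠ y l0 ∧ x l0 * y q - x q * y l0 ≠ 0 ∧
        (∀ l, |x l0 * y l - x l * y l0| ≤ |x l0 * y q - x q * y l0|) ∧ gE P.k x y = t.1.2 := by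
      intro y hy
      rw [Finset.mem_filter, hYdef, Finset.mem_filter] at hy
      obtain ⟨⟨hyb, hg⟩, hft⟩ := hy
      obtain ⟨a1, a2, a3, a4⟩ := Par.mem_Yb.mp hyb
      have e1 := congrArg Prod.fst hft
      exact ⟨a1, congrArg Prod.fst e1, congrArg Prod.snd hft, a2, a3, a4, congrArg Prod.snd e1⟩
    have hg1 : 1 ≤ t.1.2 := by
      rw [hW, Finset.mem_filter, Finset.mem_product, hW', Finset.mem_filter, Finset.mem_product,
        Finset.mem_Ioc] at ht
      have := ht.1.1.1.2.1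
      omega
    have hM1 : 1 ≤ M := by
      obtain ⟨a1, a2, a3, a4, a5, a6, a7⟩ := hmem y0 hy0
      rw [a2, a3] at a5
      have : (1 : ℤ) ≤ |x l0 * t.2 - x q * t.1.1| := Int.one_le_abs a5
      rw [hMdef]; exact_mod_cast this
    have hMB : M ≤ (P.B : ℝ) ^ 2 := by
      obtain ⟨a1, a2, a3, a4, a5, a6, a7⟩ := hmem y0 hy0
      have b1 := mem_T_pos hP hx l0
      have b2 := mem_T_pos hP hx q
      have b3 := mem_T_pos hP a1 l0
      have b4 := mem_T_pos hP a1 q
      rw [a2] at b3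
      rw [a3] at b4
      have hBnn : (0 : ℤ) ≤ P.B := by positivity
      have c1 : x l0 * t.2 ≤ (P.B : ℤ) * P.B := mul_le_mul b1.2.2 b4.2.2 (by linarith) hBnn
      have c2 : x q * t.1.1 ≤ (P.B : ℤ) * P.B := mul_le_mul b2.2.2 b3.2.2 (by linarith) hBnn
      have c3 : 0 ≤ x l0 * t.2 := mul_nonneg (by linarith) (by linarith)
      have c4 : 0 ≤ x q * t.1.1 := mul_nonneg (by linarith) (by linarith)
      have : |x l0 * t.2 - x q * t.1.1| ≤ (P.B : ℤ) ^ 2 := by
        rw [abs_le, sq]; constructor <;> linarith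
      rw [hMdef]; exact_mod_cast this
    have hcount := group_count hP x hx l0 q hlq t.1.1 t.2 M (by linarith) t.1.2 hg1
      (Y.filter (fun y => f y = t)) (by
        intro y hy
        obtain ⟨a1, a2, a3, a4, a5, a6, a7⟩ := hmem y hy
        refine ⟨a1, a2, a3, ?_, ?_⟩
        · intro l
          have := a6 l
          rw [a2, a3] at this
          rw [hMdef]; exact_mod_cast this
        · intro l
          rw [← a7]; exact gE_dvd _ _ _ _)
    have hMpos : 0 < M := by linarith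
    have hterm : ∀ y ∈ Y.filter (fun y => f y = t), P.ExS x y ≤ P.C1 *
        (t.1.2 / (M * (P.B0 : ℝ) ^ (2 * (P.k - 1)))) := by
      intro y hy
      obtain ⟨a1, a2, a3, a4, a5, a6, a7⟩ := hmem y hy
      have hyb : y ∈ P.Yb x l0 q := Par.mem_Yb.mpr ⟨a1, a4, a5, a6⟩
      have e1 := Par.ExS_le_a' hP x y hx l0 q hyb
      rwa [a2, a3, ← hMdef, a7] at e1
    calc ∑ y ∈ Y.filter (fun y => f y = t), P.ExS x y
        ≤ (Y.filter (fun y => f y = t)).card • (P.C1 *
        (t.1.2 / (M * (P.B0 : ℝ) ^ (2 * (P.k - 1))))) := Finset.sum_le_card_nsmul _ _ _ hterm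
      _ = ((Y.filter (fun y => f y = t)).card : ℝ) * (P.C1 *
        (t.1.2 / (M * (P.B0 : ℝ) ^ (2 * (P.k - 1))))) := by rw [nsmul_eq_mul]
      _ ≤ (beta P.k t.1.2 * (2 * M / P.B0 / (t.1.2 : ℝ) ^ ((1 : ℝ) / P.k) + 1)) ^ (P.r - 2) * (P.C1 *
        (t.1.2 / (M * (P.B0 : ℝ) ^ (2 * (P.k - 1))))) :=
          mul_le_mul_of_nonneg_right hcount (by positivity)
      _ = P.C1 * ((beta P.k t.1.2 * (2 * M / P.B0 / th P.k t.1.2 + 1)) ^ (P.r - 2) *
        (t.1.2 / (M * (P.B0 : ℝ) ^ (2 * (P.k - 1))))) := by unfold th; ring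
      _ ≤ Φ t.1.2 := by
          rw [hΦ]
          apply mul_le_mul_of_nonneg_left _ hC1
          exact E2_num P.k P.r hk hr P.B P.B0 P.C0 M (th P.k t.1.2) (beta P.k t.1.2) t.1.2 hB0R
            (by exact_mod_cast hP.hB0B) (by exact_mod_cast hP.hC0) hM1 hMB (th_ge_one _ _ hg1)
            (one_le_beta _ _ (by omega) (by omega)) (by positivity)
  refine step1.trans ?_
  -- sum over v
  have hWmaps : ∀ t ∈ W, t.1 ∈ W' := by
    intro t ht
    rw [hW, Finset.mem_filter, Finset.mem_product] at ht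
    exact ht.1.1
  rw [← Finset.sum_fiberwise_of_maps_to hWmaps]
  have hW'g : ∀ s ∈ W', 1 ≤ s.2 ∧ s.2 ≤ P.B ^ P.k := by
    intro s hs
    rw [hW', Finset.mem_filter, Finset.mem_product, Finset.mem_Ioc] at hs
    exact ⟨by have := hs.1.2.1; omega, hs.1.2.2⟩
  have step2 : ∑ s ∈ W', ∑ t ∈ W.filter (fun t => t.1 = s), Φ t.1.2 ≤
      ∑ s ∈ W', (2 * beta P.k s.2 * (P.B / th P.k s.2)) * Φ s.2 := by
    apply Finset.sum_le_sum
    intro s hs
    have e1 : ∑ t ∈ W.filter (fun t => t.1 = s), Φ t.1.2 =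
        ((W.filter (fun t => t.1 = s)).card : ℝ) * Φ s.2 := by
      rw [Finset.sum_congr rfl (fun t ht => by
        rw [(Finset.mem_filter.mp ht).2] : ∀ t ∈ W.filter (fun t => t.1 = s), Φ t.1.2 = Φ s.2)]
      rw [Finset.sum_const, nsmul_eq_mul]
    rw [e1]
    apply mul_le_mul_of_nonneg_right _ (hΦ0 _)
    have hinj : (W.filter (fun t => t.1 = s)).card =
        ((W.filter (fun t => t.1 = s)).image (fun t => t.2)).card := by
      rw [Finset.card_image_of_injOn]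
      intro t ht t' ht' htt
      exact Prod.ext ((Finset.mem_filter.mp ht).2.trans (Finset.mem_filter.mp ht').2.symm) htt
    rw [hinj]
    apply count_v (by omega) (hW'g s hs).1 (hW'g s hs).2 (x q ^ P.k)
    intro v hv
    rw [Finset.mem_image] at hv
    obtain ⟨t, ht, rfl⟩ := hv
    rw [Finset.mem_filter, hW, Finset.mem_filter, Finset.mem_product, Finset.mem_Icc] at ht
    obtain ⟨⟨⟨_, h1⟩, h2⟩, rfl⟩ := ht
    exact ⟨h1.1, h1.2, h2⟩
  refine step2.trans ?_
  set C2 : ℝ := 2 * P.C1 * (4 ^ P.r * P.C0 ^ (2 * P.k + P.r)) with hC2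
  have hC20 : 0 ≤ C2 := by positivity
  -- split
  have step3 : ∀ s ∈ W', (2 * beta P.k s.2 * (P.B / th P.k s.2)) * Φ s.2 =
      C2 * ((P.B : ℝ) ^ 3 / P.B ^ (2 * P.k)) * ((P.B : ℝ) ^ (P.r - 4) *
        (s.2 * (beta P.k s.2 : ℝ) ^ (P.r - 1) / (th P.k s.2) ^ (P.r - 1)) +
        s.2 * (beta P.k s.2 : ℝ) ^ (P.r - 1) / (th P.k s.2)) := by
    intro s hs
    have hθ := th_ge_one P.k s.2 (hW'g s hs).1
    have hθ0 : 0 < th P.k s.2 := by linarith
    have e1 : (beta P.k s.2 : ℝ) ^ (P.r - 1) = (beta P.k s.2 : ℝ) ^ (P.r - 2) * beta P.k s.2 := by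
      rw [← pow_succ]; congr 1; omega
    have e2 : (th P.k s.2) ^ (P.r - 1) = (th P.k s.2) ^ (P.r - 2) * th P.k s.2 := by
      rw [← pow_succ]; congr 1; omega
    rw [hΦ, hC2, e1, e2]
    field_simp
  rw [Finset.sum_congr rfl step3, ← Finset.mul_sum, Finset.sum_add_distrib, ← Finset.mul_sum]
  -- first sum
  have sumA : ∑ s ∈ W', (s.2 : ℝ) * (beta P.k s.2 : ℝ) ^ (P.r - 1) / (th P.k s.2) ^ (P.r - 1) ≤
      2 * P.B * τ := by
    have hm2 : ∀ s ∈ W', s.2 ∈ Finset.Ioc P.G (P.B ^ P.k) := by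
      intro s hs
      rw [hW', Finset.mem_filter, Finset.mem_product] at hs
      exact hs.1.2
    rw [← Finset.sum_fiberwise_of_maps_to hm2]
    calc ∑ g ∈ Finset.Ioc P.G (P.B ^ P.k), ∑ s ∈ W'.filter (fun s => s.2 = g),
          (s.2 : ℝ) * (beta P.k s.2 : ℝ) ^ (P.r - 1) / (th P.k s.2) ^ (P.r - 1)
        ≤ ∑ g ∈ Finset.Ioc P.G (P.B ^ P.k), 2 * P.B *
            ((g : ℝ) * (beta P.k g) ^ P.r / (th P.k g) ^ P.r) := by
          apply Finset.sum_le_sum
          intro g hg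
          rw [Finset.mem_Ioc] at hg
          have hg1 : 1 ≤ g := by omega
          have hθ := th_ge_one P.k g hg1
          have hθ0 : 0 < th P.k g := by linarith
          have e1 : ∑ s ∈ W'.filter (fun s => s.2 = g),
              (s.2 : ℝ) * (beta P.k s.2 : ℝ) ^ (P.r - 1) / (th P.k s.2) ^ (P.r - 1) =
              ((W'.filter (fun s => s.2 = g)).card : ℝ) *
              ((g : ℝ) * (beta P.k g : ℝ) ^ (P.r - 1) / (th P.k g) ^ (P.r - 1)) := by
            rw [Finset.sum_congr rfl (fun s hs => by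
              rw [(Finset.mem_filter.mp hs).2] : ∀ s ∈ W'.filter (fun s => s.2 = g),
              (s.2 : ℝ) * (beta P.k s.2 : ℝ) ^ (P.r - 1) / (th P.k s.2) ^ (P.r - 1) =
              (g : ℝ) * (beta P.k g : ℝ) ^ (P.r - 1) / (th P.k g) ^ (P.r - 1))]
            rw [Finset.sum_const, nsmul_eq_mul]
          rw [e1]
          have hc : ((W'.filter (fun s => s.2 = g)).card : ℝ) ≤ 2 * beta P.k g * (P.B / th P.k g) := by
            have hinj : (W'.filter (fun s => s.2 = g)).card =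
                ((W'.filter (fun s => s.2 = g)).image (fun s => s.1)).card := by
              rw [Finset.card_image_of_injOn]
              intro t ht t' ht' htt
              exact Prod.ext htt ((Finset.mem_filter.mp ht).2.trans (Finset.mem_filter.mp ht').2.symm)
            rw [hinj]
            apply count_v (by omega) hg1 hg.2 (x l0 ^ P.k)
            intro v hv
            rw [Finset.mem_image] at hv
            obtain ⟨s, hs, rfl⟩ := hv
            rw [Finset.mem_filter, hW', Finset.mem_filter, Finset.mem_product, Finset.mem_Icc] at hs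
            obtain ⟨⟨⟨h1, _⟩, _, h2⟩, rfl⟩ := hs
            exact ⟨h1.1, h1.2, h2⟩
          calc _ ≤ (2 * beta P.k g * (P.B / th P.k g)) *
                ((g : ℝ) * (beta P.k g : ℝ) ^ (P.r - 1) / (th P.k g) ^ (P.r - 1)) :=
                mul_le_mul_of_nonneg_right hc (by positivity)
            _ = 2 * P.B * ((g : ℝ) * (beta P.k g) ^ P.r / (th P.k g) ^ P.r) := by
                have e3 : (beta P.k g : ℝ) ^ P.r = (beta P.k g : ℝ) ^ (P.r - 1) * beta P.k g := by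
                  rw [← pow_succ]; congr 1; omega
                have e4 : (th P.k g) ^ P.r = (th P.k g) ^ (P.r - 1) * th P.k g := by
                  rw [← pow_succ]; congr 1; omega
                rw [e3, e4]
                field_simp
      _ = 2 * P.B * ∑ g ∈ Finset.Ioc P.G (P.B ^ P.k), ((g : ℝ) * (beta P.k g) ^ P.r / (th P.k g) ^ P.r) := by
          rw [Finset.mul_sum]
      _ ≤ 2 * P.B * τ := mul_le_mul_of_nonneg_left hτ (by positivity)
  -- second sum
  have sumB : ∑ s ∈ W', (s.2 : ℝ) * (beta P.k s.2 : ℝ) ^ (P.r - 1) / (th P.k s.2) ≤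
      P.B * (β₀ * (β₀ * P.B ^ (P.k - 1))) := by
    have hm1 : ∀ s ∈ W', s.1 ∈ Finset.Icc (1 : ℤ) P.B := by
      intro s hs
      rw [hW', Finset.mem_filter, Finset.mem_product] at hs
      exact hs.1.1
    rw [← Finset.sum_fiberwise_of_maps_to hm1]
    calc ∑ u ∈ Finset.Icc (1 : ℤ) P.B, ∑ s ∈ W'.filter (fun s => s.1 = u),
          (s.2 : ℝ) * (beta P.k s.2 : ℝ) ^ (P.r - 1) / (th P.k s.2)
        ≤ ∑ u ∈ Finset.Icc (1 : ℤ) P.B, (β₀ * (β₀ * P.B ^ (P.k - 1))) := by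
          apply Finset.sum_le_sum
          intro u hu
          rw [Finset.mem_Icc] at hu
          rcases (W'.filter (fun s => s.1 = u)).eq_empty_or_nonempty with hemp | ⟨s0, hs0⟩
          · rw [hemp, Finset.sum_empty]; positivity
          have hux : u ≠ x l0 := by
            rw [Finset.mem_filter, hW', Finset.mem_filter] at hs0
            rw [← hs0.2]; exact hs0.1.2.1
          have hx0 := mem_T_pos hP hx l0
          have hne : u ^ P.k - x l0 ^ P.k ≠ 0 := by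
            intro h0
            exact pow_ne_of_ne (k := P.k) (by omega) (by linarith) (by linarith) hux (by linarith)
          set h := (u ^ P.k - x l0 ^ P.k).natAbs with hh
          have hh0 : 1 ≤ h := Int.natAbs_pos.mpr hne
          have hhB : h ≤ P.B ^ P.k := by
            have h7 := abs_pow_sub_pow_le (k := P.k) (B := P.B) (u := u) (v := x l0) (by linarith)
              hu.2 (by linarith) hx0.2.2
            have : (h : ℤ) ≤ (P.B : ℤ) ^ P.k := by rw [hh, Int.natCast_natAbs]; exact h7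
            exact_mod_cast this
          have hcard : ((W'.filter (fun s => s.1 = u)).card : ℝ) ≤ β₀ := by
            have h1 : (W'.filter (fun s => s.1 = u)).card ≤ h.divisors.card := by
              apply Finset.card_le_card_of_injOn (fun s => s.2)
              · intro s hs
                simp only [Finset.coe_filter, Set.mem_ofPred_eq] at hs
                obtain ⟨hs1, rfl⟩ := hs
                rw [hW', Finset.mem_filter] at hs1
                simp only [Finset.mem_coe, Nat.mem_divisors]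
                exact ⟨Int.natCast_dvd.mp hs1.2.2, by omega⟩
              · intro t ht t' ht' htt
                simp only [Finset.coe_filter, Set.mem_ofPred_eq] at ht ht'
                exact Prod.ext (ht.2.trans ht'.2.symm) htt
            have h2 : (h.divisors.card : ℝ) ≤ beta P.k h := by
              exact_mod_cast card_divisors_le_beta P.k h (by omega)
            have h3 : (beta P.k h : ℝ) ≤ (beta P.k h : ℝ) ^ P.r :=
              le_self_pow₀ (one_le_beta _ _ (by omega) (by omega)) (by omega)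
            have h4 : ((W'.filter (fun s => s.1 = u)).card : ℝ) ≤ h.divisors.card := by exact_mod_cast h1
            linarith [hβ h hh0 hhB]
          calc ∑ s ∈ W'.filter (fun s => s.1 = u),
                (s.2 : ℝ) * (beta P.k s.2 : ℝ) ^ (P.r - 1) / (th P.k s.2)
              ≤ (W'.filter (fun s => s.1 = u)).card • (β₀ * (P.B : ℝ) ^ (P.k - 1)) := by
                apply Finset.sum_le_card_nsmul
                intro s hs
                have hs' := hW'g s (Finset.mem_filter.mp hs).1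
                have hθ := th_ge_one P.k s.2 hs'.1
                have h1 : (beta P.k s.2 : ℝ) ^ (P.r - 1) ≤ β₀ := by
                  refine le_trans ?_ (hβ s.2 hs'.1 hs'.2)
                  apply pow_le_pow_right₀ (one_le_beta _ _ (by omega) (by omega)) (by omega)
                have h2 := div_th_le P.k s.2 P.B (by omega) hs'.1 hs'.2
                calc (s.2 : ℝ) * (beta P.k s.2 : ℝ) ^ (P.r - 1) / (th P.k s.2)
                    = (beta P.k s.2 : ℝ) ^ (P.r - 1) * (s.2 / th P.k s.2) := by ring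
                  _ ≤ β₀ * (P.B : ℝ) ^ (P.k - 1) := by
                      apply mul_le_mul h1 h2 _ (by linarith)
                      have : 0 ≤ th P.k s.2 := by linarith
                      positivity
            _ = ((W'.filter (fun s => s.1 = u)).card : ℝ) * (β₀ * (P.B : ℝ) ^ (P.k - 1)) := by
                rw [nsmul_eq_mul]
            _ ≤ β₀ * (β₀ * (P.B : ℝ) ^ (P.k - 1)) := by
                apply mul_le_mul_of_nonneg_right hcard (by positivity)
      _ = _ := by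
          rw [Finset.sum_const, Int.card_Icc, nsmul_eq_mul]
          have h2 : ((P.B : ℤ) + 1 - 1).toNat = P.B := by omega
          rw [h2]
  have hB0' : (0 : ℝ) < P.B := by linarith
  calc C2 * ((P.B : ℝ) ^ 3 / P.B ^ (2 * P.k)) * ((P.B : ℝ) ^ (P.r - 4) *
        (∑ s ∈ W', (s.2 : ℝ) * (beta P.k s.2 : ℝ) ^ (P.r - 1) / (th P.k s.2) ^ (P.r - 1)) +
        ∑ s ∈ W', (s.2 : ℝ) * (beta P.k s.2 : ℝ) ^ (P.r - 1) / (th P.k s.2))
      ≤ C2 * ((P.B : ℝ) ^ 3 / P.B ^ (2 * P.k)) * ((P.B : ℝ) ^ (P.r - 4) * (2 * P.B * τ) +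
        P.B * (β₀ * (β₀ * P.B ^ (P.k - 1)))) := by
        apply mul_le_mul_of_nonneg_left _ (by positivity)
        apply add_le_add _ sumB
        apply mul_le_mul_of_nonneg_left sumA (by positivity)
    _ = _ := by
        have e1 : (P.B : ℝ) ^ P.r = (P.B : ℝ) ^ (P.r - 4) * (P.B : ℝ) ^ 4 := by
          rw [← pow_add]; congr 1; omega
        have e2 : (P.B : ℝ) ^ (2 * P.k) = (P.B : ℝ) ^ P.k * ((P.B : ℝ) ^ (P.k - 1) * P.B) := by
          rw [← pow_succ, ← pow_add]; congr 1; omega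
        rw [e1, e2]
        field_simp

end Pool.Agent.H888.DH
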