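import Pool.Agent.H888.DH.Var3

set_option linter.unusedVariables false
set_option linter.unusedSectionVars false
set_option linter.style.haveILetI false

namespace Pool.Agent.H888.DH

open Finset Complex

/-- Pairs on the line through `x`. -/
noncomputable def Par.Yp (P : Par) (x : Fin P.r → ℤ) (l0 : Fin P.r) : Finset (Fin P.r → ℤ) := by
  classical
  exact P.T.filter (fun y => x l0 ≠ y l0 ∧ ∀ l, x l0 * y l = x l * y l0)

theorem Par.mem_Yp {P : Par} {x : Fin P.r → ℤ} {l0 : Fin P.r} {y : Fin P.r → ℤ} :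
    y ∈ P.Yp x l0 ↔ y ∈ P.T ∧ x l0 ≠ y l0 ∧ ∀ l, x l0 * y l = x l * y l0 := by
  classical
  rw [Par.Yp, Finset.mem_filter]

theorem Par.E3 {P : Par} (hP : P.Ok) (x : Fin P.r → ℤ) (hx : x ∈ P.T) (l0 : Fin P.r) :
    ∑ y ∈ P.Yp x l0, P.ExS x y ≤ (2 * P.C0 * P.R) * P.C1 := by
  classical
  have hk := hP.hk
  have hr := hP.hr
  have hB : 1 ≤ P.B := hP.hB0.trans hP.hB0B
  have hC1 := P.C1_nonneg
  have hB0 : (0 : ℝ) < P.B0 := by exact_mod_cast hP.hB0
  have hterm : ∀ y ∈ P.Yp x l0, P.ExS x y ≤ P.C1 := by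
    intro y hy
    obtain ⟨hyT, hne, hpar⟩ := Par.mem_Yp.mp hy
    have hx0 := mem_T_pos hP hx l0
    have hy0 := mem_T_pos hP hyT l0
    have hpne : x l0 ^ P.k ≠ y l0 ^ P.k :=
      pow_ne_of_ne (k := P.k) (by omega) (by linarith) (by linarith) hne
    have hn0 : (1 : ℤ) ≤ (P.n : ℤ) ^ P.k := by
      have : 1 ≤ P.n ^ P.k := Nat.one_le_pow _ _ hP.hn
      exact_mod_cast this
    set D := (VV P.n P.k x l0.succ * VV P.n P.k y 0 - VV P.n P.k x 0 * VV P.n P.k y l0.succ) with hD
    have hD' : D = (P.n : ℤ) ^ P.k * (x l0 ^ P.k - y l0 ^ P.k) := by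
      rw [hD, VV_succ, VV_succ, VV_zero, VV_zero]; ring
    have hD0 : D ≠ 0 := by
      rw [hD']
      exact mul_ne_zero (by linarith) (sub_ne_zero.mpr hpne)
    have h1 := Par.ExS_le_a hP x y hx hyT l0 hne 0 D hD hD0
    have hg1 := gE_dvd P.k x y l0
    have h2 : (gE P.k x y : ℤ) ≤ |D| := by
      have h3 : (gE P.k x y : ℤ) ≤ |y l0 ^ P.k - x l0 ^ P.k| :=
        Int.le_of_dvd (abs_pos.mpr (sub_ne_zero.mpr hpne.symm)) ((dvd_abs _ _).mpr hg1)
      rw [hD', abs_mul, abs_of_nonneg (by linarith : (0 : ℤ) ≤ (P.n : ℤ) ^ P.k), abs_sub_comm]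
      calc (gE P.k x y : ℤ) ≤ 1 * |y l0 ^ P.k - x l0 ^ P.k| := by rw [one_mul]; exact h3
        _ ≤ _ := mul_le_mul_of_nonneg_right hn0 (abs_nonneg _)
    have h2' : (gE P.k x y : ℝ) ≤ |(D : ℝ)| := by exact_mod_cast h2
    have hDpos : (0 : ℝ) < |(D : ℝ)| := by rw [abs_pos]; exact_mod_cast hD0
    have h4 : (gE P.k x y : ℝ) / |(D : ℝ)| ≤ 1 := by rw [div_le_one hDpos]; exact h2'
    calc P.ExS x y ≤ _ := h1
      _ ≤ P.C1 * 1 := by
          unfold Par.C1
          apply mul_le_mul_of_nonneg_left h4 (by positivity)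
      _ = P.C1 := mul_one _
  have hcard : ((P.Yp x l0).card : ℝ) ≤ 2 * P.C0 * P.R := by
    -- second index
    obtain ⟨l1, hl1⟩ : ∃ l1 : Fin P.r, l1 ≠ l0 := by
      haveI : Nontrivial (Fin P.r) := Fin.nontrivial_iff_two_le.mpr (by omega)
      exact exists_ne l0
    have hinj : (P.Yp x l0).card = ((P.Yp x l0).image (fun y => y l0)).card := by
      rw [Finset.card_image_of_injOn]
      intro y hy y' hy' hyy
      obtain ⟨_, _, hpar⟩ := Par.mem_Yp.mp hy
      obtain ⟨_, _, hpar'⟩ := Par.mem_Yp.mp hy'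
      funext l
      have h1 := hpar l
      have h2 := hpar' l
      have hyy' : y l0 = y' l0 := hyy
      rw [hyy'] at h1
      have h3 : x l0 * y l = x l0 * y' l := h1.trans h2.symm
      exact mul_left_cancel₀ (by have := (mem_T_pos hP hx l0).1; omega) h3
    rw [hinj]
    set d := Int.gcd (x l0) (x l1) with hd
    have hdR : d ≤ P.R := (mem_Tset.mp hx).2 l0 l1 hl1.symm
    have hx0 := mem_T_pos hP hx l0
    have hd0 : 0 < d := Int.gcd_pos_of_ne_zero_left _ (by omega)
    obtain ⟨a, ha⟩ : (d : ℤ) ∣ x l0 := Int.gcd_dvd_left _ _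
    obtain ⟨b, hb⟩ : (d : ℤ) ∣ x l1 := Int.gcd_dvd_right _ _
    have hd0' : (0 : ℤ) < d := by exact_mod_cast hd0
    have ha0 : 0 < a := by
      by_contra hcon
      push Not at hcon
      nlinarith
    have hcop : IsCoprime a b := by
      rw [Int.isCoprime_iff_gcd_eq_one]
      have e := Int.gcd_div_gcd_div_gcd (i := x l0) (j := x l1) hd0
      rw [← hd] at e
      rwa [ha, hb, Int.mul_ediv_cancel_left _ hd0'.ne', Int.mul_ediv_cancel_left _ hd0'.ne'] at e
    have hdvd : ∀ u ∈ (P.Yp x l0).image (fun y => y l0), a ∣ u := by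
      intro u hu
      rw [Finset.mem_image] at hu
      obtain ⟨y, hy, rfl⟩ := hu
      obtain ⟨_, _, hpar⟩ := Par.mem_Yp.mp hy
      have h1 := hpar l1
      rw [ha, hb] at h1
      have h2 : a * y l1 = b * y l0 := by
        have : (d : ℤ) * (a * y l1) = d * (b * y l0) := by linear_combination h1
        exact mul_left_cancel₀ hd0'.ne' this
      exact hcop.dvd_of_dvd_mul_left ⟨y l1, h2.symm⟩
    have haN : ((a.toNat : ℕ) : ℤ) = a := Int.toNat_of_nonneg ha0.le
    have h1 := card_le_of_dvd_sub ((P.Yp x l0).image (fun y => y l0)) a.toNat (by omega) P.B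
      (by positivity) (by
        intro u hu v hv
        rw [haN]
        exact dvd_sub (hdvd u hu) (hdvd v hv)) (by
        intro u hu v hv
        rw [Finset.mem_image] at hu hv
        obtain ⟨y, hy, rfl⟩ := hu
        obtain ⟨y', hy', rfl⟩ := hv
        have e1 := (mem_T_pos hP (Par.mem_Yp.mp hy).1 l0).2.2
        have e2 := (mem_T_pos hP (Par.mem_Yp.mp hy').1 l0).1
        have e1' : (y l0 : ℝ) ≤ P.B := by exact_mod_cast e1
        have e2' : (1 : ℝ) ≤ y' l0 := by exact_mod_cast e2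
        linarith)
    refine h1.trans ?_
    have haR : (0 : ℝ) < a.toNat := by
      have : 0 < a.toNat := by omega
      exact_mod_cast this
    -- B ≤ C0 B0 ≤ C0 x = C0 d a ≤ C0 R a
    have h2 : (P.B : ℝ) ≤ P.C0 * P.R * a.toNat := by
      have e1 : (P.B : ℝ) ≤ P.C0 * P.B0 := by exact_mod_cast hP.hC0
      have e2 : (P.B0 : ℝ) ≤ d * a.toNat := by
        have : (P.B0 : ℤ) ≤ d * (a.toNat : ℤ) := by rw [haN, ← ha]; exact hx0.2.1
        exact_mod_cast this
      have e3 : (d : ℝ) ≤ P.R := by exact_mod_cast hdR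
      calc (P.B : ℝ) ≤ P.C0 * P.B0 := e1
        _ ≤ P.C0 * (d * a.toNat) := by gcongr
        _ ≤ P.C0 * (P.R * a.toNat) := by gcongr
        _ = _ := by ring
    have h3 : (P.B : ℝ) / a.toNat ≤ P.C0 * P.R := by rw [div_le_iff₀ haR]; exact h2
    have h4 : (1 : ℝ) ≤ P.C0 * P.R := by
      have e1 : 1 ≤ P.C0 := by
        by_contra hcon
        have : P.C0 = 0 := by omega
        have h5 := hP.hC0
        rw [this, zero_mul] at h5
        omega
      have e2 : 1 ≤ P.C0 * P.R := Nat.one_le_iff_ne_zero.mpr (Nat.mul_ne_zero (by omega) (by have := hP.hR; omega))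
      exact_mod_cast e2
    linarith
  calc ∑ y ∈ P.Yp x l0, P.ExS x y ≤ (P.Yp x l0).card • P.C1 := Finset.sum_le_card_nsmul _ _ _ hterm
    _ = ((P.Yp x l0).card : ℝ) * P.C1 := by rw [nsmul_eq_mul]
    _ ≤ _ := mul_le_mul_of_nonneg_right hcard hC1

/-- The diagonal `x = y`. -/
theorem Par.Ediag {P : Par} (hP : P.Ok) (x : Fin P.r → ℤ) (hx : x ∈ P.T) :
    P.ExS x x ≤ 36 * ((P.n ^ P.k : ℕ) : ℝ) * P.C0 ^ P.k * P.m * P.J / P.B ^ P.k := by
  classical
  have hk := hP.hk
  have hr := hP.hr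
  have hB : 1 ≤ P.B := hP.hB0.trans hP.hB0B
  have hB0 : (0 : ℝ) < P.B0 := by exact_mod_cast hP.hB0
  have hBR : (0 : ℝ) < P.B := by exact_mod_cast (by omega : 0 < P.B)
  have hJ : (0 : ℝ) < P.J := by exact_mod_cast hP.hJ
  set N := P.n ^ P.k with hN
  have hN1 : 1 ≤ N := Nat.one_le_pow _ _ hP.hn
  have hm : (0 : ℤ) < P.m := by exact_mod_cast hP.hm.pos
  haveI : Nonempty (Fin P.r) := ⟨⟨0, by omega⟩⟩
  set l : Fin P.r := Classical.arbitrary _ with hl
  have hxl := mem_T_pos hP hx l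
  have hxk : (P.B0 : ℤ) ^ P.k ≤ x l ^ P.k := pow_le_pow_left₀ (by positivity) hxl.2.1 _
  have hxk' : x l ^ P.k ≤ (P.B : ℤ) ^ P.k := pow_le_pow_left₀ (by linarith) hxl.2.2 _
  have hxpos : 0 < x l ^ P.k := pow_pos (by linarith) _
  have h4 : (4 : ℤ) * P.J * (P.B : ℤ) ^ P.k ≤ P.m := by exact_mod_cast hP.h4
  have hNB : (N : ℤ) ≤ (P.B : ℤ) ^ P.k := by
    have : N ≤ P.B ^ P.k := Nat.pow_le_pow_left hP.hnB _
    exact_mod_cast this
  have hJz : (0 : ℤ) < P.J := by exact_mod_cast hP.hJ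
  have hBk : (0 : ℤ) < (P.B : ℤ) ^ P.k := by positivity
  have hNz : (1 : ℤ) ≤ N := by exact_mod_cast hN1
  have hex : ∀ z ∈ P.Ex x x, ∃ w0 wl : ℤ, |(z.1 - z.2) * N - P.m * w0| < P.J ∧
      |(z.1 - z.2) * x l ^ P.k - P.m * wl| < P.J := by
    intro z hz
    obtain ⟨_, _, _, w, hw, _⟩ := P.mem_Ex hz
    refine ⟨w 0, w l.succ, ?_, ?_⟩
    · have := hw 0
      rw [VV_zero] at this
      rw [hN]; push_cast
      rw [sub_mul]; exact this
    · have := hw l.succ
      rw [VV_succ] at this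
      rw [sub_mul]; exact this
  choose! w0 wl hw0 hwl using hex
  have hrel : ∀ z ∈ P.Ex x x, w0 z * x l ^ P.k = wl z * N := by
    intro z hz
    have e : (P.m : ℤ) * (w0 z * x l ^ P.k - wl z * N) =
        ((z.1 - z.2) * x l ^ P.k - P.m * wl z) * N - ((z.1 - z.2) * N - P.m * w0 z) * x l ^ P.k := by
      ring
    have h1 : |(P.m : ℤ) * (w0 z * x l ^ P.k - wl z * N)| < P.m := by
      rw [e]
      calc _ ≤ |((z.1 - z.2) * x l ^ P.k - P.m * wl z) * N| +
            |((z.1 - z.2) * N - P.m * w0 z) * x l ^ P.k| := abs_sub _ _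
        _ ≤ P.J * (P.B : ℤ) ^ P.k + P.J * (P.B : ℤ) ^ P.k := by
            apply add_le_add
            · rw [abs_mul, abs_of_pos (by linarith : (0 : ℤ) < N)]
              exact mul_le_mul (hwl z hz).le hNB (by linarith) hJz.le
            · rw [abs_mul, abs_of_pos hxpos]
              exact mul_le_mul (hw0 z hz).le hxk' hxpos.le hJz.le
        _ < P.m := by
            have : 0 < P.J * (P.B : ℤ) ^ P.k := by positivity
            linarith
    rw [abs_mul, abs_of_pos hm] at h1
    have h2 : |w0 z * x l ^ P.k - wl z * N| < 1 :=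
      lt_of_mul_lt_mul_left (by rw [mul_one]; exact h1) hm.le
    have := Int.abs_lt_one_iff.mp h2
    linarith
  have hw0b : ∀ z ∈ P.Ex x x, |w0 z| ≤ N := by
    intro z hz
    have hzb := mem_box2.mp (P.mem_Ex hz).2.2.1
    have h1 : |z.1 - z.2| < P.m := by rw [abs_lt]; constructor <;> linarith
    have h2 : |(P.m : ℤ) * w0 z| < P.m * (N + 1) := by
      have e : (P.m : ℤ) * w0 z = (z.1 - z.2) * N - ((z.1 - z.2) * N - P.m * w0 z) := by ring
      rw [e]
      calc _ ≤ |(z.1 - z.2) * N| + |(z.1 - z.2) * N - P.m * w0 z| := abs_sub _ _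
        _ < P.m * N + P.m := by
            have a1 : |(z.1 - z.2) * N| ≤ P.m * N := by
              rw [abs_mul, abs_of_pos (by linarith : (0 : ℤ) < N)]
              exact mul_le_mul_of_nonneg_right h1.le (by linarith)
            have a2 := hw0 z hz
            have a3 : (P.J : ℤ) ≤ P.m := by nlinarith
            linarith
        _ = _ := by ring
    rw [abs_mul, abs_of_pos hm] at h2
    have := lt_of_mul_lt_mul_left h2 hm.le
    omega
  -- fibre over j
  have hcard : ((P.Ex x x).card : ℝ) ≤ P.m * (3 * N * (3 * P.J / P.B0 ^ P.k)) := by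
    have h1 := card_le_mul_real (P.Ex x x) (Finset.Ico (0 : ℤ) P.m) (fun z => z.2) (by
      intro z hz
      have := mem_box2.mp (P.mem_Ex hz).2.2.1
      rw [Finset.mem_Ico]; exact this.2.2) (3 * N * (3 * P.J / P.B0 ^ P.k)) (by
      intro j _
      have h2 := card_le_mul_real ((P.Ex x x).filter (fun z => z.2 = j)) (Finset.Icc (-(N : ℤ)) N)
        w0 (by
          intro z hz
          rw [Finset.mem_Icc]
          exact abs_le.mp (hw0b z (Finset.mem_filter.mp hz).1)) (3 * P.J / P.B0 ^ P.k) (by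
          intro c _
          set F := (((P.Ex x x).filter (fun z => z.2 = j)).filter (fun z => w0 z = c)) with hF
          have hinj : F.card = (F.image (fun z => z.1)).card := by
            rw [Finset.card_image_of_injOn]
            intro z hz z' hz' hzz
            have e1 := (Finset.mem_filter.mp (Finset.mem_filter.mp hz).1).2
            have e2 := (Finset.mem_filter.mp (Finset.mem_filter.mp hz').1).2
            exact Prod.ext hzz (e1.trans e2.symm)
          rw [hinj]
          have h3 := card_le_of_dvd_sub (F.image (fun z => z.1)) 1 one_pos (2 * P.J / P.B0 ^ P.k)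
            (by positivity) (by intro a _ b _; exact one_dvd _) (by
              intro a ha b hb
              rw [Finset.mem_image] at ha hb
              obtain ⟨z, hz, rfl⟩ := ha
              obtain ⟨z', hz', rfl⟩ := hb
              rw [hF, Finset.mem_filter, Finset.mem_filter] at hz hz'
              obtain ⟨⟨hzE, hj⟩, hc⟩ := hz
              obtain ⟨⟨hzE', hj'⟩, hc'⟩ := hz'
              have hwleq : wl z = wl z' := by
                have e1 := hrel z hzE
                have e2 := hrel z' hzE'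
                rw [hc] at e1
                rw [hc'] at e2
                exact mul_right_cancel₀ (by linarith : (N : ℤ) ≠ 0) (e1.symm.trans e2)
              have e3 := hwl z hzE
              have e4 := hwl z' hzE'
              rw [hwleq, hj] at e3
              rw [hj'] at e4
              have e5 : (z.1 - z'.1) * x l ^ P.k ≤ 2 * P.J := by
                have b1 := (abs_lt.mp e3).2
                have b2 := (abs_lt.mp e4).1
                linarith
              have hB0k : (0 : ℝ) < (P.B0 : ℝ) ^ P.k := by positivity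
              rcases le_total (z.1 - z'.1) 0 with h0 | h0
              · have : ((z.1 - z'.1 : ℤ) : ℝ) ≤ 0 := by exact_mod_cast h0
                push_cast at this
                have h7 : (0 : ℝ) ≤ 2 * P.J / P.B0 ^ P.k := by positivity
                linarith
              · rw [le_div_iff₀ hB0k]
                have e6 : (z.1 - z'.1) * (P.B0 : ℤ) ^ P.k ≤ 2 * P.J :=
                  (mul_le_mul_of_nonneg_left hxk h0).trans e5
                exact_mod_cast e6)
          refine h3.trans ?_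
          have h5 : (1 : ℝ) ≤ P.J / P.B0 ^ P.k := by
            have hB0k : (0 : ℝ) < (P.B0 : ℝ) ^ P.k := by positivity
            rw [le_div_iff₀ hB0k, one_mul]
            have : P.B0 ^ P.k ≤ P.J := by
              calc P.B0 ^ P.k ≤ P.B ^ P.k := Nat.pow_le_pow_left hP.hB0B _
                _ ≤ P.B ^ (2 * P.k) := Nat.pow_le_pow_right hB (by omega)
                _ ≤ P.n ^ P.k * P.B ^ (2 * P.k) := Nat.le_mul_of_pos_left _ (pow_pos hP.hn _)
                _ ≤ P.J := hP.hJbig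
            exact_mod_cast this
          have h6 : (3 * P.J / P.B0 ^ P.k : ℝ) = 2 * P.J / P.B0 ^ P.k + P.J / P.B0 ^ P.k := by ring
          rw [h6]
          simp only [Nat.cast_one, div_one]
          linarith)
      refine h2.trans ?_
      apply mul_le_mul_of_nonneg_right _ (by positivity)
      rw [Int.card_Icc]
      have h7 : ((N : ℤ) + 1 - -(N : ℤ)).toNat = 2 * N + 1 := by omega
      rw [h7]; push_cast
      have : (1 : ℝ) ≤ N := by exact_mod_cast hN1
      linarith)
    refine h1.trans ?_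
    rw [Int.card_Ico]
    have h8 : ((P.m : ℤ) - 0).toNat = P.m := by omega
    rw [h8]
  have hC0 : (P.B : ℝ) ≤ P.C0 * P.B0 := by exact_mod_cast hP.hC0
  have h3 : (P.B : ℝ) ^ P.k ≤ P.C0 ^ P.k * P.B0 ^ P.k := by
    rw [← mul_pow]; gcongr
  have hB0k : (0 : ℝ) < (P.B0 : ℝ) ^ P.k := by positivity
  have hBk' : (0 : ℝ) < (P.B : ℝ) ^ P.k := by positivity
  calc P.ExS x x ≤ 4 * (P.Ex x x).card := P.ExS_le_card x x
    _ ≤ 4 * (P.m * (3 * N * (3 * P.J / P.B0 ^ P.k))) := by gcongr
    _ = 36 * N * P.m * P.J * (1 / P.B0 ^ P.k) := by ring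
    _ ≤ 36 * N * P.m * P.J * (P.C0 ^ P.k / P.B ^ P.k) := by
        apply mul_le_mul_of_nonneg_left _ (by positivity)
        rw [div_le_div_iff₀ hB0k hBk', one_mul]; exact h3
    _ = _ := by ring

/-- total exact sum for fixed `x` -/
theorem Par.sum_Ex {P : Par} (hP : P.Ok) (β₀ τ : ℝ)
    (hβ : ∀ q : ℕ, 1 ≤ q → q ≤ P.B ^ P.k → (beta P.k q : ℝ) ^ P.r ≤ β₀)
    (hτ : ∑ g ∈ Finset.Ioc P.G (P.B ^ P.k), (g : ℝ) * (beta P.k g) ^ P.r / (th P.k g) ^ P.r ≤ τ)
    (x : Fin P.r → ℤ) (hx : x ∈ P.T) :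
    ∑ y ∈ P.T, P.ExS x y ≤ 36 * ((P.n ^ P.k : ℕ) : ℝ) * P.C0 ^ P.k * P.m * P.J / P.B ^ P.k +
      P.r * ((2 * P.C0 * P.R) * P.C1) + P.r ^ 2 * (
        ((P.B : ℝ) ^ 2 * (P.C1 * P.G * (3 ^ P.r * P.C0 ^ (6 * P.k + P.r) *
        (P.η ^ 2 * P.B ^ P.r / P.B ^ (2 * P.k + 2) + P.B ^ 2 / P.B ^ (2 * P.k))))) +
        (2 * P.C1 * (4 ^ P.r * P.C0 ^ (2 * P.k + P.r))) *
        (2 * P.B ^ P.r * τ / P.B ^ (2 * P.k) + P.B ^ 3 * β₀ ^ 2 / P.B ^ P.k)) := by
  classical
  set U : Finset (Fin P.r) := Finset.univ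
  have hsub : P.T ⊆ ({x} ∪ U.biUnion (fun l0 => P.Yp x l0)) ∪
      (U ×ˢ U).biUnion (fun lq => P.Yb x lq.1 lq.2) := by
    intro y hy
    by_cases hxy : x = y
    · rw [Finset.mem_union, Finset.mem_union]; left; left
      rw [Finset.mem_singleton]; exact hxy.symm
    · obtain ⟨l0, hl0⟩ := Function.ne_iff.mp hxy
      by_cases hpar : ∀ l, x l0 * y l = x l * y l0
      · rw [Finset.mem_union, Finset.mem_union]; left; right
        rw [Finset.mem_biUnion]
        exact ⟨l0, Finset.mem_univ _, Par.mem_Yp.mpr ⟨hy, hl0, hpar⟩⟩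
      · rw [Finset.mem_union]; right
        push Not at hpar
        obtain ⟨l1, hl1⟩ := hpar
        haveI : Nonempty (Fin P.r) := ⟨l0⟩
        obtain ⟨q, hq⟩ := Finite.exists_max (fun l => |x l0 * y l - x l * y l0|)
        rw [Finset.mem_biUnion]
        refine ⟨(l0, q), Finset.mem_product.mpr ⟨Finset.mem_univ _, Finset.mem_univ _⟩,
          Par.mem_Yb.mpr ⟨hy, hl0, ?_, hq⟩⟩
        intro h0
        have h1 : |x l0 * y l1 - x l1 * y l0| ≤ |x l0 * y q - x q * y l0| := hq l1
        rw [h0, abs_zero] at h1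
        have := abs_nonpos_iff.mp h1
        exact hl1 (by linarith)
  have hnn : ∀ y, 0 ≤ P.ExS x y := fun y => P.ExS_nonneg x y
  have hU : (U.card : ℝ) = P.r := by simp [U]
  have hUnion : ∀ (A B : Finset (Fin P.r → ℤ)), ∑ y ∈ A ∪ B, P.ExS x y ≤
      ∑ y ∈ A, P.ExS x y + ∑ y ∈ B, P.ExS x y := by
    intro A B
    rw [← Finset.sum_union_inter]
    have : 0 ≤ ∑ y ∈ A ∩ B, P.ExS x y := Finset.sum_nonneg (fun y _ => hnn y)
    linarith
  have hbi : ∀ {ι : Type} [DecidableEq ι] (s : Finset ι) (t : ι → Finset (Fin P.r → ℤ)) (b : ℝ),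
      (∀ i ∈ s, ∑ y ∈ t i, P.ExS x y ≤ b) → ∑ y ∈ s.biUnion t, P.ExS x y ≤ s.card * b := by
    intro ι _ s t b h
    induction s using Finset.induction_on with
    | empty => simp
    | insert a s ha ih =>
      rw [Finset.biUnion_insert, Finset.card_insert_of_notMem ha]
      refine (hUnion _ _).trans ?_
      have h1 := h a (Finset.mem_insert_self a s)
      have h2 := ih (fun i hi => h i (Finset.mem_insert_of_mem hi))
      push_cast
      linarith
  calc ∑ y ∈ P.T, P.ExS x y ≤ ∑ y ∈ ({x} ∪ U.biUnion (fun l0 => P.Yp x l0)) ∪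
      (U ×ˢ U).biUnion (fun lq => P.Yb x lq.1 lq.2), P.ExS x y :=
        Finset.sum_le_sum_of_subset_of_nonneg hsub (fun y _ _ => hnn y)
    _ ≤ (∑ y ∈ {x}, P.ExS x y + ∑ y ∈ U.biUnion (fun l0 => P.Yp x l0), P.ExS x y) +
        ∑ y ∈ (U ×ˢ U).biUnion (fun lq => P.Yb x lq.1 lq.2), P.ExS x y := by
        refine (hUnion _ _).trans ?_
        have := hUnion {x} (U.biUnion (fun l0 => P.Yp x l0))
        linarith
    _ ≤ _ := by
        apply add_le_add
        · apply add_le_add
          · rw [Finset.sum_singleton]; exact Par.Ediag hP x hx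
          · have := hbi U (fun l0 => P.Yp x l0) _ (fun l0 _ => Par.E3 hP x hx l0)
            rwa [hU] at this
        · have := hbi (U ×ˢ U) (fun lq => P.Yb x lq.1 lq.2) (
            ((P.B : ℝ) ^ 2 * (P.C1 * P.G * (3 ^ P.r * P.C0 ^ (6 * P.k + P.r) *
            (P.η ^ 2 * P.B ^ P.r / P.B ^ (2 * P.k + 2) + P.B ^ 2 / P.B ^ (2 * P.k))))) +
            (2 * P.C1 * (4 ^ P.r * P.C0 ^ (2 * P.k + P.r))) *
            (2 * P.B ^ P.r * τ / P.B ^ (2 * P.k) + P.B ^ 3 * β₀ ^ 2 / P.B ^ P.k)) (by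
            intro lq _
            have e1 := Par.E1 hP x hx lq.1 lq.2
            have e2 := Par.E2 hP β₀ τ hβ hτ x hx lq.1 lq.2
            rw [← Finset.sum_filter_add_sum_filter_not (P.Yb x lq.1 lq.2) (fun y => gE P.k x y ≤ P.G)]
            apply add_le_add e1
            have : (P.Yb x lq.1 lq.2).filter (fun y => ¬ gE P.k x y ≤ P.G) =
              (P.Yb x lq.1 lq.2).filter (fun y => P.G < gE P.k x y) := by
              apply Finset.filter_congr; intro y _; exact not_le
            rw [this]; exact e2)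
          rw [Finset.card_product] at this
          push_cast at this
          rw [hU] at this
          rw [sq]
          exact this

end Pool.Agent.H888.DH
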