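import Pool.Agent.H888.DH.Var4

set_option linter.unusedVariables false
set_option linter.unusedSectionVars false
set_option linter.style.haveILetI false

namespace Pool.Agent.H888.DH

open Finset Complex

theorem Par.sum_Near (P : Par) :
    ∑ p ∈ NearSet P.k P.r P.n P.m P.J P.B P.B0 P.R, psiN P.m P.K P.L p.2.2.1 * psiN P.m P.K P.L p.2.2.2 ≤
      4 * ((R3set P.k P.r P.n P.m P.J P.B P.B0 P.R).card : ℝ) + ∑ x ∈ P.T, ∑ y ∈ P.T, P.ExS x y := by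
  classical
  set NS := NearSet P.k P.r P.n P.m P.J P.B P.B0 P.R with hNS
  set RS := R3set P.k P.r P.n P.m P.J P.B P.B0 P.R with hRS
  set F : ((Fin P.r → ℤ) × (Fin P.r → ℤ) × (ℤ × ℤ)) → ℝ :=
    fun p => psiN P.m P.K P.L p.2.2.1 * psiN P.m P.K P.L p.2.2.2 with hF
  have hF0 : ∀ p, 0 ≤ F p := fun p => mul_nonneg (psiN_nonneg _ _ _ _) (psiN_nonneg _ _ _ _)
  have hF4 : ∀ p, F p ≤ 4 := by
    intro p
    calc _ ≤ (2 : ℝ) * 2 := mul_le_mul (psiN_le_two _ _ _ _) (psiN_le_two _ _ _ _)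
          (psiN_nonneg _ _ _ _) (by norm_num)
      _ = 4 := by norm_num
  rw [← Finset.sum_filter_add_sum_filter_not NS (fun p => p ∈ RS)]
  apply add_le_add
  · calc ∑ p ∈ NS.filter (fun p => p ∈ RS), F p ≤ (NS.filter (fun p => p ∈ RS)).card • (4 : ℝ) :=
          Finset.sum_le_card_nsmul _ _ _ (fun p _ => hF4 p)
      _ = ((NS.filter (fun p => p ∈ RS)).card : ℝ) * 4 := by rw [nsmul_eq_mul]
      _ ≤ (RS.card : ℝ) * 4 := by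
          apply mul_le_mul_of_nonneg_right _ (by norm_num)
          have : NS.filter (fun p => p ∈ RS) ⊆ RS := fun p hp => (Finset.mem_filter.mp hp).2
          exact_mod_cast Finset.card_le_card this
      _ = _ := by ring
  · have hsub : NS.filter (fun p => ¬ p ∈ RS) ⊆ (P.T ×ˢ P.T ×ˢ (box2 P.m)).filter
        (fun p => p.2.2 ∈ P.Ex p.1 p.2.1) := by
      intro p hp
      rw [Finset.mem_filter] at hp
      have hp1 := hp.1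
      rw [hNS, NearSet, Finset.mem_filter] at hp1
      rw [Finset.mem_filter]
      refine ⟨hp1.1, ?_⟩
      rw [Par.Ex, Finset.mem_filter]
      rw [Finset.mem_product, Finset.mem_product] at hp1
      exact ⟨hp1.1.2.2, hp.1, hp.2⟩
    refine (Finset.sum_le_sum_of_subset_of_nonneg hsub (fun p _ _ => hF0 p)).trans ?_
    rw [Finset.sum_filter, Finset.sum_product]
    apply Finset.sum_le_sum
    intro x _
    rw [Finset.sum_product]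
    apply Finset.sum_le_sum
    intro y _
    unfold Par.ExS
    rw [← Finset.sum_filter]
    apply le_of_eq
    apply Finset.sum_congr _ (fun _ _ => rfl)
    ext z
    rw [Finset.mem_filter]
    constructor
    · intro h; exact h.2
    · intro h
      exact ⟨(P.mem_Ex h).2.2.1, h⟩

/-- The error quantity. -/
noncomputable def Par.Err (P : Par) (β₀ τ : ℝ) : ℝ :=
  54 * P.r ^ 2 * 2 ^ P.r * β₀ * (P.R : ℝ) ^ (P.r + P.k * P.r ^ 2 + 1) / P.B +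
  324 * ((P.n ^ P.k : ℕ) : ℝ) * P.C0 ^ P.k * P.cA / P.R +
  (1500 * ((P.n ^ P.k : ℕ) : ℝ) ^ 2 * P.C0 ^ P.k) *
    (P.r ^ 2 * P.G * 3 ^ P.r * P.C0 ^ (6 * P.k + P.r) * (P.η ^ 2 + 1 / P.B) +
      2 * P.r ^ 2 * 4 ^ P.r * P.C0 ^ (2 * P.k + P.r) * (2 * τ + β₀ ^ 2 / P.B) +
      2 * P.r * P.C0 * P.R / P.B)

theorem div_pow_le_aux {B : ℝ} (hB : 1 ≤ B) {a b c d : ℕ} (h : a + d ≤ c + b) :
    B ^ a / B ^ b ≤ B ^ c / B ^ d := by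
  have : 0 < B := by linarith
  rw [div_le_div_iff₀ (by positivity) (by positivity), ← pow_add, ← pow_add]
  exact pow_le_pow_right₀ hB h

set_option maxHeartbeats 4000000 in
theorem Par.sum_total {P : Par} (hP : P.Ok) (β₀ τ : ℝ)
    (hβ : ∀ q : ℕ, 1 ≤ q → q ≤ P.B ^ P.k → (beta P.k q : ℝ) ^ P.r ≤ β₀)
    (hτ : ∑ g ∈ Finset.Ioc P.G (P.B ^ P.k), (g : ℝ) * (beta P.k g) ^ P.r / (th P.k g) ^ P.r ≤ τ) :
    ∑ p ∈ NearSet P.k P.r P.n P.m P.J P.B P.B0 P.R, psiN P.m P.K P.L p.2.2.1 * psiN P.m P.K P.L p.2.2.2 ≤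
      (P.J : ℝ) ^ 2 * (P.B ^ (2 * P.r) / P.B ^ (2 * P.k)) * P.Err β₀ τ := by
  have hk := hP.hk
  have hr := hP.hr
  have hB : 1 ≤ P.B := hP.hB0.trans hP.hB0B
  have hBR : (1 : ℝ) ≤ P.B := by exact_mod_cast hB
  have hB' : (0 : ℝ) < P.B := by linarith
  have hJ : (0 : ℝ) < P.J := by exact_mod_cast hP.hJ
  have hA : (0 : ℝ) < P.A := by exact_mod_cast hP.hA1
  have hm : (0 : ℝ) < P.m := by exact_mod_cast hP.hm.pos
  have hR : (1 : ℝ) ≤ P.R := by exact_mod_cast hP.hR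
  have hR' : (0 : ℝ) < P.R := by linarith
  have hη := hP.hη
  have hβ0 : 1 ≤ β₀ := by
    have := hβ 1 le_rfl (Nat.one_le_pow _ _ hB)
    rw [beta_one] at this; simpa using this
  have hτ0 : 0 ≤ τ := le_trans (Finset.sum_nonneg (fun g _ => by unfold th; positivity)) hτ
  have hB2 : P.B ^ (2 * P.k) ≤ P.J := le_trans (Nat.le_mul_of_pos_left _ (pow_pos hP.hn _)) hP.hJbig
  have hJm : P.J < P.m := by
    have h1 : 8 * P.J ≤ P.m := by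
      calc 8 * P.J ≤ 8 * P.A * P.J := by
            apply Nat.mul_le_mul_right; have := hP.hA1; omega
        _ ≤ P.m := hP.h8
    have := hP.hJ
    omega
  set X : ℝ := (P.B : ℝ) ^ (2 * P.r) / P.B ^ (2 * P.k) with hX
  have hX0 : 0 < X := by positivity
  -- R3
  have hA2 : P.A ≤ P.B ^ (2 * P.k) := by
    calc P.A ≤ P.B * P.B ^ P.k := hP.hA
      _ = P.B ^ (P.k + 1) := by rw [pow_succ]; ring
      _ ≤ P.B ^ (2 * P.k) := Nat.pow_le_pow_right hB (by omega)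
  have hR3 := card_R3set_le P.k P.r P.n P.m P.J P.A P.B P.B0 P.R (by omega) hP.hm hP.hJ hP.hA1 hP.hB0 hB
    hP.hR hP.hnB hP.h8 hP.h4 hA2 hP.hA hP.hAR hB2 (lt_of_le_of_lt hB2 hJm) β₀ hβ
  have hJm8 : (P.J : ℝ) / P.m ≤ P.R / (8 * (P.B * (P.B : ℝ) ^ P.k)) := by
    rw [div_le_div_iff₀ hm (by positivity)]
    have e1 : 8 * (P.A : ℝ) * P.J ≤ P.m := by exact_mod_cast hP.h8
    have e2 : (P.B : ℝ) * (P.B : ℝ) ^ P.k ≤ P.A * P.R := by exact_mod_cast hP.hAR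
    calc (P.J : ℝ) * (8 * (P.B * (P.B : ℝ) ^ P.k)) ≤ P.J * (8 * (P.A * P.R)) := by gcongr
      _ = P.R * (8 * P.A * P.J) := by ring
      _ ≤ P.R * P.m := by gcongr
  have hpart1 : 4 * ((R3set P.k P.r P.n P.m P.J P.B P.B0 P.R).card : ℝ) ≤ (P.J : ℝ) ^ 2 * X *
      (54 * P.r ^ 2 * 2 ^ P.r * β₀ * (P.R : ℝ) ^ (P.r + P.k * P.r ^ 2 + 1) / P.B) := by
    calc 4 * ((R3set P.k P.r P.n P.m P.J P.B P.B0 P.R).card : ℝ)
        ≤ 4 * (2 * P.r ^ 2 * (((P.B : ℝ) ^ P.r * (P.B * P.B) * (54 * P.J ^ 3 / P.m)) *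
        (β₀ * (2 ^ P.r * ((P.R : ℝ) ^ P.r * (P.R : ℝ) ^ (P.k * P.r ^ 2) * P.B))))) := by gcongr
      _ = (8 * 54 * P.r ^ 2 * 2 ^ P.r * β₀ * P.J ^ 2 * ((P.R : ℝ) ^ P.r * (P.R : ℝ) ^ (P.k * P.r ^ 2)) *
            ((P.B : ℝ) ^ P.r * (P.B * P.B * P.B))) * (P.J / P.m) := by ring
      _ ≤ (8 * 54 * P.r ^ 2 * 2 ^ P.r * β₀ * P.J ^ 2 * ((P.R : ℝ) ^ P.r * (P.R : ℝ) ^ (P.k * P.r ^ 2)) *
            ((P.B : ℝ) ^ P.r * (P.B * P.B * P.B))) * (P.R / (8 * (P.B * (P.B : ℝ) ^ P.k))) := by gcongr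
      _ = (54 * P.r ^ 2 * 2 ^ P.r * β₀ * P.J ^ 2 * (P.R : ℝ) ^ (P.r + P.k * P.r ^ 2 + 1)) *
            ((P.B : ℝ) ^ (P.r + 3) / (P.B : ℝ) ^ (P.k + 1)) := by
          rw [pow_add (P.R : ℝ), pow_add (P.R : ℝ), pow_add (P.B : ℝ), pow_add (P.B : ℝ)]
          field_simp
          try ring
      _ ≤ (54 * P.r ^ 2 * 2 ^ P.r * β₀ * P.J ^ 2 * (P.R : ℝ) ^ (P.r + P.k * P.r ^ 2 + 1)) *
            ((P.B : ℝ) ^ (2 * P.r) / (P.B : ℝ) ^ (2 * P.k + 1)) := by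
          apply mul_le_mul_of_nonneg_left _ (by positivity)
          apply div_pow_le_aux hBR
          omega
      _ = _ := by
          rw [hX, pow_succ (P.B : ℝ) (2 * P.k)]
          field_simp
  -- exact part
  have hT : ((P.T).card : ℝ) ≤ (P.B : ℝ) ^ P.r := by
    exact_mod_cast card_Tset_le hP.hB0
  have hcA := hP.hcA
  have hcA0 : 0 ≤ P.cA := by
    by_contra hcon
    push Not at hcon
    have : P.cA * (P.B * (P.B : ℝ) ^ P.k) < 0 := mul_neg_of_neg_of_pos hcon (by positivity)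
    have : (0 : ℝ) < P.A * P.R := by positivity
    linarith
  set E3' : ℝ := P.r * ((2 * P.C0 * P.R) * P.C1)
  set Ex : ℝ := 36 * ((P.n ^ P.k : ℕ) : ℝ) * P.C0 ^ P.k * P.m * P.J / P.B ^ P.k +
      P.r * ((2 * P.C0 * P.R) * P.C1) + P.r ^ 2 * (
        ((P.B : ℝ) ^ 2 * (P.C1 * P.G * (3 ^ P.r * P.C0 ^ (6 * P.k + P.r) *
        (P.η ^ 2 * P.B ^ P.r / P.B ^ (2 * P.k + 2) + P.B ^ 2 / P.B ^ (2 * P.k))))) +
        (2 * P.C1 * (4 ^ P.r * P.C0 ^ (2 * P.k + P.r))) *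
        (2 * P.B ^ P.r * τ / P.B ^ (2 * P.k) + P.B ^ 3 * β₀ ^ 2 / P.B ^ P.k)) with hEx
  have hC1 := P.C1_nonneg
  have hEx0 : 0 ≤ Ex := by positivity
  have hpart2 : ∑ x ∈ P.T, ∑ y ∈ P.T, P.ExS x y ≤ (P.B : ℝ) ^ P.r * Ex := by
    calc _ ≤ ∑ x ∈ P.T, Ex := Finset.sum_le_sum (fun x hx => Par.sum_Ex hP β₀ τ hβ hτ x hx)
      _ = (P.T).card * Ex := by rw [Finset.sum_const, nsmul_eq_mul]
      _ ≤ _ := mul_le_mul_of_nonneg_right hT hEx0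
  refine (P.sum_Near).trans ?_
  refine (add_le_add hpart1 hpart2).trans ?_
  unfold Par.Err
  -- pieces of B^r * Ex
  have hm9 : (P.m : ℝ) ≤ 9 * P.A * P.J := by exact_mod_cast hP.h9
  have pA : (P.B : ℝ) ^ P.r * (36 * ((P.n ^ P.k : ℕ) : ℝ) * P.C0 ^ P.k * P.m * P.J / P.B ^ P.k) ≤
      (P.J : ℝ) ^ 2 * X * (324 * ((P.n ^ P.k : ℕ) : ℝ) * P.C0 ^ P.k * P.cA / P.R) := by
    have hAle : (P.A : ℝ) ≤ P.cA * (P.B * (P.B : ℝ) ^ P.k) / P.R := by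
      rw [le_div_iff₀ hR']; exact hcA
    calc (P.B : ℝ) ^ P.r * (36 * ((P.n ^ P.k : ℕ) : ℝ) * P.C0 ^ P.k * P.m * P.J / P.B ^ P.k)
        ≤ (P.B : ℝ) ^ P.r * (36 * ((P.n ^ P.k : ℕ) : ℝ) * P.C0 ^ P.k * (9 * P.A * P.J) * P.J / P.B ^ P.k) := by
          gcongr
      _ ≤ (P.B : ℝ) ^ P.r * (36 * ((P.n ^ P.k : ℕ) : ℝ) * P.C0 ^ P.k *
            (9 * (P.cA * (P.B * (P.B : ℝ) ^ P.k) / P.R) * P.J) * P.J / P.B ^ P.k) := by
          gcongr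
      _ = ((P.J : ℝ) ^ 2 * (324 * ((P.n ^ P.k : ℕ) : ℝ) * P.C0 ^ P.k * P.cA / P.R)) *
            ((P.B : ℝ) ^ (P.r + 1) / (P.B : ℝ) ^ 0) := by
          rw [pow_succ, pow_zero]
          field_simp
          ring
      _ ≤ ((P.J : ℝ) ^ 2 * (324 * ((P.n ^ P.k : ℕ) : ℝ) * P.C0 ^ P.k * P.cA / P.R)) *
            ((P.B : ℝ) ^ (2 * P.r) / (P.B : ℝ) ^ (2 * P.k)) := by
          apply mul_le_mul_of_nonneg_left _ (by positivity)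
          apply div_pow_le_aux hBR
          omega
      _ = _ := by rw [hX]; ring
  have pB : (P.B : ℝ) ^ P.r * (P.r * ((2 * P.C0 * P.R) * P.C1)) ≤
      (P.J : ℝ) ^ 2 * X * ((1500 * ((P.n ^ P.k : ℕ) : ℝ) ^ 2 * P.C0 ^ P.k) * (2 * P.r * P.C0 * P.R / P.B)) := by
    calc (P.B : ℝ) ^ P.r * (P.r * ((2 * P.C0 * P.R) * P.C1))
        = ((P.J : ℝ) ^ 2 * ((1500 * ((P.n ^ P.k : ℕ) : ℝ) ^ 2 * P.C0 ^ P.k) * (2 * P.r * P.C0 * P.R))) *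
            ((P.B : ℝ) ^ P.r / (P.B : ℝ) ^ 0) := by
          unfold Par.C1; rw [pow_zero]; ring
      _ ≤ ((P.J : ℝ) ^ 2 * ((1500 * ((P.n ^ P.k : ℕ) : ℝ) ^ 2 * P.C0 ^ P.k) * (2 * P.r * P.C0 * P.R))) *
            ((P.B : ℝ) ^ (2 * P.r) / (P.B : ℝ) ^ (2 * P.k + 1)) := by
          apply mul_le_mul_of_nonneg_left _ (by positivity)
          apply div_pow_le_aux hBR
          omega
      _ = _ := by
          rw [hX, pow_succ (P.B : ℝ) (2 * P.k)]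
          field_simp
  have pC : (P.B : ℝ) ^ P.r * (P.r ^ 2 * ((P.B : ℝ) ^ 2 * (P.C1 * P.G * (3 ^ P.r * P.C0 ^ (6 * P.k + P.r) *
        (P.η ^ 2 * P.B ^ P.r / P.B ^ (2 * P.k + 2) + P.B ^ 2 / P.B ^ (2 * P.k)))))) ≤
      (P.J : ℝ) ^ 2 * X * ((1500 * ((P.n ^ P.k : ℕ) : ℝ) ^ 2 * P.C0 ^ P.k) *
        (P.r ^ 2 * P.G * 3 ^ P.r * P.C0 ^ (6 * P.k + P.r) * (P.η ^ 2 + 1 / P.B))) := by
    calc (P.B : ℝ) ^ P.r * (P.r ^ 2 * ((P.B : ℝ) ^ 2 * (P.C1 * P.G * (3 ^ P.r * P.C0 ^ (6 * P.k + P.r) *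
        (P.η ^ 2 * P.B ^ P.r / P.B ^ (2 * P.k + 2) + P.B ^ 2 / P.B ^ (2 * P.k))))))
        = (P.J : ℝ) ^ 2 * ((1500 * ((P.n ^ P.k : ℕ) : ℝ) ^ 2 * P.C0 ^ P.k) *
            (P.r ^ 2 * P.G * 3 ^ P.r * P.C0 ^ (6 * P.k + P.r))) *
            (P.η ^ 2 * (P.B ^ (2 * P.r) / P.B ^ (2 * P.k)) + (P.B : ℝ) ^ (P.r + 4) / P.B ^ (2 * P.k)) := by
          unfold Par.C1
          rw [pow_add (P.B : ℝ) (2 * P.k) 2, pow_add (P.B : ℝ) P.r 4, two_mul P.r, pow_add (P.B : ℝ) P.r P.r]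
          field_simp
      _ ≤ (P.J : ℝ) ^ 2 * ((1500 * ((P.n ^ P.k : ℕ) : ℝ) ^ 2 * P.C0 ^ P.k) *
            (P.r ^ 2 * P.G * 3 ^ P.r * P.C0 ^ (6 * P.k + P.r))) *
            (P.η ^ 2 * (P.B ^ (2 * P.r) / P.B ^ (2 * P.k)) + (P.B : ℝ) ^ (2 * P.r) / P.B ^ (2 * P.k + 1)) := by
          apply mul_le_mul_of_nonneg_left _ (by positivity)
          have := div_pow_le_aux hBR (a := P.r + 4) (b := 2 * P.k) (c := 2 * P.r) (d := 2 * P.k + 1) (by omega)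
          linarith
      _ = _ := by
          rw [hX, pow_succ (P.B : ℝ) (2 * P.k)]
          field_simp
  have pD : (P.B : ℝ) ^ P.r * (P.r ^ 2 * ((2 * P.C1 * (4 ^ P.r * P.C0 ^ (2 * P.k + P.r))) *
        (2 * P.B ^ P.r * τ / P.B ^ (2 * P.k) + P.B ^ 3 * β₀ ^ 2 / P.B ^ P.k))) ≤
      (P.J : ℝ) ^ 2 * X * ((1500 * ((P.n ^ P.k : ℕ) : ℝ) ^ 2 * P.C0 ^ P.k) *
        (2 * P.r ^ 2 * 4 ^ P.r * P.C0 ^ (2 * P.k + P.r) * (2 * τ + β₀ ^ 2 / P.B))) := by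
    calc (P.B : ℝ) ^ P.r * (P.r ^ 2 * ((2 * P.C1 * (4 ^ P.r * P.C0 ^ (2 * P.k + P.r))) *
        (2 * P.B ^ P.r * τ / P.B ^ (2 * P.k) + P.B ^ 3 * β₀ ^ 2 / P.B ^ P.k)))
        = (P.J : ℝ) ^ 2 * ((1500 * ((P.n ^ P.k : ℕ) : ℝ) ^ 2 * P.C0 ^ P.k) *
            (2 * P.r ^ 2 * 4 ^ P.r * P.C0 ^ (2 * P.k + P.r))) *
            (2 * τ * (P.B ^ (2 * P.r) / P.B ^ (2 * P.k)) + β₀ ^ 2 * ((P.B : ℝ) ^ (P.r + 3) / P.B ^ P.k)) := by
          unfold Par.C1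
          rw [pow_add (P.B : ℝ) P.r 3, two_mul P.r, pow_add (P.B : ℝ) P.r P.r]
          field_simp
      _ ≤ (P.J : ℝ) ^ 2 * ((1500 * ((P.n ^ P.k : ℕ) : ℝ) ^ 2 * P.C0 ^ P.k) *
            (2 * P.r ^ 2 * 4 ^ P.r * P.C0 ^ (2 * P.k + P.r))) *
            (2 * τ * (P.B ^ (2 * P.r) / P.B ^ (2 * P.k)) + β₀ ^ 2 * ((P.B : ℝ) ^ (2 * P.r) / P.B ^ (2 * P.k + 1))) := by
          apply mul_le_mul_of_nonneg_left _ (by positivity)
          have := div_pow_le_aux hBR (a := P.r + 3) (b := P.k) (c := 2 * P.r) (d := 2 * P.k + 1) (by omega)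
          have h2 : 0 ≤ β₀ ^ 2 := by positivity
          have := mul_le_mul_of_nonneg_left this h2
          linarith
      _ = _ := by
          rw [hX, pow_succ (P.B : ℝ) (2 * P.k)]
          field_simp
  rw [hEx]
  have hdist : (P.B : ℝ) ^ P.r * (36 * ((P.n ^ P.k : ℕ) : ℝ) * P.C0 ^ P.k * P.m * P.J / P.B ^ P.k +
      P.r * ((2 * P.C0 * P.R) * P.C1) + P.r ^ 2 * (
        ((P.B : ℝ) ^ 2 * (P.C1 * P.G * (3 ^ P.r * P.C0 ^ (6 * P.k + P.r) *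
        (P.η ^ 2 * P.B ^ P.r / P.B ^ (2 * P.k + 2) + P.B ^ 2 / P.B ^ (2 * P.k))))) +
        (2 * P.C1 * (4 ^ P.r * P.C0 ^ (2 * P.k + P.r))) *
        (2 * P.B ^ P.r * τ / P.B ^ (2 * P.k) + P.B ^ 3 * β₀ ^ 2 / P.B ^ P.k))) =
      (P.B : ℝ) ^ P.r * (36 * ((P.n ^ P.k : ℕ) : ℝ) * P.C0 ^ P.k * P.m * P.J / P.B ^ P.k) +
      (P.B : ℝ) ^ P.r * (P.r * ((2 * P.C0 * P.R) * P.C1)) +
      (P.B : ℝ) ^ P.r * (P.r ^ 2 * ((P.B : ℝ) ^ 2 * (P.C1 * P.G * (3 ^ P.r * P.C0 ^ (6 * P.k + P.r) *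
        (P.η ^ 2 * P.B ^ P.r / P.B ^ (2 * P.k + 2) + P.B ^ 2 / P.B ^ (2 * P.k)))))) +
      (P.B : ℝ) ^ P.r * (P.r ^ 2 * ((2 * P.C1 * (4 ^ P.r * P.C0 ^ (2 * P.k + P.r))) *
        (2 * P.B ^ P.r * τ / P.B ^ (2 * P.k) + P.B ^ 3 * β₀ ^ 2 / P.B ^ P.k))) := by ring
  rw [hdist]
  have htot := add_le_add (add_le_add (add_le_add pA pB) pC) pD
  refine (add_le_add_right htot _).trans (le_of_eq ?_)
  ring

/-- **Second moment bound.** -/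
theorem Par.second_moment {P : Par} (hP : P.Ok) (β₀ τ : ℝ)
    (hβ : ∀ q : ℕ, 1 ≤ q → q ≤ P.B ^ P.k → (beta P.k q : ℝ) ^ P.r ≤ β₀)
    (hτ : ∑ g ∈ Finset.Ioc P.G (P.B ^ P.k), (g : ℝ) * (beta P.k g) ^ P.r / (th P.k g) ^ P.r ≤ τ)
    (hmbig : ∀ a ∈ boxA (P.r + 1) P.A, ∀ x ∈ P.T, |dot a (VV P.n P.k x)| + P.K * P.L < P.m) :
    ∑ a ∈ boxA (P.r + 1) P.A, (DD P.k P.r P.n P.K P.L P.B P.B0 P.R a) ^ 2 ≤
      18 ^ (P.r + 1) * (P.A : ℝ) ^ (P.r + 1) * (P.B ^ P.r / (P.A * P.B ^ P.k)) ^ 2 * P.Err β₀ τ := by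
  have hk := hP.hk
  have hr := hP.hr
  have hB : 1 ≤ P.B := hP.hB0.trans hP.hB0B
  have hBR : (1 : ℝ) ≤ P.B := by exact_mod_cast hB
  have hB' : (0 : ℝ) < P.B := by linarith
  have hJ : (0 : ℝ) < P.J := by exact_mod_cast hP.hJ
  have hA : (0 : ℝ) < P.A := by exact_mod_cast hP.hA1
  have hm : (0 : ℝ) < P.m := by exact_mod_cast hP.hm.pos
  have h8J : 8 * P.J ≤ P.m := by
    calc 8 * P.J ≤ 8 * P.A * P.J := by
          apply Nat.mul_le_mul_right; have := hP.hA1; omega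
      _ ≤ P.m := hP.h8
  have h2A : 2 * P.A < P.m := by
    have h1 := hP.h8
    have h2 := hP.hJ
    have h3 := hP.hA1
    have : 8 * P.A ≤ 8 * P.A * P.J := Nat.le_mul_of_pos_right _ h2
    omega
  have h1 := second_moment_DD P.k P.r P.n P.K P.L P.m P.J P.A P.B P.B0 P.R hP.hm.pos hP.hJ
    (by have := hP.hJ; omega) hP.h8 h2A hmbig
  have h2 := P.sum_total hP β₀ τ hβ hτ
  have hErr : 0 ≤ P.Err β₀ τ := by
    -- from h2 with nonneg left side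
    have h3 : 0 ≤ ∑ p ∈ NearSet P.k P.r P.n P.m P.J P.B P.B0 P.R,
        psiN P.m P.K P.L p.2.2.1 * psiN P.m P.K P.L p.2.2.2 :=
      Finset.sum_nonneg (fun p _ => mul_nonneg (psiN_nonneg _ _ _ _) (psiN_nonneg _ _ _ _))
    have h4 : 0 < (P.J : ℝ) ^ 2 * (P.B ^ (2 * P.r) / P.B ^ (2 * P.k)) := by positivity
    exact nonneg_of_mul_nonneg_right (h3.trans h2) h4
  have hm9 : (P.m : ℝ) ≤ 9 * P.A * P.J := by exact_mod_cast hP.h9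
  have hmJ : (P.m : ℝ) / P.J ≤ 9 * P.A := by rw [div_le_iff₀ hJ]; exact hm9
  calc _ ≤ _ := h1
    _ ≤ (2 : ℝ) ^ (P.r + 1) * (P.m / P.J : ℝ) ^ (P.r + 1) * (1 / (P.m : ℝ) ^ 2) *
        ((P.J : ℝ) ^ 2 * (P.B ^ (2 * P.r) / P.B ^ (2 * P.k)) * P.Err β₀ τ) := by gcongr
    _ = (2 : ℝ) ^ (P.r + 1) * (P.m / P.J : ℝ) ^ (P.r - 1) *
        ((P.B ^ (2 * P.r) / P.B ^ (2 * P.k)) * P.Err β₀ τ) := by
        have : (P.m / P.J : ℝ) ^ (P.r + 1) = (P.m / P.J : ℝ) ^ (P.r - 1) * (P.m / P.J) ^ 2 := by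
          rw [← pow_add]; congr 1; omega
        rw [this]
        field_simp
    _ ≤ (2 : ℝ) ^ (P.r + 1) * (9 * P.A : ℝ) ^ (P.r - 1) *
        ((P.B ^ (2 * P.r) / P.B ^ (2 * P.k)) * P.Err β₀ τ) := by gcongr
    _ ≤ 18 ^ (P.r + 1) * (P.A : ℝ) ^ (P.r - 1) *
        ((P.B ^ (2 * P.r) / P.B ^ (2 * P.k)) * P.Err β₀ τ) := by
        apply mul_le_mul_of_nonneg_right _ (by positivity)
        rw [mul_pow, ← mul_assoc]
        apply mul_le_mul_of_nonneg_right _ (by positivity)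
        calc (2 : ℝ) ^ (P.r + 1) * 9 ^ (P.r - 1) ≤ 2 ^ (P.r + 1) * 9 ^ (P.r + 1) := by
              apply mul_le_mul_of_nonneg_left _ (by positivity)
              exact pow_le_pow_right₀ (by norm_num) (by omega)
          _ = 18 ^ (P.r + 1) := by rw [← mul_pow]; norm_num
    _ = _ := by
        have e1 : (P.A : ℝ) ^ (P.r + 1) = (P.A : ℝ) ^ (P.r - 1) * (P.A : ℝ) ^ 2 := by
          rw [← pow_add]; congr 1; omega
        have e2 : (P.B : ℝ) ^ (2 * P.r) = ((P.B : ℝ) ^ P.r) ^ 2 := by rw [← pow_mul]; congr 1; ring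
        have e3 : (P.B : ℝ) ^ (2 * P.k) = ((P.B : ℝ) ^ P.k) ^ 2 := by rw [← pow_mul]; congr 1; ring
        rw [e1, e2, e3]
        field_simp

end Pool.Agent.H888.DH
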